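import Pool.Agent.MP_06c78e_co.Mg.H40_LayT
import Pool.Agent.Lib.Cx.Graph
import Pool.Agent.MP_06c78e_co.H40.PDefs

-- part MP_06c78e_co.H40.Sat
section

/-! The grid formula of a 3-CNF formula. -/

namespace Pool.Agent.MP_06c78e_co.H40

open Pool.Agent.Lib.Cx

/-- The literal number `c` (variable `c / 2`, positive iff `c` is even) occurs in clause `j / 2`. -/
def tap (φ : List (Clause3 ℕ)) (j c : ℕ) : Prop :=
  ∃ cl ∈ (φ[j / 2]?).toList, ∃ l ∈ [cl.1, cl.2.1, cl.2.2], l.1 = c / 2 ∧ (l.2 = true ↔ c % 2 = 0)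

/-- The slots `S` and `S + 1` of row `r` carry the same value. -/
def cpS (r S : ℕ) : Prop :=
  if r % 3 = 0 then S % 8 < 7 ∨ (r = 0 ∧ S / 8 % 2 = 0)
  else if r % 3 = 1 then S % 8 = 1 ∨ S % 8 = 3 ∨ S % 8 = 4 ∨ S % 8 = 5 ∨ S % 8 = 7
  else S % 8 ≠ 2 ∧ S % 8 ≠ 7

/-- The literal (slot `S` of row `j + b` has value `β = 1`, or `β = 0`) occurs in the clause
`(j, S / 2)`. -/
def opt (φ : List (Clause3 ℕ)) (j b S β : ℕ) : Prop :=
  if j % 3 = 0 then
    (if b = 0 then (S % 8 = 2 ∨ S % 8 = 4) ∧ β ≠ S / 8 % 2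
    else (S % 8 = 0 ∧ β = 1 ∧ S / 8 ≠ 0) ∨ (S % 8 = 1 ∧ (β = 0 ∨ tap φ (j / 3) (S / 8))) ∨
      ((S % 8 = 2 ∨ S % 8 = 4 ∨ S % 8 = 6) ∧ β = 0) ∨
      (S % 8 = 7 ∧ β = 0 ∧ S / 8 ≠ 6 * φ.length + 1))
  else if j % 3 = 1 then
    (if b = 0 then (S % 8 = 0 ∧ β = 1 ∧ S / 8 ≠ 0) ∨ ((S % 8 = 2 ∨ S % 8 = 3) ∧ β = 1) ∨
      S % 8 = 4 ∨ (S % 8 = 7 ∧ β = 0 ∧ S / 8 ≠ 6 * φ.length + 1)
    else ((S % 8 = 0 ∨ S % 8 = 6) ∧ β = 0) ∨ ((S % 8 = 2 ∨ S % 8 = 3) ∧ β = 1))
  else
    (if b = 0 then ((S % 8 = 0 ∨ S % 8 = 4) ∧ β = 0) ∨ S % 8 = 2 ∨ S % 8 = 6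
    else (S % 8 = 0 ∨ S % 8 = 4) ∧ β = S / 8 % 2)

/-- The grid formula: `6 m + 1` rows, `6 m + 2` groups of eight slots of two columns. -/
def gc (φ : List (Clause3 ℕ)) : Gd where
  R := 6 * φ.length + 1
  W := 16 * (6 * φ.length + 2)
  cpP r X := X % 2 = 0 ∨ cpS r (X / 2)
  atP j b X := opt φ j b (X / 2) ((j + X) % 2)

theorem gc_ok (φ : List (Clause3 ℕ)) : (gc φ).Ok := by
  simp only [Gd.Ok, gc]; omega

theorem gc_odd (φ : List (Clause3 ℕ)) : (gc φ).R % 2 = 1 := by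
  simp only [gc]; omega

/-- The formula on slots. -/
def SlotSat (φ : List (Clause3 ℕ)) : Prop := ∃ v : ℕ → ℕ → Bool,
  (∀ r S, r < 6 * φ.length + 1 → S + 1 < 8 * (6 * φ.length + 2) → cpS r S → v r (S + 1) = v r S) ∧
  ∀ j q, j < 6 * φ.length → q < 4 * (6 * φ.length + 2) →
    ∃ b S β, b ≤ 1 ∧ S / 2 = q ∧ β ≤ 1 ∧ opt φ j b S β ∧ v (j + b) S = decide (β = 1)

/-- Plan: `v r S = val r (2 * S)`, and conversely `val r X = xor (v r (X / 2)) (X odd)`; the literal
`(S, β)` of strip `j` is the column `X = 2 * S + (j + β) % 2`. -/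
theorem gc_sat_iff_slot (φ : List (Clause3 ℕ)) : (gc φ).Sat ↔ SlotSat φ := by
  constructor
  · rintro ⟨val, h1, h2⟩
    simp only [gc] at h1 h2
    refine ⟨fun r S => val r (2 * S), fun r S hr hS hc => ?_, fun j q hj hq => ?_⟩
    · have a1 := h1 r (2 * S) hr (by omega) (Or.inl (by omega))
      have a2 := h1 r (2 * S + 1) hr (by omega)
        (Or.inr (by rwa [show (2 * S + 1) / 2 = S by omega]))
      show val r (2 * (S + 1)) = val r (2 * S)
      rw [show 2 * (S + 1) = 2 * S + 1 + 1 by ring]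
      revert a1 a2
      cases val r (2 * S) <;> cases val r (2 * S + 1) <;> cases val r (2 * S + 1 + 1) <;> simp
    · obtain ⟨b, X, hb, hX, ho, hv⟩ := h2 j q (by omega) (by omega)
      refine ⟨b, X / 2, (j + X) % 2, hb, by omega, by omega, ho, ?_⟩
      show val (j + b) (2 * (X / 2)) = _
      rcases Nat.mod_two_eq_zero_or_one X with hx | hx
      · rw [show 2 * (X / 2) = X by omega, hv, show (j + X) % 2 = j % 2 by omega]
      · have a1 := h1 (j + b) (2 * (X / 2)) (by omega) (by omega) (Or.inl (by omega))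
        rw [show 2 * (X / 2) + 1 = X by omega, hv] at a1
        revert a1
        rcases Nat.mod_two_eq_zero_or_one j with hj2 | hj2
        · rw [show (j + X) % 2 = 1 by omega, hj2]
          cases val (j + b) (2 * (X / 2)) <;> simp
        · rw [show (j + X) % 2 = 0 by omega, hj2]
          cases val (j + b) (2 * (X / 2)) <;> simp
  · rintro ⟨v, h1, h2⟩
    refine ⟨fun r X => xor (v r (X / 2)) (decide (X % 2 = 1)), fun r X hr hX hc => ?_,
      fun j q hj hq => ?_⟩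
    · simp only [gc] at hr hX hc
      rcases Nat.mod_two_eq_zero_or_one X with hx | hx
      · simp only [show (X + 1) / 2 = X / 2 by omega, show (X + 1) % 2 = 1 by omega, hx]
        cases v r (X / 2) <;> simp
      · have a1 := h1 r (X / 2) hr (by omega) (hc.resolve_left (by omega))
        simp only [show (X + 1) / 2 = X / 2 + 1 by omega, show (X + 1) % 2 = 0 by omega, hx, a1]
        cases v r (X / 2) <;> simp
    · simp only [gc] at hj hq
      obtain ⟨b, S, β, hb, hS, hβ, ho, hv⟩ := h2 j q (by omega) (by omega)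
      have e1 : (2 * S + (j + β) % 2) / 2 = S := by omega
      have e2 : (j + (2 * S + (j + β) % 2)) % 2 = β := by omega
      have e3 : (2 * S + (j + β) % 2) % 2 = (j + β) % 2 := by omega
      refine ⟨b, 2 * S + (j + β) % 2, hb, by omega, ?_, ?_⟩
      · simp only [gc, e1, e2]; exact ho
      · simp only [e1, e3, hv]
        rcases Nat.mod_two_eq_zero_or_one j with hj2 | hj2 <;>
          rcases (show β = 0 ∨ β = 1 by omega) with rfl | rfl
        · simp [hj2]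
        · simp [hj2, show (j + 1) % 2 = 1 by omega]
        · simp [hj2]
        · simp [hj2, show (j + 1) % 2 = 0 by omega]

/-- The relation `opt` in the coordinates of a patch. -/
def optP (φ : List (Clause3 ℕ)) (J c t b s β : ℕ) : Prop :=
  if t = 0 then
    (if b = 0 then (s = 2 ∨ s = 4) ∧ β ≠ c % 2
    else (s = 0 ∧ β = 1 ∧ c ≠ 0) ∨ (s = 1 ∧ (β = 0 ∨ tap φ J c)) ∨
      ((s = 2 ∨ s = 4 ∨ s = 6) ∧ β = 0) ∨ (s = 7 ∧ β = 0 ∧ c ≠ 6 * φ.length + 1))
  else if t = 1 then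
    (if b = 0 then (s = 0 ∧ β = 1 ∧ c ≠ 0) ∨ ((s = 2 ∨ s = 3) ∧ β = 1) ∨
      s = 4 ∨ (s = 7 ∧ β = 0 ∧ c ≠ 6 * φ.length + 1)
    else ((s = 0 ∨ s = 6) ∧ β = 0) ∨ ((s = 2 ∨ s = 3) ∧ β = 1))
  else
    (if b = 0 then ((s = 0 ∨ s = 4) ∧ β = 0) ∨ s = 2 ∨ s = 6
    else (s = 0 ∨ s = 4) ∧ β = c % 2)

theorem opt_iff (φ : List (Clause3 ℕ)) (J c t b s β : ℕ) (ht : t < 3) (hs : s < 8) :
    opt φ (3 * J + t) b (8 * c + s) β ↔ optP φ J c t b s β := by
  unfold opt optP
  rw [show (3 * J + t) % 3 = t by omega, show (3 * J + t) / 3 = J by omega,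
    show (8 * c + s) % 8 = s by omega, show (8 * c + s) / 8 = c by omega]

theorem ex_opt (φ : List (Clause3 ℕ)) (j q : ℕ) :
    ∃ b S β, b ≤ 1 ∧ S / 2 = q ∧ β ≤ 1 ∧ opt φ j b S β := by
  obtain ⟨J, t, ht, rfl⟩ : ∃ J t, t < 3 ∧ j = 3 * J + t :=
    ⟨j / 3, j % 3, by omega, by omega⟩
  obtain ⟨c, k, hk, rfl⟩ : ∃ c k, k < 4 ∧ q = 4 * c + k :=
    ⟨q / 4, q % 4, by omega, by omega⟩
  have key : ∀ b s β, b ≤ 1 → s / 2 = k → β ≤ 1 → optP φ J c t b s β →
      ∃ b S β, b ≤ 1 ∧ S / 2 = 4 * c + k ∧ β ≤ 1 ∧ opt φ (3 * J + t) b S β :=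
    fun b s β hb hs hβ ho =>
      ⟨b, 8 * c + s, β, hb, by omega, hβ, (opt_iff φ J c t b s β ht (by omega)).2 ho⟩
  interval_cases t <;> interval_cases k
  · exact key 1 1 0 (by simp) (by simp) (by simp) (by simp [optP])
  · exact key 1 2 0 (by simp) (by simp) (by simp) (by simp [optP])
  · exact key 1 4 0 (by simp) (by simp) (by simp) (by simp [optP])
  · exact key 1 6 0 (by simp) (by simp) (by simp) (by simp [optP])
  · exact key 1 0 0 (by simp) (by simp) (by simp) (by simp [optP])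
  · exact key 0 2 1 (by simp) (by simp) (by simp) (by simp [optP])
  · exact key 0 4 0 (by simp) (by simp) (by simp) (by simp [optP])
  · exact key 1 6 0 (by simp) (by simp) (by simp) (by simp [optP])
  · exact key 0 0 0 (by simp) (by simp) (by simp) (by simp [optP])
  · exact key 0 2 0 (by simp) (by simp) (by simp) (by simp [optP])
  · exact key 0 4 0 (by simp) (by simp) (by simp) (by simp [optP])
  · exact key 0 6 0 (by simp) (by simp) (by simp) (by simp [optP])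

/-- Plan: in every clause `(j,q)` take `b = 1`, slot `1, 2, 4, 6` (`j % 3 = 0`); `(b,slot)` =
`(1,0), (0,2), (0,4), (1,6)` (`j % 3 = 1`); `b = 0`, slot `0, 2, 4, 6` (`j % 3 = 2`). -/
theorem gc_att (φ : List (Clause3 ℕ)) : (gc φ).Att := by
  intro j q _ _
  obtain ⟨b, S, β, hb, hS, hβ, ho⟩ := ex_opt φ j q
  have e1 : (2 * S + (j + β) % 2) / 2 = S := by omega
  have e2 : (j + (2 * S + (j + β) % 2)) % 2 = β := by omega
  refine ⟨b, 2 * S + (j + β) % 2, hb, by omega, ?_⟩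
  simp only [gc, e1, e2]; exact ho

/-- The clause `(j, q)` is true. -/
def ClT (φ : List (Clause3 ℕ)) (v : ℕ → ℕ → Bool) (j q : ℕ) : Prop :=
  ∃ b S β, b ≤ 1 ∧ S / 2 = q ∧ β ≤ 1 ∧ opt φ j b S β ∧ v (j + b) S = decide (β = 1)

theorem clT_iff (φ : List (Clause3 ℕ)) (v : ℕ → ℕ → Bool) (J c t k : ℕ) (ht : t < 3)
    (hk : k < 4) : ClT φ v (3 * J + t) (4 * c + k) ↔
      ((optP φ J c t 0 (2 * k) 0 ∧ v (3 * J + t) (8 * c + 2 * k) = false) ∨
       (optP φ J c t 0 (2 * k) 1 ∧ v (3 * J + t) (8 * c + 2 * k) = true) ∨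
       (optP φ J c t 0 (2 * k + 1) 0 ∧ v (3 * J + t) (8 * c + (2 * k + 1)) = false) ∨
       (optP φ J c t 0 (2 * k + 1) 1 ∧ v (3 * J + t) (8 * c + (2 * k + 1)) = true)) ∨
      ((optP φ J c t 1 (2 * k) 0 ∧ v (3 * J + (t + 1)) (8 * c + 2 * k) = false) ∨
       (optP φ J c t 1 (2 * k) 1 ∧ v (3 * J + (t + 1)) (8 * c + 2 * k) = true) ∨
       (optP φ J c t 1 (2 * k + 1) 0 ∧ v (3 * J + (t + 1)) (8 * c + (2 * k + 1)) = false) ∨
       (optP φ J c t 1 (2 * k + 1) 1 ∧ v (3 * J + (t + 1)) (8 * c + (2 * k + 1)) = true)) := by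
  constructor
  · rintro ⟨b, S, β, hb, hS, hβ, ho, hv⟩
    rcases (show S = 8 * c + 2 * k ∨ S = 8 * c + (2 * k + 1) by omega) with rfl | rfl <;>
      rw [opt_iff φ J c t b _ β ht (by omega)] at ho <;>
      rcases (show b = 0 ∨ b = 1 by omega) with rfl | rfl <;>
      rcases (show β = 0 ∨ β = 1 by omega) with rfl | rfl <;>
      simp only [Nat.add_zero, Nat.add_assoc, zero_ne_one, decide_false, decide_true] at hv <;>
      simp [ho, hv]
  · have key : ∀ b s β, b ≤ 1 → s / 2 = k → β ≤ 1 → optP φ J c t b s β →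
        v (3 * J + (t + b)) (8 * c + s) = decide (β = 1) → ClT φ v (3 * J + t) (4 * c + k) :=
      fun b s β hb hs hβ ho hv =>
        ⟨b, 8 * c + s, β, hb, by omega, hβ, (opt_iff φ J c t b s β ht (by omega)).2 ho,
          by rw [Nat.add_assoc]; exact hv⟩
    rintro ((⟨h1, h2⟩ | ⟨h1, h2⟩ | ⟨h1, h2⟩ | ⟨h1, h2⟩) | (⟨h1, h2⟩ | ⟨h1, h2⟩ | ⟨h1, h2⟩ | ⟨h1, h2⟩)) <;>
      exact key _ _ _ (by simp) (by omega) (by simp) h1 (by simpa using h2)

/-- The nine clauses of a patch which are not trivially true. -/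
def Patch (φ : List (Clause3 ℕ)) (v : ℕ → ℕ → Bool) (J c : ℕ) : Prop :=
  ((c ≠ 0 ∧ v (3 * J + 1) (8 * c) = true) ∨ v (3 * J + 1) (8 * c + 1) = false ∨ tap φ J c) ∧
  (v (3 * J) (8 * c + 2) = decide (c % 2 = 0) ∨ v (3 * J + 1) (8 * c + 2) = false) ∧
  (v (3 * J) (8 * c + 4) = decide (c % 2 = 0) ∨ v (3 * J + 1) (8 * c + 4) = false) ∧
  (v (3 * J + 1) (8 * c + 6) = false ∨
    (c ≠ 6 * φ.length + 1 ∧ v (3 * J + 1) (8 * c + 7) = false)) ∧
  ((c ≠ 0 ∧ v (3 * J + 1) (8 * c) = true) ∨ v (3 * J + 2) (8 * c) = false) ∧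
  (v (3 * J + 1) (8 * c + 2) = true ∨ v (3 * J + 1) (8 * c + 3) = true ∨
    v (3 * J + 2) (8 * c + 2) = true ∨ v (3 * J + 2) (8 * c + 3) = true) ∧
  ((c ≠ 6 * φ.length + 1 ∧ v (3 * J + 1) (8 * c + 7) = false) ∨
    v (3 * J + 2) (8 * c + 6) = false) ∧
  (v (3 * J + 2) (8 * c) = false ∨ v (3 * J + 3) (8 * c) ≠ decide (c % 2 = 0)) ∧
  (v (3 * J + 2) (8 * c + 4) = false ∨ v (3 * J + 3) (8 * c + 4) ≠ decide (c % 2 = 0))

theorem patch_iff (φ : List (Clause3 ℕ)) (v : ℕ → ℕ → Bool) (J c : ℕ) :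
    (∀ t < 3, ∀ k < 4, ClT φ v (3 * J + t) (4 * c + k)) ↔ Patch φ v J c := by
  have e : (∀ t < 3, ∀ k < 4, ClT φ v (3 * J + t) (4 * c + k)) ↔
      (ClT φ v (3 * J + 0) (4 * c + 0) ∧ ClT φ v (3 * J + 0) (4 * c + 1) ∧
        ClT φ v (3 * J + 0) (4 * c + 2) ∧ ClT φ v (3 * J + 0) (4 * c + 3) ∧
        ClT φ v (3 * J + 1) (4 * c + 0) ∧ ClT φ v (3 * J + 1) (4 * c + 1) ∧
        ClT φ v (3 * J + 1) (4 * c + 3) ∧ ClT φ v (3 * J + 2) (4 * c + 0) ∧
        ClT φ v (3 * J + 2) (4 * c + 2)) := by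
    constructor
    · intro h
      refine ⟨?_, ?_, ?_, ?_, ?_, ?_, ?_, ?_, ?_⟩ <;> exact h _ (by simp) _ (by simp)
    · rintro ⟨h1, h2, h3, h4, h5, h6, h7, h8, h9⟩ t ht k hk
      interval_cases t <;> interval_cases k <;> try assumption
      all_goals
        rw [clT_iff φ v J c _ _ (by simp) (by simp)]
        simp [optP]
  rw [e]
  unfold Patch
  clear e
  refine and_congr ?_ (and_congr ?_ (and_congr ?_ (and_congr ?_ (and_congr ?_ (and_congr ?_
    (and_congr ?_ (and_congr ?_ ?_))))))) <;>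
    rw [clT_iff φ v J c _ _ (by simp) (by simp)]
  · simp only [optP, Nat.mul_zero, Nat.add_zero, Nat.zero_add]
    cases v (3 * J + 1) (8 * c + 1) <;> simp
  · rcases Nat.mod_two_eq_zero_or_one c with hc | hc <;> simp [optP, hc]
  · rcases Nat.mod_two_eq_zero_or_one c with hc | hc <;> simp [optP, hc]
  · simp [optP]
  · simp [optP]
  · simp [optP, or_assoc]
  · simp [optP]
  · rcases Nat.mod_two_eq_zero_or_one c with hc | hc <;> simp [optP, hc]
  · rcases Nat.mod_two_eq_zero_or_one c with hc | hc <;> simp [optP, hc]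

theorem cpS_at (J t c s : ℕ) (ht : t < 3) (hs : s < 8) : cpS (3 * J + t) (8 * c + s) ↔
    if t = 0 then s < 7 ∨ (J = 0 ∧ c % 2 = 0)
    else if t = 1 then s = 1 ∨ s = 3 ∨ s = 4 ∨ s = 5 ∨ s = 7 else s ≠ 2 ∧ s ≠ 7 := by
  unfold cpS
  rw [show (3 * J + t) % 3 = t by omega, show (8 * c + s) % 8 = s by omega,
    show (8 * c + s) / 8 = c by omega]
  split_ifs with h
  · subst h; simp
  · rfl
  · rfl

theorem slot_patch (φ : List (Clause3 ℕ)) : SlotSat φ ↔ ∃ v : ℕ → ℕ → Bool,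
    (∀ r S, r < 6 * φ.length + 1 → S + 1 < 8 * (6 * φ.length + 2) → cpS r S →
      v r (S + 1) = v r S) ∧
    ∀ J c, J < 2 * φ.length → c < 6 * φ.length + 2 → Patch φ v J c := by
  refine exists_congr fun v => and_congr_right fun _ => ⟨fun h J c hJ hc => ?_, fun h j q hj hq => ?_⟩
  · exact (patch_iff φ v J c).1 fun t ht k hk => h _ _ (by omega) (by omega)
  · have := (patch_iff φ v (j / 3) (q / 4)).2 (h _ _ (by omega) (by omega)) (j % 3) (by omega)
      (q % 4) (by omega)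
    rwa [show 3 * (j / 3) + j % 3 = j by omega, show 4 * (q / 4) + q % 4 = q by omega] at this

theorem sat_of_slot (φ : List (Clause3 ℕ)) (h : SlotSat φ) : Sat3 φ := by
  obtain ⟨v, h1, h2⟩ := (slot_patch φ).1 h
  have cp : ∀ J t c s, t < 3 → s < 7 → 3 * J + t < 6 * φ.length + 1 → c < 6 * φ.length + 2 →
      (if t = 0 then True else if t = 1 then s = 1 ∨ s = 3 ∨ s = 4 ∨ s = 5 else s ≠ 2) →
      v (3 * J + t) (8 * c + (s + 1)) = v (3 * J + t) (8 * c + s) := by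
    intro J t c s ht hs hr hc hh
    refine h1 _ (8 * c + s) hr (by omega) ((cpS_at J t c s ht (by omega)).2 ?_)
    split_ifs at hh ⊢ <;> omega
  have row0 : ∀ J c s, J ≤ 2 * φ.length → c < 6 * φ.length + 2 → s < 8 →
      v (3 * J) (8 * c + s) = v (3 * J) (8 * c) := by
    intro J c s hJ hc hs
    induction s with
    | zero => rfl
    | succ s ih =>
      rw [← ih (by omega)]
      exact cp J 0 c s (by omega) (by omega) (by omega) hc (by simp)
  have P : ∀ J c, J < 2 * φ.length → c < 6 * φ.length + 2 →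
      (v (3 * (J + 1)) (8 * c) = decide (c % 2 = 0) → v (3 * J) (8 * c) = decide (c % 2 = 0)) ∧
      (v (3 * J + 1) (8 * c + 7) = true ∨ c = 6 * φ.length + 1 →
        (tap φ J c ∧ v (3 * J) (8 * c) = decide (c % 2 = 0)) ∨
          (c ≠ 0 ∧ v (3 * J + 1) (8 * c) = true)) := by
    intro J c hJ hc
    obtain ⟨p1, p2, p3, p4, p5, p6, p7, p8, p9⟩ := h2 J c hJ hc
    have a1 := cp J 1 c 1 (by omega) (by omega) (by omega) hc (by simp)
    have a3 := cp J 1 c 3 (by omega) (by omega) (by omega) hc (by simp)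
    have a4 := cp J 1 c 4 (by omega) (by omega) (by omega) hc (by simp)
    have a5 := cp J 1 c 5 (by omega) (by omega) (by omega) hc (by simp)
    have b0 := cp J 2 c 0 (by omega) (by omega) (by omega) hc (by simp)
    have b1 := cp J 2 c 1 (by omega) (by omega) (by omega) hc (by simp)
    have b3 := cp J 2 c 3 (by omega) (by omega) (by omega) hc (by simp)
    have b4 := cp J 2 c 4 (by omega) (by omega) (by omega) hc (by simp)
    have b5 := cp J 2 c 5 (by omega) (by omega) (by omega) hc (by simp)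
    have c4 := row0 (J + 1) c 4 (by omega) hc (by omega)
    rw [row0 J c 2 (by omega) hc (by omega)] at p2
    rw [row0 J c 4 (by omega) hc (by omega)] at p3
    rw [show 3 * (J + 1) = 3 * J + 3 by ring] at c4 ⊢
    rw [c4] at p9
    simp only [Nat.reduceAdd, Nat.add_zero] at a1 a3 a4 a5 b0 b1 b3 b4 b5
    rw [a1] at p2 p6
    rw [a5, a4, a3] at p4
    rw [a3] at p3
    rw [b1, b0] at p6
    rw [b5, b4, b3] at p7
    rw [b3] at p9
    refine ⟨fun hL => ?_, fun hh => ?_⟩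
    · rcases p6 with p6 | p6 | p6 | p6
      · simpa [p6] using p2
      · simpa [p6] using p3
      · simp [p6, hL] at p8
      · simp [p6, hL] at p9
    · rcases p6 with p6 | p6 | p6 | p6
      · simp only [p6, Bool.true_eq_false, or_false, false_or] at p1 p2
        exact p1.elim Or.inr fun t => Or.inl ⟨t, p2⟩
      · simp only [p6, Bool.true_eq_false, false_or] at p4
        rcases hh with hh | hh
        · simp [hh] at p4
        · exact absurd hh p4.1
      · simp only [p6, Bool.true_eq_false, or_false] at p5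
        exact Or.inr p5
      · simp only [p6, Bool.true_eq_false, or_false] at p7
        rcases hh with hh | hh
        · simp [hh] at p7
        · exact absurd hh p7.1
  have down : ∀ J c, J ≤ 2 * φ.length → c < 6 * φ.length + 2 →
      v (3 * J) (8 * c) = decide (c % 2 = 0) → v 0 (8 * c) = decide (c % 2 = 0) := by
    intro J c hJ hc
    induction J with
    | zero => exact id
    | succ J ih => exact fun h => ih (by omega) ((P J c (by omega) hc).1 h)
  have left : ∀ J c, J < 2 * φ.length → c < 6 * φ.length + 2 →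
      (v (3 * J + 1) (8 * c + 7) = true ∨ c = 6 * φ.length + 1) →
      ∃ c' ≤ c, tap φ J c' ∧ v (3 * J) (8 * c') = decide (c' % 2 = 0) := by
    intro J c hJ
    induction c with
    | zero =>
      intro hc hh
      rcases (P J 0 hJ hc).2 hh with h | h
      · exact ⟨0, le_rfl, h⟩
      · exact absurd rfl h.1
    | succ c ih =>
      intro hc hh
      rcases (P J (c + 1) hJ hc).2 hh with h | h
      · exact ⟨c + 1, le_rfl, h⟩
      · have e := h1 (3 * J + 1) (8 * c + 7) (by omega) (by omega)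
          ((cpS_at J 1 c 7 (by omega) (by omega)).2 (by simp))
        rw [show 8 * c + 7 + 1 = 8 * (c + 1) by ring, h.2] at e
        obtain ⟨c', a1, a2⟩ := ih (by omega) (Or.inl e.symm)
        exact ⟨c', by omega, a2⟩
  refine ⟨fun w => v 0 (8 * (2 * w)), fun cl hcl => ?_⟩
  obtain ⟨i, hi, rfl⟩ := List.getElem_of_mem hcl
  obtain ⟨c, hc, ⟨cl, hcl, l, hl, e1, e2⟩, hL⟩ :=
    left (2 * i) (6 * φ.length + 1) (by omega) (by omega) (Or.inr rfl)
  have hL0 := down (2 * i) c (by omega) (by omega) hL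
  have hx : v 0 (8 * (2 * l.1)) = l.2 := by
    have e3 : decide (c % 2 = 0) = l.2 := by
      cases h : l.2 <;> simp [h] at e2 ⊢ <;> omega
    rw [← e3, ← hL0]
    rcases Nat.mod_two_eq_zero_or_one c with h | h
    · rw [show 2 * l.1 = c by omega]
    · have a1 := h1 (3 * 0 + 0) (8 * (2 * l.1) + 7) (by omega) (by omega)
        ((cpS_at 0 0 (2 * l.1) 7 (by omega) (by omega)).2 (by simp))
      have a2 := row0 0 (2 * l.1) 7 (by omega) (by omega) (by omega)
      rw [show 8 * (2 * l.1) + 7 + 1 = 8 * c by omega] at a1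
      exact (a1.trans a2).symm
  rw [show 2 * i / 2 = i by omega, List.getElem?_eq_getElem hi] at hcl
  obtain rfl : cl = φ[i] := by simpa using hcl
  simp only [List.mem_cons, List.not_mem_nil, or_false] at hl
  unfold Clause3.Holds
  rcases hl with rfl | rfl | rfl <;> simp [hx]

open Classical in
/-- The slot values of an assignment. -/
noncomputable def slotV (L : ℕ → Prop) (H : ℕ → ℕ → Prop) (x : ℕ → Bool) (r S : ℕ) : Bool :=
  if r % 3 = 0 then x (S / 8 / 2)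
  else if r % 3 = 1 then
    (if S % 8 = 0 then decide (H (r / 3) (S / 8))
    else if S % 8 ≤ 2 then decide (L (S / 8) ∧ H (r / 3) (S / 8 + 1))
    else if S % 8 ≤ 6 then decide (L (S / 8) ∧ ¬H (r / 3) (S / 8 + 1))
    else decide (H (r / 3) (S / 8 + 1)))
  else if S % 8 ≤ 2 then decide (¬L (S / 8) ∧ H (r / 3) (S / 8))
  else decide (¬L (S / 8) ∧ ¬H (r / 3) (S / 8))

open Classical in
theorem slotV_at (L : ℕ → Prop) (H : ℕ → ℕ → Prop) (x : ℕ → Bool) (J t c s : ℕ) (ht : t < 3)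
    (hs : s < 8) : slotV L H x (3 * J + t) (8 * c + s) =
      if t = 0 then x (c / 2)
      else if t = 1 then
        (if s = 0 then decide (H J c) else if s ≤ 2 then decide (L c ∧ H J (c + 1))
        else if s ≤ 6 then decide (L c ∧ ¬H J (c + 1)) else decide (H J (c + 1)))
      else if s ≤ 2 then decide (¬L c ∧ H J c) else decide (¬L c ∧ ¬H J c) := by
  unfold slotV
  rw [show (3 * J + t) % 3 = t by omega, show (3 * J + t) / 3 = J by omega,
    show (8 * c + s) % 8 = s by omega, show (8 * c + s) / 8 = c by omega]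

theorem slot_of_sat (φ : List (Clause3 ℕ)) (hv : ∀ v ∈ vars3 φ, v < 3 * φ.length)
    (h : Sat3 φ) : SlotSat φ := by
  classical
  obtain ⟨x, hx⟩ := h
  set L : ℕ → Prop := fun c => x (c / 2) = decide (c % 2 = 0) with hL
  set H : ℕ → ℕ → Prop := fun J c => ∃ c' < c, tap φ J c' ∧ L c' with hH
  refine (slot_patch φ).2 ⟨slotV L H x, fun r S _ _ hc => ?_, fun J c hJ hc => ?_⟩
  · obtain ⟨J, t, ht, rfl⟩ : ∃ J t, t < 3 ∧ r = 3 * J + t := ⟨r / 3, r % 3, by omega, by omega⟩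
    obtain ⟨c, s, hs, rfl⟩ : ∃ c s, s < 8 ∧ S = 8 * c + s := ⟨S / 8, S % 8, by omega, by omega⟩
    rw [cpS_at J t c s ht hs] at hc
    rcases (show s = 7 ∨ s + 1 < 8 by omega) with rfl | hs'
    · rw [show 8 * c + 7 + 1 = 8 * (c + 1) + 0 by ring, slotV_at _ _ _ _ _ _ _ ht (by omega),
        slotV_at _ _ _ _ _ _ _ ht hs]
      interval_cases t
      · simp only [if_true] at hc ⊢
        rw [show (c + 1) / 2 = c / 2 by omega]
      · simp
      · simp at hc
    · rw [Nat.add_assoc, slotV_at _ _ _ _ _ _ _ ht hs', slotV_at _ _ _ _ _ _ _ ht hs]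
      interval_cases t
      · simp
      · have : s < 7 := by omega
        interval_cases s <;> simp at hc ⊢
      · have : s < 7 := by omega
        interval_cases s <;> simp at hc ⊢
  · have H0 : ¬H J 0 := fun ⟨c', h, _⟩ => by omega
    have H1 : H J (c + 1) ↔ H J c ∨ (tap φ J c ∧ L c) := by
      constructor
      · rintro ⟨c', a1, a2⟩
        rcases (show c' < c ∨ c' = c by omega) with h | rfl
        · exact Or.inl ⟨c', h, a2⟩
        · exact Or.inr a2
      · rintro (⟨c', a1, a2⟩ | a)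
        · exact ⟨c', by omega, a2⟩
        · exact ⟨c, by omega, a⟩
    have H2 : H J (6 * φ.length + 1 + 1) := by
      have hi : J / 2 < φ.length := by omega
      have key : ∀ l ∈ [φ[J / 2].1, φ[J / 2].2.1, φ[J / 2].2.2], x l.1 = l.2 →
          H J (6 * φ.length + 1 + 1) := by
        intro l hl e
        have hb : l.1 < 3 * φ.length := by
          refine hv _ (List.mem_flatMap.2 ⟨φ[J / 2], List.getElem_mem hi, ?_⟩)
          simp only [List.mem_cons, List.not_mem_nil, or_false] at hl ⊢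
          rcases hl with rfl | rfl | rfl <;> simp
        cases h : l.2
        · refine ⟨2 * l.1 + 1, by omega, ⟨φ[J / 2], by simp [List.getElem?_eq_getElem hi], l, hl,
            by omega, by simp [h]⟩, ?_⟩
          simp only [hL, show (2 * l.1 + 1) / 2 = l.1 by omega, e, h]
          simp
        · refine ⟨2 * l.1, by omega, ⟨φ[J / 2], by simp [List.getElem?_eq_getElem hi], l, hl,
            by omega, by simp [h]⟩, ?_⟩
          simp only [hL, show 2 * l.1 / 2 = l.1 by omega, e, h]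
          simp
      rcases hx _ (List.getElem_mem hi) with e | e | e
      · exact key _ (by simp) e
      · exact key _ (by simp) e
      · exact key _ (by simp) e
    have H3 : c = 0 → ¬H J c := fun e => e ▸ H0
    have H4 : c = 6 * φ.length + 1 → H J (c + 1) := fun e => e ▸ H2
    have r0 : ∀ J s, s < 8 → slotV L H x (3 * J) (8 * c + s) = x (c / 2) := fun J s hs => by
      simpa using slotV_at L H x J 0 c s (by omega) hs
    have r1 := fun s hs => slotV_at L H x J 1 c s (by omega) hs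
    have r2 := fun s hs => slotV_at L H x J 2 c s (by omega) hs
    have r10 := r1 0 (by omega)
    have r20 := r2 0 (by omega)
    have r30 := r0 (J + 1) 0 (by omega)
    have r34 := r0 (J + 1) 4 (by omega)
    rw [show 3 * (J + 1) = 3 * J + 3 by ring] at r30 r34
    rw [show 8 * c + 0 = 8 * c from rfl] at r10 r20 r30
    have eL : x (c / 2) = decide (c % 2 = 0) ↔ L c := Iff.rfl
    unfold Patch
    rw [r10, r20, r30, r34, r0 J 2 (by omega), r0 J 4 (by omega), r1 1 (by omega),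
      r1 2 (by omega), r1 3 (by omega), r1 4 (by omega), r1 6 (by omega), r1 7 (by omega),
      r2 2 (by omega), r2 3 (by omega), r2 4 (by omega), r2 6 (by omega)]
    simp only [ne_eq, eL]
    by_cases a1 : L c <;> by_cases a2 : H J c <;> by_cases a3 : H J (c + 1) <;>
      simp [a1, a2, a3] at H1 H3 H4 ⊢ <;> simp [H1, H3, H4]

/-- Plan. Consider the patch of rows `3 j .. 3 j + 3` and slots `8 c .. 8 c + 7` (`j < 2 m`,
`c < C = 6 m + 2`). All slots of row `3 j` in the group `c` have one value `a j c`; let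
`L j c := (a j c = decide (c even))`. In row `3 j + 1` let `h = v (8c)`, `a₁ = v (8c+1) = v (8c+2)`,
`b = v (8c+3) = .. = v (8c+6)`, `h' = v (8c+7)` (equal to the `h` of group `c + 1`); in row `3 j + 2` let
`p = v (8c) = .. = v (8c+2)`, `q = v (8c+3) = .. = v (8c+7)`. The twelve clauses of the patch say:
one of `a₁, b, p, q` is true; `a₁ → L j c ∧ ((c ≠ 0 ∧ h) ∨ tap j c)`; `b → L j c ∧ c + 1 ≠ C ∧ ¬h'`;
`p → c ≠ 0 ∧ h ∧ ¬L (j+1) c`; `q → c + 1 ≠ C ∧ ¬h' ∧ ¬L (j+1) c`.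
(→) `L (j+1) c → L j c`, so `L j c → L 0 c`; by induction on `c`, (`h'` or `c + 1 = C`) implies that
some `c' ≤ c` has `tap j c' ∧ L j c'`; `a 0 (2 w) = a 0 (2 w + 1)` is the value of the variable `w`;
clause `i` is read off from `j = 2 i`.
(←) `a j c = x (c / 2)`, `h := ∃ c' < c, tap j c' ∧ L c'`, `h' := ∃ c' ≤ c, ...`, `a₁ = L ∧ h'`,
`b = L ∧ ¬h'`, `p = ¬L ∧ h`, `q = ¬L ∧ ¬h`; for `c + 1 = C`, `h'` holds because all variables are
below `3 m`. -/
theorem slot_iff (φ : List (Clause3 ℕ)) (hv : ∀ v ∈ vars3 φ, v < 3 * φ.length) :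
    SlotSat φ ↔ Sat3 φ :=
  ⟨sat_of_slot φ, slot_of_sat φ hv⟩

end Pool.Agent.MP_06c78e_co.H40

end

-- part MP_06c78e_co.H40.Code
section

/-! The graph of the reduction is computable in polynomial time. -/

namespace Pool.Agent.MP_06c78e_co.H40

open Pool.Agent.Lib.Cx

theorem induce_compl_iso {V W : Type} {G : SimpleGraph V} {H : SimpleGraph W} (e : G ≃g H)
    (v : V) : Nonempty (G.induce {v}ᶜ ≃g H.induce {e v}ᶜ) :=
  ⟨⟨e.toEquiv.subtypeEquiv fun a => by simp, fun {a b} => by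
    simpa using e.map_adj_iff⟩⟩

theorem biconnected_iso {V W : Type} {G : SimpleGraph V} {H : SimpleGraph W} (e : G ≃g H)
    (h : Biconnected H) : Biconnected G := by
  refine ⟨by rw [Nat.card_congr e.toEquiv]; exact h.1, e.connected_iff.2 h.2.1, fun v => ?_⟩
  obtain ⟨e'⟩ := induce_compl_iso e v
  exact e'.connected_iff.2 (h.2.2 (e v))

theorem planar_iso {V W : Type} {G : SimpleGraph V} {H : SimpleGraph W} (e : G ≃g H)
    (h : IsPlanar H) : IsPlanar G := by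
  obtain ⟨p, γ, h1, h2, h3, h4, h5⟩ := h
  refine ⟨fun v => p (e v), fun u v h => γ (e u) (e v) (e.map_adj_iff.2 h),
    h1.comp e.injective, fun u v h => h2 _ _ _, fun u v h => h3 _ _ _, fun u v h w hw => ?_,
    fun u v h u' v' h' hne x hx hx' => ?_⟩
  · rcases h4 _ _ _ (e w) hw with h | h
    · exact Or.inl (e.injective h)
    · exact Or.inr (e.injective h)
  · obtain ⟨w, hw⟩ := h5 _ _ _ _ _ _ (fun e' => hne (by
      rcases Sym2.eq_iff.1 e' with ⟨a, b⟩ | ⟨a, b⟩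
      · rw [e.injective a, e.injective b]
      · rw [e.injective a, e.injective b, Sym2.eq_swap])) x hx hx'
    exact ⟨e.symm w, by simpa using hw⟩

theorem greedy_iso' {V W : Type} {G : SimpleGraph V} {H : SimpleGraph W} (e : G ≃g H)
    (h : ∃ p, GreedyC H p) : ∃ p, GreedyC G p := by
  obtain ⟨p, h1, h2⟩ := h
  refine ⟨fun v => p (e v), h1.comp e.injective, fun s t hst => ?_⟩
  obtain ⟨u, hu, hd⟩ := h2 (e s) (e t) (fun h => hst (e.injective h))
  exact ⟨e.symm u, by rw [← e.map_adj_iff]; simpa using hu, by simpa using hd⟩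

theorem greedy_iso {V W : Type} {G : SimpleGraph V} {H : SimpleGraph W} (e : G ≃g H) :
    (∃ p, GreedyC G p) ↔ ∃ p, GreedyC H p := ⟨greedy_iso' e.symm, greedy_iso' e⟩

/-- A graph read through an injective code of its vertices. -/
theorem coded_iso {V C : Type} (G : SimpleGraph V) (code : V → C) (hc : Function.Injective code)
    (S : List C) (hn : S.Nodup) (hS : ∀ x, x ∈ S ↔ ∃ v, code v = x) (H : SimpleGraph C)
    (hH : ∀ u v, H.Adj (code u) (code v) ↔ G.Adj u v) : Nonempty (H.comap S.get ≃g G) := by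
  choose f hf using fun i : Fin S.length => (hS (S.get i)).1 (List.get_mem S i)
  have hb : Function.Bijective f := by
    refine ⟨fun i j e => (List.nodup_iff_injective_get.1 hn) (by rw [← hf, ← hf, e]), fun v => ?_⟩
    obtain ⟨i, hi⟩ := List.get_of_mem ((hS (code v)).2 ⟨v, rfl⟩)
    exact ⟨i, hc (by rw [hf, hi])⟩
  exact ⟨⟨Equiv.ofBijective f hb, fun {i j} => by
    simp only [Equiv.ofBijective_apply, SimpleGraph.comap_adj, ← hH, hf]⟩⟩

/-- Codes of centres. -/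
abbrev CC : Type := ℕ × ℕ × ℕ × N3

/-- The table `tb` on numbers. -/
def tbL (m j : ℕ) : ℕ :=
  (([[1, 0, 0, 0, 0], [2, 0, 0, 2, 2], [3, 1, 1, 1, 1], [4, 0, 0, 4, 4], [5, 3, 3, 3, 3],
    [6, 4, 4, 6, 6], [7, 5, 5, 5, 5], [8, 6, 6, 6, 8], [9, 7, 7, 9, 9], [10, 8, 8, 8, 8],
    [10, 9, 9, 9, 10]] : List (List ℕ)).getD m []).getD j 0

theorem tbL_eq : ∀ (m : Fin 11) (j : Fin 5), tbL m j = tb m j := by decide

def code {g : Gd} {NG LC : ℕ} : Ctr NG LC g.Bk → CC
  | rt i => (0, 0, i, 0, 0, 0)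
  | ch k j => (1, k, j, 0, 0, 0)
  | co k b m => (2, k, m, b.1)

theorem code_inj {g : Gd} {NG LC : ℕ} : Function.Injective (code (g := g) (NG := NG) (LC := LC)) := by
  rintro (i | ⟨k, j⟩ | ⟨k, b, m⟩) (i' | ⟨k', j'⟩ | ⟨k', b', m'⟩) e <;>
    simp only [code, Prod.mk.injEq, Fin.val_inj, Subtype.val_inj] at e <;>
    first | omega | simp [e.2.1, e.2.2.1, e.2.2.2]

open Classical in
/-- The arcs of the core on codes. -/
noncomputable def ctgC (g : Gd) (LC k : ℕ) (b : N3) (m j : ℕ) : CC :=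
  if m = 0 ∧ j ≠ 0 then
    (if b = (0, 0, 0) then (1, k, LC, 0, 0, 0) else (2, k, 10, g.pred (decide (3 ≤ j)) b))
  else if m = 7 ∧ (j = 0 ∨ j = 4) ∧ b ≠ (0, g.R, 0) then (2, k, 7, g.succ (decide (j = 4)) b)
  else if m = 10 ∧ (j = 0 ∨ j = 4) then
    (if b = (0, g.R, 0) then (1, k + 1, 0, 0, 0, 0) else (2, k, 0, g.succ (decide (j = 4)) b))
  else (2, k, tbL m j, b)

/-- The arcs of the graph on codes. -/
noncomputable def tgC (g : Gd) (NG LC : ℕ) (a : CC) (j : ℕ) : CC :=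
  if a.1 = 0 then
    (if a.2.2.1 = 0 then (0, 0, 1, 0, 0, 0) else if j ≠ 0 then (0, 0, a.2.2.1 - 1, 0, 0, 0)
    else if a.2.2.1 = 3 then (1, 0, 0, 0, 0, 0) else (0, 0, a.2.2.1 + 1, 0, 0, 0))
  else if a.1 = 1 then
    (if j = 0 then (if a.2.2.1 < LC then (1, a.2.1, a.2.2.1 + 1, 0, 0, 0)
      else if a.2.1 < NG then (2, a.2.1, 0, 0, 0, 0) else (0, 0, 0, 0, 0, 0))
    else if j ≤ 2 then (if 0 < a.2.2.1 then (1, a.2.1, a.2.2.1 - 1, 0, 0, 0)
      else if 0 < a.2.1 then (2, a.2.1 - 1, 10, 0, g.R, 0) else (0, 0, 3, 0, 0, 0))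
    else (0, 0, 0, 0, 0, 0))
  else ctgC g LC a.2.1 a.2.2.2 a.2.2.1 j

theorem ctgC_code {g : Gd} (h : g.Ok) {NG LC : ℕ} (k : Fin NG) (b : g.Bk) (m : Fin 11)
    (j : Fin 5) : ctgC g LC k b.1 m j = code (emb (LC := LC) k (ctg (Gd.dg h) b m j)) := by
  have e1 : b = (Gd.dg h).src ↔ b.1 = (0, 0, 0) := Subtype.ext_iff
  have e2 : b = (Gd.dg h).snk ↔ b.1 = (0, g.R, 0) := Subtype.ext_iff
  have f0 : m = 0 ↔ m.1 = 0 := Fin.ext_iff
  have f7 : m = 7 ↔ m.1 = 7 := Fin.ext_iff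
  have f10 : m = 10 ↔ m.1 = 10 := Fin.ext_iff
  have g0 : j = 0 ↔ j.1 = 0 := Fin.ext_iff
  have g4 : j = 4 ↔ j.1 = 4 := Fin.ext_iff
  have g3 : 3 ≤ j ↔ 3 ≤ j.1 := Iff.rfl
  unfold ctgC ctg
  simp only [ne_eq, f0, f7, f10, g0, g4, g3, ← e1, ← e2]
  split_ifs with h1 h2 h3 h4 h5
  · rfl
  · simp only [emb, code, Gd.dg_r h _ _ h2]; rfl
  · simp only [emb, code, Gd.dg_s h _ _ h3.2.2]; rfl
  · rfl
  · simp only [emb, code, Gd.dg_s h _ _ h5]; rfl
  · simp only [emb, code, tbL_eq]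

theorem tgC_code {g : Gd} (h : g.Ok) {NG LC : ℕ} (a : Ctr NG LC g.Bk) (j : Fin 5) :
    tgC g NG LC (code a) j = code (tg0 NG LC (Gd.dg h) a j) := by
  have g0 : j = 0 ↔ j.1 = 0 := Fin.ext_iff
  have g2 : j ≤ 2 ↔ j.1 ≤ 2 := Iff.rfl
  rcases a with i | ⟨k, i⟩ | ⟨k, b, m⟩
  · fin_cases i <;> by_cases hj : j.1 = 0 <;> simp [tgC, tg0, code, g0, hj]
  · simp only [tgC, tg0, chS, chP, g0, g2]
    simp only [code, one_ne_zero, if_false, if_true]
    split_ifs <;> rfl
  · exact ctgC_code h k b m j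

/-- Codes of vertices. -/
def vcode {g : Gd} {NG LC : ℕ} (v : Vx (Ctr NG LC g.Bk)) : CC × ℕ :=
  (code v.1, v.2.elim 0 fun k => k.1 + 1)

theorem vcode_inj {g : Gd} {NG LC : ℕ} :
    Function.Injective (vcode (g := g) (NG := NG) (LC := LC)) := by
  rintro ⟨a, _ | k⟩ ⟨b, _ | m⟩ e <;>
    simp only [vcode, Option.elim, Prod.mk.injEq, code_inj.eq_iff, add_left_inj,
      Fin.val_inj] at e <;> first | omega | simp [e.1, e.2]

/-- The adjacency from a spoke to a centre, on codes. -/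
def relC (g : Gd) (NG LC : ℕ) (u v : CC × ℕ) : Prop :=
  u.2 ≠ 0 ∧ v.2 = 0 ∧ (v.1 = u.1 ∨ v.1 = tgC g NG LC u.1 (u.2 - 1))

theorem relC_adj (g : Gd) (NG LC : ℕ) (u v : CC × ℕ) :
    (SimpleGraph.fromRel (relC g NG LC)).Adj u v ↔ relC g NG LC u v ∨ relC g NG LC v u := by
  simp only [SimpleGraph.fromRel_adj, and_iff_right_iff_imp]
  rintro (h | h) rfl <;> exact h.1 h.2.1

theorem relC_code {g : Gd} (h : g.Ok) {NG LC : ℕ} (u v : Vx (Ctr NG LC g.Bk)) :
    relC g NG LC (vcode u) (vcode v) ↔ ∃ k, u.2 = some k ∧ v.2 = none ∧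
      (v.1 = u.1 ∨ v.1 = tg0 NG LC (Gd.dg h) u.1 k) := by
  obtain ⟨a, _ | k⟩ := u <;> obtain ⟨b, _ | m⟩ := v <;>
    simp [relC, vcode, tgC_code h, code_inj.eq_iff]

/-- The valid codes of centres. -/
def okC (g : Gd) (NG LC : ℕ) (a : CC) : Prop :=
  (a.1 = 0 ∧ a.2.1 = 0 ∧ a.2.2.1 < 4 ∧ a.2.2.2 = (0, 0, 0)) ∨
  (a.1 = 1 ∧ a.2.1 ≤ NG ∧ a.2.2.1 ≤ LC ∧ a.2.2.2 = (0, 0, 0)) ∨
  (a.1 = 2 ∧ a.2.1 < NG ∧ a.2.2.1 < 11 ∧ g.valid a.2.2.2)

theorem okC_iff (g : Gd) (NG LC : ℕ) (a : CC) :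
    okC g NG LC a ↔ ∃ v : Ctr NG LC g.Bk, code v = a := by
  obtain ⟨t, k, j, b⟩ := a
  constructor
  · rintro (⟨rfl, rfl, h, rfl⟩ | ⟨rfl, h, h', rfl⟩ | ⟨rfl, h, h', hb⟩)
    · exact ⟨rt ⟨j, h⟩, rfl⟩
    · exact ⟨ch ⟨k, Nat.lt_succ_of_le h⟩ ⟨j, Nat.lt_succ_of_le h'⟩, rfl⟩
    · exact ⟨co ⟨k, h⟩ ⟨b, hb⟩ ⟨j, h'⟩, rfl⟩
  · rintro ⟨i | ⟨k, i⟩ | ⟨k, b, m⟩, e⟩ <;> rw [← e]
    · exact Or.inl ⟨rfl, rfl, i.2, rfl⟩
    · exact Or.inr (Or.inl ⟨rfl, Nat.le_of_lt_succ k.2, Nat.le_of_lt_succ i.2, rfl⟩)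
    · exact Or.inr (Or.inr ⟨rfl, k.2, m.2, b.2⟩)

open Classical in
/-- The list of all codes of vertices. -/
noncomputable def lstC (g : Gd) (NG LC : ℕ) : List (CC × ℕ) :=
  ((List.range 3 ×ˢ List.range (NG + 1) ×ˢ List.range (LC + 11) ×ˢ List.range 9 ×ˢ
    List.range (g.R + 1) ×ˢ List.range (g.W + 1)).filter fun a => decide (okC g NG LC a)) ×ˢ
    List.range 6

theorem lstC_nodup (g : Gd) (NG LC : ℕ) : (lstC g NG LC).Nodup :=
  ((List.nodup_range.product (List.nodup_range.product (List.nodup_range.product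
    (List.nodup_range.product (List.nodup_range.product List.nodup_range))))).filter _).product
    List.nodup_range

theorem mem_lstC (g : Gd) (NG LC : ℕ) (x : CC × ℕ) :
    x ∈ lstC g NG LC ↔ ∃ v : Vx (Ctr NG LC g.Bk), vcode v = x := by
  obtain ⟨⟨t, k, j, b₁, b₂, b₃⟩, o⟩ := x
  have key : (t, k, j, b₁, b₂, b₃) ∈ List.range 3 ×ˢ List.range (NG + 1) ×ˢ List.range (LC + 11) ×ˢ
      List.range 9 ×ˢ List.range (g.R + 1) ×ˢ List.range (g.W + 1) ∧
      okC g NG LC (t, k, j, b₁, b₂, b₃) ↔ okC g NG LC (t, k, j, b₁, b₂, b₃) := by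
    refine and_iff_right_iff_imp.2 fun h => ?_
    simp only [List.mem_product, List.mem_range]
    rcases h with h | h | ⟨h1, h2, h3, h4⟩
    · simp only [Prod.mk.injEq] at h; omega
    · simp only [Prod.mk.injEq] at h; omega
    · have := g.valid_lt h4
      simp only at h1 h2 h3 this
      omega
  classical
  rw [lstC, List.mem_product, List.mem_filter, decide_eq_true_eq, key, okC_iff, List.mem_range]
  constructor
  · rintro ⟨⟨a, ha⟩, ho⟩
    rcases o with _ | o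
    · exact ⟨(a, none), Prod.ext ha rfl⟩
    · exact ⟨(a, some ⟨o, by omega⟩), Prod.ext ha rfl⟩
  · rintro ⟨⟨a, _ | m⟩, e⟩ <;> simp only [vcode, Option.elim, Prod.mk.injEq] at e
    · exact ⟨⟨a, e.1⟩, by omega⟩
    · exact ⟨⟨a, e.1⟩, by omega⟩

section PTime

variable {α : Type} [Enc α] {φ : α → List (Clause3 ℕ)} {r i d k : α → ℕ} {n : α → ℕ × ℕ}
  {b : α → N3} {T : α → Bool}

theorem pp_ite {c p q : α → Prop} [∀ x, Decidable (c x)] (hc : PP c) (hp : PP p) (hq : PP q) :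
    PP (fun x => if c x then p x else q x) :=
  ((hc.and hp).or (hc.not.and hq)).of_iff fun x => by split_ifs with h <;> simp [h]

attribute [local fun_prop] pp_ite
attribute [local irreducible] gc

@[fun_prop] theorem tap_pp (hφ : PT φ) (hr : PT r) (hi : PT i) :
    PP (fun x => tap (φ x) (r x) (i x)) := by
  unfold tap; fun_prop

@[fun_prop] theorem cpS_pp (hr : PT r) (hi : PT i) : PP (fun x => cpS (r x) (i x)) := by
  unfold cpS; fun_prop

@[fun_prop] theorem opt_pp (hφ : PT φ) (hr : PT r) (hi : PT i) (hd : PT d) (hk : PT k) :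
    PP (fun x => opt (φ x) (r x) (i x) (d x) (k x)) := by
  unfold opt; fun_prop

@[fun_prop] theorem R_pt (hφ : PT φ) : PT (fun x => (gc (φ x)).R) := by
  simp only [gc]; fun_prop

@[fun_prop] theorem W_pt (hφ : PT φ) : PT (fun x => (gc (φ x)).W) := by
  simp only [gc]; fun_prop

@[fun_prop] theorem R_pb (hφ : PT φ) : PB (fun x => (gc (φ x)).R) := by
  simp only [gc]; fun_prop

@[fun_prop] theorem W_pb (hφ : PT φ) : PB (fun x => (gc (φ x)).W) := by
  simp only [gc]; fun_prop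

@[fun_prop] theorem cpP_pp (hr : PT r) (hi : PT i) :
    PP (fun x => (gc (φ x)).cpP (r x) (i x)) := by
  simp only [gc]; fun_prop

@[fun_prop] theorem atP_pp (hφ : PT φ) (hr : PT r) (hi : PT i) (hd : PT d) :
    PP (fun x => (gc (φ x)).atP (r x) (i x) (d x)) := by
  simp only [gc]; fun_prop

@[fun_prop] theorem X_pt (hφ : PT φ) (hr : PT r) (hi : PT i) :
    PT (fun x => (gc (φ x)).X (r x) (i x)) := by
  unfold Gd.X; fun_prop

@[fun_prop] theorem cp_pp (hφ : PT φ) (hr : PT r) (hi : PT i) :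
    PP (fun x => (gc (φ x)).cp (r x) (i x)) := by
  unfold Gd.cp; fun_prop

@[fun_prop] theorem has_pp (hφ : PT φ) (hr : PT r) (hi : PT i) :
    PP (fun x => (gc (φ x)).has (r x) (i x)) := by
  unfold Gd.has; fun_prop

@[fun_prop] theorem att_pp (hφ : PT φ) (hr : PT r) (hi : PT i) (hd : PT d) :
    PP (fun x => (gc (φ x)).att (r x) (i x) (d x)) := by
  unfold Gd.att; fun_prop

@[fun_prop] theorem nn_pt (hφ : PT φ) (hr : PT r) (hi : PT i) :
    PT (fun x => (gc (φ x)).nn (r x) (i x)) := by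
  unfold Gd.nn; fun_prop

@[fun_prop] theorem pn_pt (hφ : PT φ) (hr : PT r) (hi : PT i) :
    PT (fun x => (gc (φ x)).pn (r x) (i x)) := by
  unfold Gd.pn; fun_prop

@[fun_prop] theorem opp_pt (hφ : PT φ) (hr : PT r) (hi : PT i) (hd : PT d) :
    PT (fun x => (gc (φ x)).opp (r x) (i x) (d x)) := by
  unfold Gd.opp; fun_prop

@[fun_prop] theorem nx_pt (hφ : PT φ) (hr : PT r) (hi : PT i) (hd : PT d) :
    PT (fun x => (gc (φ x)).nx (r x) (i x) (d x)) := by
  unfold Gd.nx; fun_prop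

@[fun_prop] theorem pv_pt (hφ : PT φ) (hr : PT r) (hi : PT i) (hd : PT d) :
    PT (fun x => (gc (φ x)).pv (r x) (i x) (d x)) := by
  unfold Gd.pv; fun_prop

@[fun_prop] theorem valid_pp (hφ : PT φ) (hb : PT b) : PP (fun x => (gc (φ x)).valid (b x)) := by
  unfold Gd.valid; fun_prop

@[fun_prop] theorem inR_pt (hφ : PT φ) (hn : PT n) : PT (fun x => (gc (φ x)).inR (n x)) := by
  unfold Gd.inR; fun_prop

@[fun_prop] theorem upT_pt (hφ : PT φ) (hr : PT r) (hi : PT i) :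
    PT (fun x => (gc (φ x)).upT (r x) (i x)) := by
  unfold Gd.upT; fun_prop

@[fun_prop] theorem dnT_pt (hφ : PT φ) (hr : PT r) (hi : PT i) :
    PT (fun x => (gc (φ x)).dnT (r x) (i x)) := by
  unfold Gd.dnT; fun_prop

@[fun_prop] theorem upS_pt (hφ : PT φ) (hn : PT n) : PT (fun x => (gc (φ x)).upS (n x)) := by
  unfold Gd.upS; fun_prop

@[fun_prop] theorem dnS_pt (hφ : PT φ) (hn : PT n) : PT (fun x => (gc (φ x)).dnS (n x)) := by
  unfold Gd.dnS; fun_prop

@[fun_prop] theorem kS_pt (hφ : PT φ) (hk : PT k) (hd : PT d) (hT : PT T) (hn : PT n) :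
    PT (fun x => (gc (φ x)).kS (k x) (d x) (T x) (n x)) := by
  unfold Gd.kS; fun_prop

@[fun_prop] theorem succ_pt (hφ : PT φ) (hT : PT T) (hb : PT b) :
    PT (fun x => (gc (φ x)).succ (T x) (b x)) := by
  unfold Gd.succ; fun_prop

@[fun_prop] theorem pred_pt (hφ : PT φ) (hT : PT T) (hb : PT b) :
    PT (fun x => (gc (φ x)).pred (T x) (b x)) := by
  unfold Gd.pred; fun_prop

@[fun_prop] theorem tbL_pt (hr : PT r) (hi : PT i) : PT (fun x => tbL (r x) (i x)) := by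
  unfold tbL; fun_prop

@[fun_prop] theorem ctgC_pt (LC : ℕ) (hφ : PT φ) (hk : PT k) (hb : PT b) (hr : PT r) (hi : PT i) :
    PT (fun x => ctgC (gc (φ x)) LC (k x) (b x) (r x) (i x)) := by
  unfold ctgC; fun_prop

@[fun_prop] theorem tgC_pt (NG LC : ℕ) {a : α → CC} (hφ : PT φ) (ha : PT a) (hi : PT i) :
    PT (fun x => tgC (gc (φ x)) NG LC (a x) (i x)) := by
  unfold tgC; fun_prop

@[fun_prop] theorem relC_pp (NG LC : ℕ) {u v : α → CC × ℕ} (hφ : PT φ) (hu : PT u) (hv : PT v) :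
    PP (fun x => relC (gc (φ x)) NG LC (u x) (v x)) := by
  unfold relC; fun_prop

@[fun_prop] theorem okC_pp (NG LC : ℕ) {a : α → CC} (hφ : PT φ) (ha : PT a) :
    PP (fun x => okC (gc (φ x)) NG LC (a x)) := by
  unfold okC; fun_prop

@[fun_prop] theorem lstC_pt (NG LC : ℕ) (hφ : PT φ) : PT (fun x => lstC (gc (φ x)) NG LC) := by
  unfold lstC; fun_prop

end PTime

/-- The adjacency matrix of the graph of the reduction is computable in polynomial time. -/
theorem reduction (NG LC : ℕ) : ∃ f : List (Clause3 ℕ) → List (List Bool), PT f ∧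
    ∀ φ, ∃ (n : ℕ) (G : SimpleGraph (Fin n)), adjRows G = f φ ∧
      Nonempty (G ≃g spG (tg0 NG LC (Gd.dg (gc_ok φ)))) := by
  classical
  refine ⟨fun φ => (lstC (gc φ) NG LC).map fun a => (lstC (gc φ) NG LC).map fun b =>
    decide ((SimpleGraph.fromRel (relC (gc φ) NG LC)).Adj a b), ?_, fun φ =>
    ⟨_, (SimpleGraph.fromRel (relC (gc φ) NG LC)).comap (lstC (gc φ) NG LC).get, ?_,
      coded_iso _ vcode vcode_inj _ (lstC_nodup _ _ _) (mem_lstC _ _ _) _ fun u v => ?_⟩⟩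
  · simp only [relC_adj]
    fun_prop
  · exact (adjRows_comap_get _ _).trans (List.map_congr_left fun _ _ =>
      List.map_congr_left fun _ _ => decide_eq_decide.2 Iff.rfl)
  · rw [relC_adj, spG_adj, relC_code (gc_ok φ), relC_code (gc_ok φ)]

end Pool.Agent.MP_06c78e_co.H40

end
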