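import Pool.Agent.MP_06c78e_co.Mg.H40_LayT

-- part MP_06c78e_co.H40.Lay
section

/-! The visibility representation of the skeleton of a grid digraph. -/

namespace Pool.Agent.MP_06c78e_co.H40.Gd

open Classical

variable (g : Gd)

/-- Height and ends of the main piece of a vertex, in local coordinates. -/
def vbx (k j : ℕ) : ℕ × ℕ × ℕ := (List.getD
  [[(10, 9, 12), (3, 7, 11), (5, 9, 12)],
    [(4, 12, 14), (2, 10, 16), (1, 12, 14)],
    [(0, 14, 17), (3, 15, 19), (5, 14, 17)],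
    [(7, 8, 9), (6, 4, 8), (7, 3, 5)],
    [(8, 3, 5), (9, 4, 8), (8, 8, 9)],
    [(6, 2, 3), (4, 0, 4), (9, 2, 3)],
    [(7, 17, 18), (6, 18, 22), (7, 21, 23)],
    [(8, 21, 23), (9, 18, 22), (8, 17, 18)],
    [(6, 23, 24), (4, 22, 26), (9, 23, 24)]] k []).getD j (0, 0, 0)

def loX (r x1 x2 : ℕ) : ℤ := if r % 2 = 0 then 27 * r + x1 else 27 * r + 26 - x2

def hiX (r x1 x2 : ℕ) : ℤ := if r % 2 = 0 then 27 * r + x2 else 27 * r + 26 - x1

def kb (r d : ℕ) : ℤ := if (r + d) % 2 = 0 then 27 * r - 5 else 27 * r + 22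

def vf (b : N3) (j : ℕ) : ℕ × ℕ :=
  g.frame (if b.1 = 0 ∧ j = 0 then 1 else if (b.1 = 5 ∨ b.1 = 8) ∧ j = 2 then 2 else 0) b

noncomputable def xr (b : N3) (j : ℕ) : ℕ :=
  if b.1 = 0 ∧ ¬g.cp b.2.1 b.2.2 then (if j = 1 then 19 else 17) else (vbx b.1 j).2.2

/-- Height, left end and right end of the bar of a vertex. -/
noncomputable def vd (b : N3) (j : ℕ) : ℤ × ℤ × ℤ :=
  (g.PY (g.vf b j) (vbx b.1 j).1,
    if b.1 = 0 ∧ j = 1 ∧ b.2.2 = 0 ∧ 0 < b.2.1 ∧ b.2.1 < g.R then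
      ((27 * b.2.1 - 20 : ℤ), (27 * b.2.1 + 19 : ℤ))
    else if (b.1 = 5 ∨ b.1 = 8) ∧ j = 1 ∧ b.2.2 % 4 = 0 then
      (kb b.2.1 (b.1 / 6), kb b.2.1 (b.1 / 6) + 9)
    else (loX (g.vf b j).1 (vbx b.1 j).2.1 (g.xr b j), hiX (g.vf b j).1 (vbx b.1 j).2.1 (g.xr b j)))

/-- The bar `D` has the local height `l` and contains the local columns `x1 .. x2`. -/
def Vw (F : ℕ × ℕ) (l x1 x2 : ℕ) (D : ℤ × ℤ × ℤ) : Prop :=
  D.1 = g.PY F l ∧ D.2.1 ≤ loX F.1 x1 x2 ∧ hiX F.1 x1 x2 ≤ D.2.2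

/-- The object `j` of the block `b` is an edge between the bars `u` and `v`. -/
def EOk (b : N3) (j : ℕ) (u v : ℤ × ℤ × ℤ) : Prop :=
  ∃ c : ℤ, u.1 ≠ v.1 ∧ (u.2.1 ≤ c ∧ c ≤ u.2.2) ∧ (v.2.1 ≤ c ∧ c ≤ v.2.2) ∧
    ∀ T, 2 * min u.1 v.1 < T → T < 2 * max u.1 v.1 → g.Cov b j T c

variable {g}

theorem mkE {b : N3} {j : ℕ} {u v : ℤ × ℤ × ℤ} {F : ℕ × ℕ} {m1 a1 a2 m2 b1 b2 : ℕ}
    (ix x l1 l2 p : ℕ) (L : List (ℕ × ℕ × Bool))
    (he : tbl[ix]? = some ⟨b.1, j, p, 2 * min l1 l2 + 1, 2 * max l1 l2 - 1, x, x, L⟩)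
    (hl : l1 ≠ l2 ∧ m1 = l1 ∧ a1 ≤ x ∧ x ≤ a2 ∧ m2 = l2 ∧ b1 ≤ x ∧ x ≤ b2)
    (hF : g.frame p b = F) (hL : g.Lits F L) (h1 : g.Vw F m1 a1 a2 u)
    (h2 : g.Vw F m2 b1 b2 v) : g.EOk b j u v := by
  obtain ⟨hl, rfl, c1, c2, rfl, c3, c4⟩ := hl
  obtain ⟨u1, u2, u3⟩ := h1
  obtain ⟨v1, v2, v3⟩ := h2
  refine ⟨PX F.1 x, ?_, ?_, ?_, fun T t1 t2 => ⟨_, List.mem_of_getElem? he, rfl, rfl, hF ▸ hL, ?_⟩⟩
  · rw [u1, v1, PY, PY]
    split_ifs <;> omega
  · simp only [loX, hiX, PX] at *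
    split_ifs at * <;> omega
  · simp only [loX, hiX, PX] at *
    split_ifs at * <;> omega
  · rw [u1, v1, PY, PY] at t1 t2
    refine ⟨(if F.1 % 2 = 0 then T - 20 * F.2 else 20 * g.W + 52 - 20 * F.2 - T).toNat, x, ?_⟩
    simp only [hF, PT, le_refl, true_and, and_true]
    split_ifs at * <;> omega

theorem mkV {b : N3} {j : ℕ} {F : ℕ × ℕ} {X : ℤ} (ix l x1 x2 p : ℕ) (L : List (ℕ × ℕ × Bool))
    (he : tbl[ix]? = some ⟨b.1, j, p, 2 * l, 2 * l, x1, x2, L⟩) (hF : g.frame p b = F)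
    (hL : g.Lits F L) (hX : loX F.1 x1 x2 ≤ X ∧ X ≤ hiX F.1 x1 x2) :
    g.Cov b j (2 * g.PY F l) X := by
  refine ⟨_, List.mem_of_getElem? he, rfl, rfl, hF ▸ hL, 2 * l,
    (if F.1 % 2 = 0 then X - 27 * F.1 else 27 * F.1 + 26 - X).toNat, ?_⟩
  simp only [hF, PT, PY, PX, loX, hiX, le_refl, true_and] at *
  split_ifs at * <;> omega

theorem ex0 {r i : ℕ} (hi : i < g.W) : g.atom 0 r (i + 1 + 0) ↔ true = true :=
  iff_of_true (Or.inl (by omega)) rfl

theorem exf (h : g.Ok) {n : ℕ × ℕ} (hb : g.valid (0, n)) :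
    g.atom 0 (g.frm n).1 ((g.frm n).2 + 0) ↔ true = true := by
  obtain ⟨r, i⟩ := n
  have := valid_site hb
  have := h.1
  refine iff_of_true ?_ rfl
  simp only [atom, frm]
  split_ifs <;> simp only [true_and] <;> omega

theorem cpf {n : ℕ × ℕ} (hb : g.valid (0, n)) :
    g.atom 1 (g.frm n).1 ((g.frm n).2 + 0) ↔ g.cp n.1 n.2 := by
  have := valid_site hb
  simp only [atom, frm]
  split_ifs
  · rfl
  · exact iff_of_false (fun h => by simpa using h.lt) fun h => by have := h.lt; omega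

theorem cpp (n : ℕ × ℕ) : g.atom 1 (g.pf n).1 ((g.pf n).2 + 1) ↔ g.cp n.1 n.2 := by
  simp only [atom, pf]
  split_ifs
  · rfl
  · exact iff_of_false (fun h => by simpa using h.lt) fun h => by have := h.lt; omega

theorem w0x (h : g.Ok) (r d : ℕ) {i : ℕ} (hi : i < g.W) :
    g.atom 4 (g.nx r i d).1 ((g.nx r i d).2 + 1 + 1) ↔ i % 4 = 0 := by
  have := h.2.2
  simp only [atom, nx, opp]
  split_ifs <;> simp only <;> omega

theorem pf_nn {r i : ℕ} (hi : i < g.W) : g.pf (g.nn r i) = (r, i + 1) := by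
  unfold pf nn
  split_ifs <;> simp at *
  omega

theorem io {r i : ℕ} (hr : r < g.R) (k j : ℕ)
    (hk : k ≠ 0 ∧ ¬((k = 5 ∨ k = 8) ∧ j = 2) ∧
      (j = 1 → (k = 5 → vbx k j = (4, 0, 4)) ∧ (k = 8 → vbx k j = (4, 22, 26)))) :
    g.Vw (r, i + 1) (vbx k j).1 (vbx k j).2.1 (vbx k j).2.2 (g.vd (k, r, i) j) := by
  obtain ⟨k1, k2, k3⟩ := hk
  have e : g.vf (k, r, i) j = (r, i + 1) := by simp [vf, k1, k2, frame, frm, hr]
  simp only [Vw, vd, e, xr, k1, false_and, if_false, true_and]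
  split_ifs with c1
  · obtain ⟨rfl | rfl, rfl, -⟩ := c1 <;> simp [k3, loX, hiX, kb] <;> split_ifs <;> omega
  · exact ⟨le_rfl, le_rfl⟩

theorem vAe (n : ℕ × ℕ) : g.Vw (g.pf n) 10 9 12 (g.vd (0, n) 0) ∧
    (¬g.cp n.1 n.2 → g.Vw (g.pf n) 10 9 17 (g.vd (0, n) 0)) := by
  by_cases hc : g.cp n.1 n.2 <;> simp [Vw, vd, vf, xr, frame, vbx, hc, loX, hiX]
  split_ifs <;> omega

theorem vAe' {r i : ℕ} (hc : g.cp r i) : g.Vw (r, i + 1) 0 9 12 (g.vd (0, r, i) 0) := by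
  have := hc.lt
  simp [Vw, vd, vf, xr, frame, vbx, hc, pf, this, PY]
  split_ifs <;> omega

theorem vAx (n : ℕ × ℕ) : g.Vw (g.frm n) 5 9 12 (g.vd (0, n) 2) ∧
    (¬g.cp n.1 n.2 → g.Vw (g.frm n) 5 9 17 (g.vd (0, n) 2)) := by
  by_cases hc : g.cp n.1 n.2 <;> simp [Vw, vd, vf, xr, frame, vbx, hc, loX, hiX]
  split_ifs <;> omega

theorem vAz (n : ℕ × ℕ) : g.Vw (g.frm n) 3 7 11 (g.vd (0, n) 1) ∧
    (¬g.cp n.1 n.2 → g.Vw (g.frm n) 3 7 19 (g.vd (0, n) 1)) := by
  by_cases hc : g.cp n.1 n.2 <;> simp [Vw, vd, vf, xr, frame, vbx, hc, loX, hiX, frm] <;>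
    split_ifs <;> simp only <;> omega

theorem vAz' (h : g.Ok) {n : ℕ × ℕ} (hb : g.valid (0, n)) :
    g.Vw (g.pf n) 13 7 11 (g.vd (0, n) 1) ∧
      (¬g.cp n.1 n.2 → g.Vw (g.pf n) 13 7 19 (g.vd (0, n) 1)) := by
  have := valid_site hb
  have := h.1
  by_cases hc : g.cp n.1 n.2 <;> simp [Vw, vd, vf, xr, frame, vbx, hc, loX, hiX, frm, pf, PY] <;>
    split_ifs <;> simp only at * <;> omega

theorem vd_cp {r i : ℕ} (hb : g.valid (2, r, i)) : g.cp r i := by
  simp [valid] at hb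
  exact hb.2.2

theorem nn_valid {r i : ℕ} (hr : r < g.R) (hi : i < g.W) : g.valid (0, g.nn r i) := by
  have := (nn_spec hr hi).2.2.2
  simp only [valid, true_and, true_or, and_true]
  exact this

theorem vN (h : g.Ok) {r i : ℕ} (hr : r < g.R) (hi : i < g.W) :
    g.Vw (r, i + 1) 10 9 12 (g.vd (0, g.nn r i) 0) ∧
      g.Vw (r, i + 1) 13 7 11 (g.vd (0, g.nn r i) 1) :=
  ⟨pf_nn (r := r) hi ▸ (vAe _).1, pf_nn (r := r) hi ▸ (vAz' h (nn_valid hr hi)).1⟩

theorem vR (h : g.Ok) {r i : ℕ} (hr : r < g.R) (hi : i < g.W) :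
    g.Vw (r, i + 1) 10 14 17 (g.vd (g.inR (g.nn r i)) 0) ∧
      g.Vw (r, i + 1) 13 15 19 (g.vd (g.inR (g.nn r i)) 1) := by
  unfold inR
  split_ifs with hc
  · have e : g.nn r i = (r, i + 1) := by
      have := hc.lt
      unfold nn at *
      split_ifs at * <;> simp at *
    have h1 := io (i := i + 1) hr 2 0 (by decide)
    have h2 := io (i := i + 1) hr 2 1 (by decide)
    simp only [e, Vw, PY] at *
    refine ⟨⟨h1.1.trans ?_, h1.2⟩, h2.1.trans ?_, h2.2⟩ <;> simp [vbx] <;> split_ifs <;> omega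
  · have h1 := (vAe _).2 hc
    have h2 := (vAz' h (nn_valid hr hi)).2 hc
    simp only [pf_nn hi, Vw, loX, hiX] at *
    refine ⟨⟨h1.1, ?_⟩, h2.1, ?_⟩ <;> split_ifs at * <;> omega

theorem frK (k : ℕ) {r i : ℕ} (hr : (g.nx r i (k / 6)).1 < g.R) :
    g.frame 2 (k, r, i) = ((g.nx r i (k / 6)).1, (g.nx r i (k / 6)).2 + 1) := frm_lt hr

theorem vKx {r i k : ℕ} (hk : k = 5 ∨ k = 8) (hr : (g.nx r i (k / 6)).1 < g.R) :
    g.Vw ((g.nx r i (k / 6)).1, (g.nx r i (k / 6)).2 + 1) (vbx k 2).1 (vbx k 2).2.1 (vbx k 2).2.2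
      (g.vd (k, r, i) 2) := by
  have k0 : k ≠ 0 := by omega
  simp [Vw, vd, vf, xr, frame, frm, hk, hr, k0]

theorem vKz (h : g.Ok) {r i k : ℕ} (hk : k = 5 ∨ k = 8) (hr : r < g.R) (hi : i < g.W)
    (hh : g.has r (k / 6)) :
    (i % 4 = 0 → g.Vw ((g.nx r i (k / 6)).1, (g.nx r i (k / 6)).2 + 1) 12 (vbx k 1).2.1 (vbx k 1).2.2
      (g.vd (k, r, i) 1)) ∧
    (¬i % 4 = 0 → g.Vw ((g.nx r i (k / 6)).1, (g.nx r i (k / 6)).2 + 1) 14 (vbx k 1).2.1
      (vbx k 1).2.2 (g.vd (k, r, i) 1)) := by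
  have := h.2.2
  have e := io (i := i) hr k 1 (by rcases hk with rfl | rfl <;> decide)
  have e1 : (vbx k 1).1 = 4 := by rcases hk with rfl | rfl <;> rfl
  refine ⟨fun c => ?_, fun c => ?_⟩
  · have e2 : (g.vd (k, r, i) 1).2 = (kb r (k / 6), kb r (k / 6) + 9) := by
      simp [vd, hk, c, show k ≠ 0 by omega]
    have e3 : (k / 6 = 0 ∧ (vbx k 1).2 = (0, 4)) ∨ (k / 6 = 1 ∧ (vbx k 1).2 = (22, 26)) := by
      rcases hk with rfl | rfl <;> decide
    simp only [Vw, e.1, e1, e2, nx, c, if_true, opp, PY, loX, hiX, kb, has] at hh ⊢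
    rcases e3 with ⟨e3, e4⟩ | ⟨e3, e4⟩ <;> simp only [e3, e4] at hh ⊢ <;>
      split_ifs at * <;> omega
  · simp only [nx, c, if_false]
    refine ⟨e.1.trans ?_, e.2⟩
    simp only [PY, e1]
    split_ifs <;> omega

theorem stems (h : g.Ok) {b : N3} (hb : g.valid b) :
    g.EOk b 3 (g.vd b 0) (g.vd b 1) ∧ g.EOk b 4 (g.vd b 1) (g.vd b 2) := by
  obtain ⟨k, r, i⟩ := b
  by_cases k0 : k = 0
  · subst k0
    exact ⟨mkE 11 9 10 13 1 [] rfl (by decide) rfl
          trivial (vAe _).1 (vAz' h hb).1,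
      mkE 12 9 3 5 0 [(0, 0, true)] rfl (by decide) rfl
          ⟨exf h hb, trivial⟩ (vAz _).1 (vAx _).1⟩
  obtain ⟨hr, hi, hk⟩ := (valid_cases hb).resolve_left fun e => k0 (congrArg Prod.fst e)
  rcases hk.resolve_left k0 with ⟨rfl, hc⟩ | ⟨rfl, hc⟩ | ⟨rfl, ha⟩ | ⟨rfl, ha⟩ | ⟨rfl, hh⟩ |
    ⟨rfl, ha⟩ | ⟨rfl, ha⟩ | ⟨rfl, hh⟩
  · exact ⟨mkE 32 13 4 2 0 [(0, 0, true), (1, 0, true)] rfl (by decide) (frm_lt hr)
          ⟨ex0 hi, iff_of_true hc rfl, trivial⟩ (io hr 1 0 (by decide)) (io hr 1 1 (by decide)),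
      mkE 33 13 2 1 0 [(0, 0, true), (1, 0, true)] rfl (by decide) (frm_lt hr)
          ⟨ex0 hi, iff_of_true hc rfl, trivial⟩ (io hr 1 1 (by decide)) (io hr 1 2 (by decide))⟩
  · exact ⟨mkE 37 17 0 3 0 [(0, 0, true), (1, 0, true)] rfl (by decide) (frm_lt hr)
          ⟨ex0 hi, iff_of_true hc rfl, trivial⟩ (io hr 2 0 (by decide)) (io hr 2 1 (by decide)),
      mkE 38 17 3 5 0 [(0, 0, true), (1, 0, true)] rfl (by decide) (frm_lt hr)
          ⟨ex0 hi, iff_of_true hc rfl, trivial⟩ (io hr 2 1 (by decide)) (io hr 2 2 (by decide))⟩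
  · exact ⟨mkE 48 8 7 6 0 [(2, 0, true)] rfl (by decide) (frm_lt hr)
          ⟨iff_of_true ha rfl, trivial⟩ (io hr 3 0 (by decide)) (io hr 3 1 (by decide)),
      mkE 49 5 6 7 0 [(2, 0, true)] rfl (by decide) (frm_lt hr)
          ⟨iff_of_true ha rfl, trivial⟩ (io hr 3 1 (by decide)) (io hr 3 2 (by decide))⟩
  · exact ⟨mkE 53 5 8 9 0 [(2, 0, true)] rfl (by decide) (frm_lt hr)
          ⟨iff_of_true ha rfl, trivial⟩ (io hr 4 0 (by decide)) (io hr 4 1 (by decide)),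
      mkE 54 8 9 8 0 [(2, 0, true)] rfl (by decide) (frm_lt hr)
          ⟨iff_of_true ha rfl, trivial⟩ (io hr 4 1 (by decide)) (io hr 4 2 (by decide))⟩
  · have hm := (nx_spec h hr hi hh).2.2.1
    refine ⟨mkE 67 2 6 4 0 [] rfl (by decide) (frm_lt hr)
          trivial (io hr 5 0 (by decide)) (io hr 5 1 (by decide)), ?_⟩
    by_cases hw : i % 4 = 0
    · exact mkE 71 2 12 9 2 [(4, 1, true)] rfl (by decide) (frK 5 hm)
          ⟨iff_of_true ((w0x h r 0 hi).2 hw) rfl, trivial⟩ ((vKz h (Or.inl rfl) hr hi hh).1 hw) (vKx (Or.inl rfl) hm)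
    · exact mkE 75 2 14 9 2 [(4, 1, false)] rfl (by decide) (frK 5 hm)
          ⟨iff_of_false (mt (w0x h r 0 hi).1 hw) nofun, trivial⟩ ((vKz h (Or.inl rfl) hr hi hh).2 hw) (vKx (Or.inl rfl) hm)
  · exact ⟨mkE 82 18 7 6 0 [(3, 0, true)] rfl (by decide) (frm_lt hr)
          ⟨iff_of_true ha rfl, trivial⟩ (io hr 6 0 (by decide)) (io hr 6 1 (by decide)),
      mkE 83 21 6 7 0 [(3, 0, true)] rfl (by decide) (frm_lt hr)
          ⟨iff_of_true ha rfl, trivial⟩ (io hr 6 1 (by decide)) (io hr 6 2 (by decide))⟩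
  · exact ⟨mkE 87 21 8 9 0 [(3, 0, true)] rfl (by decide) (frm_lt hr)
          ⟨iff_of_true ha rfl, trivial⟩ (io hr 7 0 (by decide)) (io hr 7 1 (by decide)),
      mkE 88 18 9 8 0 [(3, 0, true)] rfl (by decide) (frm_lt hr)
          ⟨iff_of_true ha rfl, trivial⟩ (io hr 7 1 (by decide)) (io hr 7 2 (by decide))⟩
  · have hm := (nx_spec h hr hi hh).2.2.1
    refine ⟨mkE 101 24 6 4 0 [] rfl (by decide) (frm_lt hr)
          trivial (io hr 8 0 (by decide)) (io hr 8 1 (by decide)), ?_⟩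
    by_cases hw : i % 4 = 0
    · exact mkE 105 24 12 9 2 [(4, 1, true)] rfl (by decide) (frK 8 hm)
          ⟨iff_of_true ((w0x h r 1 hi).2 hw) rfl, trivial⟩ ((vKz h (Or.inr rfl) hr hi hh).1 hw) (vKx (Or.inr rfl) hm)
    · exact mkE 109 24 14 9 2 [(4, 1, false)] rfl (by decide) (frK 8 hm)
          ⟨iff_of_false (mt (w0x h r 1 hi).1 hw) nofun, trivial⟩ ((vKz h (Or.inr rfl) hr hi hh).2 hw) (vKx (Or.inr rfl) hm)

theorem arcs_true (h : g.Ok) {b : N3} (hb : g.valid b) (hs : b ≠ (0, g.R, 0)) :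
    g.EOk b 7 (g.vd b 2) (g.vd (g.succ true b) 0) ∧
      g.EOk b 8 (g.vd b 1) (g.vd (g.succ true b) 1) := by
  obtain ⟨k, r, i⟩ := b
  obtain ⟨hr, hi, hk⟩ := (valid_cases hb).resolve_left hs
  rcases hk with rfl | ⟨rfl, hc⟩ | ⟨rfl, hc⟩ | ⟨rfl, ha⟩ | ⟨rfl, ha⟩ | ⟨rfl, hh⟩ |
    ⟨rfl, ha⟩ | ⟨rfl, ha⟩ | ⟨rfl, hh⟩
  · by_cases ha : g.att r i 0
    · rw [show g.succ true (0, r, i) = (3, r, i) by simp [succ, upT, ha]]
      exact ⟨mkE 15 9 5 7 0 [(2, 0, true)] rfl (by decide) (frm_lt hr)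
          ⟨iff_of_true ha rfl, trivial⟩ (frm_lt hr ▸ (vAx (r, i)).1) (io hr 3 0 (by decide)),
      mkE 16 7 3 6 0 [(2, 0, true)] rfl (by decide) (frm_lt hr)
          ⟨iff_of_true ha rfl, trivial⟩ (frm_lt hr ▸ (vAz (r, i)).1) (io hr 3 1 (by decide))⟩
    · rw [show g.succ true (0, r, i) = (0, g.nn r i) by simp [succ, upT, ha]]
      exact ⟨mkE 17 9 5 10 0 [(2, 0, false)] rfl (by decide) (frm_lt hr)
          ⟨iff_of_false ha nofun, trivial⟩ (frm_lt hr ▸ (vAx (r, i)).1) (vN h hr hi).1,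
      mkE 18 7 3 13 0 [(2, 0, false)] rfl (by decide) (frm_lt hr)
          ⟨iff_of_false ha nofun, trivial⟩ (frm_lt hr ▸ (vAz (r, i)).1) (vN h hr hi).2⟩
  · rw [show g.succ true (1, r, i) = (2, r, i) by simp [succ]]
    exact ⟨mkE 39 14 1 0 0 [(0, 0, true), (1, 0, true)] rfl (by decide) (frm_lt hr)
          ⟨ex0 hi, iff_of_true hc rfl, trivial⟩ (io hr 1 2 (by decide)) (io hr 2 0 (by decide)),
      mkE 40 16 2 3 0 [(0, 0, true), (1, 0, true)] rfl (by decide) (frm_lt hr)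
          ⟨ex0 hi, iff_of_true hc rfl, trivial⟩ (io hr 1 1 (by decide)) (io hr 2 1 (by decide))⟩
  · rw [show g.succ true (2, r, i) = (1, r, i) by simp [succ]]
    exact ⟨mkE 43 14 5 4 0 [(0, 0, true), (1, 0, true)] rfl (by decide) (frm_lt hr)
          ⟨ex0 hi, iff_of_true hc rfl, trivial⟩ (io hr 2 2 (by decide)) (io hr 1 0 (by decide)),
      mkE 44 15 3 2 0 [(0, 0, true), (1, 0, true)] rfl (by decide) (frm_lt hr)
          ⟨ex0 hi, iff_of_true hc rfl, trivial⟩ (io hr 2 1 (by decide)) (io hr 1 1 (by decide))⟩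
  · rw [show g.succ true (3, r, i) = (5, r, i) by simp [succ]]
    exact ⟨mkE 55 3 7 6 0 [(2, 0, true)] rfl (by decide) (frm_lt hr)
          ⟨iff_of_true ha rfl, trivial⟩ (io hr 3 2 (by decide)) (io hr 5 0 (by decide)),
      mkE 56 4 6 4 0 [(2, 0, true)] rfl (by decide) (frm_lt hr)
          ⟨iff_of_true ha rfl, trivial⟩ (io hr 3 1 (by decide)) (io hr 5 1 (by decide))⟩
  · rw [show g.succ true (4, r, i) = (0, g.nn r i) by simp [succ]]
    exact ⟨mkE 59 9 8 10 0 [(2, 0, true)] rfl (by decide) (frm_lt hr)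
          ⟨iff_of_true ha rfl, trivial⟩ (io hr 4 2 (by decide)) (vN h hr hi).1,
      mkE 60 7 9 13 0 [(2, 0, true)] rfl (by decide) (frm_lt hr)
          ⟨iff_of_true ha rfl, trivial⟩ (io hr 4 1 (by decide)) (vN h hr hi).2⟩
  · have hm := (nx_spec h hr hi hh).2.2.1
    by_cases ha : g.att (g.nx r i 0).1 (g.nx r i 0).2 0
    · rw [show g.succ true (5, r, i) = (4, (g.nx r i 0).1, (g.nx r i 0).2) by simp [succ, kS, ha]]
      by_cases hw : i % 4 = 0
      · exact ⟨mkE 68 3 9 8 2 [(2, 0, true)] rfl (by decide) (frK 5 hm)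
          ⟨iff_of_true ha rfl, trivial⟩ (vKx (Or.inl rfl) hm) (io hm 4 0 (by decide)),
      mkE 72 4 12 9 2 [(2, 0, true), (4, 1, true)] rfl (by decide) (frK 5 hm)
          ⟨iff_of_true ha rfl, iff_of_true ((w0x h r 0 hi).2 hw) rfl, trivial⟩ ((vKz h (Or.inl rfl) hr hi hh).1 hw) (io hm 4 1 (by decide))⟩
      · exact ⟨mkE 68 3 9 8 2 [(2, 0, true)] rfl (by decide) (frK 5 hm)
          ⟨iff_of_true ha rfl, trivial⟩ (vKx (Or.inl rfl) hm) (io hm 4 0 (by decide)),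
      mkE 76 4 14 9 2 [(2, 0, true), (4, 1, false)] rfl (by decide) (frK 5 hm)
          ⟨iff_of_true ha rfl, iff_of_false (mt (w0x h r 0 hi).1 hw) nofun, trivial⟩ ((vKz h (Or.inl rfl) hr hi hh).2 hw) (io hm 4 1 (by decide))⟩
    · rw [show g.succ true (5, r, i) = (5, (g.nx r i 0).1, (g.nx r i 0).2) by simp [succ, kS, ha]]
      by_cases hw : i % 4 = 0
      · exact ⟨mkE 69 3 9 6 2 [(2, 0, false)] rfl (by decide) (frK 5 hm)
          ⟨iff_of_false ha nofun, trivial⟩ (vKx (Or.inl rfl) hm) (io hm 5 0 (by decide)),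
      mkE 73 4 12 4 2 [(2, 0, false), (4, 1, true)] rfl (by decide) (frK 5 hm)
          ⟨iff_of_false ha nofun, iff_of_true ((w0x h r 0 hi).2 hw) rfl, trivial⟩ ((vKz h (Or.inl rfl) hr hi hh).1 hw) (io hm 5 1 (by decide))⟩
      · exact ⟨mkE 69 3 9 6 2 [(2, 0, false)] rfl (by decide) (frK 5 hm)
          ⟨iff_of_false ha nofun, trivial⟩ (vKx (Or.inl rfl) hm) (io hm 5 0 (by decide)),
      mkE 77 4 14 4 2 [(2, 0, false), (4, 1, false)] rfl (by decide) (frK 5 hm)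
          ⟨iff_of_false ha nofun, iff_of_false (mt (w0x h r 0 hi).1 hw) nofun, trivial⟩ ((vKz h (Or.inl rfl) hr hi hh).2 hw) (io hm 5 1 (by decide))⟩
  · rw [show g.succ true (6, r, i) = (8, r, i) by simp [succ]]
    exact ⟨mkE 89 23 7 6 0 [(3, 0, true)] rfl (by decide) (frm_lt hr)
          ⟨iff_of_true ha rfl, trivial⟩ (io hr 6 2 (by decide)) (io hr 8 0 (by decide)),
      mkE 90 22 6 4 0 [(3, 0, true)] rfl (by decide) (frm_lt hr)
          ⟨iff_of_true ha rfl, trivial⟩ (io hr 6 1 (by decide)) (io hr 8 1 (by decide))⟩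
  · rw [show g.succ true (7, r, i) = (6, r, i) by simp [succ]]
    exact ⟨mkE 95 17 8 7 0 [(3, 0, true)] rfl (by decide) (frm_lt hr)
          ⟨iff_of_true ha rfl, trivial⟩ (io hr 7 2 (by decide)) (io hr 6 0 (by decide)),
      mkE 96 19 9 6 0 [(3, 0, true)] rfl (by decide) (frm_lt hr)
          ⟨iff_of_true ha rfl, trivial⟩ (io hr 7 1 (by decide)) (io hr 6 1 (by decide))⟩
  · have hm := (nx_spec h hr hi hh).2.2.1
    by_cases ha : g.att (g.nx r i 1).1 (g.nx r i 1).2 1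
    · rw [show g.succ true (8, r, i) = (7, (g.nx r i 1).1, (g.nx r i 1).2) by simp [succ, kS, ha]]
      by_cases hw : i % 4 = 0
      · exact ⟨mkE 102 23 9 8 2 [(3, 0, true)] rfl (by decide) (frK 8 hm)
          ⟨iff_of_true ha rfl, trivial⟩ (vKx (Or.inr rfl) hm) (io hm 7 0 (by decide)),
      mkE 106 22 12 9 2 [(3, 0, true), (4, 1, true)] rfl (by decide) (frK 8 hm)
          ⟨iff_of_true ha rfl, iff_of_true ((w0x h r 1 hi).2 hw) rfl, trivial⟩ ((vKz h (Or.inr rfl) hr hi hh).1 hw) (io hm 7 1 (by decide))⟩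
      · exact ⟨mkE 102 23 9 8 2 [(3, 0, true)] rfl (by decide) (frK 8 hm)
          ⟨iff_of_true ha rfl, trivial⟩ (vKx (Or.inr rfl) hm) (io hm 7 0 (by decide)),
      mkE 110 22 14 9 2 [(3, 0, true), (4, 1, false)] rfl (by decide) (frK 8 hm)
          ⟨iff_of_true ha rfl, iff_of_false (mt (w0x h r 1 hi).1 hw) nofun, trivial⟩ ((vKz h (Or.inr rfl) hr hi hh).2 hw) (io hm 7 1 (by decide))⟩
    · rw [show g.succ true (8, r, i) = (8, (g.nx r i 1).1, (g.nx r i 1).2) by simp [succ, kS, ha]]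
      by_cases hw : i % 4 = 0
      · exact ⟨mkE 103 23 9 6 2 [(3, 0, false)] rfl (by decide) (frK 8 hm)
          ⟨iff_of_false ha nofun, trivial⟩ (vKx (Or.inr rfl) hm) (io hm 8 0 (by decide)),
      mkE 107 22 12 4 2 [(3, 0, false), (4, 1, true)] rfl (by decide) (frK 8 hm)
          ⟨iff_of_false ha nofun, iff_of_true ((w0x h r 1 hi).2 hw) rfl, trivial⟩ ((vKz h (Or.inr rfl) hr hi hh).1 hw) (io hm 8 1 (by decide))⟩
      · exact ⟨mkE 103 23 9 6 2 [(3, 0, false)] rfl (by decide) (frK 8 hm)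
          ⟨iff_of_false ha nofun, trivial⟩ (vKx (Or.inr rfl) hm) (io hm 8 0 (by decide)),
      mkE 111 22 14 4 2 [(3, 0, false), (4, 1, false)] rfl (by decide) (frK 8 hm)
          ⟨iff_of_false ha nofun, iff_of_false (mt (w0x h r 1 hi).1 hw) nofun, trivial⟩ ((vKz h (Or.inr rfl) hr hi hh).2 hw) (io hm 8 1 (by decide))⟩

theorem arcs_false (h : g.Ok) {b : N3} (hb : g.valid b) (hs : b ≠ (0, g.R, 0)) :
    g.EOk b 5 (g.vd b 2) (g.vd (g.succ false b) 0) ∧
      g.EOk b 6 (g.vd b 1) (g.vd (g.succ false b) 1) := by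
  obtain ⟨k, r, i⟩ := b
  obtain ⟨hr, hi, hk⟩ := (valid_cases hb).resolve_left hs
  rcases hk with rfl | ⟨rfl, hc⟩ | ⟨rfl, hc⟩ | ⟨rfl, ha⟩ | ⟨rfl, ha⟩ | ⟨rfl, hh⟩ |
    ⟨rfl, ha⟩ | ⟨rfl, ha⟩ | ⟨rfl, hh⟩
  · by_cases hc : g.cp r i
    · rw [show g.succ false (0, r, i) = (1, r, i) by simp [succ, hc]]
      exact ⟨mkE 19 12 5 4 0 [(0, 0, true), (1, 0, true)] rfl (by decide) (frm_lt hr)
          ⟨ex0 hi, iff_of_true hc rfl, trivial⟩ (frm_lt hr ▸ (vAx (r, i)).1) (io hr 1 0 (by decide)),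
      mkE 20 11 3 2 0 [(0, 0, true), (1, 0, true)] rfl (by decide) (frm_lt hr)
          ⟨ex0 hi, iff_of_true hc rfl, trivial⟩ (frm_lt hr ▸ (vAz (r, i)).1) (io hr 1 1 (by decide))⟩
    by_cases ha : g.att r i 1
    · rw [show g.succ false (0, r, i) = (6, r, i) by simp [succ, dnT, ha, hc]]
      exact ⟨mkE 21 17 5 7 0 [(3, 0, true), (1, 0, false)] rfl (by decide) (frm_lt hr)
          ⟨iff_of_true ha rfl, iff_of_false hc nofun, trivial⟩ (frm_lt hr ▸ (vAx (r, i)).2 hc) (io hr 6 0 (by decide)),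
      mkE 22 19 3 6 0 [(3, 0, true), (1, 0, false)] rfl (by decide) (frm_lt hr)
          ⟨iff_of_true ha rfl, iff_of_false hc nofun, trivial⟩ (frm_lt hr ▸ (vAz (r, i)).2 hc) (io hr 6 1 (by decide))⟩
    · rw [show g.succ false (0, r, i) = g.inR (g.nn r i) by simp [succ, dnT, ha, hc]]
      exact ⟨mkE 23 17 5 10 0 [(3, 0, false), (1, 0, false)] rfl (by decide) (frm_lt hr)
          ⟨iff_of_false ha nofun, iff_of_false hc nofun, trivial⟩ (frm_lt hr ▸ (vAx (r, i)).2 hc) (vR h hr hi).1,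
      mkE 24 19 3 13 0 [(3, 0, false), (1, 0, false)] rfl (by decide) (frm_lt hr)
          ⟨iff_of_false ha nofun, iff_of_false hc nofun, trivial⟩ (frm_lt hr ▸ (vAz (r, i)).2 hc) (vR h hr hi).2⟩
  · rw [show g.succ false (1, r, i) = (0, r, i) by simp [succ]]
    exact ⟨mkE 41 12 1 0 0 [(0, 0, true), (1, 0, true)] rfl (by decide) (frm_lt hr)
          ⟨ex0 hi, iff_of_true hc rfl, trivial⟩ (io hr 1 2 (by decide)) (vAe' hc),
      mkE 42 10 2 3 0 [(0, 0, true), (1, 0, true)] rfl (by decide) (frm_lt hr)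
          ⟨ex0 hi, iff_of_true hc rfl, trivial⟩ (io hr 1 1 (by decide)) (frm_lt hr ▸ (vAz (r, i)).1)⟩
  · by_cases ha : g.att r i 1
    · rw [show g.succ false (2, r, i) = (6, r, i) by simp [succ, dnT, ha]]
      exact ⟨mkE 25 17 5 7 0 [(3, 0, true), (1, 0, true)] rfl (by decide) (frm_lt hr)
          ⟨iff_of_true ha rfl, iff_of_true hc rfl, trivial⟩ (io hr 2 2 (by decide)) (io hr 6 0 (by decide)),
      mkE 26 19 3 6 0 [(3, 0, true), (1, 0, true)] rfl (by decide) (frm_lt hr)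
          ⟨iff_of_true ha rfl, iff_of_true hc rfl, trivial⟩ (io hr 2 1 (by decide)) (io hr 6 1 (by decide))⟩
    · rw [show g.succ false (2, r, i) = g.inR (g.nn r i) by simp [succ, dnT, ha]]
      exact ⟨mkE 27 17 5 10 0 [(3, 0, false), (1, 0, true)] rfl (by decide) (frm_lt hr)
          ⟨iff_of_false ha nofun, iff_of_true hc rfl, trivial⟩ (io hr 2 2 (by decide)) (vR h hr hi).1,
      mkE 28 19 3 13 0 [(3, 0, false), (1, 0, true)] rfl (by decide) (frm_lt hr)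
          ⟨iff_of_false ha nofun, iff_of_true hc rfl, trivial⟩ (io hr 2 1 (by decide)) (vR h hr hi).2⟩
  · rw [show g.succ false (3, r, i) = (4, r, i) by simp [succ]]
    exact ⟨mkE 57 4 7 8 0 [(2, 0, true)] rfl (by decide) (frm_lt hr)
          ⟨iff_of_true ha rfl, trivial⟩ (io hr 3 2 (by decide)) (io hr 4 0 (by decide)),
      mkE 58 6 6 9 0 [(2, 0, true)] rfl (by decide) (frm_lt hr)
          ⟨iff_of_true ha rfl, trivial⟩ (io hr 3 1 (by decide)) (io hr 4 1 (by decide))⟩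
  · rw [show g.succ false (4, r, i) = (3, r, i) by simp [succ]]
    exact ⟨mkE 61 9 8 7 0 [(2, 0, true)] rfl (by decide) (frm_lt hr)
          ⟨iff_of_true ha rfl, trivial⟩ (io hr 4 2 (by decide)) (io hr 3 0 (by decide)),
      mkE 62 7 9 6 0 [(2, 0, true)] rfl (by decide) (frm_lt hr)
          ⟨iff_of_true ha rfl, trivial⟩ (io hr 4 1 (by decide)) (io hr 3 1 (by decide))⟩
  · have hm := (nx_spec h hr hi hh).2.2.1
    rw [show g.succ false (5, r, i) = (5, (g.nx r i 0).1, (g.nx r i 0).2) by simp [succ, kS]]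
    by_cases hw : i % 4 = 0
    · exact ⟨mkE 70 2 9 6 2 [] rfl (by decide) (frK 5 hm)
          trivial (vKx (Or.inl rfl) hm) (io hm 5 0 (by decide)),
      mkE 74 1 12 4 2 [(4, 1, true)] rfl (by decide) (frK 5 hm)
          ⟨iff_of_true ((w0x h r 0 hi).2 hw) rfl, trivial⟩ ((vKz h (Or.inl rfl) hr hi hh).1 hw) (io hm 5 1 (by decide))⟩
    · exact ⟨mkE 70 2 9 6 2 [] rfl (by decide) (frK 5 hm)
          trivial (vKx (Or.inl rfl) hm) (io hm 5 0 (by decide)),
      mkE 78 1 14 4 2 [(4, 1, false)] rfl (by decide) (frK 5 hm)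
          ⟨iff_of_false (mt (w0x h r 0 hi).1 hw) nofun, trivial⟩ ((vKz h (Or.inl rfl) hr hi hh).2 hw) (io hm 5 1 (by decide))⟩
  · rw [show g.succ false (6, r, i) = (7, r, i) by simp [succ]]
    exact ⟨mkE 91 22 7 8 0 [(3, 0, true)] rfl (by decide) (frm_lt hr)
          ⟨iff_of_true ha rfl, trivial⟩ (io hr 6 2 (by decide)) (io hr 7 0 (by decide)),
      mkE 92 20 6 9 0 [(3, 0, true)] rfl (by decide) (frm_lt hr)
          ⟨iff_of_true ha rfl, trivial⟩ (io hr 6 1 (by decide)) (io hr 7 1 (by decide))⟩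
  · rw [show g.succ false (7, r, i) = g.inR (g.nn r i) by simp [succ]]
    exact ⟨mkE 93 17 8 10 0 [(3, 0, true)] rfl (by decide) (frm_lt hr)
          ⟨iff_of_true ha rfl, trivial⟩ (io hr 7 2 (by decide)) (vR h hr hi).1,
      mkE 94 19 9 13 0 [(3, 0, true)] rfl (by decide) (frm_lt hr)
          ⟨iff_of_true ha rfl, trivial⟩ (io hr 7 1 (by decide)) (vR h hr hi).2⟩
  · have hm := (nx_spec h hr hi hh).2.2.1
    rw [show g.succ false (8, r, i) = (8, (g.nx r i 1).1, (g.nx r i 1).2) by simp [succ, kS]]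
    by_cases hw : i % 4 = 0
    · exact ⟨mkE 104 24 9 6 2 [] rfl (by decide) (frK 8 hm)
          trivial (vKx (Or.inr rfl) hm) (io hm 8 0 (by decide)),
      mkE 108 25 12 4 2 [(4, 1, true)] rfl (by decide) (frK 8 hm)
          ⟨iff_of_true ((w0x h r 1 hi).2 hw) rfl, trivial⟩ ((vKz h (Or.inr rfl) hr hi hh).1 hw) (io hm 8 1 (by decide))⟩
    · exact ⟨mkE 104 24 9 6 2 [] rfl (by decide) (frK 8 hm)
          trivial (vKx (Or.inr rfl) hm) (io hm 8 0 (by decide)),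
      mkE 112 25 14 4 2 [(4, 1, false)] rfl (by decide) (frK 8 hm)
          ⟨iff_of_false (mt (w0x h r 1 hi).1 hw) nofun, trivial⟩ ((vKz h (Or.inr rfl) hr hi hh).2 hw) (io hm 8 1 (by decide))⟩

theorem vd_own {r i k j : ℕ} (hr : r < g.R)
    (hk : k ≠ 0 ∧ ¬((k = 5 ∨ k = 8) ∧ j = 2) ∧ ¬((k = 5 ∨ k = 8) ∧ j = 1)) :
    g.vd (k, r, i) j = (g.PY (r, i + 1) (vbx k j).1, loX r (vbx k j).2.1 (vbx k j).2.2,
      hiX r (vbx k j).2.1 (vbx k j).2.2) := by
  obtain ⟨k1, k2, k3⟩ := hk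
  have e : g.vf (k, r, i) j = (r, i + 1) := by simp [vf, k1, k2, frame, frm, hr]
  simp only [vd, e, xr, k1, false_and, if_false, ← and_assoc, k3]

theorem coverW (h : g.Ok) {n : ℕ × ℕ} (hb : g.valid (0, n)) {X : ℤ}
    (hw : n.2 = 0 ∧ 0 < n.1 ∧ n.1 < g.R) (hX : 27 * (n.1 : ℤ) ≤ X + 20 ∧ X ≤ 27 * n.1 + 19) :
    g.Cov (0, n) 1 (2 * (g.vd (0, n) 1).1) X := by
  obtain ⟨r, i⟩ := n
  obtain ⟨rfl, h0, hr⟩ : i = 0 ∧ 0 < r ∧ r < g.R := hw
  have hi := h.2.1
  have hW := h.2.2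
  have hp : g.frame 1 (0, r, 0) = (r - 1, g.W) := by simp [frame, pf, h0.ne']
  have hc : ¬g.cp r 0 := fun e => by simpa using e.lt
  have n0 : g.atom 0 (r - 1) (g.W + 1) ↔ false = true :=
    iff_of_false (by simp only [atom]; omega) nofun
  have n4 : g.atom 4 (r - 1) (g.W + 1) ↔ true = true :=
    iff_of_true (by simp only [atom]; omega) rfl
  by_cases c1 : 27 * (r : ℤ) ≤ X
  · rw [(vAz (r, 0)).1.1, frm_lt hr]
    by_cases c2 : 27 * (r : ℤ) + 7 ≤ X
    · exact mkV 3 3 7 19 0 [(0, 0, true), (1, 0, false)] rfl (frm_lt hr) ⟨ex0 hi, iff_of_false hc nofun, trivial⟩ 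
        (by simp only [loX, hiX]; split_ifs <;> omega)
    by_cases c3 : r % 2 = 0
    · exact mkV 5 3 0 6 0 [(0, 0, true), (4, 0, true)] rfl (frm_lt hr) ⟨ex0 hi, iff_of_true rfl rfl, trivial⟩ 
        (by simp only [loX, hiX]; split_ifs <;> omega)
    · exact mkV 6 3 20 26 0 [(0, 0, true), (4, 0, true)] rfl (frm_lt hr) ⟨ex0 hi, iff_of_true rfl rfl, trivial⟩ 
        (by simp only [loX, hiX]; split_ifs <;> omega)
  · rw [(vAz' h hb).1.1, show g.pf (r, 0) = (r - 1, g.W) from hp]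
    by_cases c2 : X + 8 ≤ 27 * (r : ℤ)
    · exact mkV 4 13 7 19 1 [(0, 1, false)] rfl hp ⟨n0, trivial⟩ 
        (by simp only [loX, hiX]; split_ifs <;> omega)
    by_cases c3 : r % 2 = 0
    · exact mkV 7 13 0 6 1 [(4, 1, true), (0, 1, false)] rfl hp ⟨n4, n0, trivial⟩ 
        (by simp only [loX, hiX]; split_ifs <;> omega)
    · exact mkV 8 13 20 26 1 [(4, 1, true), (0, 1, false)] rfl hp ⟨n4, n0, trivial⟩ 
        (by simp only [loX, hiX]; split_ifs <;> omega)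

theorem coverA (h : g.Ok) {n : ℕ × ℕ} (hb : g.valid (0, n)) {j : ℕ} (hj : j < 3) {X : ℤ}
    (hX : (g.vd (0, n) j).2.1 ≤ X ∧ X ≤ (g.vd (0, n) j).2.2) :
    g.Cov (0, n) j (2 * (g.vd (0, n) j).1) X := by
  rcases (by omega : j = 0 ∨ j = 1 ∨ j = 2) with rfl | rfl | rfl
  · by_cases hc : g.cp n.1 n.2
    · exact mkV 0 10 9 12 1 [(1, 1, true)] rfl rfl ⟨iff_of_true ((cpp n).2 hc) rfl, trivial⟩ 
        (by simpa [vd, xr, vf, vbx, hc] using hX)
    · exact mkV 1 10 9 17 1 [(1, 1, false)] rfl rfl ⟨iff_of_false (mt (cpp n).1 hc) nofun, trivial⟩ 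
        (by simpa [vd, xr, vf, vbx, hc] using hX)
  · by_cases hw : n.2 = 0 ∧ 0 < n.1 ∧ n.1 < g.R
    · exact coverW h hb hw (by simpa [vd, hw] using hX)
    by_cases hc : g.cp n.1 n.2
    · exact mkV 2 3 7 11 0 [(0, 0, true), (1, 0, true)] rfl rfl ⟨exf h hb, iff_of_true ((cpf hb).2 hc) rfl, trivial⟩ 
        (by simpa [vd, xr, vf, vbx, hc, hw] using hX)
    · exact mkV 3 3 7 19 0 [(0, 0, true), (1, 0, false)] rfl rfl ⟨exf h hb, iff_of_false (mt (cpf hb).1 hc) nofun, trivial⟩ 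
        (by simpa [vd, xr, vf, vbx, hc, hw] using hX)
  · by_cases hc : g.cp n.1 n.2
    · exact mkV 9 5 9 12 0 [(0, 0, true), (1, 0, true)] rfl rfl ⟨exf h hb, iff_of_true ((cpf hb).2 hc) rfl, trivial⟩ 
        (by simpa [vd, xr, vf, vbx, hc] using hX)
    · exact mkV 10 5 9 17 0 [(0, 0, true), (1, 0, false)] rfl rfl ⟨exf h hb, iff_of_false (mt (cpf hb).1 hc) nofun, trivial⟩ 
        (by simpa [vd, xr, vf, vbx, hc] using hX)

theorem coverK (h : g.Ok) {k r i : ℕ} (hk : k = 5 ∨ k = 8) (hr : r < g.R) (hi : i < g.W)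
    (hh : g.has r (k / 6)) {X : ℤ}
    (hX : (g.vd (k, r, i) 1).2.1 ≤ X ∧ X ≤ (g.vd (k, r, i) 1).2.2) :
    g.Cov (k, r, i) 1 (2 * (g.vd (k, r, i) 1).1) X := by
  have hm := (nx_spec h hr hi hh).2.2.1
  have e1 := (io (i := i) hr k 1 (by rcases hk with rfl | rfl <;> decide)).1
  by_cases c1 : loX r (vbx k 1).2.1 (vbx k 1).2.2 ≤ X ∧ X ≤ hiX r (vbx k 1).2.1 (vbx k 1).2.2
  · rw [e1]
    rcases hk with rfl | rfl
    · exact mkV 64 4 0 4 0 [] rfl (frm_lt hr) trivial c1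
    · exact mkV 98 4 22 26 0 [] rfl (frm_lt hr) trivial c1
  have hw : i % 4 = 0 := by
    by_contra hw
    exact c1 (by simpa [vd, xr, vf, frame, frm, hr, hw, show k ≠ 0 by omega] using hX)
  have e2 : (g.vd (k, r, i) 1).2 = (kb r (k / 6), kb r (k / 6) + 9) := by
    simp [vd, hk, hw, show k ≠ 0 by omega]
  rw [((vKz h hk hr hi hh).1 hw).1]
  rw [e2] at hX
  rcases hk with rfl | rfl
  · refine mkV 65 12 0 4 2 [(4, 1, true)] rfl (frK 5 hm) ⟨iff_of_true ((w0x h r 0 hi).2 hw) rfl, trivial⟩ ?_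
    rw [show vbx 5 1 = (4, 0, 4) from rfl] at c1
    simp only [loX, hiX, kb, nx, hw, if_true, opp, has, Nat.reduceDiv] at c1 hX hh ⊢
    split_ifs at * <;> omega
  · refine mkV 99 12 22 26 2 [(4, 1, true)] rfl (frK 8 hm) ⟨iff_of_true ((w0x h r 1 hi).2 hw) rfl, trivial⟩ ?_
    rw [show vbx 8 1 = (4, 22, 26) from rfl] at c1
    simp only [loX, hiX, kb, nx, hw, if_true, opp, has, Nat.reduceDiv] at c1 hX hh ⊢
    split_ifs at * <;> omega

theorem coverV (h : g.Ok) {b : N3} (hb : g.valid b) {j : ℕ} (hj : j < 3) {X : ℤ}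
    (hX : (g.vd b j).2.1 ≤ X ∧ X ≤ (g.vd b j).2.2) : g.Cov b j (2 * (g.vd b j).1) X := by
  obtain ⟨k, r, i⟩ := b
  by_cases k0 : k = 0
  · subst k0
    exact coverA h hb hj hX
  obtain ⟨hr, hi, hk⟩ := (valid_cases hb).resolve_left fun e => k0 (congrArg Prod.fst e)
  rcases hk.resolve_left k0 with ⟨rfl, hc⟩ | ⟨rfl, hc⟩ | ⟨rfl, ha⟩ | ⟨rfl, ha⟩ | ⟨rfl, hh⟩ |
    ⟨rfl, ha⟩ | ⟨rfl, ha⟩ | ⟨rfl, hh⟩ <;>
    rcases (by omega : j = 0 ∨ j = 1 ∨ j = 2) with rfl | rfl | rfl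
  · simp (disch := decide) only [vd_own hr] at hX ⊢
    exact mkV 29 4 12 14 0 [(0, 0, true), (1, 0, true)] rfl (frm_lt hr) ⟨ex0 hi, iff_of_true hc rfl, trivial⟩ hX
  · simp (disch := decide) only [vd_own hr] at hX ⊢
    exact mkV 30 2 10 16 0 [(0, 0, true), (1, 0, true)] rfl (frm_lt hr) ⟨ex0 hi, iff_of_true hc rfl, trivial⟩ hX
  · simp (disch := decide) only [vd_own hr] at hX ⊢
    exact mkV 31 1 12 14 0 [(0, 0, true), (1, 0, true)] rfl (frm_lt hr) ⟨ex0 hi, iff_of_true hc rfl, trivial⟩ hX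
  · simp (disch := decide) only [vd_own hr] at hX ⊢
    exact mkV 34 0 14 17 0 [(0, 0, true), (1, 0, true)] rfl (frm_lt hr) ⟨ex0 hi, iff_of_true hc rfl, trivial⟩ hX
  · simp (disch := decide) only [vd_own hr] at hX ⊢
    exact mkV 35 3 15 19 0 [(0, 0, true), (1, 0, true)] rfl (frm_lt hr) ⟨ex0 hi, iff_of_true hc rfl, trivial⟩ hX
  · simp (disch := decide) only [vd_own hr] at hX ⊢
    exact mkV 36 5 14 17 0 [(0, 0, true), (1, 0, true)] rfl (frm_lt hr) ⟨ex0 hi, iff_of_true hc rfl, trivial⟩ hX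
  · simp (disch := decide) only [vd_own hr] at hX ⊢
    exact mkV 45 7 8 9 0 [(2, 0, true)] rfl (frm_lt hr) ⟨iff_of_true ha rfl, trivial⟩ hX
  · simp (disch := decide) only [vd_own hr] at hX ⊢
    exact mkV 46 6 4 8 0 [(2, 0, true)] rfl (frm_lt hr) ⟨iff_of_true ha rfl, trivial⟩ hX
  · simp (disch := decide) only [vd_own hr] at hX ⊢
    exact mkV 47 7 3 5 0 [(2, 0, true)] rfl (frm_lt hr) ⟨iff_of_true ha rfl, trivial⟩ hX
  · simp (disch := decide) only [vd_own hr] at hX ⊢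
    exact mkV 50 8 3 5 0 [(2, 0, true)] rfl (frm_lt hr) ⟨iff_of_true ha rfl, trivial⟩ hX
  · simp (disch := decide) only [vd_own hr] at hX ⊢
    exact mkV 51 9 4 8 0 [(2, 0, true)] rfl (frm_lt hr) ⟨iff_of_true ha rfl, trivial⟩ hX
  · simp (disch := decide) only [vd_own hr] at hX ⊢
    exact mkV 52 8 8 9 0 [(2, 0, true)] rfl (frm_lt hr) ⟨iff_of_true ha rfl, trivial⟩ hX
  · simp (disch := decide) only [vd_own hr] at hX ⊢
    exact mkV 63 6 2 3 0 [] rfl (frm_lt hr) trivial hX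
  · exact coverK h (Or.inl rfl) hr hi hh hX
  · exact mkV 66 9 2 3 2 [] rfl rfl trivial hX
  · simp (disch := decide) only [vd_own hr] at hX ⊢
    exact mkV 79 7 17 18 0 [(3, 0, true)] rfl (frm_lt hr) ⟨iff_of_true ha rfl, trivial⟩ hX
  · simp (disch := decide) only [vd_own hr] at hX ⊢
    exact mkV 80 6 18 22 0 [(3, 0, true)] rfl (frm_lt hr) ⟨iff_of_true ha rfl, trivial⟩ hX
  · simp (disch := decide) only [vd_own hr] at hX ⊢
    exact mkV 81 7 21 23 0 [(3, 0, true)] rfl (frm_lt hr) ⟨iff_of_true ha rfl, trivial⟩ hX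
  · simp (disch := decide) only [vd_own hr] at hX ⊢
    exact mkV 84 8 21 23 0 [(3, 0, true)] rfl (frm_lt hr) ⟨iff_of_true ha rfl, trivial⟩ hX
  · simp (disch := decide) only [vd_own hr] at hX ⊢
    exact mkV 85 9 18 22 0 [(3, 0, true)] rfl (frm_lt hr) ⟨iff_of_true ha rfl, trivial⟩ hX
  · simp (disch := decide) only [vd_own hr] at hX ⊢
    exact mkV 86 8 17 18 0 [(3, 0, true)] rfl (frm_lt hr) ⟨iff_of_true ha rfl, trivial⟩ hX
  · simp (disch := decide) only [vd_own hr] at hX ⊢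
    exact mkV 97 6 23 24 0 [] rfl (frm_lt hr) trivial hX
  · exact coverK h (Or.inr rfl) hr hi hh hX
  · exact mkV 100 9 23 24 2 [] rfl rfl trivial hX

theorem vbx_le : ∀ k < 9, ∀ j < 3, (vbx k j).1 ≤ 10 ∧ (vbx k j).2.1 ≤ (vbx k j).2.2 ∧
    (vbx k j).2.2 ≤ 26 ∧
    (k = 0 → (vbx k j).2.1 ≤ 17 ∧ (j = 0 → (vbx k j).1 = 10) ∧ (j ≠ 0 → (vbx k j).1 ≤ 5)) ∧
    ((vbx k j).1 = 0 → k = 2) := by
  intro k hk j hj
  interval_cases k <;> interval_cases j <;> simp [vbx]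

theorem vf_spec (h : g.Ok) (hR : g.R % 2 = 1) {k r i : ℕ} (hb : g.valid (k, r, i)) (j : ℕ)
    {F : ℕ × ℕ} (hF : g.vf (k, r, i) j = F) : F.1 < g.R ∧ (k = 2 → 2 ≤ F.2) ∧
      ((1 ≤ F.2 ∧ F.2 ≤ g.W) ∨ (F.1 % 2 = 0 ∧ k = 0 ∧
        ((F.2 = 0 ∧ j = 0) ∨ (F.2 = g.W + 1 ∧ j ≠ 0)))) := by
  have hs := valid_site hb
  have h1 := h.1
  have h2 := h.2.1
  subst hF
  unfold vf
  split_ifs with c1 c2
  · obtain ⟨rfl, rfl⟩ : k = 0 ∧ j = 0 := c1
    simp only [frame, pf, one_ne_zero, if_false, if_true]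
    split_ifs <;> simp <;> omega
  · obtain ⟨u1, u2, u3⟩ := valid_has hb c2.1
    obtain ⟨-, -, x1, x2, -⟩ := nx_spec h u1 u2 u3
    rw [frK k x1]
    simp only at c2 ⊢
    omega
  · have h3 : k = 2 → 0 < i := fun e => by
      subst e
      exact (vd_cp hb).lt.2.1
    have h4 : k ≠ 0 → r < g.R := fun e => by
      unfold valid at hb
      simp only at hb
      omega
    simp only [frame, frm, if_true] at c1 ⊢
    split_ifs <;> simp only [true_and] <;> omega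

theorem bounds (h : g.Ok) (hR : g.R % 2 = 1) {b : N3} (hb : g.valid b) {j : ℕ} (hj : j < 3) :
    9 < (g.vd b j).1 ∧ (g.vd b j).1 < 10 * g.W + 16 ∧ 0 ≤ (g.vd b j).2.1 ∧
      (g.vd b j).2.1 ≤ (g.vd b j).2.2 ∧ (g.vd b j).2.2 ≤ 27 * g.R := by
  obtain ⟨k, r, i⟩ := b
  have hv := vbx_le k (g.valid_lt hb).1 j hj
  have hf := vf_spec h hR hb j rfl
  have hx : (vbx k j).2.1 ≤ g.xr (k, r, i) j ∧ g.xr (k, r, i) j ≤ 26 := by
    unfold xr
    split_ifs <;> simp only at * <;> omega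
  refine ⟨?_, ?_, ?_⟩
  · simp only [vd, PY]
    split_ifs <;> omega
  · simp only [vd, PY]
    split_ifs <;> omega
  · simp only [vd]
    split_ifs with c1 c2
    · simp only
      omega
    · have := valid_has hb c2.1
      simp only [kb, has] at this ⊢
      split_ifs at * <;> omega
    · simp only [loX, hiX]
      split_ifs <;> omega

/-- The bars of the skeleton. -/
noncomputable def bar (g : Gd) : g.Bk × Fin 3 ⊕ Bool → ℤ × ℤ × ℤ
  | .inl a => g.vd a.1.1 a.2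
  | .inr false => (9, 0, 27 * g.R)
  | .inr true => (10 * g.W + 16, 0, 27 * g.R)

/-- The block and the number of an edge of the skeleton. -/
noncomputable def ecode (h : g.Ok) : SkE (dg h) → g.Bk × ℕ
  | .inl (b, false) => (b, 3)
  | .inl (b, true) => (b, 4)
  | .inr (.inl (u, false, false)) => (u.1, 5)
  | .inr (.inl (u, false, true)) => (u.1, 6)
  | .inr (.inl (u, true, false)) => (u.1, 7)
  | .inr (.inl (u, true, true)) => (u.1, 8)
  | .inr (.inr false) => ((dg h).src, 9)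
  | .inr (.inr true) => ((dg h).snk, 10)

theorem ecode_inj (h : g.Ok) : Function.Injective (ecode h) := by
  rintro (⟨b, _ | _⟩ | ⟨u, _ | _, _ | _⟩ | _ | _) (⟨b', _ | _⟩ | ⟨u', _ | _, _ | _⟩ | _ | _) e <;>
    first | rfl | (simp [ecode] at e; done) | simpa [ecode, Subtype.ext_iff] using e

theorem ecode_ge (h : g.Ok) (e : SkE (dg h)) : 3 ≤ (ecode h e).2 := by
  rcases e with ⟨b, _ | _⟩ | ⟨u, _ | _, _ | _⟩ | _ | _ <;> simp [ecode]

theorem edges (h : g.Ok) (hR : g.R % 2 = 1) (e : SkE (dg h)) :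
    g.EOk (ecode h e).1.1 (ecode h e).2 (g.bar (sku (dg h) e)) (g.bar (skv (dg h) e)) := by
  have h1 := h.1
  have ne : ∀ u : {u // u ≠ (dg h).snk}, u.1.1 ≠ (0, g.R, 0) := fun u e => u.2 (Subtype.ext e)
  rcases e with ⟨b, _ | _⟩ | ⟨u, _ | _, _ | _⟩ | _ | _
  · exact (stems h b.2).1
  · exact (stems h b.2).2
  · have := (arcs_false h u.1.2 (ne u)).1
    rwa [← dg_s h false _ u.2] at this
  · have := (arcs_false h u.1.2 (ne u)).2
    rwa [← dg_s h false _ u.2] at this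
  · have := (arcs_true h u.1.2 (ne u)).1
    rwa [← dg_s h true _ u.2] at this
  · have := (arcs_true h u.1.2 (ne u)).2
    rwa [← dg_s h true _ u.2] at this
  · have v : g.Vw (g.pf (0, 0)) 9 13 13 (9, 0, 27 * g.R) := by
      simp [Vw, pf, PY, loX, hiX]
      omega
    exact mkE 13 13 9 10 1 [] rfl (by decide) rfl
          trivial v ((vAe (0, 0)).2 fun e => by simpa using e.lt)
  · have v : g.Vw (g.frm (g.R, 0)) 6 13 13 (10 * g.W + 16, 0, 27 * g.R) := by
      simp only [Vw, frm, PY, loX, hiX, lt_irrefl, if_false]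
      split_ifs <;> omega
    exact mkE 14 13 5 6 0 [] rfl (by decide) rfl
          trivial ((vAx (g.R, 0)).2 fun e => by simpa using e.lt) v

/-- Row `r` of the grid is drawn as a vertical band of 27 columns, upwards for even `r`, downwards
for odd `r`; every object is covered by pieces from the table, and different pieces are disjoint. -/
theorem skeleton (h : g.Ok) (hR : g.R % 2 = 1) : Nonempty (FVis (sku (dg h)) (skv (dg h))) := by
  choose c c1 c2 c3 c4 using edges h hR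
  have hb := fun a : g.Bk × Fin 3 => bounds h hR a.1.2 a.2.2
  have hy : ∀ a, 9 ≤ (g.bar a).1 ∧ (g.bar a).1 ≤ 10 * g.W + 16 := by
    rintro (a | _ | _)
    · exact ⟨(hb a).1.le, (hb a).2.1.le⟩
    · simp only [bar]
      omega
    · simp only [bar]
      omega
  refine ⟨{
    y := fun a => (g.bar a).1
    l := fun a => (g.bar a).2.1
    r := fun a => (g.bar a).2.2
    c := c
    lr := ?_
    ne := c1
    cu := c2
    cv := c3
    vv := ?_
    ve := ?_
    ee := fun e e' hne hc => ?_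
    lo := fun a => (hb a).1
    hi := fun a => (hb a).2.1
    le := fun a => (hb a).2.2.1
    ge := fun a => (hb a).2.2.2.2
    ltop := rfl
    rtop := rfl }⟩
  · rintro (a | _ | _)
    · exact (hb a).2.2.2.1
    · simp only [bar]
      omega
    · simp only [bar]
      omega
  · rintro (a | _ | _) (b | _ | _) hne e
    · by_contra hc
      have a1 := hb a
      have b1 := hb b
      simp only [bar] at hc e
      have u := coverV h a.1.2 a.2.2 (X := max (g.vd a.1.1 a.2).2.1 (g.vd b.1.1 b.2).2.1) (by omega)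
      have v := coverV h b.1.2 b.2.2 (X := max (g.vd a.1.1 a.2).2.1 (g.vd b.1.1 b.2).2.1) (by omega)
      rw [e] at u
      obtain ⟨e1, e2⟩ := Cov.uniq h a.1.2 b.1.2 u v
      exact hne (congrArg _ (Prod.ext (Subtype.ext e1) (Fin.ext e2)))
    · exact absurd e (hb a).1.ne'
    · exact absurd e (hb a).2.1.ne
    · exact absurd e (hb b).1.ne
    · exact absurd rfl hne
    · simp only [bar] at e
      omega
    · exact absurd e (hb b).2.1.ne'
    · simp only [bar] at e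
      omega
    · exact absurd rfl hne
  · intro a e h1 h2
    have y1 := hy (sku (dg h) e)
    have y2 := hy (skv (dg h) e)
    rcases a with a | _ | _
    · by_contra hc
      have u := coverV h a.1.2 a.2.2 (X := c e) (by simp only [bar] at hc; omega)
      have v := c4 e (2 * (g.bar (.inl a)).1) (by omega) (by omega)
      have e2 := (Cov.uniq h a.1.2 (ecode h e).1.2 u v).2
      have := ecode_ge h e
      omega
    · exact absurd h1 (not_lt.2 (le_min y1.1 y2.1))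
    · exact absurd h2 (not_lt.2 (max_le y1.2 y2.2))
  · by_contra hc'
    have n1 := c1 e
    have n2 := c1 e'
    have u := c4 e (2 * max (min (g.bar (sku (dg h) e)).1 (g.bar (skv (dg h) e)).1)
      (min (g.bar (sku (dg h) e')).1 (g.bar (skv (dg h) e')).1) + 1) (by omega) (by omega)
    have v := c4 e' (2 * max (min (g.bar (sku (dg h) e)).1 (g.bar (skv (dg h) e)).1)
      (min (g.bar (sku (dg h) e')).1 (g.bar (skv (dg h) e')).1) + 1) (by omega) (by omega)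
    rw [hc] at u
    obtain ⟨e1, e2⟩ := Cov.uniq h (ecode h e).1.2 (ecode h e').1.2 u v
    exact hne (ecode_inj h (Prod.ext (Subtype.ext e1) e2))

end Pool.Agent.MP_06c78e_co.H40.Gd

end

-- part MP_06c78e_co.H40.GridNo
section

/-! A Hamiltonian path of the digraph gives a solution of the grid formula. -/

namespace Pool.Agent.MP_06c78e_co.H40.Gd

variable {g : Gd}

/-- The three properties of a Hamiltonian path. -/
structure Sol (g : Gd) (σ : N3 → N3) (ρ : N3 → ℝ) : Prop where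
  st : ∀ u, g.valid u → u ≠ (0, g.R, 0) → (∃ T, σ u = g.succ T u) ∧ ρ u < ρ (σ u)
  inj : ∀ u v, g.valid u → g.valid v → u ≠ (0, g.R, 0) → v ≠ (0, g.R, 0) → σ u = σ v → u = v
  pr : ∀ w, g.valid w → w ≠ (0, 0, 0) → ∃ T, σ (g.pred T w) = w

/-- A valid block at a site. -/
def Vd (g : Gd) (u : N3) : Prop := g.valid u ∧ u.2.1 < g.R

variable {σ : N3 → N3} {ρ : N3 → ℝ}

theorem Vd.ne {u : N3} (h : g.Vd u) : u ≠ (0, g.R, 0) := fun e => by
  have := h.2; rw [e] at this; exact lt_irrefl _ this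

theorem vd0 {r i : ℕ} (hr : r < g.R) (hi : i < g.W) : g.Vd (0, r, i) :=
  ⟨Or.inr ⟨hr, hi, Or.inl rfl⟩, hr⟩

theorem vd1 {r i : ℕ} (h : g.cp r i) : g.Vd (1, r, i) :=
  ⟨Or.inr ⟨h.lt.1, h.lt.2.2, by simp [h]⟩, h.lt.1⟩

theorem vd2 {r i : ℕ} (h : g.cp r i) : g.Vd (2, r, i) :=
  ⟨Or.inr ⟨h.lt.1, h.lt.2.2, by simp [h]⟩, h.lt.1⟩

theorem vd3 {r i : ℕ} (h : g.att r i 0) : g.Vd (3, r, i) :=
  ⟨Or.inr ⟨h.lt.1, h.lt.2.1, by simp [h]⟩, h.lt.1⟩

theorem vd4 {r i : ℕ} (h : g.att r i 0) : g.Vd (4, r, i) :=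
  ⟨Or.inr ⟨h.lt.1, h.lt.2.1, by simp [h]⟩, h.lt.1⟩

theorem vd5 {r i : ℕ} (hr : r < g.R) (hi : i < g.W) (h : g.has r 0) : g.Vd (5, r, i) :=
  ⟨Or.inr ⟨hr, hi, by simp [h]⟩, hr⟩

theorem vd6 {r i : ℕ} (h : g.att r i 1) : g.Vd (6, r, i) :=
  ⟨Or.inr ⟨h.lt.1, h.lt.2.1, by simp [h]⟩, h.lt.1⟩

theorem vd7 {r i : ℕ} (h : g.att r i 1) : g.Vd (7, r, i) :=
  ⟨Or.inr ⟨h.lt.1, h.lt.2.1, by simp [h]⟩, h.lt.1⟩

theorem vd8 {r i : ℕ} (hr : r < g.R) (hi : i < g.W) (h : g.has r 1) : g.Vd (8, r, i) :=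
  ⟨Or.inr ⟨hr, hi, by simp [h]⟩, hr⟩

theorem vdR {r i : ℕ} (hr : r < g.R) (hi : i < g.W) : g.Vd (g.inR (r, i)) := by
  unfold inR
  split_ifs with h
  · exact vd2 h
  · exact vd0 hr hi

theorem Sol.two (s : Sol g σ ρ) {u : N3} (h : g.Vd u) :
    σ u = g.succ true u ∨ σ u = g.succ false u := by
  obtain ⟨T, e⟩ := (s.st u h.1 h.ne).1
  cases T
  · exact Or.inr e
  · exact Or.inl e

theorem Sol.lt (s : Sol g σ ρ) {u w : N3} (h : g.Vd u) (e : σ u = w) : ρ u < ρ w :=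
  e ▸ (s.st u h.1 h.ne).2

theorem Sol.eq (s : Sol g σ ρ) {u u' w : N3} (h : g.Vd u) (h' : g.Vd u') (e : σ u = w)
    (e' : σ u' = w) : u = u' := s.inj u u' h.1 h'.1 h.ne h'.ne (e.trans e'.symm)

theorem Sol.pre (s : Sol g σ ρ) {w : N3} (h : g.Vd w) (h0 : w.1 ≠ 0) :
    σ (g.pred true w) = w ∨ σ (g.pred false w) = w := by
  obtain ⟨T, e⟩ := s.pr w h.1 fun e => h0 (by rw [e])
  cases T
  · exact Or.inr e
  · exact Or.inl e

theorem upT_fst (r i : ℕ) : (g.upT r i).1 = 3 ∨ (g.upT r i).1 = 0 := by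
  unfold upT
  split_ifs <;> simp

theorem inR_fst (n : ℕ × ℕ) : (g.inR n).1 = 2 ∨ (g.inR n).1 = 0 := by
  unfold inR
  split_ifs <;> simp

theorem Sol.up (s : Sol g σ ρ) {r i : ℕ} (hr : r < g.R) (hi : i < g.W)
    (hv : σ (0, r, i) = g.upT r i) : ∃ u, g.Vd u ∧ u.1 ≠ 1 ∧ σ u = (0, g.nn r i) := by
  by_cases ha : g.att r i 0
  · refine ⟨(4, r, i), vd4 ha, by simp, ?_⟩
    rcases s.two (vd4 ha) with e | e
    · simpa [succ] using e
    · have := s.eq (vd4 ha) (vd0 hr hi) (w := (3, r, i)) (by simpa [succ] using e)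
        (by simpa [upT, ha] using hv)
      simp at this
  · exact ⟨(0, r, i), vd0 hr hi, by simp, by simpa [upT, ha] using hv⟩

theorem Sol.dn (s : Sol g σ ρ) {r i : ℕ} (hr : r < g.R) (hi : i < g.W)
    (hv : σ (0, r, i) ≠ g.upT r i) : ∃ u, g.Vd u ∧ u.1 ≠ 1 ∧ σ u = g.inR (g.nn r i) := by
  have e0 := (s.two (vd0 hr hi)).resolve_left (by simpa [succ] using hv)
  have e1 : σ (g.inR (r, i)) = g.dnT r i := by
    by_cases hc : g.cp r i
    · rcases s.two (vd2 hc) with e | e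
      · have := s.eq (vd2 hc) (vd0 hr hi) (w := (1, r, i)) (by simpa [succ] using e)
          (by simpa [succ, hc] using e0)
        simp at this
      · simpa [succ, inR, hc] using e
    · simpa [succ, inR, hc] using e0
  have f1 := inR_fst (g := g) (r, i)
  by_cases ha : g.att r i 1
  · refine ⟨(7, r, i), vd7 ha, by simp, ?_⟩
    rcases s.two (vd7 ha) with e | e
    · have := s.eq (vd7 ha) (vdR hr hi) (w := (6, r, i)) (by simpa [succ] using e)
        (by simpa [dnT, ha] using e1)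
      rw [← this] at f1
      simp at f1
    · simpa [succ] using e
  · exact ⟨g.inR (r, i), vdR hr hi, by omega, by simpa [dnT, ha] using e1⟩

theorem Sol.flip (s : Sol g σ ρ) {r i : ℕ} (hc : g.cp r (i + 1)) :
    σ (0, r, i + 1) = g.upT r (i + 1) ↔ σ (0, r, i) ≠ g.upT r i := by
  obtain ⟨hr, -, hi⟩ := hc.lt
  have hn : g.nn r i = (r, i + 1) := by simp [nn, hi]
  by_cases hv : σ (0, r, i) = g.upT r i
  · obtain ⟨u, u1, u2, u3⟩ := s.up hr (by omega) hv
    rw [hn] at u3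
    have e1 : σ (1, r, i + 1) = (2, r, i + 1) := by
      rcases s.two (vd1 hc) with e | e
      · simpa [succ] using e
      · have := s.eq u1 (vd1 hc) u3 (by simpa [succ] using e)
        rw [this] at u2
        simp at u2
    have e2 : σ (0, r, i + 1) = (1, r, i + 1) := by
      rcases s.pre (vd1 hc) (by simp) with e | e
      · exact absurd (s.lt (vd1 hc) e1) (s.lt (vd2 hc) (by simpa [pred] using e)).le.not_gt
      · simpa [pred] using e
    have f := upT_fst (g := g) r (i + 1)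
    simp only [hv, ne_eq, not_true, iff_false]
    intro e
    rw [← e, e2] at f
    simp at f
  · obtain ⟨u, u1, u2, u3⟩ := s.dn hr (by omega) hv
    rw [hn] at u3
    have e1 : σ (1, r, i + 1) = (0, r, i + 1) := by
      rcases s.two (vd1 hc) with e | e
      · have := s.eq u1 (vd1 hc) (w := (2, r, i + 1)) (by simpa [inR, hc] using u3)
          (by simpa [succ] using e)
        rw [this] at u2
        simp at u2
      · simpa [succ] using e
    simp only [hv, ne_eq, not_false_iff, iff_true]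
    rcases s.two (vd0 hr hi) with e | e
    · simpa [succ] using e
    · exact absurd (s.lt (vd1 hc) e1)
        (s.lt (vd0 hr hi) (w := (1, r, i + 1)) (by simpa [succ, hc] using e)).le.not_gt

theorem Sol.dead0 (s : Sol g σ ρ) {r i : ℕ} (ha : g.att r i 0) (hv : σ (0, r, i) ≠ g.upT r i) :
    ρ (4, r, i) < ρ (5, r, i) := by
  have e1 : σ (4, r, i) = (3, r, i) := by
    rcases s.pre (vd3 ha) (by simp) with e | e
    · exact absurd (by simpa [pred, upT, ha] using e) hv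
    · simpa [pred] using e
  have l1 := s.lt (vd4 ha) e1
  rcases s.two (vd3 ha) with e | e
  · exact l1.trans (s.lt (vd3 ha) (by simpa [succ] using e))
  · exact absurd l1 (s.lt (vd3 ha) (w := (4, r, i)) (by simpa [succ] using e)).le.not_gt

theorem Sol.dead1 (s : Sol g σ ρ) {r i : ℕ} (ha : g.att r i 1) (hv : σ (0, r, i) = g.upT r i) :
    ρ (7, r, i) < ρ (8, r, i) := by
  have f := upT_fst (g := g) r i
  have e1 : σ (7, r, i) = (6, r, i) := by
    rcases s.pre (vd6 ha) (by simp) with e | e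
    · simpa [pred] using e
    · exfalso
      have e' : σ (g.inR (r, i)) = (6, r, i) := by simpa [pred] using e
      by_cases hc : g.cp r i
      · rcases s.pre (vd1 hc) (by simp) with e2 | e2
        · have e3 : σ (2, r, i) = (1, r, i) := by simpa [pred] using e2
          simp [inR, hc, e3] at e'
        · have e3 : σ (0, r, i) = (1, r, i) := by simpa [pred] using e2
          rw [← hv, e3] at f
          simp at f
      · have e3 : σ (0, r, i) = (6, r, i) := by simpa [inR, hc] using e'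
        rw [← hv, e3] at f
        simp at f
  have l1 := s.lt (vd7 ha) e1
  rcases s.two (vd6 ha) with e | e
  · exact l1.trans (s.lt (vd6 ha) (by simpa [succ] using e))
  · exact absurd l1 (s.lt (vd6 ha) (w := (7, r, i)) (by simpa [succ] using e)).le.not_gt

theorem Sol.ring (s : Sol g σ ρ) {r i d : ℕ} (hr : r < g.R) (hi : i < g.W) (hd : d ≤ 1)
    (hh : g.has r d) (hx : g.att (g.nx r i d).1 (g.nx r i d).2 d →
      (σ (0, g.nx r i d) = g.upT (g.nx r i d).1 (g.nx r i d).2 ↔ d = 1)) :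
    ρ (5 + 3 * d, r, i) < ρ (5 + 3 * d, g.nx r i d) := by
  rcases (by omega : d = 0 ∨ d = 1) with rfl | rfl
  · have hv := vd5 hr hi hh
    by_cases ha : g.att (g.nx r i 0).1 (g.nx r i 0).2 0
    · rcases s.two hv with e | e
      · exact (s.lt hv (w := (4, g.nx r i 0)) (by simpa [succ, kS, ha] using e)).trans
          (s.dead0 (r := (g.nx r i 0).1) (i := (g.nx r i 0).2) ha fun e => by simpa using (hx ha).1 e)
      · exact s.lt hv (by simpa [succ, kS] using e)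
    · rcases s.two hv with e | e <;> exact s.lt hv (by simpa [succ, kS, ha] using e)
  · have hv := vd8 hr hi hh
    by_cases ha : g.att (g.nx r i 1).1 (g.nx r i 1).2 1
    · rcases s.two hv with e | e
      · exact (s.lt hv (w := (7, g.nx r i 1)) (by simpa [succ, kS, ha] using e)).trans
          (s.dead1 (r := (g.nx r i 1).1) (i := (g.nx r i 1).2) ha ((hx ha).2 rfl))
      · exact s.lt hv (by simpa [succ, kS] using e)
    · rcases s.two hv with e | e <;> exact s.lt hv (by simpa [succ, kS, ha] using e)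

theorem X_X {r i : ℕ} (hi : i < g.W) : g.X r i < g.W ∧ g.X r (g.X r i) = i := by
  unfold X
  split_ifs <;> omega

theorem nx_ring (h : g.Ok) {j q r i : ℕ} (hr : r = j ∨ r = j + 1) (hi : i < g.W)
    (hq : g.X r i / 4 = q) :
    ((g.nx r i ((j + 1) % 2)).1 = j ∨ (g.nx r i ((j + 1) % 2)).1 = j + 1) ∧
      (g.nx r i ((j + 1) % 2)).2 < g.W ∧
      g.X (g.nx r i ((j + 1) % 2)).1 (g.nx r i ((j + 1) % 2)).2 / 4 = q := by
  have := h.2.2
  unfold nx opp X at *
  split_ifs at * <;> simp at * <;> omega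

/-- Plan. Use `hp_iff` (successor choice `σ`, potential `ρ`, injectivity, and every block but the
source is `σ` of one of its two predecessors). Put `v r i := (σ (0,r,i) = upT r i)` and
`val r X := decide (v r (g.X r X))` (`g.X r` is an involution on `[0, W)`).
(a) If `cp r i` then `v r i ↔ ¬ v r (i-1)`. Let `p = (r,i-1)`, `n = (r,i) = nn p`. If `v p` then some
block other than `(1,n)` is sent to `(0,n)` (namely `(0,p)`, or `(4,p)` when `att p 0`, because
`σ (4,p) ≠ (3,p) = σ (0,p)`), so `σ (1,n) = (2,n)`, so `σ (2,n) ≠ (1,n)` by the potential, so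
`σ (0,n) = (1,n) ≠ upT n` by the predecessor property of `(1,n)`. If `¬ v p` then
`σ (inR p) = dnT p` (if `cp p`: `σ (0,p) = (1,p)` hence `σ (2,p) ≠ (1,p)`), so a block other than
`(1,n)` is sent to `(2,n)` (via `(7,p)` when `att p 1`), so `σ (1,n) = (0,n)`, so `σ (0,n) ≠ (1,n)`.
(b) Clause `(j,q)`, side `d = (j+1) % 2`, `K = 5 + 3 d`. The ring is the set of sites `(r,i)` with
`r = j ∨ r = j + 1`, `i < W`, `g.X r i / 4 = q`; it is nonempty, finite and closed under `nx · · d`.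
If the clause is not satisfied, every attached site `m` of the ring is dead (`v m ↔ d = 1`), and then
`σ (K-1,m) = (K-2,m)` (predecessor property of `(K-2,m)`; for `d = 1` and `cp m` use the one of
`(1,m)` first) and `σ (K-2,m) = (K,m)` (potential). Hence `ρ (K,m) < ρ (K, nx m)` for all `m` in the
ring, which is impossible for the `m` maximising `ρ (K,m)`. -/
theorem sat_of_hp (h : g.Ok) (hp : (dg h).HP) : g.Sat := by
  classical
  obtain ⟨σ, ρ, h1, h2, h3⟩ := (hp_iff h).1 hp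
  have s : Sol g σ ρ := ⟨h1, h2, h3⟩
  refine ⟨fun r X => decide (σ (0, r, g.X r X) = g.upT r (g.X r X)), fun r Y hr hY hc => ?_,
    fun j q hj hq => ?_⟩
  · simp only [ne_eq, decide_eq_decide]
    by_cases e : r % 2 = 0
    · have := s.flip (r := r) (i := Y) ⟨hr, by omega, hY, by simpa [e] using hc⟩
      simp only [X, e, if_true]
      tauto
    · have e1 : g.W - 1 - Y = g.W - 1 - (Y + 1) + 1 := by omega
      have := s.flip (r := r) (i := g.W - 1 - (Y + 1)) ⟨hr, by omega, by omega, by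
        rw [if_neg e, show g.W - 1 - (g.W - 1 - (Y + 1) + 1) = Y by omega]; exact hc⟩
      simp only [X, e, if_false]
      rw [e1]
      tauto
  · by_contra hc
    push Not at hc
    obtain ⟨⟨r, i⟩, hm, hmax⟩ := Finset.exists_max_image
      ((Finset.range g.R ×ˢ Finset.range g.W).filter fun m : ℕ × ℕ =>
        (m.1 = j ∨ m.1 = j + 1) ∧ g.X m.1 m.2 / 4 = q)
      (fun m => ρ (5 + 3 * ((j + 1) % 2), m)) ⟨(j, g.X j (4 * q)), by
        have := X_X (r := j) hq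
        simp only [Finset.mem_filter, Finset.mem_product, Finset.mem_range, this.1, this.2,
          true_or, and_true, true_and]
        omega⟩
    simp only [Finset.mem_filter, Finset.mem_product, Finset.mem_range] at hm hmax
    obtain ⟨⟨hr, hi⟩, hrj, hq'⟩ := hm
    obtain ⟨n1, n2, n3⟩ := nx_ring h hrj hi hq'
    refine absurd (hmax _ ⟨⟨by omega, n2⟩, n1, n3⟩) (s.ring hr hi (by omega) ?_ fun ha => ?_).not_ge
    · unfold has
      split_ifs <;> omega
    · generalize g.nx r i ((j + 1) % 2) = m at *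
      obtain ⟨r', i'⟩ := m
      have a4 := ha.2.2.2
      simp only at n1 n2 n3 a4 ⊢
      rcases n1 with rfl | rfl
      · rw [if_neg (by omega)] at a4
        have := hc 0 _ (by omega) n3 a4
        simp only [add_zero, (X_X n2).2, ne_eq, decide_eq_decide] at this
        rw [show ((r' + 1) % 2 = 1) ↔ ¬ r' % 2 = 1 by omega]
        tauto
      · rw [if_pos (by omega), Nat.add_sub_cancel] at a4
        have := hc 1 _ le_rfl n3 a4
        simp only [(X_X n2).2, ne_eq, decide_eq_decide] at this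
        rw [show ((j + 1) % 2 = 1) ↔ ¬ j % 2 = 1 by omega]
        tauto

end Pool.Agent.MP_06c78e_co.H40.Gd

end

-- part MP_06c78e_co.H40.GridYes
section

/-! A solution of the grid formula gives a Hamiltonian path of the digraph. -/

namespace Pool.Agent.MP_06c78e_co.H40.Gd

variable {g : Gd}

/-- Choice of one site with property `P` in every ring: `ch r i d` is the chosen site of the ring
of `(r,i)` on side `d` and `ds r i d` the number of `nx`-steps from the chosen site to `(r,i)`.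
Plan: the ring of `(r,i)` on side `d` is the clause `(j, q)` with `j = r - 1` if `(r + d) % 2 = 0`,
else `r`, and `q = g.X r i / 4`; choose a site `(j + b, g.X (j + b) X)` for each clause. With
`idx r i = 3 - i % 4 + 4 * (r % 2)` one has `idx (nx m) = (idx m + 1) % 8`, two sites of one ring with
the same `idx` coincide, and `ds m = (idx m + 8 - idx (ch m)) % 8`. -/
theorem ring_choice (h : g.Ok) (P : ℕ → ℕ → ℕ → Prop)
    (hP : ∀ j q, j + 1 < g.R → 4 * q < g.W → ∃ b X, b ≤ 1 ∧ X / 4 = q ∧ g.atP j b X ∧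
      P (j + b) (g.X (j + b) X) ((j + 1) % 2)) :
    ∃ (ch : ℕ → ℕ → ℕ → ℕ × ℕ) (ds : ℕ → ℕ → ℕ → ℕ), ∀ r i d, r < g.R → i < g.W → d ≤ 1 →
      g.has r d → g.att (ch r i d).1 (ch r i d).2 d ∧ P (ch r i d).1 (ch r i d).2 d ∧
        ds r i d < 8 ∧ (ds r i d = 0 ↔ ch r i d = (r, i)) ∧
        ch (g.nx r i d).1 (g.nx r i d).2 d = ch r i d ∧
        ds (g.nx r i d).1 (g.nx r i d).2 d = (ds r i d + 1) % 8 := by
  have hW := h.2.2
  choose! fb fX hf using hP
  let J : ℕ → ℕ → ℕ := fun r d => if (r + d) % 2 = 0 then r - 1 else r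
  let ch : ℕ → ℕ → ℕ → ℕ × ℕ := fun r i d =>
    (J r d + fb (J r d) (g.X r i / 4),
      g.X (J r d + fb (J r d) (g.X r i / 4)) (fX (J r d) (g.X r i / 4)))
  let idx : ℕ × ℕ → ℕ := fun m => 3 - m.2 % 4 + 4 * (m.1 % 2)
  refine ⟨ch, fun r i d => (idx (r, i) + 8 - idx (ch r i d)) % 8, fun r i d hr hi hd hh => ?_⟩
  have hJ : J r d + 1 < g.R ∧ (J r d + 1) % 2 = d ∧ (r = J r d ∨ r = J r d + 1) := by
    simp only [J]
    unfold has at hh
    split_ifs at hh ⊢ <;> omega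
  have hX : g.X r i < g.W := by
    unfold X
    split_ifs <;> omega
  obtain ⟨b1, b2, b3, b4⟩ := hf (J r d) (g.X r i / 4) hJ.1 (by omega)
  have hn : ch (g.nx r i d).1 (g.nx r i d).2 d = ch r i d := by
    have e1 : J (g.nx r i d).1 d = J r d := by
      simp only [J]
      unfold nx opp
      unfold has at hh
      split_ifs at hh ⊢ <;> simp only [] at * <;> omega
    have e2 : g.X (g.nx r i d).1 (g.nx r i d).2 / 4 = g.X r i / 4 := by
      unfold nx opp X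
      unfold has at hh
      split_ifs at hh ⊢ <;> simp only [] at * <;> omega
    simp only [ch, e1, e2]
  have hi' : idx (g.nx r i d) = (idx (r, i) + 1) % 8 := by
    simp only [idx]
    unfold nx opp
    unfold has at hh
    split_ifs at hh ⊢ <;> simp only [] at * <;> omega
  have hc : ch r i d = (J r d + fb (J r d) (g.X r i / 4),
      g.X (J r d + fb (J r d) (g.X r i / 4)) (fX (J r d) (g.X r i / 4))) := rfl
  generalize J r d = j at *
  generalize fb j (g.X r i / 4) = b at *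
  generalize fX j (g.X r i / 4) = Y at *
  have hY : Y < g.W := by omega
  have hYY : g.X (j + b) (g.X (j + b) Y) = Y := by
    unfold X
    split_ifs <;> omega
  have hY' : g.X (j + b) Y < g.W := by
    unfold X
    split_ifs <;> omega
  have i1 : idx (r, i) < 8 := by simp only [idx]; omega
  have i2 : idx (ch r i d) < 8 := by simp only [idx]; omega
  refine ⟨?_, ?_, Nat.mod_lt _ (by norm_num), ⟨fun e => ?_, fun e => ?_⟩, hn, ?_⟩
  · rw [hc]
    refine ⟨by omega, hY', ?_, ?_⟩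
    · unfold has
      split_ifs <;> omega
    · simp only [hYY]
      obtain rfl | rfl : b = 0 ∨ b = 1 := by omega
      · rw [if_neg (by omega)]
        exact b3
      · rw [if_pos (by omega)]
        exact b3
  · rw [hc, ← hJ.2.1]
    exact b4
  · simp only [] at e
    have e' : idx (r, i) = idx (ch r i d) := by omega
    rw [hc] at e' ⊢
    simp only [idx] at e'
    have hr' : j + b = r := by omega
    subst hr'
    refine Prod.ext rfl ?_
    simp only []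
    unfold X at *
    split_ifs at * <;> omega
  · simp only []
    rw [e]
    omega
  · simp only []
    rw [hn, Prod.mk.eta, hi']
    omega

/-- The base value of a site. -/
def bs (g : Gd) (n : ℕ × ℕ) : ℕ := 100 * (n.1 * g.W + n.2)

theorem bs_nn {r i : ℕ} (hi : i < g.W) : g.bs (g.nn r i) = g.bs (r, i) + 100 := by
  unfold bs nn
  split_ifs with h
  · simp only []
    omega
  · have : g.W = i + 1 := by omega
    simp only [Nat.add_mul]
    omega

/-- The state in which a block is left. -/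
def stt (g : Gd) (v : ℕ × ℕ → Bool) (jn : ℕ × ℕ → ℕ → Bool) (b : N3) : Bool :=
  if b.1 = 1 then !v b.2
  else if b.1 = 3 ∨ b.1 = 6 then jn b.2 (b.1 / 6)
  else if b.1 = 5 ∨ b.1 = 8 then jn (g.nx b.2.1 b.2.2 (b.1 / 6)) (b.1 / 6)
  else v b.2

/-- The state in which a block is entered. -/
def tau (g : Gd) (v : ℕ × ℕ → Bool) (jn : ℕ × ℕ → ℕ → Bool) (b : N3) : Bool :=
  if b.1 = 0 ∨ b.1 = 2 then v (g.pn b.2.1 b.2.2)
  else if b.1 = 1 ∨ b.1 = 3 ∨ b.1 = 6 then v b.2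
  else jn b.2 (b.1 / 6)

theorem succ_stt (v : ℕ × ℕ → Bool) (jn : ℕ × ℕ → ℕ → Bool) (r i : ℕ) :
    (g.stt v jn (5, r, i) = jn (g.nx r i 0) 0 ∧
      ∀ T, g.succ T (5, r, i) = g.kS 5 0 T (g.nx r i 0)) ∧
    (g.stt v jn (8, r, i) = jn (g.nx r i 1) 1 ∧
      ∀ T, g.succ T (8, r, i) = g.kS 8 1 T (g.nx r i 1)) := by
  simp [stt, succ]

theorem tau_succ (v : ℕ × ℕ → Bool) (jn : ℕ × ℕ → ℕ → Bool)
    (hv : ∀ r i, g.cp r i → v (r, i - 1) = !v (r, i)) (b : N3) (hb : g.valid b)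
    (hs : b ≠ (0, g.R, 0)) : g.tau v jn (g.succ (g.stt v jn b) b) = g.stt v jn b := by
  obtain ⟨k, r, i⟩ := b
  obtain ⟨hr, hi, hk⟩ := (valid_cases hb).resolve_left hs
  have n1 := (nn_spec hr hi).1
  rcases hk with rfl | ⟨rfl, hk⟩ | ⟨rfl, hk⟩ | ⟨rfl, hk⟩ | ⟨rfl, hk⟩ | ⟨rfl, hk⟩ | ⟨rfl, hk⟩ |
    ⟨rfl, hk⟩ | ⟨rfl, hk⟩
  case inr.inl =>
    have e : g.pn r i = (r, i - 1) := by
      unfold pn
      rw [if_pos hk.lt.2.1]
    have e' := hv r i hk
    cases hx : v (r, i) <;> simp [stt, succ, tau, hx, e, e']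
  case inr.inr.inr.inr.inr.inl | inr.inr.inr.inr.inr.inr.inr.inr =>
    simp only [succ_stt v jn r i, kS]
    split_ifs <;> simp [tau]
  all_goals
    simp only [stt, succ, upT, dnT, inR, kS]
    norm_num
    split_ifs <;> simp_all [tau]

/-- The potential along the Hamiltonian path; `rb n d` is the position in the ring. -/
def pot (g : Gd) (v : ℕ × ℕ → Bool) (rb : ℕ × ℕ → ℕ → ℕ) (b : N3) : ℕ :=
  if b.1 = 0 then g.bs b.2 + (if v b.2 = true then 2 else 0)
  else if b.1 = 1 then g.bs b.2 + 1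
  else if b.1 = 2 then g.bs b.2 + (if v b.2 = true then 0 else 2)
  else if b.1 = 3 ∨ b.1 = 6 then
    (if v b.2 = decide (b.1 / 6 = 0) then g.bs b.2 + 3 else rb b.2 (b.1 / 6) + 2)
  else if b.1 = 4 ∨ b.1 = 7 then
    (if v b.2 = decide (b.1 / 6 = 0) then g.bs b.2 + 90 else rb b.2 (b.1 / 6) + 1)
  else rb b.2 (b.1 / 6) + 3

theorem pot_succ (v : ℕ × ℕ → Bool) (jn : ℕ × ℕ → ℕ → Bool) (rb : ℕ × ℕ → ℕ → ℕ)
    (h1 : ∀ r i d, d ≤ 1 → g.att r i d → v (r, i) ≠ decide (d = 0) → jn (r, i) d = true)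
    (h2 : ∀ r i d, d ≤ 1 → g.att r i d → jn (r, i) d = true → v (r, i) = decide (d = 0) →
      g.bs (r, i) < rb (r, i) d)
    (h3 : ∀ r i d, r < g.R → i < g.W → d ≤ 1 → g.has r d →
      (jn (g.nx r i d) d = true ∧ g.att (g.nx r i d).1 (g.nx r i d).2 d ∧
          v (g.nx r i d) = decide (d = 0) → rb (r, i) d < g.bs (g.nx r i d) + 80) ∧
      (¬(jn (g.nx r i d) d = true ∧ g.att (g.nx r i d).1 (g.nx r i d).2 d ∧
          v (g.nx r i d) = decide (d = 0)) → rb (r, i) d + 3 ≤ rb (g.nx r i d) d))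
    (b : N3) (hb : g.valid b) (hs : b ≠ (0, g.R, 0)) :
    g.pot v rb b < g.pot v rb (g.succ (g.stt v jn b) b) := by
  obtain ⟨k, r, i⟩ := b
  obtain ⟨hr, hi, hk⟩ := (valid_cases hb).resolve_left hs
  have n1 := bs_nn (g := g) (r := r) hi
  rcases hk with rfl | ⟨rfl, hk⟩ | ⟨rfl, hk⟩ | ⟨rfl, hk⟩ | ⟨rfl, hk⟩ | ⟨rfl, hk⟩ | ⟨rfl, hk⟩ |
    ⟨rfl, hk⟩ | ⟨rfl, hk⟩
  case inr.inr.inr.inl | inr.inr.inr.inr.inr.inr.inl =>
    have a1 := h1 r i _ (by norm_num) hk
    have a2 := h2 r i _ (by norm_num) hk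
    cases hx : v (r, i) <;> simp only [stt, succ] <;> norm_num <;> split_ifs <;>
      simp_all [pot]
  case inr.inr.inr.inr.inr.inl | inr.inr.inr.inr.inr.inr.inr.inr =>
    obtain ⟨a3, a4⟩ := h3 r i _ hr hi (by norm_num) hk
    simp only [succ_stt v jn r i, kS]
    split_ifs with c
    · simp only [pot]
      norm_num at a3 a4 ⊢
      split_ifs with c'
      · have := a3 c.1 c.2 c'
        omega
      · have := a4 fun _ _ => by simpa using c'
        omega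
    · simp only [pot]
      norm_num
      have := a4 fun e => c ⟨e.1, e.2.1⟩
      omega
  all_goals
    cases hx : v (r, i) <;> simp only [stt, succ, upT, dnT, inR] <;> norm_num <;>
      (try split_ifs) <;> simp_all [pot] <;> (try split_ifs) <;> omega

/-- Plan. Let `v r i = val r (g.X r i)` (so `cp r i → v r i ≠ v r (i-1)`), call the side `d` of a site
live if `v r i = decide (d = 0)`, apply `ring_choice` with `P` = live, and put
`join n d := att n d ∧ (¬ live n d ∨ ch n d = n)`. Use `hp_iff` from right to left (the third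
condition follows from `pred_spec` and the in-states below, or use `DG.surj`, or prove `HP` directly)
with `σ u = succ (st u) u`, where the state `st` is `v n` for `k = 0, 2, 4, 7`, `!v n` for `k = 1`,
`join n d` for `k = 3, 6`, and `join (nx n d) d` for `k = 5, 8`. Injectivity: with the in-state `τ w`
equal to `v (pn n)` for `k = 0, 2`, to `v n` for `k = 1, 3, 6`, to `join n d` for `k = 4, 5, 7, 8`, one
has `τ (σ u) = st u`, so `u = pred (τ (σ u)) (σ u)` by `succ_spec`.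
Potential: `ρ (k,n) = 100 * (r * W + i) + loc` with `loc = 1` for `k = 1`, `loc = 0` for the first and
`2` for the second of `(0,n)`, `(2,n)` (`(0,n)` is first iff `v n = false`), `loc = 3` for live `out`,
`loc = 90` for live `in`; for `K` and for dead `in`, `out`:
`ρ = 100 * (r₀ * W + i₀) + 10 + 5 * ds n d + (1 for in, 2 for out, 3 for K)` with
`(r₀,i₀) = ch n d`. Note `nn` increases `r * W + i` by one. -/
theorem hp_of_sat (h : g.Ok) (hs : g.Sat) : (dg h).HP := by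
  classical
  obtain ⟨val, hv1, hv2⟩ := hs
  let v : ℕ × ℕ → Bool := fun n => val n.1 (g.X n.1 n.2)
  have hv : ∀ r i, g.cp r i → v (r, i - 1) = !v (r, i) := by
    rintro r i ⟨c1, c2, c3, c4⟩
    simp only [v]
    unfold X
    split_ifs at c4 ⊢ with e
    · have := hv1 r (i - 1) c1 (by omega) c4
      rw [show i - 1 + 1 = i by omega] at this
      revert this
      cases val r i <;> cases val r (i - 1) <;> simp
    · have := hv1 r (g.W - 1 - i) c1 (by omega) c4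
      rw [show g.W - 1 - i + 1 = g.W - 1 - (i - 1) by omega] at this
      revert this
      cases val r (g.W - 1 - i) <;> cases val r (g.W - 1 - (i - 1)) <;> simp
  obtain ⟨ch, ds, hc⟩ := ring_choice h (fun r i d => v (r, i) = decide (d = 0)) (by
    intro j q hj hq
    obtain ⟨b, Y, b1, b2, b3, b4⟩ := hv2 j q hj hq
    refine ⟨b, Y, b1, b2, b3, ?_⟩
    have hW := h.2.2
    have hYY : g.X (j + b) (g.X (j + b) Y) = Y := by
      unfold X
      split_ifs <;> omega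
    simp only [v, hYY, b4]
    exact decide_eq_decide.2 (by omega))
  let jn : ℕ × ℕ → ℕ → Bool := fun n d =>
    decide (g.att n.1 n.2 d ∧ (v n ≠ decide (d = 0) ∨ ch n.1 n.2 d = n))
  let rb : ℕ × ℕ → ℕ → ℕ := fun n d => g.bs (ch n.1 n.2 d) + 10 + 5 * ds n.1 n.2 d
  have key := pot_succ v jn rb
    (fun r i d _ ha hl => decide_eq_true ⟨ha, Or.inl hl⟩)
    (fun r i d _ _ hj hl => by
      have := (of_decide_eq_true hj).2.resolve_left (fun e => e hl)
      simp only [rb] at this ⊢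
      rw [this]
      omega)
    (fun r i d hr hi hd hh => by
      obtain ⟨-, -, x3, x4, x5⟩ := nx_spec h hr hi hh
      obtain ⟨-, -, c3, -, c5, c6⟩ := hc r i d hr hi hd hh
      obtain ⟨e1, e2, -, e4, -, -⟩ := hc _ _ d x3 x4 hd x5
      rw [Prod.mk.eta] at e4
      refine ⟨fun ⟨j1, _, j3⟩ => ?_, fun hn => ?_⟩
      · have := (of_decide_eq_true j1).2.resolve_left (fun e => e j3)
        simp only [rb]
        rw [← c5, this]
        omega
      · have : ds (g.nx r i d).1 (g.nx r i d).2 d ≠ 0 := fun e => by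
          have e' := e4.1 e
          rw [e'] at e1 e2
          exact hn ⟨decide_eq_true ⟨e1, Or.inr e'⟩, e1, e2⟩
        simp only [rb]
        rw [c5]
        omega)
  refine ⟨fun u => (dg h).s (g.stt v jn u.1) u, fun u => (g.pot v rb u.1 : ℝ),
    fun u hu => ⟨⟨_, rfl⟩, ?_⟩, fun u w hu hw e => ?_⟩
  · simp only [dg_s h _ u hu, Nat.cast_lt]
    exact key u.1 u.2 fun e => hu (Subtype.ext e)
  · have e' := congrArg Subtype.val e
    simp only [dg_s h _ u hu, dg_s h _ w hw] at e'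
    have hu' : u.1 ≠ (0, g.R, 0) := fun e => hu (Subtype.ext e)
    have hw' : w.1 ≠ (0, g.R, 0) := fun e => hw (Subtype.ext e)
    have t1 := tau_succ v jn hv u.1 u.2 hu'
    have t2 := tau_succ v jn hv w.1 w.2 hw'
    have s1 := (succ_spec h (g.stt v jn u.1) u.1 u.2 hu').2.2.2
    have s2 := (succ_spec h (g.stt v jn w.1) w.1 w.2 hw').2.2.2
    rw [e'] at t1 s1
    rw [← t1, t2, s2] at s1
    exact Subtype.ext s1.symm

/-- The potential for the acyclic orientation. -/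
def pot2 (g : Gd) (rb : ℕ × ℕ → ℕ → ℕ) (b : N3) : ℕ :=
  if b.1 ≤ 2 then g.bs b.2 + b.1
  else if b.1 = 3 ∨ b.1 = 6 then g.bs b.2 + 3
  else if b.1 = 4 ∨ b.1 = 7 then g.bs b.2 + 90
  else rb b.2 (b.1 / 6)

theorem pot2_succ (rb : ℕ × ℕ → ℕ → ℕ)
    (h3 : ∀ r i d, r < g.R → i < g.W → d ≤ 1 → g.has r d →
      (g.att (g.nx r i d).1 (g.nx r i d).2 d ∧ rb (r, i) d < g.bs (g.nx r i d) + 90) ∨
        rb (r, i) d < rb (g.nx r i d) d)
    (b : N3) (hb : g.valid b) (hs : b ≠ (0, g.R, 0)) :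
    ∃ T, g.pot2 rb b < g.pot2 rb (g.succ T b) := by
  obtain ⟨k, r, i⟩ := b
  obtain ⟨hr, hi, hk⟩ := (valid_cases hb).resolve_left hs
  have n1 := bs_nn (g := g) (r := r) hi
  rcases hk with rfl | ⟨rfl, hk⟩ | ⟨rfl, hk⟩ | ⟨rfl, hk⟩ | ⟨rfl, hk⟩ | ⟨rfl, hk⟩ | ⟨rfl, hk⟩ |
    ⟨rfl, hk⟩ | ⟨rfl, hk⟩
  case inr.inr.inr.inr.inr.inl | inr.inr.inr.inr.inr.inr.inr.inr =>
    rcases h3 r i _ hr hi (by norm_num) hk with ⟨a1, a2⟩ | a2
    · exact ⟨true, by simpa [succ, kS, pot2, a1] using a2⟩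
    · exact ⟨false, by simpa [succ, kS, pot2] using a2⟩
  case inl | inr.inl | inr.inr.inr.inr.inl =>
    refine ⟨true, ?_⟩
    simp only [succ, upT]
    norm_num
    (try split_ifs) <;> simp [pot2] <;> omega
  all_goals
    refine ⟨false, ?_⟩
    simp only [succ, dnT, inR]
    norm_num
    (try split_ifs) <;> simp [pot2] <;> omega

theorem pot2_pred (h : g.Ok) (rb : ℕ × ℕ → ℕ → ℕ)
    (h3 : ∀ r i d, r < g.R → i < g.W → d ≤ 1 → g.has r d →
      (g.att r i d ∧ g.bs (r, i) + 3 < rb (r, i) d) ∨ rb (g.pv r i d) d < rb (r, i) d)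
    (b : N3) (hb : g.valid b) (hs : b ≠ (0, 0, 0)) :
    ∃ T, g.pot2 rb (g.pred T b) < g.pot2 rb b := by
  obtain ⟨k, r, i⟩ := b
  have h0 : k = 0 → ∃ T, g.pot2 rb (g.pred T (k, r, i)) < g.pot2 rb (k, r, i) := by
    rintro rfl
    obtain ⟨a1, -, a3⟩ := pn_spec (r := r) (i := i) h.2.1
      (by unfold valid at hb; simp at hb; omega) (by simpa using hs)
    have n1 := bs_nn (g := g) (r := (g.pn r i).1) a3
    rw [a1, Prod.mk.eta] at n1
    refine ⟨true, ?_⟩
    simp only [pred, upS]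
    norm_num
    split_ifs <;> simp [pot2] <;> omega
  rcases valid_cases hb with e | ⟨hr, hi, hk⟩
  · exact h0 (congrArg Prod.fst e)
  rcases hk with e | ⟨rfl, hk⟩ | ⟨rfl, hk⟩ | ⟨rfl, hk⟩ | ⟨rfl, hk⟩ | ⟨rfl, hk⟩ | ⟨rfl, hk⟩ |
    ⟨rfl, hk⟩ | ⟨rfl, hk⟩
  · exact h0 e
  case inr.inr.inr.inr.inr.inr.inl | inr.inr.inr.inr.inr.inr.inr.inr.inr =>
    rcases h3 r i _ hr hi (by norm_num) hk with ⟨a1, a2⟩ | a2
    · exact ⟨true, by simpa [pred, pot2, a1] using a2⟩
    · exact ⟨false, by simpa [pred, pot2] using a2⟩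
  case inr.inr.inr.inl | inr.inr.inr.inr.inl =>
    exact ⟨true, by simp [pred, pot2]⟩
  all_goals
    refine ⟨false, ?_⟩
    simp only [pred, inR]
    norm_num
    (try split_ifs) <;> simp [pot2]

/-- Plan. `ring_choice` with `P = True`; `ρ (k,n) = 100 * (r * W + i) + loc` with `loc = k` for
`k ≤ 2`, `3` for `out`, `90` for `in`, and `ρ (K,n) = 100 * (r₀ * W + i₀) + 10 + ds n d`. -/
theorem st_of_att (h : g.Ok) (ha : g.Att) : (dg h).ST := by
  obtain ⟨ch, ds, hc⟩ := ring_choice h (fun _ _ _ => True) (fun j q hj hq => by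
    obtain ⟨b, Y, b1, b2, b3⟩ := ha j q hj hq
    exact ⟨b, Y, b1, b2, b3, trivial⟩)
  let rb : ℕ × ℕ → ℕ → ℕ := fun n d => g.bs (ch n.1 n.2 d) + 10 + ds n.1 n.2 d
  refine ⟨fun u => g.pot2 rb u.1, fun u hu => ?_, fun w hw => ?_⟩
  · simp only [dg_s h _ u hu]
    refine pot2_succ rb (fun r i d hr hi hd hh => ?_) u.1 u.2 fun e => hu (Subtype.ext e)
    obtain ⟨-, -, x3, x4, x5⟩ := nx_spec h hr hi hh
    obtain ⟨-, -, c3, -, c5, c6⟩ := hc r i d hr hi hd hh
    obtain ⟨e1, -, -, e4, -, -⟩ := hc _ _ d x3 x4 hd x5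
    rw [Prod.mk.eta] at e4
    by_cases e : ds (g.nx r i d).1 (g.nx r i d).2 d = 0
    · have e' := e4.1 e
      rw [e'] at e1
      refine Or.inl ⟨e1, ?_⟩
      simp only [rb]
      rw [← c5, e']
      omega
    · right
      simp only [rb]
      rw [c5]
      omega
  · simp only [dg_r h _ w hw]
    refine pot2_pred h rb (fun r i d hr hi hd hh => ?_) w.1 w.2 fun e => hw (Subtype.ext e)
    obtain ⟨x1, x3, x4, x5⟩ := pv_spec h hr hi hh
    obtain ⟨e1, -, -, e4, -, -⟩ := hc r i d hr hi hd hh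
    obtain ⟨-, -, c3, -, c5, c6⟩ := hc _ _ d x3 x4 hd x5
    rw [x1] at c5 c6
    simp only [] at c5 c6
    by_cases e : ds r i d = 0
    · have e' := e4.1 e
      rw [e'] at e1
      refine Or.inl ⟨e1, ?_⟩
      simp only [rb]
      rw [e']
      omega
    · right
      simp only [rb]
      rw [c5]
      omega

end Pool.Agent.MP_06c78e_co.H40.Gd

end
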