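import Pool.Agent.MP_06c78e_co.Mg.H40_No
import Pool.Agent.MP_06c78e_co.H40.Suf

-- part MP_06c78e_co.H40.Yes
section

/-! A Hamiltonian path gives a greedy drawing; the graph is biconnected. -/

namespace Pool.Agent.MP_06c78e_co.H40

variable {B : Type}

/-- Plan: `DG.surj` gives a predecessor `τ w = r T w` with `σ (τ w) = w` for `w ≠ src`; define `idx`
by recursion along `τ` (well founded since `ρ` decreases and `B` is finite); injectivity by
induction on the value; the maximum is attained at `snk` because `idx (σ u) = idx u + 1`. -/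
theorem DG.HP.enum [Finite B] {G : DG B} (h : G.HP) : ∃ (idx : B → ℕ) (st ts : B → Bool),
    Function.Injective idx ∧ idx G.src = 0 ∧ (∀ b, idx b ≤ idx G.snk) ∧
    (∀ u, u ≠ G.snk → idx (G.s (st u) u) = idx u + 1) ∧
    ∀ w, w ≠ G.src → idx (G.r (ts w) w) + 1 = idx w := by
  classical
  obtain ⟨σ, ρ, h1, h2⟩ := h
  have hs := G.surj (fun u hu => (h1 u hu).1) h2
  have e1 : ∀ u, ∃ T, u ≠ G.snk → σ u = G.s T u := fun u => by
    by_cases hu : u = G.snk
    · exact ⟨true, fun h => absurd hu h⟩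
    · obtain ⟨T, hT⟩ := (h1 u hu).1
      exact ⟨T, fun _ => hT⟩
  have e2 : ∀ w, ∃ T, w ≠ G.src → σ (G.r T w) = w := fun w => by
    by_cases hw : w = G.src
    · exact ⟨true, fun h => absurd hw h⟩
    · obtain ⟨T, hT⟩ := hs w hw
      exact ⟨T, fun _ => hT⟩
  choose st hst using e1
  choose ts hts using e2
  let R : ℕ → B → Prop := fun n b => σ^[n] G.src = b ∧ ∀ i < n, σ^[i] G.src ≠ G.snk
  have step : ∀ n u, R n u → u ≠ G.snk → R (n + 1) (σ u) := fun n u hr hu =>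
    ⟨by rw [Function.iterate_succ_apply', hr.1], fun i hi => by
      rcases Nat.lt_succ_iff_lt_or_eq.1 hi with h | h
      · exact hr.2 i h
      · rw [h, hr.1]; exact hu⟩
  have ex : ∀ b, ∃ n, R n b := fun b => by
    have wf : WellFounded fun x y : B => ρ x < ρ y :=
      Finite.wellFounded_of_trans_of_irrefl (r := fun x y : B => ρ x < ρ y)
    induction b using wf.induction with
    | _ b ih =>
      by_cases hb : b = G.src
      · exact ⟨0, hb.symm, fun i hi => absurd hi (Nat.not_lt_zero i)⟩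
      · have hr := G.r_snk (ts b) b hb
        obtain ⟨n, hn⟩ := ih (G.r (ts b) b) (by
          have := (h1 _ hr).2
          rwa [hts b hb] at this)
        exact ⟨n + 1, hts b hb ▸ step n _ hn hr⟩
  have inc : ∀ m, (∀ i < m, σ^[i] G.src ≠ G.snk) → ∀ n < m, ρ (σ^[n] G.src) < ρ (σ^[m] G.src) := by
    intro m
    induction m with
    | zero => intro _ n hn; exact absurd hn (Nat.not_lt_zero n)
    | succ m ih =>
      intro hm n hn
      have h3 := (h1 _ (hm m (Nat.lt_succ_self m))).2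
      rw [Function.iterate_succ_apply']
      rcases Nat.lt_succ_iff_lt_or_eq.1 hn with h | h
      · exact (ih (fun i hi => hm i (by omega)) n h).trans h3
      · rw [h]; exact h3
  have uq : ∀ n m b, R n b → R m b → n = m := fun n m b hn hm => by
    rcases lt_trichotomy n m with h | h | h
    · have := inc m hm.2 n h
      rw [hn.1, hm.1] at this
      exact absurd this (lt_irrefl _)
    · exact h
    · have := inc n hn.2 m h
      rw [hn.1, hm.1] at this
      exact absurd this (lt_irrefl _)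
  choose idx hidx using ex
  have nx : ∀ u, u ≠ G.snk → idx (σ u) = idx u + 1 := fun u hu =>
    uq _ _ _ (hidx _) (step _ _ (hidx u) hu)
  refine ⟨idx, st, ts, fun b c e => ?_, ?_, fun b => ?_, fun u hu => ?_, fun w hw => ?_⟩
  · rw [← (hidx b).1, ← (hidx c).1, e]
  · exact uq _ _ _ (hidx _) ⟨rfl, fun i hi => absurd hi (Nat.not_lt_zero i)⟩
  · by_contra hlt
    exact (hidx b).2 _ (not_le.1 hlt) (hidx _).1
  · rw [← hst u hu, nx u hu]
  · rw [← nx _ (G.r_snk (ts w) w hw), hts w hw]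

variable {NG LC : ℕ}

/-- The rank of a centre. -/
def rk (N : ℕ) (f : B → ℕ) : Ctr NG LC B → ℕ
  | rt i => i
  | ch k j => 4 + k * (LC + 1 + 11 * N) + j
  | co k b m => 4 + k * (LC + 1 + 11 * N) + (LC + 1 + 11 * f b + m)

/-- The position in a cluster. -/
def dl : Ctr NG LC B → ℕ
  | rt _ => 0
  | ch _ _ => 0
  | co _ _ m => if m = 1 then 1 else if m = 2 then 2 else 0

/-- The roles of the spokes. -/
def pm (st ts : B → Bool) : Ctr NG LC B → Equiv.Perm (Fin 5)
  | rt _ => 1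
  | ch _ _ => 1
  | co _ b m => if m = 0 ∧ ts b = true then Equiv.swap 1 3 * Equiv.swap 2 4
      else if (m = 7 ∨ m = 10) ∧ st b = true then Equiv.swap 0 4 else 1

theorem lex_eq {S k k' x x' : ℕ} (hx : x < S) (hx' : x' < S) (h : k * S + x = k' * S + x') :
    k = k' ∧ x = x' := by
  have h0 : k = k' := by
    rcases lt_trichotomy k k' with e | e | e
    · have := Nat.mul_le_mul_right S (Nat.succ_le_of_lt e)
      rw [Nat.succ_mul] at this
      omega
    · exact e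
    · have := Nat.mul_le_mul_right S (Nat.succ_le_of_lt e)
      rw [Nat.succ_mul] at this
      omega
  subst h0
  exact ⟨rfl, by omega⟩

theorem rk_inj {N : ℕ} {f : B → ℕ} (hf : Function.Injective f) (hN : ∀ b, f b < N) :
    Function.Injective (rk (NG := NG) (LC := LC) N f) := by
  rintro (i | ⟨k, j⟩ | ⟨k, b, m⟩) (i' | ⟨k', j'⟩ | ⟨k', b', m'⟩) e <;> simp only [rk] at e
  · rw [Fin.ext e]
  · omega
  · omega
  · omega
  · obtain ⟨e1, e2⟩ := lex_eq (S := LC + 1 + 11 * N) (k := k) (k' := k') (x := j) (x' := j')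
      (by omega) (by omega) (by omega)
    rw [Fin.ext e1, Fin.ext e2]
  · have := hN b'
    obtain ⟨-, e2⟩ := lex_eq (S := LC + 1 + 11 * N) (k := k) (k' := k') (x := j)
      (x' := LC + 1 + 11 * f b' + m') (by omega) (by omega) (by omega)
    omega
  · omega
  · have := hN b
    obtain ⟨-, e2⟩ := lex_eq (S := LC + 1 + 11 * N) (k := k) (k' := k') (x' := j')
      (x := LC + 1 + 11 * f b + m) (by omega) (by omega) (by omega)
    omega
  · have := hN b
    have := hN b'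
    obtain ⟨e1, e2⟩ := lex_eq (S := LC + 1 + 11 * N) (k := k) (k' := k')
      (x' := LC + 1 + 11 * f b' + m') (x := LC + 1 + 11 * f b + m) (by omega) (by omega) (by omega)
    have e3 : f b = f b' := by omega
    have e4 : (m : ℕ) = m' := by omega
    rw [Fin.ext e1, hf e3, Fin.ext e4]

theorem rk_le {N : ℕ} {f : B → ℕ} (hN : ∀ b, f b < N) (a : Ctr NG LC B) :
    rk N f a ≤ 4 + NG * (LC + 1 + 11 * N) + LC := by
  rcases a with i | ⟨k, j⟩ | ⟨k, b, m⟩ <;> simp only [rk]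
  · omega
  · have := Nat.mul_le_mul_right (LC + 1 + 11 * N) (Nat.le_of_lt_succ k.2)
    omega
  · have := Nat.mul_le_mul_right (LC + 1 + 11 * N) (Nat.succ_le_of_lt k.2)
    rw [Nat.succ_mul] at this
    have := hN b
    omega

theorem dl_cases (a : Ctr NG LC B) : dl a = 0 ∨ (∃ k b, a = co k b 1) ∨ ∃ k b, a = co k b 2 := by
  rcases a with i | ⟨k, j⟩ | ⟨k, b, m⟩
  · exact Or.inl rfl
  · exact Or.inl rfl
  · by_cases h1 : m = 1
    · exact Or.inr (Or.inl ⟨k, b, by rw [h1]⟩)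
    · by_cases h2 : m = 2
      · exact Or.inr (Or.inr ⟨k, b, by rw [h2]⟩)
      · exact Or.inl (by simp [dl, h1, h2])

theorem dl_le {N : ℕ} {f : B → ℕ} (a : Ctr NG LC B) : dl a ≤ 2 ∧ dl a ≤ rk N f a := by
  rcases dl_cases a with h | ⟨k, b, rfl⟩ | ⟨k, b, rfl⟩
  · omega
  · simp only [dl, rk]; simp; omega
  · simp only [dl, rk]; simp; omega

theorem rk_co {N : ℕ} {f : B → ℕ} (k : Fin NG) (b : B) (m : Fin 11) :
    rk (LC := LC) N f (co k b m) = rk (LC := LC) N f (co k b 0) + m := by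
  simp only [rk, Fin.val_zero]
  omega

/-- A centre below `c` is below the cluster of `c`, or lies in that cluster. -/
theorem cluster {N : ℕ} {f : B → ℕ} (hf : Function.Injective f) (hN : ∀ b, f b < N)
    {a c : Ctr NG LC B} (h : rk N f a < rk N f c) : rk N f a < rk N f c - dl c ∨
    ((∃ k b, a = co k b 0 ∨ a = co k b 1) ∧ rk N f a - dl a = rk N f c - dl c) := by
  rcases dl_cases c with h0 | ⟨k, b, rfl⟩ | ⟨k, b, rfl⟩
  · left; omega
  · have e := rk_co (LC := LC) (N := N) (f := f) k b 1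
    have d : dl (LC := LC) (co k b 1) = 1 := by simp [dl]
    simp only [Fin.val_one] at e
    by_cases h1 : rk N f a = rk (LC := LC) N f (co k b 0)
    · have := rk_inj hf hN h1
      subst this
      right
      exact ⟨⟨k, b, Or.inl rfl⟩, by simp [dl]; omega⟩
    · left; omega
  · have e := rk_co (LC := LC) (N := N) (f := f) k b 2
    have e' := rk_co (LC := LC) (N := N) (f := f) k b 1
    have d : dl (LC := LC) (co k b 2) = 2 := by simp [dl]
    simp only [Fin.val_one, Fin.val_two] at e e'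
    by_cases h1 : rk N f a = rk (LC := LC) N f (co k b 0)
    · have := rk_inj hf hN h1
      subst this
      right
      exact ⟨⟨k, b, Or.inl rfl⟩, by simp [dl]; omega⟩
    · by_cases h2 : rk N f a = rk (LC := LC) N f (co k b 1)
      · have := rk_inj hf hN h2
        subst this
        right
        exact ⟨⟨k, b, Or.inr rfl⟩, by simp [dl]; omega⟩
      · left; omega

section
variable {G : DG B} {idx : B → ℕ} {st ts : B → Bool}

theorem fw_rank (h0 : idx G.src = 0)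
    (hs : ∀ u, u ≠ G.snk → idx (G.s (st u) u) = idx u + 1) (a : Ctr NG LC B) :
    rk (idx G.snk + 1) idx (tg0 NG LC G a (pm st ts a 0)) = rk (idx G.snk + 1) idx a + 1 ∨
    rk (idx G.snk + 1) idx a = 4 + NG * (LC + 1 + 11 * (idx G.snk + 1)) + LC ∨
    ((∃ k b, a = co k b 7) ∧
      rk (idx G.snk + 1) idx a < rk (idx G.snk + 1) idx (tg0 NG LC G a (pm st ts a 0))) := by
  rcases a with i | ⟨k, j⟩ | ⟨k, b, m⟩
  · left
    fin_cases i <;> simp [tg0, pm, rk]
  · simp only [tg0, pm, Equiv.Perm.coe_one, id, if_true, chS]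
    split_ifs with h1 h2
    · left; simp only [rk]; omega
    · left; simp only [rk, h0, Fin.val_zero]; omega
    · right; left
      have e : (k : ℕ) = NG := by omega
      simp only [rk, e]; omega
  · have hd : ∀ m : Fin 11, m = 7 ∨ m = 10 → (pm (LC := LC) st ts (co k b m) 0 = 0 ∨
        pm (LC := LC) st ts (co k b m) 0 = 4) ∧
        decide (pm (LC := LC) st ts (co k b m) 0 = 4) = st b := by
      rintro m (rfl | rfl) <;> cases h : st b <;> simp [pm, h]
    by_cases h7 : m = 7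
    · subst h7
      obtain ⟨d1, d2⟩ := hd 7 (Or.inl rfl)
      by_cases hb : b = G.snk
      · left
        rcases d1 with d | d <;> simp [tg0, ctg, hb, emb, rk, tb] <;> rw [← hb, d] <;> simp <;>
          omega
      · right; right
        refine ⟨⟨k, b, rfl⟩, ?_⟩
        have := hs b hb
        simp only [tg0, ctg]
        rw [if_neg (by simp), if_pos ⟨rfl, d1, hb⟩, d2]
        simp only [emb, rk]
        omega
    · left
      by_cases h10 : m = 10
      · subst h10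
        obtain ⟨d1, d2⟩ := hd 10 (Or.inr rfl)
        simp only [tg0, ctg]
        rw [if_neg (by simp), if_neg (by simp), if_pos ⟨trivial, d1⟩, d2]
        split_ifs with hb
        · subst hb
          simp only [emb, rk, Fin.val_succ, Fin.val_zero, Nat.succ_mul]
          have : ((10 : Fin 11) : ℕ) = 10 := rfl
          omega
        · have := hs b hb
          simp only [emb, rk, Fin.val_zero]
          have : ((10 : Fin 11) : ℕ) = 10 := rfl
          omega
      · have d : pm (LC := LC) st ts (co k b m) 0 = 0 := by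
          simp only [pm]
          split_ifs with h1 h2
          · decide
          · exact absurd h2.1 (by simp [h7, h10])
          · rfl
        have t : ∀ m : Fin 11, m ≠ 10 → (tb m 0 : ℕ) = m + 1 := by decide
        have := t m h10
        simp only [tg0, ctg, d]
        rw [if_neg (by simp), if_neg (by simp [h7]), if_neg (by simp [h10])]
        simp only [emb, rk]
        omega

theorem bk_rank (h0 : idx G.src = 0)
    (ht : ∀ w, w ≠ G.src → idx (G.r (ts w) w) + 1 = idx w) (a : Ctr NG LC B) (j : Fin 5)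
    (hj : j = 1 ∨ j = 2) :
    rk (idx G.snk + 1) idx (tg0 NG LC G a (pm st ts a j)) + 1 = rk (idx G.snk + 1) idx a ∨
    rk (idx G.snk + 1) idx a = 0 ∨
    ∃ k b, a = co k b 3 ∧ tg0 NG LC G a (pm st ts a j) = co k b 0 := by
  rcases a with i | ⟨k, i⟩ | ⟨k, b, m⟩
  · rcases hj with rfl | rfl <;> fin_cases i <;> simp [tg0, pm, rk]
  · left
    have e : tg0 NG LC G (ch k i) (pm st ts (ch k i) j) = chP G k i := by
      rcases hj with rfl | rfl <;> simp [tg0, pm]
    rw [e, chP]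
    split_ifs with h1 h2
    · simp only [rk]; omega
    · obtain ⟨k', hk'⟩ : ∃ k', (k : ℕ) = k' + 1 := ⟨k - 1, by omega⟩
      simp only [rk, hk', Nat.add_sub_cancel, Nat.succ_mul]
      have : ((10 : Fin 11) : ℕ) = 10 := rfl
      omega
    · have e : (k : ℕ) = 0 := by omega
      simp only [rk, e]
      have : ((3 : Fin 4) : ℕ) = 3 := rfl
      omega
  · by_cases hm : m = 0
    · subst hm
      left
      have d : pm (LC := LC) st ts (co k b 0) j ≠ 0 ∧
          decide (3 ≤ pm (LC := LC) st ts (co k b 0) j) = ts b := by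
        rcases hj with rfl | rfl <;> cases h : ts b <;> simp [pm, h] <;> decide
      simp only [tg0, ctg]
      rw [if_pos ⟨trivial, d.1⟩, d.2]
      split_ifs with hb
      · subst hb
        simp only [emb, rk, h0, Fin.val_castSucc, Fin.val_last, Fin.val_zero]
        omega
      · have := ht b hb
        simp only [emb, rk, Fin.val_zero]
        have : ((10 : Fin 11) : ℕ) = 10 := rfl
        omega
    · have d : pm (LC := LC) st ts (co k b m) j = j := by
        simp only [pm]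
        split_ifs with h1 h2
        · exact absurd h1.1 hm
        · rcases hj with rfl | rfl <;> decide
        · rfl
      have e : tg0 NG LC G (co k b m) (pm (LC := LC) st ts (co k b m) j) = co k b (tb m j) := by
        have : ¬(j = 0 ∨ j = 4) := by rcases hj with rfl | rfl <;> decide
        rw [d]
        simp only [tg0, ctg]
        rw [if_neg (by simp [hm]), if_neg (fun h => this h.2.1), if_neg (fun h => this h.2)]
        rfl
      rw [e]
      by_cases h3 : m = 3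
      · subst h3
        right; right
        refine ⟨k, b, rfl, ?_⟩
        rcases hj with rfl | rfl <;> rfl
      · left
        have t : ∀ (m : Fin 11) (j : Fin 5), m ≠ 0 → m ≠ 3 → j = 1 ∨ j = 2 →
          (tb m j : ℕ) + 1 = m := by decide
        have := t m j hm h3 hj
        simp only [rk]
        omega

theorem side_tg (k : Fin NG) (b : B) (j : Fin 5) (hj : j = 3 ∨ j = 4) :
    tg0 NG LC G (co k b 1) (pm (LC := LC) st ts (co k b 1) j) = co k b 2 ∧
    tg0 NG LC G (co k b 2) (pm (LC := LC) st ts (co k b 2) j) = co k b 1 := by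
  rcases hj with rfl | rfl <;> simp [tg0, ctg, pm, emb, tb]

end

/-- Plan. With `N = idx snk + 1`, `S = LC + 1 + 11 * N` the ranks are `rt i ↦ i`,
`ch k j ↦ 4 + k * S + j`, `co k b m ↦ 4 + k * S + LC + 1 + 11 * idx b + m`; `δ = 1` for `m = 1`,
`δ = 2` for `m = 2`, else `0`, and `i = rank - δ`. The permutation `π` is the identity except
`π (co k b 0) = swap 1 3 * swap 2 4` if `ts b = true`, and `π (co k b m) = swap 0 4` for
`m = 7, 10` if `st b = true`. It is best to compute the rank of every target first: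
slot 0 has rank larger than `a` (equal to rank `a + 1` unless `m = 7`), except for the last chain
vertex, which has the largest rank; slots 1, 2 have rank `a - 1` except for `rt 0` (smallest rank)
and `m = 3` (rank `a - 3`). -/
theorem good_of_hp [Finite B] (NG LC : ℕ) {G : DG B} (h : G.HP) :
    Nonempty (Good (tg0 NG LC G)) := by
  obtain ⟨idx, st, ts, hi, h0, hmax, hs, ht⟩ := h.enum
  have hN : ∀ b, idx b < idx G.snk + 1 := fun b => Nat.lt_succ_of_le (hmax b)
  have E : ∀ a : Ctr NG LC B, rk (idx G.snk + 1) idx a - dl a + dl a = rk (idx G.snk + 1) idx a :=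
    fun a => Nat.sub_add_cancel (dl_le a).2
  refine ⟨⟨fun a => rk (idx G.snk + 1) idx a - dl a, dl,
    4 + NG * (LC + 1 + 11 * (idx G.snk + 1)) + LC + 1, pm st ts, ?_, ?_, fun a => (dl_le (N := 0)
      (f := idx) a).1, ?_, ?_, ?_, ?_, ?_⟩⟩ <;> simp only [E]
  · exact fun a c e => rk_inj hi hN e
  · exact fun a => Nat.lt_succ_of_le (rk_le hN a)
  · intro a c e
    rcases cluster hi hN e with e1 | e1
    · omega
    · exact e1.2.le
  · rintro a c _ rfl e
    rcases fw_rank (ts := ts) h0 hs a with e1 | e1 | ⟨⟨k, b, rfl⟩, e1⟩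
    · omega
    · have := rk_le hN c
      omega
    · refine ⟨e1, Or.inr ?_⟩
      rcases cluster hi hN e with e2 | ⟨⟨k', b', e2 | e2⟩, -⟩
      · omega
      · simp at e2
      · simp at e2
  · rintro a c j _ hj rfl e
    rcases bk_rank (st := st) h0 ht a j hj with e1 | e1 | ⟨k, b, rfl, e1⟩
    · omega
    · omega
    · rw [e1]
      have r3 := rk_co (LC := LC) (N := idx G.snk + 1) (f := idx) k b 3
      have r2 := rk_co (LC := LC) (N := idx G.snk + 1) (f := idx) k b 2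
      have r1 := rk_co (LC := LC) (N := idx G.snk + 1) (f := idx) k b 1
      have v3 : ((3 : Fin 11) : ℕ) = 3 := rfl
      simp only [Fin.val_one, Fin.val_two, v3] at r1 r2 r3
      have d0 : dl (LC := LC) (co k b 0) = 0 := by simp [dl]
      have d1 : dl (LC := LC) (co k b 1) = 1 := by simp [dl]
      have d2 : dl (LC := LC) (co k b 2) = 2 := by simp [dl]
      have d3 : dl (LC := LC) (co k b 3) = 0 := by simp [dl]
      refine ⟨by omega, ?_⟩
      by_cases c1 : rk (idx G.snk + 1) idx c = rk (LC := LC) (idx G.snk + 1) idx (co k b 1)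
      · rw [rk_inj hi hN c1]
        omega
      · by_cases c2 : rk (idx G.snk + 1) idx c = rk (LC := LC) (idx G.snk + 1) idx (co k b 2)
        · rw [rk_inj hi hN c2]
          omega
        · omega
  · rintro a c j _ hj rfl hd e
    rcases dl_cases a with d | ⟨k, b, rfl⟩ | ⟨k, b, rfl⟩
    · omega
    · rw [(side_tg k b j hj).1]
      have r2 := rk_co (LC := LC) (N := idx G.snk + 1) (f := idx) k b 2
      have r1 := rk_co (LC := LC) (N := idx G.snk + 1) (f := idx) k b 1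
      simp only [Fin.val_one, Fin.val_two] at r1 r2
      omega
    · simp [dl] at hd
  · rintro a c j _ hj rfl hd e
    rcases dl_cases a with d | ⟨k, b, rfl⟩ | ⟨k, b, rfl⟩
    · omega
    · simp [dl] at hd
    · rw [(side_tg k b j hj).2]
      have r2 := rk_co (LC := LC) (N := idx G.snk + 1) (f := idx) k b 2
      have r1 := rk_co (LC := LC) (N := idx G.snk + 1) (f := idx) k b 1
      simp only [Fin.val_one, Fin.val_two] at r1 r2
      omega

theorem greedy_of_hp [Finite B] (NG LC : ℕ) {G : DG B} (h : G.HP) :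
    ∃ p, GreedyC (spG (tg0 NG LC G)) p := by
  obtain ⟨C⟩ := good_of_hp NG LC h
  obtain ⟨C'⟩ := C.comb
  exact C'.greedy

/-- Plan: `biconnected_of_rank` with `bot = rt 0`, `top = ch (last) (last)` and, for a bound `N` of
`ρ` and `S = LC + 1 + 11 * N`, the ranks `rt i ↦ i`, `ch k j ↦ 4 + k * S + j`,
`co k b m ↦ 4 + k * S + LC + 1 + 11 * ρ b + m`. -/
theorem biconnected_of_st [Finite B] (NG LC : ℕ) {G : DG B} (h : G.ST) :
    Biconnected (spG (tg0 NG LC G)) := by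
  obtain ⟨ρ, hu, hd⟩ := h
  obtain ⟨M, hM⟩ := (Set.finite_range ρ).bddAbove
  have hN : ∀ b, ρ b < M + 1 := fun b => Nat.lt_succ_of_le (hM ⟨b, rfl⟩)
  have v10 : ((10 : Fin 11) : ℕ) = 10 := rfl
  refine biconnected_of_rank (tg0_ne G) (rk (M + 1) ρ) (rt 0) (ch (Fin.last NG) (Fin.last LC))
    ?_ ?_ ⟨3, 4, by decide, by simp [tg0], by simp [tg0]⟩
  · rintro (i | ⟨k, j⟩ | ⟨k, b, m⟩) ha
    · refine ⟨_, 1, ?_, Or.inl rfl⟩
      fin_cases i <;> simp [tg0, rk] at ha ⊢
    · refine ⟨rt 0, 3, ?_, Or.inl (by simp [tg0])⟩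
      simp only [rk, Fin.val_zero]
      omega
    · by_cases hm : m = 0
      · subst hm
        by_cases hb : b = G.src
        · refine ⟨ch k.castSucc (Fin.last LC), 1, ?_, Or.inl (by simp [tg0, ctg, hb, emb])⟩
          simp only [rk, Fin.val_castSucc, Fin.val_last]
          omega
        · obtain ⟨T, hT⟩ := hd b hb
          refine ⟨co k (G.r T b) 10, if T then 3 else 1, ?_, Or.inl ?_⟩
          · simp only [rk, v10]
            omega
          · cases T <;> simp [tg0, ctg, hb, emb]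
      · refine ⟨co k b (tb m 1), 1, ?_, Or.inl (by simp [tg0, ctg, hm, emb])⟩
        have t : ∀ m : Fin 11, m ≠ 0 → (tb m 1 : ℕ) < m := by decide
        have := t m hm
        simp only [rk]
        omega
  · rintro (i | ⟨k, j⟩ | ⟨k, b, m⟩) ha
    · refine ⟨_, 0, ?_, Or.inl rfl⟩
      fin_cases i <;> simp [tg0, rk]
    · refine ⟨_, 0, ?_, Or.inl rfl⟩
      simp only [tg0, if_true, chS]
      split_ifs with h1 h2
      · simp only [rk]; omega
      · simp only [rk]; omega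
      · exfalso
        apply ha
        have e1 : k = Fin.last NG := Fin.ext (by simp only [Fin.val_last]; omega)
        have e2 : j = Fin.last LC := Fin.ext (by simp only [Fin.val_last]; omega)
        rw [e1, e2]
    · by_cases h10 : m = 10
      · subst h10
        by_cases hb : b = G.snk
        · refine ⟨ch k.succ 0, 0, ?_, Or.inl (by simp [tg0, ctg, hb, emb])⟩
          have := hN b
          simp only [rk, Fin.val_succ, Fin.val_zero, Nat.succ_mul, v10]
          omega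
        · obtain ⟨T, hT⟩ := hu b hb
          refine ⟨co k (G.s T b) 0, if T then 4 else 0, ?_, Or.inl ?_⟩
          · simp only [rk, v10]
            omega
          · cases T <;> simp [tg0, ctg, hb, emb]
      · by_cases h7 : m = 7
        · subst h7
          refine ⟨co k b 8, 1, ?_, Or.inr (by simp [tg0, ctg, emb, tb])⟩
          have : ((7 : Fin 11) : ℕ) < ((8 : Fin 11) : ℕ) := by decide
          simp only [rk]
          omega
        · refine ⟨co k b (tb m 0), 0, ?_, Or.inl (by simp [tg0, ctg, h7, h10, emb])⟩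
          have t : ∀ m : Fin 11, m ≠ 10 → (m : ℕ) < tb m 0 := by decide
          have := t m h10
          simp only [rk]
          omega

end Pool.Agent.MP_06c78e_co.H40

end

-- part MP_06c78e_co.H40.Vis
section

/-! A visibility representation of the multigraph of centres gives a plane drawing. -/

namespace Pool.Agent.MP_06c78e_co.H40

/-- The bump used near the bars. -/
noncomputable def vb (x : ℝ) : ℝ := max 0 (1 - 3 * |x|)

theorem vb_nonneg (x : ℝ) : 0 ≤ vb x := le_max_left _ _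

theorem vb_le (x : ℝ) : vb x ≤ 1 := max_le zero_le_one (by linarith [abs_nonneg x])

theorem vb_far {x : ℝ} (h : 1 / 3 ≤ |x|) : vb x = 0 := max_eq_left (by linarith)

theorem vb_zero : vb 0 = 1 := by simp [vb]

theorem vb_one {x : ℝ} (h : vb x = 1) : x = 0 := by
  rcases le_total 0 (1 - 3 * |x|) with h1 | h1
  · rw [vb, max_eq_right h1] at h
    exact abs_eq_zero.1 (by linarith)
  · rw [vb, max_eq_left h1] at h
    exact absurd h zero_ne_one

theorem vb_cont : Continuous vb := by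
  unfold vb
  fun_prop

theorem int_near {m n : ℤ} (h : |(m : ℝ) - n| < 1) : m = n := by
  have h1 : |m - n| < 1 := by exact_mod_cast h
  have h2 := Int.abs_lt_one_iff.1 h1
  omega

theorem int_far {m n : ℤ} (h : m ≠ n) : (m : ℝ) + 1 ≤ n ∨ (n : ℝ) + 1 ≤ m := by
  rcases lt_or_gt_of_ne h with h1 | h1
  · exact Or.inl (by exact_mod_cast h1)
  · exact Or.inr (by exact_mod_cast h1)

section gen

variable {A E : Type} {u v : E → A} (V : Vis u v)

/-- The horizontal coordinate of the edge `e` at height `t`. -/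
noncomputable def Vis.gam (e : E) (t : ℝ) : ℝ :=
  V.c e + (V.l (u e) - V.c e) * vb (t - V.y (u e)) + (V.l (v e) - V.c e) * vb (t - V.y (v e))

/-- The height `t` lies between the ends of `e`. -/
def Vis.on (e : E) (t : ℝ) : Prop :=
  ((min (V.y (u e)) (V.y (v e)) : ℤ) : ℝ) ≤ t ∧ t ≤ ((max (V.y (u e)) (V.y (v e)) : ℤ) : ℝ)

/-- The height of the midpoint of `e`. -/
noncomputable def Vis.mid (e : E) : ℝ := ((V.y (u e) : ℝ) + V.y (v e)) / 2

theorem Vis.gam_cont (e : E) : Continuous (V.gam e) := by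
  have := vb_cont
  unfold Vis.gam
  fun_prop

theorem Vis.gam_near {e : E} {w : A} (hw : w = u e ∨ w = v e) {t : ℝ}
    (ht : |t - V.y w| < 1 / 3) : V.gam e t = V.c e + (V.l w - V.c e) * vb (t - V.y w) := by
  have h1 := int_far (V.ne e)
  rw [abs_lt] at ht
  rcases hw with rfl | rfl
  · rw [Vis.gam, vb_far (x := t - V.y (v e)) (by
      rw [le_abs]
      rcases h1 with h1 | h1
      · exact Or.inr (by linarith)
      · exact Or.inl (by linarith))]
    ring
  · rw [Vis.gam, vb_far (x := t - V.y (u e)) (by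
      rw [le_abs]
      rcases h1 with h1 | h1
      · exact Or.inl (by linarith)
      · exact Or.inr (by linarith))]
    ring

theorem Vis.gam_end {e : E} {w : A} (hw : w = u e ∨ w = v e) : V.gam e (V.y w) = V.l w := by
  rw [V.gam_near hw (by simp), sub_self, vb_zero]
  ring

theorem Vis.gam_bar {e : E} {w : A} (hw : w = u e ∨ w = v e) {t : ℝ}
    (ht : |t - V.y w| < 1 / 3) : V.l w ≤ V.gam e t ∧ V.gam e t ≤ V.r w := by
  have h1 : V.l w ≤ V.c e ∧ V.c e ≤ V.r w := by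
    rcases hw with rfl | rfl
    exacts [V.cu e, V.cv e]
  have h2 : (V.l w : ℝ) ≤ V.c e := by exact_mod_cast h1.1
  have h3 : (V.c e : ℝ) ≤ V.r w := by exact_mod_cast h1.2
  have h4 := vb_nonneg (t - V.y w)
  have h5 := vb_le (t - V.y w)
  rw [V.gam_near hw ht]
  constructor <;> nlinarith

theorem Vis.mid_far {e : E} {w : A} (hw : w = u e ∨ w = v e) : 1 / 3 ≤ |V.mid e - V.y w| := by
  have h1 := int_far (V.ne e)
  rw [le_abs, Vis.mid]
  rcases hw with rfl | rfl <;> rcases h1 with h1 | h1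
  · exact Or.inl (by linarith)
  · exact Or.inr (by linarith)
  · exact Or.inr (by linarith)
  · exact Or.inl (by linarith)

theorem Vis.mid_ne {e : E} {w : A} (hw : w = u e ∨ w = v e) : V.mid e ≠ V.y w := by
  intro h
  have h1 := V.mid_far hw
  rw [h, sub_self, abs_zero] at h1
  linarith

theorem Vis.gam_mid (e : E) : V.gam e (V.mid e) = V.c e := by
  rw [Vis.gam, vb_far (V.mid_far (Or.inl rfl)), vb_far (V.mid_far (Or.inr rfl))]
  ring

theorem Vis.on_end {e : E} {w : A} (hw : w = u e ∨ w = v e) : V.on e (V.y w) := by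
  constructor <;> rcases hw with rfl | rfl <;> norm_cast <;> simp

theorem Vis.on_mid (e : E) : V.on e (V.mid e) := by
  have h1 := V.on_end (e := e) (Or.inl rfl)
  have h2 := V.on_end (e := e) (Or.inr rfl)
  rw [Vis.mid]
  exact ⟨by linarith [h1.1, h2.1], by linarith [h1.2, h2.2]⟩

theorem Vis.dich {e : E} {t : ℝ} (h : V.on e t) :
    (∃ w, (w = u e ∨ w = v e) ∧ |t - V.y w| < 1 / 3) ∨
      (V.gam e t = V.c e ∧ ((min (V.y (u e)) (V.y (v e)) : ℤ) : ℝ) < t ∧
        t < ((max (V.y (u e)) (V.y (v e)) : ℤ) : ℝ) ∧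
        ∀ w, |t - V.y w| < 1 / 3 → (V.c e : ℝ) < V.l w ∨ (V.r w : ℝ) < V.c e) := by
  by_cases h1 : |t - V.y (u e)| < 1 / 3
  · exact Or.inl ⟨_, Or.inl rfl, h1⟩
  by_cases h2 : |t - V.y (v e)| < 1 / 3
  · exact Or.inl ⟨_, Or.inr rfl, h2⟩
  rw [not_lt] at h1 h2
  have h3 : ((min (V.y (u e)) (V.y (v e)) : ℤ) : ℝ) + 1 / 3 ≤ t := by
    have h0 := h.1
    rcases min_choice (V.y (u e)) (V.y (v e)) with hm | hm <;> rw [hm] at h0 ⊢
    · rw [abs_of_nonneg (by linarith)] at h1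
      linarith
    · rw [abs_of_nonneg (by linarith)] at h2
      linarith
  have h4 : t + 1 / 3 ≤ ((max (V.y (u e)) (V.y (v e)) : ℤ) : ℝ) := by
    have h0 := h.2
    rcases max_choice (V.y (u e)) (V.y (v e)) with hm | hm <;> rw [hm] at h0 ⊢
    · rw [abs_of_nonpos (by linarith)] at h1
      linarith
    · rw [abs_of_nonpos (by linarith)] at h2
      linarith
  refine Or.inr ⟨?_, by linarith, by linarith, fun w hw => ?_⟩
  · rw [Vis.gam, vb_far h1, vb_far h2]
    ring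
  · rw [abs_lt] at hw
    have h5 : ((min (V.y (u e)) (V.y (v e)) : ℤ) : ℝ) < V.y w := by linarith
    have h6 : (V.y w : ℝ) < ((max (V.y (u e)) (V.y (v e)) : ℤ) : ℝ) := by linarith
    exact_mod_cast V.ve w e (by exact_mod_cast h5) (by exact_mod_cast h6)

theorem Vis.same {w w' : A} {t x : ℝ} (h : |t - V.y w| < 1 / 3) (h' : |t - V.y w'| < 1 / 3)
    (hx : V.l w ≤ x ∧ x ≤ V.r w) (hx' : V.l w' ≤ x ∧ x ≤ V.r w') : w = w' := by
  by_contra hne
  rw [abs_lt] at h h'
  have h1 : V.y w = V.y w' := int_near (abs_lt.2 ⟨by linarith, by linarith⟩)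
  rcases V.vv w w' hne h1 with h2 | h2
  · have h3 : (V.r w : ℝ) < V.l w' := by exact_mod_cast h2
    linarith [hx.2, hx'.1]
  · have h3 : (V.r w' : ℝ) < V.l w := by exact_mod_cast h2
    linarith [hx.1, hx'.2]

theorem Vis.col {e e' : E} (hne : e ≠ e') (hc : (V.c e : ℝ) = V.c e') {t : ℝ} (h : V.on e t)
    (h' : V.on e' t) : t = ((max (V.y (u e)) (V.y (v e)) : ℤ) : ℝ) ∨
      t = ((min (V.y (u e)) (V.y (v e)) : ℤ) : ℝ) := by
  rcases V.ee e e' hne (by exact_mod_cast hc) with h1 | h1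
  · have h2 := (Int.cast_le (R := ℝ)).2 h1
    exact Or.inl (le_antisymm h.2 (h2.trans h'.1))
  · have h2 := (Int.cast_le (R := ℝ)).2 h1
    exact Or.inr (le_antisymm (h'.2.trans h2) h.1)

/-- Two different edges meet only at an end. -/
theorem Vis.meet {e e' : E} (hne : e ≠ e') {t : ℝ} (h : V.on e t) (h' : V.on e' t)
    (hg : V.gam e t = V.gam e' t) : ∃ w, (w = u e ∨ w = v e) ∧ t = V.y w := by
  rcases V.dich h with ⟨w, hw, ht⟩ | ⟨h1, h2, h3, h4⟩
  · refine ⟨w, hw, ?_⟩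
    have hb := V.gam_bar hw ht
    rcases V.dich h' with ⟨w', hw', ht'⟩ | ⟨h1, -, -, h4⟩
    · have hb' := V.gam_bar hw' ht'
      rw [← hg] at hb'
      obtain rfl := V.same ht ht' hb hb'
      rw [V.gam_near hw ht, V.gam_near hw' ht] at hg
      have h5 : ((V.c e : ℝ) - V.c e') * (1 - vb (t - V.y w)) = 0 := by linear_combination hg
      rcases mul_eq_zero.1 h5 with h6 | h6
      · rcases V.col hne (sub_eq_zero.1 h6) h h' with h7 | h7 <;> rw [h7] at ht ⊢ <;>
          exact congrArg _ (int_near (ht.trans (by norm_num)))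
      · exact sub_eq_zero.1 (vb_one (by linarith))
    · rcases h4 w ht with h5 | h5 <;> linarith [hb.1, hb.2]
  · rcases V.dich h' with ⟨w', hw', ht'⟩ | ⟨h1', -⟩
    · have hb := V.gam_bar hw' ht'
      rcases h4 w' ht' with h5 | h5 <;> linarith [hb.1, hb.2]
    · rcases V.col hne (by linarith) h h' with h7 | h7 <;> linarith

/-- The left end of a bar lies on an edge only if the bar is an end of it. -/
theorem Vis.centre {e : E} {w : A} (h : V.on e (V.y w)) (hg : V.gam e (V.y w) = V.l w) :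
    w = u e ∨ w = v e := by
  have h0 : |(V.y w : ℝ) - V.y w| < 1 / 3 := by simp
  have hl : (V.l w : ℝ) ≤ V.r w := by exact_mod_cast V.lr w
  rcases V.dich h with ⟨w', hw, ht⟩ | ⟨h1, -, -, h4⟩
  · have hb := V.gam_bar hw ht
    rw [hg] at hb
    rw [V.same h0 ht ⟨le_rfl, hl⟩ hb]
    exact hw
  · rcases h4 w h0 with h5 | h5 <;> linarith

/-- The midpoint of an edge lies on no other edge. -/
theorem Vis.spoke {e e' : E} (h : V.on e (V.mid e')) (hg : V.gam e (V.mid e') = V.c e') :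
    e' = e := by
  by_contra hne
  obtain ⟨w, hw, ht⟩ := V.meet hne (V.on_mid e') h (by rw [hg, V.gam_mid])
  exact V.mid_ne hw ht

theorem Vis.two {e : E} {w w' : A} (hw : w = u e ∨ w = v e) (hw' : w' = u e ∨ w' = v e)
    (hne : w ≠ w') : V.mid e = ((V.y w : ℝ) + V.y w') / 2 := by
  rcases hw with rfl | rfl <;> rcases hw' with h | h
  · exact absurd h.symm hne
  · rw [h, Vis.mid]
  · rw [h, Vis.mid, add_comm]
  · exact absurd h.symm hne

end gen

section drw

variable {X : Type} {tg : X → Fin 5 → X}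
  (V : Vis (fun q : X × Fin 5 => q.1) (fun q => tg q.1 q.2))

/-- The height of a vertex. -/
noncomputable def vht : Vx X → ℝ
  | (a, none) => V.y a
  | (a, some k) => V.mid (a, k)

/-- The horizontal coordinate of a vertex. -/
noncomputable def vxc : Vx X → ℝ
  | (a, none) => V.l a
  | (a, some k) => V.c (a, k)

/-- The spoke among two adjacent vertices. -/
def vsp : Vx X → Vx X → X × Fin 5
  | (a, some k), _ => (a, k)
  | (_, none), (b, some k) => (b, k)
  | (a, none), (_, none) => (a, 0)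

/-- The point of the edge `q` at height `t`. -/
noncomputable def vpt (q : X × Fin 5) (t : ℝ) : Plane := !₂[V.gam q t, t]

/-- The position of a vertex. -/
noncomputable def vps (z : Vx X) : Plane := !₂[vxc V z, vht V z]

theorem vpt_eq {q q' : X × Fin 5} {t t' : ℝ} (h : vpt V q t = vpt V q' t') :
    V.gam q t = V.gam q' t' ∧ t = t' :=
  ⟨congrArg (fun x : Plane => x 0) h, congrArg (fun x : Plane => x 1) h⟩

theorem vpt_vps {q : X × Fin 5} {t : ℝ} {z : Vx X} (h : vpt V q t = vps V z) :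
    V.gam q t = vxc V z ∧ t = vht V z :=
  ⟨congrArg (fun x : Plane => x 0) h, congrArg (fun x : Plane => x 1) h⟩

theorem vpt_mid (q : X × Fin 5) : vpt V q (V.mid q) = vps V (q.1, some q.2) := by
  rw [vpt, V.gam_mid]
  rfl

theorem vpt_end {q : X × Fin 5} {w : X} (hw : w = q.1 ∨ w = tg q.1 q.2) :
    vpt V q (V.y w) = vps V (w, none) := by
  rw [vpt, V.gam_end hw]
  rfl

theorem vpt_cont (q : X × Fin 5) : Continuous (vpt V q) := by
  have := V.gam_cont q
  unfold vpt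
  fun_prop

theorem vadj {z z' : Vx X} (h : (spG tg).Adj z z') :
    ∃ (q : X × Fin 5) (w : X), (w = q.1 ∨ w = tg q.1 q.2) ∧
      ((z = (q.1, some q.2) ∧ z' = (w, none)) ∨ (z = (w, none) ∧ z' = (q.1, some q.2))) := by
  obtain ⟨a, o⟩ := z
  obtain ⟨b, o'⟩ := z'
  rcases (spG_adj tg _ _).1 h with ⟨k, h1, h2, h3⟩ | ⟨k, h1, h2, h3⟩
  · obtain rfl : o = some k := h1
    obtain rfl : o' = none := h2
    exact ⟨(a, k), b, h3, Or.inl ⟨rfl, rfl⟩⟩
  · obtain rfl : o' = some k := h1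
    obtain rfl : o = none := h2
    exact ⟨(b, k), a, h3, Or.inr ⟨rfl, rfl⟩⟩

/-- The arc between two adjacent vertices. -/
noncomputable def varc {z z' : Vx X} (h : (spG tg).Adj z z') : Path (vps V z) (vps V z') where
  toFun s := vpt V (vsp z z') ((1 - s) * vht V z + s * vht V z')
  continuous_toFun := (vpt_cont V _).comp (by fun_prop)
  source' := by
    obtain ⟨q, w, hw, ⟨rfl, rfl⟩ | ⟨rfl, rfl⟩⟩ := vadj h
    · simpa [vsp, vht] using vpt_mid V q
    · simpa [vsp, vht] using vpt_end V hw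
  target' := by
    obtain ⟨q, w, hw, ⟨rfl, rfl⟩ | ⟨rfl, rfl⟩⟩ := vadj h
    · simpa [vsp, vht] using vpt_end V hw
    · simpa [vsp, vht] using vpt_mid V q

theorem varc_apply {z z' : Vx X} (h : (spG tg).Adj z z') (s : unitInterval) :
    varc V h s = vpt V (vsp z z') ((1 - s) * vht V z + s * vht V z') := rfl

/-- The points of an arc. -/
theorem varc_range {z z' : Vx X} (h : (spG tg).Adj z z') :
    ∃ (q : X × Fin 5) (w : X), (w = q.1 ∨ w = tg q.1 q.2) ∧
      s(z, z') = s((q.1, some q.2), (w, none)) ∧ ∀ x ∈ Set.range (varc V h),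
        ∃ s : ℝ, 0 ≤ s ∧ s ≤ 1 ∧ V.on q ((1 - s) * V.mid q + s * V.y w) ∧
          x = vpt V q ((1 - s) * V.mid q + s * V.y w) := by
  obtain ⟨q, w, hw, hz⟩ := vadj h
  have hon : ∀ s : ℝ, 0 ≤ s → s ≤ 1 → V.on q ((1 - s) * V.mid q + s * V.y w) := fun s h0 h1 => by
    have h2 := V.on_mid q
    have h3 := V.on_end (e := q) hw
    exact ⟨by nlinarith [h2.1, h3.1], by nlinarith [h2.2, h3.2]⟩
  refine ⟨q, w, hw, ?_, ?_⟩
  · rcases hz with ⟨rfl, rfl⟩ | ⟨rfl, rfl⟩
    · rfl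
    · exact Sym2.eq_swap
  · rintro _ ⟨s, rfl⟩
    rcases hz with ⟨rfl, rfl⟩ | ⟨rfl, rfl⟩
    · exact ⟨s, s.2.1, s.2.2, hon s s.2.1 s.2.2, rfl⟩
    · have h0 : 0 ≤ 1 - (s : ℝ) := sub_nonneg.2 s.2.2
      have h1 : 1 - (s : ℝ) ≤ 1 := sub_le_self _ s.2.1
      refine ⟨1 - s, h0, h1, hon _ h0 h1, ?_⟩
      rw [varc_apply]
      congr 1
      simp only [vht]
      ring

end drw

/-- Plan. Put the centre `a` at `(l a, y a)` and the spoke `q = (a, k)` (with `b = tg a k`) at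
`(c q, (y a + y b) / 2)`. The whole edge `q` is the graph over the heights `t` between `y a` and
`y b` of `Γ q t = c q + (l a - c q) * β (t - y a) + (l b - c q) * β (t - y b)` where
`β x = max 0 (1 - 3 * |x|)`; the two edges of `spG tg` at the spoke are the two halves
(`|y a - y b| ≥ 1`, so `Γ q = c q` at the midpoint; height is an injective affine function of the
parameter, so the paths are injective). Key facts, for a real height `t` and the nearest integer
`n` to `t`: if `|t - n| ≥ 1/3` then `Γ q t = c q`; if `|t - n| < 1/3` then either `n` lies strictly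
between `y a` and `y b` and `Γ q t = c q` (outside all bars of height `n`, by `ve`), or `n` is the
height of an end `w` of `q` and `Γ q t = c q + (l w - c q) * β (t - n)` lies in `[l w, r w]`.
Hence (with `vv`, `ee`) two different edges `q ≠ q'` meet only at points `(l w, y w)`, a centre
point lies on `q` only if it is an end, and a spoke point lies only on its own edge.
Define the path for an adjacent pair `(u, v)` symmetrically, for instance by choosing for every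
pair a spoke `q` (the one of `u`, `v` with second component `some k`) and using
`t ↦ (Γ q (h t), h t)` with `h t = (1 - t) * height u + t * height v`. -/
theorem planar_of_vis {X : Type} {tg : X → Fin 5 → X} (hne : ∀ a k, tg a k ≠ a)
    (V : Vis (fun q : X × Fin 5 => q.1) (fun q => tg q.1 q.2)) : IsPlanar (spG tg) := by
  have _ := hne
  have hsp : ∀ (q : X × Fin 5) (z : Vx X), vps V (q.1, some q.2) = vps V z →
      z = (q.1, some q.2) := fun q z h => by
    obtain ⟨h1, h2⟩ := vpt_vps V ((vpt_mid V q).trans h)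
    obtain ⟨a, _ | k⟩ := z
    · have h3 : V.mid q = V.y a := h2
      have h4 := V.on_mid q
      rw [h3] at h1 h4
      exact absurd h3 (V.mid_ne (V.centre h4 h1))
    · have h3 : V.mid q = V.mid (a, k) := h2
      have h4 := V.on_mid q
      rw [h3] at h1 h4
      rw [← V.spoke h4 h1]
  refine ⟨vps V, fun z z' h => varc V h, ?_, ?_, ?_, ?_, ?_⟩
  · rintro ⟨a, _ | k⟩ ⟨b, _ | k'⟩ h
    · have h1 : (V.l a : ℝ) = V.l b := congrArg (fun x : Plane => x 0) h
      have h2 : (V.y a : ℝ) = V.y b := congrArg (fun x : Plane => x 1) h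
      have h3 : (V.l a : ℝ) ≤ V.r a := by exact_mod_cast V.lr a
      have h4 : (V.l b : ℝ) ≤ V.r b := by exact_mod_cast V.lr b
      rw [V.same (w := a) (w' := b) (t := V.y a) (x := V.l a) (by simp) (by simp [h2])
        ⟨le_rfl, h3⟩ ⟨h1.ge, h1.trans_le h4⟩]
    · exact hsp (b, k') _ h.symm
    · exact (hsp (a, k) _ h).symm
    · exact (hsp (a, k) _ h).symm
  · intro z z' h s s' hs
    have h1 := (vpt_eq V hs).2
    have h2 : vht V z ≠ vht V z' := by
      obtain ⟨q, w, hw, ⟨rfl, rfl⟩ | ⟨rfl, rfl⟩⟩ := vadj h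
      · exact V.mid_ne hw
      · exact (V.mid_ne hw).symm
    have h3 : ((s : ℝ) - s') * (vht V z - vht V z') = 0 := by linear_combination -h1
    exact Subtype.ext (sub_eq_zero.1 ((mul_eq_zero.1 h3).resolve_right (sub_ne_zero.2 h2)))
  · intro z z' h
    refine Path.ext (funext fun s => ?_)
    have h1 : vsp z' z = vsp z z' := by
      obtain ⟨q, w, hw, ⟨rfl, rfl⟩ | ⟨rfl, rfl⟩⟩ := vadj h <;> rfl
    rw [Path.symm_apply, Function.comp_apply, varc_apply, varc_apply, h1, unitInterval.coe_symm_eq]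
    congr 1
    ring
  · intro z z' h y hy
    obtain ⟨q, w, hw, hz, hr⟩ := varc_range V h
    obtain ⟨s, h0, h1, hon, hx⟩ := hr _ hy
    obtain ⟨h2, h3⟩ := vpt_vps V hx.symm
    rw [h3] at h2 hon
    rw [← Sym2.mem_iff, hz, Sym2.mem_iff]
    obtain ⟨a, _ | k⟩ := y
    · have h4 := V.centre hon h2
      by_cases h5 : a = w
      · exact Or.inr (by rw [h5])
      · have h6 := V.two h4 hw h5
        have h7 := V.mid_ne hw
        have h8 : (1 - s) * V.mid q + s * V.y w = V.y a := h3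
        have h9 : (1 + s) * (V.mid q - V.y w) = 0 := by linear_combination 2 * h6 - h8
        exact absurd (sub_eq_zero.1 ((mul_eq_zero.1 h9).resolve_left (by linarith))) h7
    · exact Or.inl (by rw [← V.spoke hon h2])
  · intro z z' h y y' h' hn x hx hx'
    obtain ⟨q, w, hw, hz, hr⟩ := varc_range V h
    obtain ⟨q', w', hw', hz', hr'⟩ := varc_range V h'
    obtain ⟨s, h0, h1, hon, e⟩ := hr _ hx
    obtain ⟨s', h0', h1', hon', e'⟩ := hr' _ hx'
    obtain ⟨h2, h3⟩ := vpt_eq V (e.symm.trans e')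
    by_cases hq : q = q'
    · subst hq
      have h5 : w ≠ w' := fun h5 => hn (by rw [hz, hz', h5])
      have h6 := V.two hw hw' h5
      have h7 := V.mid_ne hw
      have h9 : (s + s') * (V.mid q - V.y w) = 0 := by linear_combination 2 * s' * h6 - h3
      have h8 : s = 0 := by
        linarith [(mul_eq_zero.1 h9).resolve_right (sub_ne_zero.2 h7)]
      refine ⟨(q.1, some q.2), ?_⟩
      rw [e, h8, ← vpt_mid]
      congr 1
      ring
    · rw [← h3] at h2 hon'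
      obtain ⟨a, ha, ht⟩ := V.meet hq hon hon' h2
      exact ⟨(a, none), by rw [e, ht, vpt_end V ha]⟩

end Pool.Agent.MP_06c78e_co.H40

end

-- part MP_06c78e_co.H40.Blow
section

/-! From the skeleton to the core. -/

namespace Pool.Agent.MP_06c78e_co.H40

section Gen

variable {V E V' E' : Type} {u v : E → V}

/-- The height of position `p` (from `0` to `16`) on the edge `e`, after scaling. -/
def blHt (W : Vis u v) (e : E) (p : ℤ) : ℤ :=
  if p = 16 then 16 * W.y (v e)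
  else if W.y (u e) < W.y (v e) then 16 * W.y (u e) + p else 16 * W.y (u e) - p

/-- Heights of old vertices and of inner bars. -/
def blY (W : Vis u v) : V ⊕ E × ℤ × ℤ → ℤ
  | .inl a => 16 * W.y a
  | .inr q => blHt W q.1 q.2.1

/-- Left ends. -/
def blL (W : Vis u v) : V ⊕ E × ℤ × ℤ → ℤ
  | .inl a => 16 * W.l a
  | .inr q => 16 * W.c q.1

/-- Right ends. -/
def blR (W : Vis u v) : V ⊕ E × ℤ × ℤ → ℤ
  | .inl a => 16 * W.r a + 15
  | .inr q => 16 * W.c q.1 + q.2.2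

/-- The object `k` sits at position `p` of the edge `e` and reaches the offset `o`. -/
def BlAt (u v : E → V) (e : E) (p o : ℤ) (k : V ⊕ E × ℤ × ℤ) : Prop :=
  (p = 0 ∧ k = .inl (u e)) ∨ (p = 16 ∧ k = .inl (v e)) ∨
    (0 < p ∧ p < 16 ∧ ∃ w, k = .inr (e, p, w) ∧ o ≤ w)

theorem BlAt.y (W : Vis u v) {e : E} {p o : ℤ} {k : V ⊕ E × ℤ × ℤ} (h : BlAt u v e p o k) :
    blY W k = blHt W e p ∧ 0 ≤ p ∧ p ≤ 16 := by
  rcases h with ⟨rfl, rfl⟩ | ⟨rfl, rfl⟩ | ⟨h1, h2, w, rfl, -⟩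
  · simp [blY, blHt]
  · simp [blY, blHt]
  · exact ⟨rfl, h1.le, h2.le⟩

theorem BlAt.c (W : Vis u v) {e : E} {p o : ℤ} {k : V ⊕ E × ℤ × ℤ} (h : BlAt u v e p o k)
    (h0 : 0 ≤ o) (h1 : o ≤ 15) : blL W k ≤ 16 * W.c e + o ∧ 16 * W.c e + o ≤ blR W k := by
  have := W.cu e
  have := W.cv e
  rcases h with ⟨rfl, rfl⟩ | ⟨rfl, rfl⟩ | ⟨-, -, w, rfl, h3⟩ <;> simp only [blL, blR] <;> omega

theorem blHt_mem (W : Vis u v) (e : E) {p : ℤ} (h0 : 0 ≤ p) (h1 : p ≤ 16) :
    16 * min (W.y (u e)) (W.y (v e)) ≤ blHt W e p ∧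
      blHt W e p ≤ 16 * max (W.y (u e)) (W.y (v e)) := by
  have := W.ne e
  unfold blHt
  split_ifs <;> omega

theorem blHt_in (W : Vis u v) (e : E) {p : ℤ} (h0 : 0 < p) (h1 : p < 16) :
    16 * min (W.y (u e)) (W.y (v e)) < blHt W e p ∧
      blHt W e p < 16 * max (W.y (u e)) (W.y (v e)) ∧ ∀ t : ℤ, blHt W e p ≠ 16 * t := by
  have := W.ne e
  unfold blHt
  refine ⟨?_, ?_, fun t => ?_⟩ <;> split_ifs <;> omega

theorem blHt_mono (W : Vis u v) (e : E) {p p' : ℤ} (h0 : 0 ≤ p) (h1 : p ≤ 16) (h2 : 0 ≤ p')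
    (h3 : p' ≤ 16) : (W.y (u e) < W.y (v e) → (blHt W e p < blHt W e p' ↔ p < p')) ∧
      (¬W.y (u e) < W.y (v e) → (blHt W e p < blHt W e p' ↔ p' < p)) := by
  have := W.ne e
  unfold blHt
  constructor <;> intro h <;> split_ifs <;> omega

/-- The data of a blow-up. -/
structure BlData (u v : E → V) (u' v' : E' → V') where
  κ : V' → V ⊕ E × ℤ × ℤ
  ε : E' → E
  pu : E' → ℤ
  pv : E' → ℤ
  off : E' → ℤ
  hin : ∀ a e p w, κ a = .inr (e, p, w) → 0 < p ∧ p < 16 ∧ 0 ≤ w ∧ w ≤ 15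
  inj1 : ∀ a b x, κ a = .inl x → κ b = .inl x → a = b
  inj2 : ∀ a b e p w w', κ a = .inr (e, p, w) → κ b = .inr (e, p, w') → a = b
  hu : ∀ q, BlAt u v (ε q) (pu q) (off q) (κ (u' q))
  hv : ∀ q, BlAt u v (ε q) (pv q) (off q) (κ (v' q))
  hne : ∀ q, pu q ≠ pv q
  hoff : ∀ q, 0 ≤ off q ∧ off q ≤ 15
  hve : ∀ a q p w, κ a = .inr (ε q, p, w) → min (pu q) (pv q) < p → p < max (pu q) (pv q) →
    w < off q
  hee : ∀ q q', q ≠ q' → ε q = ε q' → off q = off q' →
    max (pu q) (pv q) ≤ min (pu q') (pv q') ∨ max (pu q') (pv q') ≤ min (pu q) (pv q)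

/-- The blown-up representation. -/
def BlData.vis {u' v' : E' → V'} (D : BlData u v u' v') (W : Vis u v) : Vis u' v' where
  y a := blY W (D.κ a)
  l a := blL W (D.κ a)
  r a := blR W (D.κ a)
  c q := 16 * W.c (D.ε q) + D.off q
  lr a := by
    rcases h : D.κ a with x | ⟨e, p, w⟩
    · have := W.lr x
      simp only [blL, blR]
      omega
    · have := D.hin a e p w h
      simp only [blL, blR]
      omega
  ne q := by
    obtain ⟨a1, a2, a3⟩ := (D.hu q).y W
    obtain ⟨b1, b2, b3⟩ := (D.hv q).y W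
    have h1 := blHt_mono W (D.ε q) a2 a3 b2 b3
    have h2 := blHt_mono W (D.ε q) b2 b3 a2 a3
    have h3 := D.hne q
    rw [a1, b1]
    by_cases h : W.y (u (D.ε q)) < W.y (v (D.ε q))
    · have := h1.1 h
      have := h2.1 h
      omega
    · have := h1.2 h
      have := h2.2 h
      omega
  cu q := (D.hu q).c W (D.hoff q).1 (D.hoff q).2
  cv q := (D.hv q).c W (D.hoff q).1 (D.hoff q).2
  vv a b hab hy := by
    rcases ha : D.κ a with x | ⟨e, p, w⟩ <;> rcases hb : D.κ b with x' | ⟨e', p', w'⟩ <;>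
      rw [ha, hb] at hy <;> simp only [blY, blL, blR] at hy ⊢
    · have hx : x ≠ x' := fun h => hab (D.inj1 a b x ha (h ▸ hb))
      have := W.vv x x' hx (by omega)
      omega
    · obtain ⟨h1, h2, -⟩ := D.hin b e' p' w' hb
      exact absurd hy.symm ((blHt_in W e' h1 h2).2.2 _)
    · obtain ⟨h1, h2, -⟩ := D.hin a e p w ha
      exact absurd hy ((blHt_in W e h1 h2).2.2 _)
    · obtain ⟨h1, h2, h3, h4⟩ := D.hin a e p w ha
      obtain ⟨h5, h6, h7, h8⟩ := D.hin b e' p' w' hb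
      by_cases he : e = e'
      · subst he
        have hp : p ≠ p' := fun h => hab (D.inj2 a b e p w w' ha (h ▸ hb))
        have k1 := blHt_mono W e h1.le h2.le h5.le h6.le
        have k2 := blHt_mono W e h5.le h6.le h1.le h2.le
        by_cases h : W.y (u e) < W.y (v e)
        · have := k1.1 h
          have := k2.1 h
          omega
        · have := k1.2 h
          have := k2.2 h
          omega
      · by_cases hc : W.c e = W.c e'
        · have := W.ee e e' he hc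
          have := blHt_in W e h1 h2
          have := blHt_in W e' h5 h6
          omega
        · omega
  ve a q h1 h2 := by
    obtain ⟨a1, a2, a3⟩ := (D.hu q).y W
    obtain ⟨b1, b2, b3⟩ := (D.hv q).y W
    have c1 := blHt_mem W (D.ε q) a2 a3
    have c2 := blHt_mem W (D.ε q) b2 b3
    have c3 := D.hoff q
    rw [a1, b1] at h1 h2
    rcases ha : D.κ a with x | ⟨e, p, w⟩ <;> rw [ha] at h1 h2 <;>
      simp only [blY, blL, blR] at h1 h2 ⊢
    · have := W.ve x (D.ε q) (by omega) (by omega)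
      omega
    · obtain ⟨h3, h4, h5, h6⟩ := D.hin a e p w ha
      by_cases he : e = D.ε q
      · subst he
        have k1 := blHt_mono W (D.ε q) h3.le h4.le a2 a3
        have k2 := blHt_mono W (D.ε q) h3.le h4.le b2 b3
        have k3 := blHt_mono W (D.ε q) a2 a3 h3.le h4.le
        have k4 := blHt_mono W (D.ε q) b2 b3 h3.le h4.le
        by_cases h : W.y (u (D.ε q)) < W.y (v (D.ε q))
        · have := k1.1 h
          have := k2.1 h
          have := k3.1 h
          have := k4.1 h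
          have := D.hve a q p w ha (by omega) (by omega)
          omega
        · have := k1.2 h
          have := k2.2 h
          have := k3.2 h
          have := k4.2 h
          have := D.hve a q p w ha (by omega) (by omega)
          omega
      · by_cases hc : W.c e = W.c (D.ε q)
        · have := W.ee e _ he hc
          have := blHt_in W e h3 h4
          omega
        · omega
  ee q q' hq hc := by
    obtain ⟨a1, a2, a3⟩ := (D.hu q).y W
    obtain ⟨b1, b2, b3⟩ := (D.hv q).y W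
    obtain ⟨d1, d2, d3⟩ := (D.hu q').y W
    obtain ⟨f1, f2, f3⟩ := (D.hv q').y W
    have c3 := D.hoff q
    have c4 := D.hoff q'
    rw [a1, b1, d1, f1]
    by_cases he : D.ε q = D.ε q'
    · have h0 := D.hee q q' hq he (by rw [he] at hc; omega)
      rw [← he]
      have k1 := blHt_mono W (D.ε q) a2 a3 d2 d3
      have k2 := blHt_mono W (D.ε q) a2 a3 f2 f3
      have k3 := blHt_mono W (D.ε q) b2 b3 d2 d3
      have k4 := blHt_mono W (D.ε q) b2 b3 f2 f3
      have k5 := blHt_mono W (D.ε q) d2 d3 a2 a3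
      have k6 := blHt_mono W (D.ε q) f2 f3 a2 a3
      have k7 := blHt_mono W (D.ε q) d2 d3 b2 b3
      have k8 := blHt_mono W (D.ε q) f2 f3 b2 b3
      by_cases h : W.y (u (D.ε q)) < W.y (v (D.ε q))
      · have m1 := k1.1 h
        have m2 := k2.1 h
        have m3 := k3.1 h
        have m4 := k4.1 h
        have m5 := k5.1 h
        have m6 := k6.1 h
        have m7 := k7.1 h
        have m8 := k8.1 h
        simp only [max_le_iff, le_min_iff]
        simp only [← not_lt, m1, m2, m3, m4, m5, m6, m7, m8]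
        clear k1 k2 k3 k4 k5 k6 k7 k8 m1 m2 m3 m4 m5 m6 m7 m8
        omega
      · have m1 := k1.2 h
        have m2 := k2.2 h
        have m3 := k3.2 h
        have m4 := k4.2 h
        have m5 := k5.2 h
        have m6 := k6.2 h
        have m7 := k7.2 h
        have m8 := k8.2 h
        simp only [max_le_iff, le_min_iff]
        simp only [← not_lt, m1, m2, m3, m4, m5, m6, m7, m8]
        clear k1 k2 k3 k4 k5 k6 k7 k8 m1 m2 m3 m4 m5 m6 m7 m8
        omega
    · have := W.ee _ _ he (by omega)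
      have c5 := blHt_mem W (D.ε q) a2 a3
      have c6 := blHt_mem W (D.ε q) b2 b3
      have c7 := blHt_mem W (D.ε q') d2 d3
      have c8 := blHt_mem W (D.ε q') f2 f3
      omega

end Gen

section Spec

variable {B : Type}

/-- The position of a centre in a stem. -/
def blPos (t : Bool) (m : Fin 11) : ℤ :=
  if t then (if m = 10 then 16 else (m.1 : ℤ) - 7) else if m = 7 then 16 else m.1

/-- The stem of an arc inside a block. -/
def blT (m : Fin 11) (j : Fin 5) : Bool := decide (7 ≤ m ∧ 7 ≤ tb m j)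

/-- The offset of the column of an arc. -/
def blO (m : Fin 11) (j : Fin 5) : ℤ :=
  (j.1 : ℤ) + 5 * if m = 3 ∧ (j = 1 ∨ j = 2) then 2
    else if (m = 0 ∧ j ≠ 0) ∨ tb m j < m then 1 else 0

/-- The width of an inner bar. -/
def blW (m : Fin 11) : ℤ := if m ≤ 2 then 9 else 15

/-- The objects representing the centres. -/
def blK (G : DG B) : B × Fin 11 ⊕ Bool → (B × Fin 3 ⊕ Bool) ⊕ SkE G × ℤ × ℤ
  | .inr t => .inl (.inr t)
  | .inl q => if q.2 = 0 then .inl (.inl (q.1, 0)) else if q.2 = 7 then .inl (.inl (q.1, 1))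
      else if q.2 = 10 then .inl (.inl (q.1, 2))
      else .inr (.inl (q.1, decide (7 ≤ q.2)), blPos (decide (7 ≤ q.2)) q.2, blW q.2)

open Classical in
/-- The skeleton edge carrying an arc, and the positions of the two ends. -/
noncomputable def blD (G : DG B) (b : B) (m : Fin 11) (j : Fin 5) : SkE G × ℤ × ℤ :=
  if m = 0 ∧ j ≠ 0 then
    (if h : b = G.src then (.inr (.inr false), 16, 0) else
      (.inr (.inl (⟨G.r (decide (3 ≤ j)) b, G.r_snk _ _ h⟩, decide (3 ≤ j), false)), 16, 0))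
  else if h : m = 7 ∧ (j = 0 ∨ j = 4) ∧ b ≠ G.snk then
    (.inr (.inl (⟨b, h.2.2⟩, decide (j = 4), true)), 0, 16)
  else if m = 10 ∧ (j = 0 ∨ j = 4) then
    (if h : b = G.snk then (.inr (.inr true), 0, 16) else
      (.inr (.inl (⟨b, h⟩, decide (j = 4), false)), 0, 16))
  else (.inl (b, blT m j), blPos (blT m j) m, blPos (blT m j) (tb m j))

theorem blD_cases (G : DG B) (b : B) (m : Fin 11) (j : Fin 5) :
    (m = 0 ∧ j ≠ 0 ∧ b = G.src ∧ blD G b m j = (.inr (.inr false), 16, 0) ∧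
      ctg G b m j = .inr false) ∨
    (m = 0 ∧ j ≠ 0 ∧ ∃ h : b ≠ G.src, blD G b m j =
      (.inr (.inl (⟨G.r (decide (3 ≤ j)) b, G.r_snk _ _ h⟩, decide (3 ≤ j), false)), 16, 0) ∧
      ctg G b m j = .inl (G.r (decide (3 ≤ j)) b, 10)) ∨
    (m = 7 ∧ (j = 0 ∨ j = 4) ∧ ∃ h : b ≠ G.snk,
      blD G b m j = (.inr (.inl (⟨b, h⟩, decide (j = 4), true)), 0, 16) ∧
      ctg G b m j = .inl (G.s (decide (j = 4)) b, 7)) ∨
    (m = 10 ∧ (j = 0 ∨ j = 4) ∧ b = G.snk ∧ blD G b m j = (.inr (.inr true), 0, 16) ∧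
      ctg G b m j = .inr true) ∨
    (m = 10 ∧ (j = 0 ∨ j = 4) ∧ ∃ h : b ≠ G.snk,
      blD G b m j = (.inr (.inl (⟨b, h⟩, decide (j = 4), false)), 0, 16) ∧
      ctg G b m j = .inl (G.s (decide (j = 4)) b, 0)) ∨
    (¬(m = 0 ∧ j ≠ 0) ∧ ¬(m = 10 ∧ (j = 0 ∨ j = 4)) ∧
      blD G b m j = (.inl (b, blT m j), blPos (blT m j) m, blPos (blT m j) (tb m j)) ∧
      ctg G b m j = .inl (b, tb m j)) := by
  unfold blD ctg
  by_cases h1 : m = 0 ∧ j ≠ 0
  · simp only [if_pos h1]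
    by_cases h : b = G.src
    · exact Or.inl ⟨h1.1, h1.2, h, dif_pos h, if_pos h⟩
    · exact Or.inr (Or.inl ⟨h1.1, h1.2, h, dif_neg h, if_neg h⟩)
  · simp only [if_neg h1]
    by_cases h2 : m = 7 ∧ (j = 0 ∨ j = 4) ∧ b ≠ G.snk
    · exact Or.inr (Or.inr (Or.inl ⟨h2.1, h2.2.1, h2.2.2, dif_pos h2, if_pos h2⟩))
    · simp only [dif_neg h2, if_neg h2]
      by_cases h3 : m = 10 ∧ (j = 0 ∨ j = 4)
      · simp only [if_pos h3]
        by_cases h : b = G.snk
        · exact Or.inr (Or.inr (Or.inr (Or.inl ⟨h3.1, h3.2, h, dif_pos h, if_pos h⟩)))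
        · exact Or.inr (Or.inr (Or.inr (Or.inr (Or.inl ⟨h3.1, h3.2, h, dif_neg h, if_neg h⟩))))
      · exact Or.inr (Or.inr (Or.inr (Or.inr (Or.inr ⟨h1, h3, if_neg h3, if_neg h3⟩))))

theorem blK_cases (G : DG B) (a : B × Fin 11 ⊕ Bool) :
    (∃ t, a = .inr t ∧ blK G a = .inl (.inr t)) ∨
    (∃ b, a = .inl (b, 0) ∧ blK G a = .inl (.inl (b, 0))) ∨
    (∃ b, a = .inl (b, 7) ∧ blK G a = .inl (.inl (b, 1))) ∨
    (∃ b, a = .inl (b, 10) ∧ blK G a = .inl (.inl (b, 2))) ∨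
    ∃ b m, a = .inl (b, m) ∧ m ≠ 0 ∧ m ≠ 7 ∧ m ≠ 10 ∧
      blK G a = .inr (.inl (b, decide (7 ≤ m)), blPos (decide (7 ≤ m)) m, blW m) := by
  rcases a with ⟨b, m⟩ | t
  · by_cases h0 : m = 0
    · subst h0
      exact Or.inr (Or.inl ⟨b, rfl, rfl⟩)
    · by_cases h7 : m = 7
      · subst h7
        exact Or.inr (Or.inr (Or.inl ⟨b, rfl, rfl⟩))
      · by_cases h10 : m = 10
        · subst h10
          exact Or.inr (Or.inr (Or.inr (Or.inl ⟨b, rfl, rfl⟩)))
        · exact Or.inr (Or.inr (Or.inr (Or.inr ⟨b, m, rfl, h0, h7, h10, by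
            simp only [blK, if_neg h0, if_neg h7, if_neg h10]⟩)))
  · exact Or.inl ⟨t, rfl, rfl⟩

theorem blAt_stem (G : DG B) (b : B) (t : Bool) (m : Fin 11) (o : ℤ)
    (h : (t = false → m ≤ 7) ∧ (t = true → 7 ≤ m) ∧ (m = 0 ∨ o ≤ blW m)) :
    BlAt (sku G) (skv G) (.inl (b, t)) (blPos t m) o (blK G (.inl (b, m))) := by
  obtain ⟨h1, h2, h3⟩ := h
  cases t <;> fin_cases m <;> simp [BlAt, blPos, blK, sku, skv] at h1 h2 h3 ⊢ <;> exact h3

theorem blO_bd : ∀ m j, 0 ≤ blO m j ∧ blO m j ≤ 15 := by decide +kernel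

theorem blO_inj : ∀ m m' j j', blO m j = blO m' j' → j = j' := by decide +kernel

theorem blO_ac : ∀ j, j ≠ 0 → j = 0 ∨ j = 4 → blO 0 j ≠ blO 10 j := by decide +kernel

theorem blO_bot : ∀ j, j ≠ 0 → blO 0 j ≠ 0 := by decide +kernel

theorem blO_top : ∀ j, j = 0 ∨ j = 4 → blO 10 j ≤ 4 := by decide +kernel

theorem bl_in : ∀ m : Fin 11, m ≠ 0 → m ≠ 7 → m ≠ 10 → 0 < blPos (decide (7 ≤ m)) m ∧
    blPos (decide (7 ≤ m)) m < 16 ∧ 0 ≤ blW m ∧ blW m ≤ 15 := by decide +kernel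

theorem bl_inj : ∀ m m' : Fin 11, decide (7 ≤ m) = decide (7 ≤ m') →
    blPos (decide (7 ≤ m)) m = blPos (decide (7 ≤ m')) m' → m = m' := by decide +kernel

theorem bl_stem : ∀ (m : Fin 11) (j : Fin 5), ¬(m = 0 ∧ j ≠ 0) → ¬(m = 10 ∧ (j = 0 ∨ j = 4)) →
    ((blT m j = false → m ≤ 7) ∧ (blT m j = true → 7 ≤ m) ∧ (m = 0 ∨ blO m j ≤ blW m)) ∧
    ((blT m j = false → tb m j ≤ 7) ∧ (blT m j = true → 7 ≤ tb m j) ∧
      (tb m j = 0 ∨ blO m j ≤ blW (tb m j))) ∧
    blPos (blT m j) m ≠ blPos (blT m j) (tb m j) := by decide +kernel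

set_option synthInstance.maxSize 1024 in
theorem bl_ve : ∀ (m m' : Fin 11) (j : Fin 5), ¬(m = 0 ∧ j ≠ 0) → ¬(m = 10 ∧ (j = 0 ∨ j = 4)) →
    m' ≠ 7 → decide (7 ≤ m') = blT m j →
    min (blPos (blT m j) m) (blPos (blT m j) (tb m j)) < blPos (decide (7 ≤ m')) m' →
    blPos (decide (7 ≤ m')) m' < max (blPos (blT m j) m) (blPos (blT m j) (tb m j)) →
    blW m' < blO m j := by decide +kernel

theorem bl_ee : ∀ (m m' : Fin 11) (j : Fin 5), ¬(m = 0 ∧ j ≠ 0) → ¬(m = 10 ∧ (j = 0 ∨ j = 4)) →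
    ¬(m' = 0 ∧ j ≠ 0) → ¬(m' = 10 ∧ (j = 0 ∨ j = 4)) → m ≠ m' → blT m j = blT m' j →
    blO m j = blO m' j →
    max (blPos (blT m j) m) (blPos (blT m j) (tb m j)) ≤
      min (blPos (blT m' j) m') (blPos (blT m' j) (tb m' j)) ∨
    max (blPos (blT m' j) m') (blPos (blT m' j) (tb m' j)) ≤
      min (blPos (blT m j) m) (blPos (blT m j) (tb m j)) := by decide +kernel

/-- The data of the blow-up of the skeleton to the core. -/
noncomputable def blData (G : DG B) : BlData (sku G) (skv G) cou (cov G) where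
  κ := blK G
  ε q := match q with
    | .inl q => (blD G q.1 q.2.1 q.2.2).1
    | .inr i => .inr (.inr (decide (i ≠ 0)))
  pu q := match q with
    | .inl q => (blD G q.1 q.2.1 q.2.2).2.1
    | .inr i => if i = 0 then 0 else 16
  pv q := match q with
    | .inl q => (blD G q.1 q.2.1 q.2.2).2.2
    | .inr i => if i = 0 then 16 else 0
  off q := match q with
    | .inl q => blO q.2.1 q.2.2
    | .inr i => if i = 0 then 0 else 5 + i.1
  hin a e p w h := by
    rcases blK_cases G a with ⟨t, -, k⟩ | ⟨b, -, k⟩ | ⟨b, -, k⟩ | ⟨b, -, k⟩ |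
      ⟨b, m, -, h0, h7, h10, k⟩ <;> rw [k] at h <;> simp only [reduceCtorEq, Sum.inr.injEq,
        Prod.mk.injEq] at h
    obtain ⟨-, rfl, rfl⟩ := h
    exact bl_in m h0 h7 h10
  inj1 a a' x h h' := by
    rw [← h'] at h
    rcases blK_cases G a with ⟨t, rfl, k⟩ | ⟨b, rfl, k⟩ | ⟨b, rfl, k⟩ | ⟨b, rfl, k⟩ |
      ⟨b, m, rfl, h0, h7, h10, k⟩ <;>
    rcases blK_cases G a' with ⟨t', rfl, k'⟩ | ⟨b', rfl, k'⟩ | ⟨b', rfl, k'⟩ | ⟨b', rfl, k'⟩ |
      ⟨b', m', rfl, h0', h7', h10', k'⟩ <;> rw [k, k'] at h <;> rw [k'] at h' <;>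
      simp at h h' ⊢ <;> exact h
  inj2 a a' e p w w' h h' := by
    rcases blK_cases G a with ⟨t, -, k⟩ | ⟨b, -, k⟩ | ⟨b, -, k⟩ | ⟨b, -, k⟩ |
      ⟨b, m, rfl, h0, h7, h10, k⟩ <;> rw [k] at h <;> simp only [reduceCtorEq, Sum.inr.injEq,
        Prod.mk.injEq] at h
    rcases blK_cases G a' with ⟨t, -, k'⟩ | ⟨b', -, k'⟩ | ⟨b', -, k'⟩ | ⟨b', -, k'⟩ |
      ⟨b', m', rfl, h0', h7', h10', k'⟩ <;> rw [k'] at h' <;> simp only [reduceCtorEq,
        Sum.inr.injEq, Prod.mk.injEq] at h'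
    obtain ⟨rfl, h2, -⟩ := h
    obtain ⟨h3, h4, -⟩ := h'
    simp only [Sum.inl.injEq, Prod.mk.injEq] at h3
    rw [h3.1, bl_inj m m' h3.2.symm (h2.trans h4.symm)]
  hu q := by
    rcases q with ⟨b, m, j⟩ | i
    · rcases blD_cases G b m j with ⟨rfl, h1, rfl, k, -⟩ | ⟨rfl, h1, h, k, -⟩ |
        ⟨rfl, h1, h, k, -⟩ | ⟨rfl, h1, rfl, k, -⟩ | ⟨rfl, h1, h, k, -⟩ | ⟨h1, h2, k, -⟩ <;>
        simp only [k, cou]
      · exact Or.inr (Or.inl ⟨rfl, rfl⟩)
      · exact Or.inr (Or.inl ⟨rfl, by simp only [skv, G.sr _ b h]; rfl⟩)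
      · exact Or.inl ⟨rfl, rfl⟩
      · exact Or.inl ⟨rfl, rfl⟩
      · exact Or.inl ⟨rfl, rfl⟩
      · exact blAt_stem G b _ m _ (bl_stem m j h1 h2).1
    · fin_cases i
      · exact Or.inl ⟨rfl, rfl⟩
      · exact Or.inr (Or.inl ⟨rfl, rfl⟩)
      · exact Or.inr (Or.inl ⟨rfl, rfl⟩)
  hv q := by
    rcases q with ⟨b, m, j⟩ | i
    · rcases blD_cases G b m j with ⟨rfl, h1, rfl, k, k'⟩ | ⟨rfl, h1, h, k, k'⟩ |
        ⟨rfl, h1, h, k, k'⟩ | ⟨rfl, h1, rfl, k, k'⟩ | ⟨rfl, h1, h, k, k'⟩ | ⟨h1, h2, k, k'⟩ <;>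
        simp only [k, k', cov]
      · exact Or.inl ⟨rfl, rfl⟩
      · exact Or.inl ⟨rfl, rfl⟩
      · exact Or.inr (Or.inl ⟨rfl, rfl⟩)
      · exact Or.inr (Or.inl ⟨rfl, rfl⟩)
      · exact Or.inr (Or.inl ⟨rfl, rfl⟩)
      · exact blAt_stem G b _ _ _ (bl_stem m j h1 h2).2.1
    · fin_cases i
      · exact Or.inr (Or.inl ⟨rfl, rfl⟩)
      · exact Or.inl ⟨rfl, rfl⟩
      · exact Or.inl ⟨rfl, rfl⟩
  hne q := by
    rcases q with ⟨b, m, j⟩ | i
    · rcases blD_cases G b m j with ⟨-, -, -, k, -⟩ | ⟨-, -, h, k, -⟩ |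
        ⟨-, -, h, k, -⟩ | ⟨-, -, -, k, -⟩ | ⟨-, -, h, k, -⟩ | ⟨h1, h2, k, -⟩ <;>
        simp only [k]
      · decide
      · decide
      · decide
      · decide
      · decide
      · exact (bl_stem m j h1 h2).2.2
    · fin_cases i <;> simp
  hoff q := by
    rcases q with ⟨b, m, j⟩ | i
    · exact blO_bd m j
    · fin_cases i <;> simp
  hve a q p w h h1 h2 := by
    rcases blK_cases G a with ⟨t, -, k⟩ | ⟨b, -, k⟩ | ⟨b, -, k⟩ | ⟨b, -, k⟩ |
      ⟨b', m', -, h0, h7, h10, k⟩ <;> rw [k] at h <;> simp only [reduceCtorEq, Sum.inr.injEq,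
        Prod.mk.injEq] at h
    obtain ⟨h, rfl, rfl⟩ := h
    rcases q with ⟨b, m, j⟩ | i
    · rcases blD_cases G b m j with ⟨-, -, -, k, -⟩ | ⟨-, -, h', k, -⟩ |
        ⟨-, -, h', k, -⟩ | ⟨-, -, -, k, -⟩ | ⟨-, -, h', k, -⟩ | ⟨h3, h4, k, -⟩ <;>
        simp only [k, reduceCtorEq, Sum.inl.injEq, Prod.mk.injEq] at h h1 h2
      exact bl_ve m m' j h3 h4 h7 h.2 h1 h2
    · simp only [reduceCtorEq] at h
  hee q q' hq he ho := by
    rcases q with ⟨b, m, j⟩ | i <;> rcases q' with ⟨b', m', j'⟩ | i'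
    · obtain rfl : j = j' := blO_inj m m' j j' ho
      simp only at ho he ⊢
      rcases blD_cases G b m j with ⟨rfl, h1, rfl, k, -⟩ | ⟨rfl, h1, h, k, -⟩ |
        ⟨rfl, h1, h, k, -⟩ | ⟨rfl, h1, rfl, k, -⟩ | ⟨rfl, h1, h, k, -⟩ | ⟨h1, h2, k, -⟩ <;>
      rcases blD_cases G b' m' j with ⟨rfl, h1', rfl, k', -⟩ | ⟨rfl, h1', h', k', -⟩ |
        ⟨rfl, h1', h', k', -⟩ | ⟨rfl, h1', rfl, k', -⟩ | ⟨rfl, h1', h', k', -⟩ |
        ⟨h1', h2', k', -⟩ <;>
      first
        | exact absurd rfl hq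
        | rw [k, k'] at he ⊢
          simp only [reduceCtorEq, Sum.inl.injEq, Sum.inr.injEq, Prod.mk.injEq, Subtype.mk.injEq,
            and_true, and_false, Bool.false_eq_true, Bool.true_eq_false] at he
      · refine absurd ?_ hq
        rw [← G.sr (decide (3 ≤ j)) b h, he, G.sr _ b' h']
      · exact absurd ho (blO_ac j h1 h1')
      · exact absurd (by rw [he]) hq
      · exact absurd ho.symm (blO_ac j h1' h1)
      · exact absurd (by rw [he]) hq
      · exact bl_ee m m' j h1 h2 h1' h2' (fun e => hq (by rw [he.1, e])) he.2 ho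
    · exfalso
      rcases blD_cases G b m j with ⟨rfl, h1, rfl, k, -⟩ | ⟨rfl, h1, h, k, -⟩ |
        ⟨rfl, h1, h, k, -⟩ | ⟨rfl, h1, rfl, k, -⟩ | ⟨rfl, h1, h, k, -⟩ | ⟨h1, h2, k, -⟩ <;>
        simp only [k, reduceCtorEq, Sum.inr.injEq] at he ho
      · have := blO_bot j h1
        fin_cases i' <;> simp at he ho
        exact this ho
      · have := blO_top j h1
        fin_cases i' <;> simp at he ho <;> omega
    · exfalso
      rcases blD_cases G b' m' j' with ⟨rfl, h1, rfl, k, -⟩ | ⟨rfl, h1, h, k, -⟩ |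
        ⟨rfl, h1, h, k, -⟩ | ⟨rfl, h1, rfl, k, -⟩ | ⟨rfl, h1, h, k, -⟩ | ⟨h1, h2, k, -⟩ <;>
        simp only [k, reduceCtorEq, Sum.inr.injEq] at he ho
      · have := blO_bot j' h1
        fin_cases i <;> simp at he ho
        exact this ho.symm
      · have := blO_top j' h1
        fin_cases i <;> simp at he ho <;> omega
    · exfalso
      fin_cases i <;> fin_cases i' <;> simp at hq he ho

end Spec

/-- Plan. Scale everything by 16. Bars: `(b,0), (b,7), (b,10)`, bottom and top get height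
`16 * y`, and `[16 * l, 16 * r + 15]` of the skeleton vertices `(b,0), (b,1), (b,2)`, bottom, top.
With `σ = sign (y (b,1) - y (b,0))` and `c` the column of the stem `(b,false)`, the centre `(b,m)`
for `1 ≤ m ≤ 6` has height `16 * y (b,0) + σ * m` and bar `[16 c, 16 c + 9]` for `m ≤ 2`,
`[16 c, 16 c + 15]` for `3 ≤ m ≤ 6`; likewise `(b,m)` for `m = 8, 9` has height
`16 * y (b,1) + σ' * (m - 7)` in the stem `(b,true)`, bar `[16 c', 16 c' + 15]`.
Every edge `q` of the core is sent to a skeleton edge `ε q` (the stem containing it; for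
`(b,0,j)`, `j ≠ 0`, the arc `(r T b, T, false)` with `T = decide (3 ≤ j)`, or the bottom edge if
`b = src`; for `(b,7,j)`, `(b,10,j)` with `j = 0, 4` and `b ≠ snk` the arcs `(b, j = 4, true)`,
`(b, j = 4, false)`; `(snk,10,j)` with `j = 0, 4` and `inr 1`, `inr 2` go to the top edge, `inr 0` to
the bottom edge) and gets the column `16 * c (ε q) + off q` with `off (b,m,j) = j + 5 * o m j`,
`o m j = 2` if `m = 3` and `j = 1, 2`; `o m j = 1` if `m = 0, j ≠ 0` or `tb m j < m`; else `0`;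
`off (inr i) = 5 * min i 1 + i`. The height interval of `q` is contained in 16 times the one of
`ε q`; an inner bar lies strictly inside the interval of its stem and in its 16 columns. So pairs
with different skeleton objects are separated by the skeleton conditions (`omega`), and pairs in
the same stem or bundle by a finite check on `(m, j)`. -/
theorem blow {B : Type} (G : DG B) (V : FVis (sku G) (skv G)) :
    Nonempty (FVis cou (cov G)) := by
  have hb : ∀ a : B × Fin 11, (∃ x, blK G (.inl a) = .inl (.inl x)) ∨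
      ∃ b t p w, blK G (.inl a) = .inr (.inl (b, t), p, w) := by
    intro a
    rcases blK_cases G (.inl a) with ⟨t, h, -⟩ | ⟨b, -, k⟩ | ⟨b, -, k⟩ | ⟨b, -, k⟩ |
      ⟨b, m, -, -, -, -, k⟩
    · simp at h
    · exact Or.inl ⟨_, k⟩
    · exact Or.inl ⟨_, k⟩
    · exact Or.inl ⟨_, k⟩
    · exact Or.inr ⟨_, _, _, _, k⟩
  have hs : ∀ (b : B) (t : Bool), ∃ x x', sku G (.inl (b, t)) = .inl x ∧
      skv G (.inl (b, t)) = .inl x' := fun b t => by cases t <;> exact ⟨_, _, rfl, rfl⟩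
  have key : ∀ a : B × Fin 11, 16 * V.y (.inr false) < blY V.toVis (blK G (.inl a)) ∧
      blY V.toVis (blK G (.inl a)) < 16 * V.y (.inr true) ∧
      16 * V.l (.inr false) ≤ blL V.toVis (blK G (.inl a)) ∧
      blR V.toVis (blK G (.inl a)) ≤ 16 * V.r (.inr false) + 15 := by
    intro a
    rcases hb a with ⟨x, k⟩ | ⟨b, t, p, w, k⟩
    · have := V.lo x
      have := V.hi x
      have := V.le x
      have := V.ge x
      simp only [k, blY, blL, blR]
      omega
    · obtain ⟨h1, h2, h3, h4⟩ := (blData G).hin (.inl a) _ p w k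
      obtain ⟨x, x', e1, e2⟩ := hs b t
      have k1 := blHt_in V.toVis (.inl (b, t)) h1 h2
      have k2 := V.cu (.inl (b, t))
      rw [e1, e2] at k1
      rw [e1] at k2
      have := V.lo x
      have := V.hi x
      have := V.lo x'
      have := V.hi x'
      have := V.le x
      have := V.ge x
      simp only [k, blY, blL, blR]
      omega
  exact ⟨{ (blData G).vis V.toVis with
    lo := fun a => (key a).1
    hi := fun a => (key a).2.1
    le := fun a => (key a).2.2.1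
    ge := fun a => (key a).2.2.2
    ltop := congrArg (fun t => 16 * t) V.ltop
    rtop := congrArg (fun t => 16 * t + 15) V.rtop }⟩

end Pool.Agent.MP_06c78e_co.H40

end

-- part MP_06c78e_co.H40.Stack
section

/-! Stacking the chains and the copies of the core. -/

namespace Pool.Agent.MP_06c78e_co.H40

section
variable {B : Type} {NG LC : ℕ} {G : DG B} (V : FVis cou (cov G))

def sH : ℤ := V.y (.inr true) - V.y (.inr false)

def sY : Ctr NG LC B → ℤ
  | rt i => i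
  | ch k i => 4 + k * (LC + sH V) + i
  | co k b m => 4 + k * (LC + sH V) + LC + (V.y (.inl (b, m)) - V.y (.inr false))

def sL : Ctr NG LC B → ℤ
  | rt i => if i = 0 then V.l (.inr false) - 5 * ((NG + 1) * (LC + 1)) else V.l (.inr false)
  | ch k i => V.l (.inr false) - 5 * (k * (LC + 1) + i + 1)
  | co _ b m => V.l (.inl (b, m))

def sR : Ctr NG LC B → ℤ
  | rt _ => V.r (.inr false) + 9
  | ch _ _ => V.r (.inr false) + 9
  | co _ b m => V.r (.inl (b, m))

def sC : Ctr NG LC B × Fin 5 → ℤ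
  | (rt i, j) => if i = 0 then V.l (.inr false) + 5 + j else V.l (.inr false) + j
  | (ch k i, j) =>
    if 2 < j.1 ∨ (j.1 = 0 ∧ i.1 = LC ∧ k.1 = NG) then
      V.l (.inr false) - 5 * (k * (LC + 1) + i + 1) + j
    else if j.1 = 0 ∧ i.1 = LC then V.c (.inr 0)
    else if j.1 ≠ 0 ∧ i.1 = 0 ∧ 0 < k.1 then V.c (.inr (if j.1 = 1 then 1 else 2))
    else V.l (.inr false) + j
  | (co _ b m, j) => V.c (.inl (b, m, j))

def sI (k : Fin NG) : CoE B → Ctr NG LC B × Fin 5
  | .inl q => (co k q.1 q.2.1, q.2.2)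
  | .inr i => (if i = 0 then ch k.castSucc (Fin.last LC) else ch k.succ 0, i.castLE (by omega))

def sW : Ctr NG LC B → Prop
  | rt _ => True
  | ch _ _ => True
  | co _ _ _ => False

theorem sH_two : 2 ≤ sH V := by
  have := V.lo (G.src, 0)
  have := V.hi (G.src, 0)
  unfold sH; omega

theorem mul_step {S : ℤ} (hS : 0 ≤ S) (k k' : ℕ) :
    (k < k' ∧ k * S + S ≤ k' * S) ∨ k = k' ∨ (k' < k ∧ k' * S + S ≤ k * S) := by
  rcases lt_trichotomy k k' with h | h | h
  · have : (k : ℤ) + 1 ≤ k' := by exact_mod_cast h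
    exact Or.inl ⟨h, by nlinarith⟩
  · exact Or.inr (Or.inl h)
  · have : (k' : ℤ) + 1 ≤ k := by exact_mod_cast h
    exact Or.inr (Or.inr ⟨h, by nlinarith⟩)

theorem sY_emb (k : Fin NG) (x : B × Fin 11 ⊕ Bool) : sY V (emb (LC := LC) k x) =
    4 + k * (LC + sH V) + LC + (V.y x - V.y (.inr false)) ∧ 0 ≤ V.y x - V.y (.inr false) ∧
    V.y x - V.y (.inr false) ≤ sH V ∧ sL V (emb (LC := LC) k x) ≤ V.l x ∧
    V.r x ≤ sR V (emb (LC := LC) k x) ∧ V.l (.inr false) ≤ V.l x := by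
  have h2 := sH_two V
  have h3 := V.ltop
  have h4 := V.rtop
  have h5 : (0 : ℤ) ≤ k * (LC + 1) := by positivity
  rcases x with ⟨b, m⟩ | _ | _
  · have := V.lo (b, m)
    have := V.hi (b, m)
    have := V.le (b, m)
    simp only [emb, sY, sL, sR, sH, true_and]; omega
  · simp only [emb, sY, sL, sR, Fin.val_castSucc, Fin.val_last]; omega
  · have e : ∀ S : ℤ, ((k : ℤ) + 1) * S = k * S + S := fun S => by ring
    simp only [emb, sY, sL, sR, Fin.val_succ, Fin.val_zero, Nat.cast_add, Nat.cast_one, e]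
    unfold sH at *; omega

theorem sW_side (a : Ctr NG LC B) (ha : sW a) (k : ℕ) :
    sY V a ≤ 4 + k * (LC + sH V) + LC ∨ 4 + k * (LC + sH V) + LC + sH V ≤ sY V a := by
  have h2 := sH_two V
  have h0 : (0 : ℤ) ≤ LC + sH V := by omega
  rcases a with i | ⟨k', i⟩ | ⟨k', b, m⟩
  · have : (0 : ℤ) ≤ k * (LC + sH V) := by positivity
    simp only [sY]; omega
  · simp only [sY]
    rcases mul_step h0 k k' with h | h | h
    · omega
    · subst h; omega
    · omega
  · exact ha.elim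

theorem sW_inj (a b : Ctr NG LC B) (ha : sW a) (hb : sW b) (h : sY V a = sY V b) : a = b := by
  have h2 := sH_two V
  have h0 : (0 : ℤ) ≤ LC + sH V := by omega
  rcases a with i | ⟨k, i⟩ | ⟨k, c, m⟩ <;> rcases b with i' | ⟨k', i'⟩ | ⟨k', c', m'⟩ <;>
    simp only [sW, sY] at ha hb h
  · rw [show i = i' by omega]
  · have : (0 : ℤ) ≤ k' * (LC + sH V) := by positivity
    omega
  · have : (0 : ℤ) ≤ k * (LC + sH V) := by positivity
    omega
  · rcases mul_step h0 k k' with e | e | e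
    · omega
    · obtain rfl : k = k' := Fin.ext e
      rw [show i = i' by omega]
    · omega

theorem sW_bar (a : Ctr NG LC B) (ha : sW a) :
    sL V a ≤ V.l (.inr false) ∧ V.l (.inr false) + 9 ≤ sR V a := by
  have := V.lr (.inr false)
  rcases a with i | ⟨k, i⟩ | ⟨k, c, m⟩
  · have : (0 : ℤ) ≤ (NG + 1) * (LC + 1) := by positivity
    simp only [sL, sR]; split_ifs <;> omega
  · have : (0 : ℤ) ≤ k * (LC + 1) := by positivity
    simp only [sL, sR]; omega
  · exact ha.elim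

theorem sW_or (a : Ctr NG LC B) : sW a ∨ ∃ k x, a = emb k (.inl x) := by
  rcases a with i | ⟨k, i⟩ | ⟨k, c, m⟩
  exacts [Or.inl trivial, Or.inl trivial, Or.inr ⟨k, (c, m), rfl⟩]

/-- The three kinds of edges. -/
theorem kinds (q : Ctr NG LC B × Fin 5) :
    (∃ k e, q = sI k e ∧ q.1 = emb k (cou e) ∧ tg0 NG LC G q.1 q.2 = emb k (cov G e) ∧
      sC V q = V.c e) ∨
    (∃ k i, q.1 = ch k i ∧ tg0 NG LC G q.1 q.2 = rt 0 ∧
      sC V q = V.l (.inr false) - 5 * (k * (LC + 1) + i + 1) + q.2) ∨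
    (sW q.1 ∧ sW (tg0 NG LC G q.1 q.2) ∧
      ((sY V q.1 = 0 ∧ sY V (tg0 NG LC G q.1 q.2) = 1 ∧ sC V q = V.l (.inr false) + 5 + q.2) ∨
      (sC V q = V.l (.inr false) + q.2 ∧
        ((q.2.1 = 0 ∧ sY V (tg0 NG LC G q.1 q.2) = sY V q.1 + 1) ∨
        (q.2.1 ≠ 0 ∧ sY V q.1 = sY V (tg0 NG LC G q.1 q.2) + 1))))) := by
  rcases q with ⟨i | ⟨k, i⟩ | ⟨k, b, m⟩, j⟩
  · refine Or.inr (Or.inr ?_)
    fin_cases i <;> fin_cases j <;> simp [sW, tg0, sY, sC]
  · have hj0 : j = 0 ↔ j.1 = 0 := Fin.ext_iff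
    have hj2 : j ≤ 2 ↔ j.1 ≤ 2 := Iff.rfl
    have hi := i.2
    have hk := k.2
    by_cases h1 : 2 < j.1 ∨ (j.1 = 0 ∧ i.1 = LC ∧ k.1 = NG)
    · refine Or.inr (Or.inl ⟨k, i, rfl, ?_, by simp only [sC, if_pos h1]⟩)
      simp only [tg0, chS, hj0, hj2]
      split_ifs <;> first | rfl | omega
    by_cases h2 : j.1 = 0 ∧ i.1 = LC
    · obtain rfl : j = 0 := hj0.2 h2.1
      obtain rfl : i = Fin.last LC := Fin.ext h2.2
      have hk' : k.1 < NG := by omega
      refine Or.inl ⟨⟨k, hk'⟩, .inr 0, rfl, rfl, ?_, by simp only [sC, if_neg h1, if_pos h2]⟩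
      simp [tg0, chS, hk', cov, emb]
    by_cases h3 : j.1 ≠ 0 ∧ i.1 = 0 ∧ 0 < k.1
    · obtain rfl : i = 0 := Fin.ext h3.2.1
      have e : k = Fin.succ ⟨k.1 - 1, by omega⟩ := Fin.ext (by simp; omega)
      refine Or.inl ⟨⟨k.1 - 1, by omega⟩, .inr (if j.1 = 1 then 1 else 2), ?_, ?_, ?_,
        by simp only [sC, if_neg h1, if_neg h2, if_pos h3]⟩
      · simp only [sI, ← e]
        by_cases a : j.1 = 1
        · rw [if_pos a, if_neg (by decide)]; exact Prod.ext rfl (Fin.ext a)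
        · rw [if_neg a, if_neg (by decide)]; exact Prod.ext rfl (Fin.ext (show j.1 = 2 by omega))
      · split_ifs <;> simp [cou, emb, ← e]
      · simp only [tg0, chP, hj0, hj2]
        rw [if_neg h3.1, if_pos (by omega), if_neg (by simp), dif_pos h3.2.2]
        split_ifs <;> simp [cov, emb]
    · refine Or.inr (Or.inr ⟨trivial, ?_⟩)
      simp only [sC, if_neg h1, if_neg h2, if_neg h3, tg0, chS, chP, hj0, hj2]
      by_cases h4 : j.1 = 0
      · rw [if_pos h4, dif_pos (by omega)]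
        exact ⟨trivial, Or.inr ⟨trivial, Or.inl ⟨h4, by simp only [sY]; push_cast; ring⟩⟩⟩
      · rw [if_neg h4, if_pos (by omega)]
        by_cases h5 : 0 < i.1
        · rw [if_pos h5]
          exact ⟨trivial, Or.inr ⟨trivial, Or.inr ⟨h4, by simp only [sY]; omega⟩⟩⟩
        · rw [if_neg h5, dif_neg (by omega)]
          refine ⟨trivial, Or.inr ⟨trivial, Or.inr ⟨h4, ?_⟩⟩⟩
          simp only [sY, show k.1 = 0 by omega, show i.1 = 0 by omega]; simp
  · exact Or.inl ⟨k, .inl (b, m, j), rfl, rfl, rfl, rfl⟩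

end

/-- Plan. Let `H = y top - y bot ≥ 2`, `L = l bot`, `R = r bot + 9`, `n k i = k * (LC + 1) + i`.
Heights: `rt i ↦ i`, `ch k i ↦ 4 + k * (LC + H) + i`,
`co k b m ↦ 4 + k * (LC + H) + LC + (y (b,m) - y bot)`, so that `emb k` shifts heights by a constant.
Bars: `rt 0 ↦ [L - 5 * (NG + 1) * (LC + 1), R]`, `rt i ↦ [L, R]` for `i ≠ 0`,
`ch k i ↦ [L - 5 * (n k i + 1), R]`, `co k b m ↦` the bar of `(b,m)`.
Columns of the spokes: `(rt 0, j) ↦ L + 5 + j`, `(rt i, j) ↦ L + j`; a spoke `(ch k i, j)` pointing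
to `rt 0` gets `L - 5 * (n k i + 1) + j`; one pointing into a core (forward arc with `i = LC`,
`k < NG`; back arcs `j = 1, 2` with `i = 0 < k`) gets the column of `inr 0`, `inr j`; the other
spokes of chain vertices get `L + j`; `(co k b m, j)` gets the column of `inl (b,m,j)`.
All edges other than the root edges and the core edges join consecutive heights.
Useful: `k < k' → k * S + S ≤ k' * S` for `S = LC + H` and `S = LC + 1`, then `omega`. -/
theorem stack {B : Type} (NG LC : ℕ) (G : DG B) (V : FVis cou (cov G)) :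
    Nonempty (Vis (fun q : Ctr NG LC B × Fin 5 => q.1) (fun q => tg0 NG LC G q.1 q.2)) := by
  have h2 := sH_two V
  have h0 : (0 : ℤ) ≤ LC + sH V := by omega
  have h1 : (0 : ℤ) ≤ LC + 1 := by omega
  have hb := V.lr (.inr false)
  have y0 : sY V (rt 0 : Ctr NG LC B) = 0 := rfl
  have ych : ∀ k i, 4 ≤ sY V (ch k i : Ctr NG LC B) := fun k i => by
    have : (0 : ℤ) ≤ k * (LC + sH V) := by positivity
    simp only [sY]; omega
  have root : ∀ (k : Fin (NG + 1)) (i : Fin (LC + 1)), (0 : ℤ) ≤ k * (LC + 1) ∧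
      (k : ℤ) * (LC + 1) + LC + 1 ≤ (NG + 1) * (LC + 1) := fun k i => by
    have : (k : ℤ) ≤ NG := by have := k.2; omega
    exact ⟨by positivity, by nlinarith⟩
  refine ⟨⟨sY V, sL V, sR V, sC V, fun a => ?_, fun q => ?_, fun q => ?_, fun q => ?_,
    fun a b hab h => ?_, fun a q g1 g2 => ?_, fun q q' hq h => ?_⟩⟩
  · rcases sW_or a with w | ⟨k, x, rfl⟩
    · have := sW_bar V a w; omega
    · exact V.lr _
  · rcases kinds V q with ⟨k, e, -, a, b, -⟩ | ⟨k, i, a, b, -⟩ | ⟨-, -, h⟩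
    · have := V.ne e
      rw [b, a, (sY_emb V k _).1, (sY_emb V k _).1]; omega
    · have := ych k i
      rw [b, a]; omega
    · omega
  · rcases kinds V q with ⟨k, e, -, a, -, c⟩ | ⟨k, i, a, -, c⟩ | ⟨w, -, h⟩
    · have := V.cu e
      have := sY_emb (LC := LC) V k (cou e)
      rw [a, c]; omega
    · have := root k i
      rw [a, c]; simp only [sL, sR]; omega
    · have := sW_bar V _ w; omega
  · rcases kinds V q with ⟨k, e, -, -, a, c⟩ | ⟨k, i, -, a, c⟩ | ⟨-, w, h⟩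
    · have := V.cv e
      have := sY_emb (LC := LC) V k (cov G e)
      rw [a, c]; omega
    · have := root k i
      rw [a, c]; simp only [sL, sR, if_true]; omega
    · have := sW_bar V _ w; omega
  · rcases sW_or a with w | ⟨k, x, rfl⟩ <;> rcases sW_or b with w' | ⟨k', x', rfl⟩
    · exact absurd (sW_inj V a b w w' h) hab
    · have := sW_side V a w k'
      have := V.lo x'
      have := V.hi x'
      rw [(sY_emb V k' _).1] at h; unfold sH at *; omega
    · have := sW_side V b w' k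
      have := V.lo x
      have := V.hi x
      rw [(sY_emb V k _).1] at h; unfold sH at *; omega
    · have := V.lo x
      have := V.hi x
      have := V.lo x'
      have := V.hi x'
      rw [(sY_emb V k _).1, (sY_emb V k' _).1] at h
      rcases mul_step h0 k k' with e | e | e
      · unfold sH at *; omega
      · obtain rfl : k = k' := Fin.ext e
        exact V.vv (.inl x) (.inl x') (fun e => hab (by rw [e])) (by omega)
      · unfold sH at *; omega
  · rcases kinds V q with ⟨k, e, -, a1, a2, c⟩ | ⟨k, i, a1, a2, c⟩ | ⟨-, -, h⟩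
    · have b1 := sY_emb (LC := LC) V k (cou e)
      have b2 := sY_emb (LC := LC) V k (cov G e)
      rw [a2, a1, b1.1, b2.1] at g1 g2
      rcases sW_or a with w | ⟨k', x, rfl⟩
      · have := sW_side V a w k; omega
      · have b3 := sY_emb (LC := LC) V k' (.inl x)
        rw [b3.1] at g1 g2
        rcases mul_step h0 k k' with e | e | e
        · omega
        · obtain rfl : k = k' := Fin.ext e
          rw [c]
          exact V.ve (.inl x) _ (by omega) (by omega)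
        · omega
    · have hy := ych k i
      have := root k i
      rw [a2, a1, y0] at g1 g2
      rw [c]
      left
      rcases a with i' | ⟨k', i'⟩ | ⟨k', b, m⟩
      · simp only [sY, sL] at g1 g2 hy ⊢
        rw [if_neg (by omega)]; omega
      · simp only [sY, sL] at g1 g2 hy ⊢
        rcases mul_step h0 k k' with e | e | e
        · omega
        · rw [e] at g1 g2 hy ⊢; omega
        · rcases mul_step h1 k k' with e' | e' | e' <;> omega
      · have := V.le (b, m)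
        simp only [sL]; omega
    · omega
  · rcases kinds V q with ⟨k, e, a0, a1, a2, c⟩ | ⟨k, i, a1, a2, c⟩ | ⟨w1, w2, c⟩ <;>
      rcases kinds V q' with ⟨k', e', a0', a1', a2', c'⟩ | ⟨k', i', a1', a2', c'⟩ | ⟨w1', w2', c'⟩
    · have b1 := sY_emb (LC := LC) V k (cou e)
      have b2 := sY_emb (LC := LC) V k (cov G e)
      have b3 := sY_emb (LC := LC) V k' (cou e')
      have b4 := sY_emb (LC := LC) V k' (cov G e')
      rw [a2, a1, a2', a1', b1.1, b2.1, b3.1, b4.1]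
      rcases mul_step h0 k k' with o | o | o
      · omega
      · obtain rfl : k = k' := Fin.ext o
        have := V.ee e e' (fun o => hq (by rw [a0, a0', o])) (by rw [← c, ← c', h])
        omega
      · omega
    · have := V.cu e
      have := sY_emb (LC := LC) V k (cou e)
      have := root k' i'
      omega
    · have b1 := sY_emb (LC := LC) V k (cou e)
      have b2 := sY_emb (LC := LC) V k (cov G e)
      have := sW_side V _ w1' k
      have := sW_side V _ w2' k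
      rw [a2, a1, b1.1, b2.1]; omega
    · have := V.cu e'
      have := sY_emb (LC := LC) V k' (cou e')
      have := root k i
      omega
    · refine absurd ?_ hq
      have : k.1 = k'.1 ∧ i.1 = i'.1 ∧ q.2.1 = q'.2.1 := by
        rcases mul_step h1 k k' with o | o | o
        · omega
        · rw [o] at c; omega
        · omega
      exact Prod.ext (by rw [a1, a1', Fin.ext this.1, Fin.ext this.2.1]) (Fin.ext this.2.2)
    · have := root k i
      omega
    · have b1 := sY_emb (LC := LC) V k' (cou e')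
      have b2 := sY_emb (LC := LC) V k' (cov G e')
      have := sW_side V _ w1 k'
      have := sW_side V _ w2 k'
      rw [a2', a1', b1.1, b2.1]; omega
    · have := root k' i'
      omega
    · by_contra hn
      exact hq (Prod.ext (sW_inj V _ _ w1 w1' (by omega)) (Fin.ext (by omega)))

end Pool.Agent.MP_06c78e_co.H40

end

-- part MP_06c78e_co.H40.Grid
section

/-! The digraph of a grid formula. The sites `(r, i)` are visited along a snake; `i` is counted
along the direction of the row and `X r i` is the physical column. A block is a triple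
`(k, r, i)`: `k = 0, 1, 2` are the blocks `A, B, C` of the link entering the site, and
`k = 3 + 3 * d + (0, 1, 2)` are the blocks `out`, `in`, `K` on the side `d` (`0` left, `1` right).
The blocks `K` form rings of length eight, one for every clause. -/

namespace Pool.Agent.MP_06c78e_co.H40

open Classical

/-- A grid formula: `cpP r X` says that the values at the columns `X`, `X + 1` of row `r` differ;
`atP j b X` says that the value at column `X` of row `j + b` occurs in the clause `(j, X / 4)`. -/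
structure Gd where
  R : ℕ
  W : ℕ
  cpP : ℕ → ℕ → Prop
  atP : ℕ → ℕ → ℕ → Prop

abbrev N3 : Type := ℕ × ℕ × ℕ

namespace Gd

variable (g : Gd)

def Sat : Prop := ∃ val : ℕ → ℕ → Bool,
  (∀ r X, r < g.R → X + 1 < g.W → g.cpP r X → val r (X + 1) ≠ val r X) ∧
  ∀ j q, j + 1 < g.R → 4 * q < g.W →
    ∃ b X, b ≤ 1 ∧ X / 4 = q ∧ g.atP j b X ∧ val (j + b) X = decide (j % 2 = 1)

/-- No clause is empty. -/
def Att : Prop := ∀ j q, j + 1 < g.R → 4 * q < g.W → ∃ b X, b ≤ 1 ∧ X / 4 = q ∧ g.atP j b X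

def Ok : Prop := 0 < g.R ∧ 0 < g.W ∧ g.W % 4 = 0

def X (r i : ℕ) : ℕ := if r % 2 = 0 then i else g.W - 1 - i
def cp (r i : ℕ) : Prop :=
  r < g.R ∧ 0 < i ∧ i < g.W ∧ g.cpP r (if r % 2 = 0 then i - 1 else g.W - 1 - i)
def has (r d : ℕ) : Prop := if (r + d) % 2 = 0 then 1 ≤ r else r + 1 < g.R
def att (r i d : ℕ) : Prop := r < g.R ∧ i < g.W ∧ g.has r d ∧
  if (r + d) % 2 = 0 then g.atP (r - 1) 1 (g.X r i) else g.atP r 0 (g.X r i)
def nn (r i : ℕ) : ℕ × ℕ := if i + 1 < g.W then (r, i + 1) else (r + 1, 0)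
def pn (r i : ℕ) : ℕ × ℕ := if 0 < i then (r, i - 1) else (r - 1, g.W - 1)
def opp (r i d : ℕ) : ℕ × ℕ := (if (r + d) % 2 = 0 then r - 1 else r + 1, g.W - 1 - i)
def nx (r i d : ℕ) : ℕ × ℕ := if i % 4 = 0 then g.opp r i d else (r, i - 1)
def pv (r i d : ℕ) : ℕ × ℕ := if i % 4 = 3 then g.opp r i d else (r, i + 1)

def valid (b : N3) : Prop :=
  (b.1 = 0 ∧ b.2.1 = g.R ∧ b.2.2 = 0) ∨ (b.2.1 < g.R ∧ b.2.2 < g.W ∧
    (b.1 = 0 ∨ ((b.1 = 1 ∨ b.1 = 2) ∧ g.cp b.2.1 b.2.2) ∨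
      ((b.1 = 3 ∨ b.1 = 4) ∧ g.att b.2.1 b.2.2 0) ∨ (b.1 = 5 ∧ g.has b.2.1 0) ∨
      ((b.1 = 6 ∨ b.1 = 7) ∧ g.att b.2.1 b.2.2 1) ∨ (b.1 = 8 ∧ g.has b.2.1 1)))

/-- The block through which the right route enters the link of a site, and leaves it. -/
noncomputable def inR (n : ℕ × ℕ) : N3 := if g.cp n.1 n.2 then (2, n) else (0, n)
noncomputable def upT (r i : ℕ) : N3 := if g.att r i 0 then (3, r, i) else (0, g.nn r i)
noncomputable def dnT (r i : ℕ) : N3 := if g.att r i 1 then (6, r, i) else g.inR (g.nn r i)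
noncomputable def upS (n : ℕ × ℕ) : N3 := if g.att n.1 n.2 0 then (4, n) else (0, n)
noncomputable def dnS (n : ℕ × ℕ) : N3 := if g.att n.1 n.2 1 then (7, n) else g.inR n
noncomputable def kS (k d : ℕ) (T : Bool) (n : ℕ × ℕ) : N3 :=
  if T = true ∧ g.att n.1 n.2 d then (k - 1, n) else (k, n)

noncomputable def succ (T : Bool) (b : N3) : N3 :=
  if b.1 = 0 then (if T = true then g.upT b.2.1 b.2.2
    else if g.cp b.2.1 b.2.2 then (1, b.2) else g.dnT b.2.1 b.2.2)
  else if b.1 = 1 then (if T = true then (2, b.2) else (0, b.2))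
  else if b.1 = 2 then (if T = true then (1, b.2) else g.dnT b.2.1 b.2.2)
  else if b.1 = 4 then (if T = true then (0, g.nn b.2.1 b.2.2) else (3, b.2))
  else if b.1 = 7 then (if T = true then (6, b.2) else g.inR (g.nn b.2.1 b.2.2))
  else if b.1 = 3 ∨ b.1 = 6 then (if T = true then (b.1 + 2, b.2) else (b.1 + 1, b.2))
  else g.kS b.1 (b.1 / 6) T (g.nx b.2.1 b.2.2 (b.1 / 6))

noncomputable def pred (T : Bool) (b : N3) : N3 :=
  if b.1 = 0 then (if T = true then g.upS (g.pn b.2.1 b.2.2)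
    else if g.cp b.2.1 b.2.2 then (1, b.2) else g.dnS (g.pn b.2.1 b.2.2))
  else if b.1 = 1 then (if T = true then (2, b.2) else (0, b.2))
  else if b.1 = 2 then (if T = true then (1, b.2) else g.dnS (g.pn b.2.1 b.2.2))
  else if b.1 = 3 then (if T = true then (0, b.2) else (4, b.2))
  else if b.1 = 6 then (if T = true then (7, b.2) else g.inR b.2)
  else if b.1 = 4 ∨ b.1 = 7 then
    (if T = true then (b.1 + 1, g.pv b.2.1 b.2.2 (b.1 / 6)) else (b.1 - 1, b.2))
  else if T = true ∧ g.att b.2.1 b.2.2 (b.1 / 6) then (b.1 - 2, b.2)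
  else (b.1, g.pv b.2.1 b.2.2 (b.1 / 6))

variable {g}

theorem cp.lt {r i : ℕ} (h : g.cp r i) : r < g.R ∧ 0 < i ∧ i < g.W := ⟨h.1, h.2.1, h.2.2.1⟩

theorem att.lt {r i d : ℕ} (h : g.att r i d) : r < g.R ∧ i < g.W ∧ g.has r d :=
  ⟨h.1, h.2.1, h.2.2.1⟩

theorem nn_spec {r i : ℕ} (hr : r < g.R) (hi : i < g.W) :
    g.pn (g.nn r i).1 (g.nn r i).2 = (r, i) ∧ g.nn r i ≠ (0, 0) ∧ g.nn r i ≠ (r, i) ∧
      (((g.nn r i).1 = g.R ∧ (g.nn r i).2 = 0) ∨ ((g.nn r i).1 < g.R ∧ (g.nn r i).2 < g.W)) := by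
  unfold nn pn
  split_ifs <;> simp at * <;> omega

theorem pn_spec {r i : ℕ} (hW : 0 < g.W) (h : (r = g.R ∧ i = 0) ∨ (r < g.R ∧ i < g.W))
    (h0 : (r, i) ≠ (0, 0)) : g.nn (g.pn r i).1 (g.pn r i).2 = (r, i) ∧
      (g.pn r i).1 < g.R ∧ (g.pn r i).2 < g.W := by
  unfold nn pn
  split_ifs <;> simp at * <;> omega

theorem nx_spec (h : g.Ok) {r i d : ℕ} (hr : r < g.R) (hi : i < g.W) (hd : g.has r d) :
    g.pv (g.nx r i d).1 (g.nx r i d).2 d = (r, i) ∧ g.nx r i d ≠ (r, i) ∧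
      (g.nx r i d).1 < g.R ∧ (g.nx r i d).2 < g.W ∧ g.has (g.nx r i d).1 d := by
  have := h.2.2
  unfold nx pv opp has at *
  split_ifs at * <;> simp at * <;> omega

theorem pv_spec (h : g.Ok) {r i d : ℕ} (hr : r < g.R) (hi : i < g.W) (hd : g.has r d) :
    g.nx (g.pv r i d).1 (g.pv r i d).2 d = (r, i) ∧
      (g.pv r i d).1 < g.R ∧ (g.pv r i d).2 < g.W ∧ g.has (g.pv r i d).1 d := by
  have := h.2.2
  unfold nx pv opp has at *
  split_ifs at * <;> simp at * <;> omega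

/-- Case distinction for a valid block. -/
theorem valid_cases {k r i : ℕ} (h : g.valid (k, r, i)) : (k, r, i) = (0, g.R, 0) ∨
    (r < g.R ∧ i < g.W ∧ (k = 0 ∨ (k = 1 ∧ g.cp r i) ∨ (k = 2 ∧ g.cp r i) ∨
      (k = 3 ∧ g.att r i 0) ∨ (k = 4 ∧ g.att r i 0) ∨ (k = 5 ∧ g.has r 0) ∨
      (k = 6 ∧ g.att r i 1) ∨ (k = 7 ∧ g.att r i 1) ∨ (k = 8 ∧ g.has r 1))) := by
  rcases h with ⟨h1, h2, h3⟩ | ⟨h1, h2, h⟩
  · exact Or.inl (Prod.ext h1 (Prod.ext h2 h3))
  · refine Or.inr ⟨h1, h2, ?_⟩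
    rcases h with h | ⟨h | h, e⟩ | ⟨h | h, e⟩ | ⟨h, e⟩ | ⟨h | h, e⟩ | ⟨h, e⟩ <;>
      simp only at h <;> simp [h] <;> exact e

theorem succ_spec (h : g.Ok) (T : Bool) (b : N3) (hb : g.valid b) (hs : b ≠ (0, g.R, 0)) :
    g.valid (g.succ T b) ∧ g.succ T b ≠ (0, 0, 0) ∧ g.succ T b ≠ b ∧
      g.pred T (g.succ T b) = b := by
  obtain ⟨k, r, i⟩ := b
  obtain ⟨hr, hi, hk⟩ := (valid_cases hb).resolve_left hs
  obtain ⟨n1, n2, n3, n4⟩ := nn_spec hr hi
  have c1 : g.cp (g.nn r i).1 (g.nn r i).2 → (g.nn r i).1 < g.R ∧ (g.nn r i).2 < g.W :=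
    fun h => ⟨h.lt.1, h.lt.2.2⟩
  rcases hk with rfl | ⟨rfl, hk⟩ | ⟨rfl, hk⟩ | ⟨rfl, hk⟩ | ⟨rfl, hk⟩ | ⟨rfl, hk⟩ | ⟨rfl, hk⟩ |
    ⟨rfl, hk⟩ | ⟨rfl, hk⟩
  case inr.inr.inr.inr.inr.inl | inr.inr.inr.inr.inr.inr.inr.inr =>
    obtain ⟨x1, x2, x3, x4, x5⟩ := nx_spec h hr hi hk
    cases T <;> simp only [succ, kS] <;> norm_num <;> (try split_ifs) <;>
      simp [valid, pred, *]
  all_goals
    cases T <;> simp only [succ, upT, dnT, inR] <;> norm_num <;> (try split_ifs) <;>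
      simp [valid, pred, upS, dnS, inR, *] <;>
      first | exact hk.lt.2.2 | exact fun _ => hk.lt.2.1.ne'

theorem pred_spec (h : g.Ok) (T : Bool) (b : N3) (hb : g.valid b) (hs : b ≠ (0, 0, 0)) :
    g.valid (g.pred T b) ∧ g.pred T b ≠ (0, g.R, 0) ∧ g.succ T (g.pred T b) = b := by
  obtain ⟨k, r, i⟩ := b
  have hp : k = 0 ∨ k = 2 → g.nn (g.pn r i).1 (g.pn r i).2 = (r, i) ∧
      (g.pn r i).1 < g.R ∧ (g.pn r i).2 < g.W ∧ g.pn r i ≠ (g.R, 0) := fun hk => by
    obtain ⟨a1, a2, a3⟩ := pn_spec (r := r) (i := i) h.2.1 (by unfold valid at hb; simp at hb; omega)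
      (by
        rcases hk with rfl | rfl
        · simpa using hs
        · have : g.cp r i := by simp [valid] at hb; exact hb.2.2
          have := this.lt
          simp; omega)
    exact ⟨a1, a2, a3, fun e => by rw [e] at a2; simp at a2⟩
  rcases valid_cases hb with e | ⟨hr, hi, hk⟩
  · obtain ⟨rfl, rfl, rfl⟩ : k = 0 ∧ r = g.R ∧ i = 0 := by simpa using e
    obtain ⟨p1, p2, p3, p4⟩ := hp (Or.inl rfl)
    have c : ¬g.cp g.R 0 := fun h => by simpa using h.lt
    cases T <;> simp only [pred, upS, dnS, inR] <;> norm_num <;> (try split_ifs) <;>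
      simp [valid, succ, upT, dnT, inR, *]
  have hr' := hr.ne
  rcases hk with rfl | ⟨rfl, hk⟩ | ⟨rfl, hk⟩ | ⟨rfl, hk⟩ | ⟨rfl, hk⟩ | ⟨rfl, hk⟩ | ⟨rfl, hk⟩ |
    ⟨rfl, hk⟩ | ⟨rfl, hk⟩
  case inr.inl | inr.inr.inr.inl =>
    obtain ⟨p1, p2, p3, p4⟩ := hp (by simp)
    cases T <;> simp only [pred, upS, dnS, inR] <;> norm_num <;> (try split_ifs) <;>
      simp [valid, succ, upT, dnT, inR, *]
  case inr.inr.inr.inr.inr.inr.inl | inr.inr.inr.inr.inr.inr.inr.inr.inr =>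
    obtain ⟨x1, x2, x3, x4⟩ := pv_spec h hr hi hk
    cases T <;> simp only [pred] <;> norm_num <;> (try split_ifs) <;> simp [valid, succ, kS, *]
  case inr.inr.inr.inr.inr.inl | inr.inr.inr.inr.inr.inr.inr.inr.inl =>
    obtain ⟨x1, x2, x3, x4⟩ := pv_spec h hr hi hk.lt.2.2
    cases T <;> simp only [pred] <;> norm_num <;> simp [valid, succ, kS, *]
  all_goals
    cases T <;> simp only [pred, inR] <;> norm_num <;> (try split_ifs) <;>
      simp [valid, succ, upT, dnT, *]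

variable (g)

/-- The blocks. -/
abbrev Bk : Type := {b : N3 // g.valid b}

theorem valid_lt {b : N3} (hb : g.valid b) : b.1 < 9 ∧ b.2.1 < g.R + 1 ∧ b.2.2 < g.W + 1 := by
  unfold valid at hb; omega

instance : Finite g.Bk :=
  Finite.of_injective (fun b : g.Bk => ((⟨b.1.1, (g.valid_lt b.2).1⟩ : Fin 9),
    (⟨b.1.2.1, (g.valid_lt b.2).2.1⟩ : Fin (g.R + 1)),
    (⟨b.1.2.2, (g.valid_lt b.2).2.2⟩ : Fin (g.W + 1)))) (by
      rintro ⟨⟨a, b, c⟩, h⟩ ⟨⟨a', b', c'⟩, h'⟩ e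
      simpa using e)

variable {g}

/-- The digraph on the blocks. -/
noncomputable def dg (h : g.Ok) : DG g.Bk where
  src := ⟨(0, 0, 0), Or.inr ⟨h.1, h.2.1, Or.inl rfl⟩⟩
  snk := ⟨(0, g.R, 0), Or.inl ⟨rfl, rfl, rfl⟩⟩
  s T u := if e : u.1 = (0, g.R, 0) then u else ⟨g.succ T u.1, (succ_spec h T u.1 u.2 e).1⟩
  r T u := if e : u.1 = (0, 0, 0) then u else ⟨g.pred T u.1, (pred_spec h T u.1 u.2 e).1⟩
  sn := by simp [Subtype.ext_iff, h.1.ne]
  s_src T u hu := by
    have e : u.1 ≠ (0, g.R, 0) := fun e => hu (Subtype.ext e)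
    simpa [e, Subtype.ext_iff] using (succ_spec h T u.1 u.2 e).2.1
  s_ne T u hu := by
    have e : u.1 ≠ (0, g.R, 0) := fun e => hu (Subtype.ext e)
    simpa [e, Subtype.ext_iff] using (succ_spec h T u.1 u.2 e).2.2.1
  rs T u hu := by
    have e : u.1 ≠ (0, g.R, 0) := fun e => hu (Subtype.ext e)
    simp [e, (succ_spec h T u.1 u.2 e).2.1, (succ_spec h T u.1 u.2 e).2.2.2]
  r_snk T u hu := by
    have e : u.1 ≠ (0, 0, 0) := fun e => hu (Subtype.ext e)
    simpa [e, Subtype.ext_iff] using (pred_spec h T u.1 u.2 e).2.1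
  sr T u hu := by
    have e : u.1 ≠ (0, 0, 0) := fun e => hu (Subtype.ext e)
    simp [e, (pred_spec h T u.1 u.2 e).2.1, (pred_spec h T u.1 u.2 e).2.2]

theorem dg_s (h : g.Ok) (T : Bool) (u : g.Bk) (hu : u ≠ (dg h).snk) :
    ((dg h).s T u).1 = g.succ T u.1 := by
  have e : u.1 ≠ (0, g.R, 0) := fun e => hu (Subtype.ext e)
  simp [dg, e]

theorem dg_r (h : g.Ok) (T : Bool) (u : g.Bk) (hu : u ≠ (dg h).src) :
    ((dg h).r T u).1 = g.pred T u.1 := by
  have e : u.1 ≠ (0, 0, 0) := fun e => hu (Subtype.ext e)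
  simp [dg, e]

/-- Hamiltonian paths, read on triples of numbers. -/
theorem hp_iff (h : g.Ok) : (dg h).HP ↔ ∃ (σ : N3 → N3) (ρ : N3 → ℝ),
    (∀ u, g.valid u → u ≠ (0, g.R, 0) → (∃ T, σ u = g.succ T u) ∧ ρ u < ρ (σ u)) ∧
    (∀ u v, g.valid u → g.valid v → u ≠ (0, g.R, 0) → v ≠ (0, g.R, 0) → σ u = σ v → u = v) ∧
    ∀ w, g.valid w → w ≠ (0, 0, 0) → ∃ T, σ (g.pred T w) = w := by
  constructor
  · rintro ⟨σ, ρ, h1, h2⟩
    refine ⟨fun u => if e : g.valid u then (σ ⟨u, e⟩).1 else u,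
      fun u => if e : g.valid u then ρ ⟨u, e⟩ else 0, fun u hu hs => ?_,
      fun u v hu hv hs hs' e => ?_, fun w hw hs => ?_⟩
    · have hs' : (⟨u, hu⟩ : g.Bk) ≠ (dg h).snk := fun e => hs (congrArg Subtype.val e)
      obtain ⟨⟨T, a1⟩, a2⟩ := h1 _ hs'
      refine ⟨⟨T, by simp only [hu, dif_pos, a1, dg_s h T _ hs']⟩, ?_⟩
      simpa only [hu, dif_pos, (σ ⟨u, hu⟩).2] using a2
    · simp only [hu, hv, dif_pos] at e
      exact congrArg Subtype.val (h2 ⟨u, hu⟩ ⟨v, hv⟩ (fun e => hs (congrArg Subtype.val e))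
        (fun e => hs' (congrArg Subtype.val e)) (Subtype.ext e))
    · have hs' : (⟨w, hw⟩ : g.Bk) ≠ (dg h).src := fun e => hs (congrArg Subtype.val e)
      obtain ⟨T, a1⟩ := (dg h).surj (fun u hu => (h1 u hu).1) h2 _ hs'
      refine ⟨T, ?_⟩
      have a2 := dg_r h T _ hs'
      simp only at a2
      simp only [← a2, ((dg h).r T ⟨w, hw⟩).2, dif_pos, Subtype.coe_eta, a1]
  · rintro ⟨σ, ρ, h1, h2, -⟩
    have key : ∀ u : g.Bk, u ≠ (dg h).snk → ∃ T, σ u.1 = ((dg h).s T u).1 := fun u hu =>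
      (h1 u.1 u.2 fun e => hu (Subtype.ext e)).1.imp fun T e => by rw [e, dg_s h T u hu]
    choose! T hT using key
    refine ⟨fun u => (dg h).s (T u) u, fun u => ρ u.1, fun u hu => ⟨⟨_, rfl⟩, ?_⟩,
      fun u v hu hv e => Subtype.ext (h2 _ _ u.2 v.2 (fun e => hu (Subtype.ext e))
        (fun e => hv (Subtype.ext e)) (by rw [hT u hu, hT v hv]; exact congrArg Subtype.val e))⟩
    simp only [← hT u hu]
    exact (h1 u.1 u.2 fun e => hu (Subtype.ext e)).2

end Gd

end Pool.Agent.MP_06c78e_co.H40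

end

-- part MP_06c78e_co.H40.LayT
section

/-! The table of the pieces of the layout of a grid digraph. -/

namespace Pool.Agent.MP_06c78e_co.H40.Gd

/-- A kind of piece: block kind `k`, object `j`, frame rule `p`, a local box and literals. -/
structure Ent where
  k : ℕ
  j : ℕ
  p : ℕ
  t1 : ℕ
  t2 : ℕ
  x1 : ℕ
  x2 : ℕ
  L : List (ℕ × ℕ × Bool)

def tbl : List Ent :=
  [⟨0, 0, 1, 20, 20, 9, 12, [(1, 1, true)]⟩, ⟨0, 0, 1, 20, 20, 9, 17, [(1, 1, false)]⟩,
    ⟨0, 1, 0, 6, 6, 7, 11, [(0, 0, true), (1, 0, true)]⟩,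
    ⟨0, 1, 0, 6, 6, 7, 19, [(0, 0, true), (1, 0, false)]⟩,
    ⟨0, 1, 1, 26, 26, 7, 19, [(0, 1, false)]⟩,
    ⟨0, 1, 0, 6, 6, 0, 6, [(0, 0, true), (4, 0, true)]⟩,
    ⟨0, 1, 0, 6, 6, 20, 26, [(0, 0, true), (4, 0, true)]⟩,
    ⟨0, 1, 1, 26, 26, 0, 6, [(4, 1, true), (0, 1, false)]⟩,
    ⟨0, 1, 1, 26, 26, 20, 26, [(4, 1, true), (0, 1, false)]⟩,
    ⟨0, 2, 0, 10, 10, 9, 12, [(0, 0, true), (1, 0, true)]⟩,
    ⟨0, 2, 0, 10, 10, 9, 17, [(0, 0, true), (1, 0, false)]⟩, ⟨0, 3, 1, 21, 25, 9, 9, []⟩,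
    ⟨0, 4, 0, 7, 9, 9, 9, [(0, 0, true)]⟩, ⟨0, 9, 1, 19, 19, 13, 13, []⟩,
    ⟨0, 10, 0, 11, 11, 13, 13, []⟩, ⟨0, 7, 0, 11, 13, 9, 9, [(2, 0, true)]⟩,
    ⟨0, 8, 0, 7, 11, 7, 7, [(2, 0, true)]⟩, ⟨0, 7, 0, 11, 19, 9, 9, [(2, 0, false)]⟩,
    ⟨0, 8, 0, 7, 25, 7, 7, [(2, 0, false)]⟩,
    ⟨0, 5, 0, 9, 9, 12, 12, [(0, 0, true), (1, 0, true)]⟩,
    ⟨0, 6, 0, 5, 5, 11, 11, [(0, 0, true), (1, 0, true)]⟩,
    ⟨0, 5, 0, 11, 13, 17, 17, [(3, 0, true), (1, 0, false)]⟩,
    ⟨0, 6, 0, 7, 11, 19, 19, [(3, 0, true), (1, 0, false)]⟩,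
    ⟨0, 5, 0, 11, 19, 17, 17, [(3, 0, false), (1, 0, false)]⟩,
    ⟨0, 6, 0, 7, 25, 19, 19, [(3, 0, false), (1, 0, false)]⟩,
    ⟨2, 5, 0, 11, 13, 17, 17, [(3, 0, true), (1, 0, true)]⟩,
    ⟨2, 6, 0, 7, 11, 19, 19, [(3, 0, true), (1, 0, true)]⟩,
    ⟨2, 5, 0, 11, 19, 17, 17, [(3, 0, false), (1, 0, true)]⟩,
    ⟨2, 6, 0, 7, 25, 19, 19, [(3, 0, false), (1, 0, true)]⟩,
    ⟨1, 0, 0, 8, 8, 12, 14, [(0, 0, true), (1, 0, true)]⟩,
    ⟨1, 1, 0, 4, 4, 10, 16, [(0, 0, true), (1, 0, true)]⟩,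
    ⟨1, 2, 0, 2, 2, 12, 14, [(0, 0, true), (1, 0, true)]⟩,
    ⟨1, 3, 0, 5, 7, 13, 13, [(0, 0, true), (1, 0, true)]⟩,
    ⟨1, 4, 0, 3, 3, 13, 13, [(0, 0, true), (1, 0, true)]⟩,
    ⟨2, 0, 0, 0, 0, 14, 17, [(0, 0, true), (1, 0, true)]⟩,
    ⟨2, 1, 0, 6, 6, 15, 19, [(0, 0, true), (1, 0, true)]⟩,
    ⟨2, 2, 0, 10, 10, 14, 17, [(0, 0, true), (1, 0, true)]⟩,
    ⟨2, 3, 0, 1, 5, 17, 17, [(0, 0, true), (1, 0, true)]⟩,
    ⟨2, 4, 0, 7, 9, 17, 17, [(0, 0, true), (1, 0, true)]⟩,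
    ⟨1, 7, 0, 1, 1, 14, 14, [(0, 0, true), (1, 0, true)]⟩,
    ⟨1, 8, 0, 5, 5, 16, 16, [(0, 0, true), (1, 0, true)]⟩,
    ⟨1, 5, 0, 1, 1, 12, 12, [(0, 0, true), (1, 0, true)]⟩,
    ⟨1, 6, 0, 5, 5, 10, 10, [(0, 0, true), (1, 0, true)]⟩,
    ⟨2, 7, 0, 9, 9, 14, 14, [(0, 0, true), (1, 0, true)]⟩,
    ⟨2, 8, 0, 5, 5, 15, 15, [(0, 0, true), (1, 0, true)]⟩,
    ⟨3, 0, 0, 14, 14, 8, 9, [(2, 0, true)]⟩, ⟨3, 1, 0, 12, 12, 4, 8, [(2, 0, true)]⟩,
    ⟨3, 2, 0, 14, 14, 3, 5, [(2, 0, true)]⟩, ⟨3, 3, 0, 13, 13, 8, 8, [(2, 0, true)]⟩,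
    ⟨3, 4, 0, 13, 13, 5, 5, [(2, 0, true)]⟩, ⟨4, 0, 0, 16, 16, 3, 5, [(2, 0, true)]⟩,
    ⟨4, 1, 0, 18, 18, 4, 8, [(2, 0, true)]⟩, ⟨4, 2, 0, 16, 16, 8, 9, [(2, 0, true)]⟩,
    ⟨4, 3, 0, 17, 17, 5, 5, [(2, 0, true)]⟩, ⟨4, 4, 0, 17, 17, 8, 8, [(2, 0, true)]⟩,
    ⟨3, 7, 0, 13, 13, 3, 3, [(2, 0, true)]⟩, ⟨3, 8, 0, 9, 11, 4, 4, [(2, 0, true)]⟩,
    ⟨3, 5, 0, 15, 15, 4, 4, [(2, 0, true)]⟩, ⟨3, 6, 0, 13, 17, 6, 6, [(2, 0, true)]⟩,
    ⟨4, 7, 0, 17, 19, 9, 9, [(2, 0, true)]⟩, ⟨4, 8, 0, 19, 25, 7, 7, [(2, 0, true)]⟩,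
    ⟨4, 5, 0, 15, 15, 9, 9, [(2, 0, true)]⟩, ⟨4, 6, 0, 13, 17, 7, 7, [(2, 0, true)]⟩,
    ⟨5, 0, 0, 12, 12, 2, 3, []⟩, ⟨5, 1, 0, 8, 8, 0, 4, []⟩,
    ⟨5, 1, 2, 24, 24, 0, 4, [(4, 1, true)]⟩, ⟨5, 2, 2, 18, 18, 2, 3, []⟩,
    ⟨5, 3, 0, 9, 11, 2, 2, []⟩, ⟨5, 7, 2, 17, 17, 3, 3, [(2, 0, true)]⟩,
    ⟨5, 7, 2, 13, 17, 3, 3, [(2, 0, false)]⟩, ⟨5, 5, 2, 13, 17, 2, 2, []⟩,
    ⟨5, 4, 2, 19, 23, 2, 2, [(4, 1, true)]⟩,
    ⟨5, 8, 2, 19, 23, 4, 4, [(2, 0, true), (4, 1, true)]⟩,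
    ⟨5, 8, 2, 9, 23, 4, 4, [(2, 0, false), (4, 1, true)]⟩, ⟨5, 6, 2, 9, 23, 1, 1, [(4, 1, true)]⟩,
    ⟨5, 4, 2, 19, 27, 2, 2, [(4, 1, false)]⟩,
    ⟨5, 8, 2, 19, 27, 4, 4, [(2, 0, true), (4, 1, false)]⟩,
    ⟨5, 8, 2, 9, 27, 4, 4, [(2, 0, false), (4, 1, false)]⟩,
    ⟨5, 6, 2, 9, 27, 1, 1, [(4, 1, false)]⟩, ⟨6, 0, 0, 14, 14, 17, 18, [(3, 0, true)]⟩,
    ⟨6, 1, 0, 12, 12, 18, 22, [(3, 0, true)]⟩, ⟨6, 2, 0, 14, 14, 21, 23, [(3, 0, true)]⟩,
    ⟨6, 3, 0, 13, 13, 18, 18, [(3, 0, true)]⟩, ⟨6, 4, 0, 13, 13, 21, 21, [(3, 0, true)]⟩,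
    ⟨7, 0, 0, 16, 16, 21, 23, [(3, 0, true)]⟩, ⟨7, 1, 0, 18, 18, 18, 22, [(3, 0, true)]⟩,
    ⟨7, 2, 0, 16, 16, 17, 18, [(3, 0, true)]⟩, ⟨7, 3, 0, 17, 17, 21, 21, [(3, 0, true)]⟩,
    ⟨7, 4, 0, 17, 17, 18, 18, [(3, 0, true)]⟩, ⟨6, 7, 0, 13, 13, 23, 23, [(3, 0, true)]⟩,
    ⟨6, 8, 0, 9, 11, 22, 22, [(3, 0, true)]⟩, ⟨6, 5, 0, 15, 15, 22, 22, [(3, 0, true)]⟩,
    ⟨6, 6, 0, 13, 17, 20, 20, [(3, 0, true)]⟩, ⟨7, 5, 0, 17, 19, 17, 17, [(3, 0, true)]⟩,
    ⟨7, 6, 0, 19, 25, 19, 19, [(3, 0, true)]⟩, ⟨7, 7, 0, 15, 15, 17, 17, [(3, 0, true)]⟩,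
    ⟨7, 8, 0, 13, 17, 19, 19, [(3, 0, true)]⟩, ⟨8, 0, 0, 12, 12, 23, 24, []⟩,
    ⟨8, 1, 0, 8, 8, 22, 26, []⟩, ⟨8, 1, 2, 24, 24, 22, 26, [(4, 1, true)]⟩,
    ⟨8, 2, 2, 18, 18, 23, 24, []⟩, ⟨8, 3, 0, 9, 11, 24, 24, []⟩,
    ⟨8, 7, 2, 17, 17, 23, 23, [(3, 0, true)]⟩, ⟨8, 7, 2, 13, 17, 23, 23, [(3, 0, false)]⟩,
    ⟨8, 5, 2, 13, 17, 24, 24, []⟩, ⟨8, 4, 2, 19, 23, 24, 24, [(4, 1, true)]⟩,
    ⟨8, 8, 2, 19, 23, 22, 22, [(3, 0, true), (4, 1, true)]⟩,
    ⟨8, 8, 2, 9, 23, 22, 22, [(3, 0, false), (4, 1, true)]⟩,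
    ⟨8, 6, 2, 9, 23, 25, 25, [(4, 1, true)]⟩, ⟨8, 4, 2, 19, 27, 24, 24, [(4, 1, false)]⟩,
    ⟨8, 8, 2, 19, 27, 22, 22, [(3, 0, true), (4, 1, false)]⟩,
    ⟨8, 8, 2, 9, 27, 22, 22, [(3, 0, false), (4, 1, false)]⟩,
    ⟨8, 6, 2, 9, 27, 25, 25, [(4, 1, false)]⟩]

def okE (a b : Ent) (d : ℕ) : Bool :=
  decide (a.t2 < b.t1 + 20 * d) || decide (b.t2 + 20 * d < a.t1) || decide (a.x2 < b.x1) ||
    decide (b.x2 < a.x1) ||
    (decide (d = 0) && decide (a.k = b.k) && decide (a.j = b.j) && decide (a.p = b.p)) ||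
    a.L.any fun u => b.L.any fun v =>
      decide (u.1 = v.1) && decide (u.2.1 = v.2.1 + d) && decide (u.2.2 ≠ v.2.2)

theorem tbl_ok : (tbl.all fun a => decide (a.t2 ≤ 27) && decide (a.x2 ≤ 26) &&
    decide (a.p = 0 ∨ a.p = 1 ∨ a.k = 5 ∨ a.k = 8) &&
    tbl.all fun b => okE a b 0 && okE a b 1) = true := by
  decide +kernel

variable (g : Gd)

def PX (r x : ℕ) : ℤ := if r % 2 = 0 then 27 * r + x else 27 * r + 26 - x

def PY (F : ℕ × ℕ) (l : ℕ) : ℤ :=
  if F.1 % 2 = 0 then 10 * F.2 + l else 10 * g.W + 26 - 10 * F.2 - l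

def PT (F : ℕ × ℕ) (t : ℕ) : ℤ :=
  if F.1 % 2 = 0 then 20 * F.2 + t else 20 * g.W + 52 - 20 * F.2 - t

def atom : ℕ → ℕ → ℕ → Prop
  | 0, r, I => (1 ≤ I ∧ I ≤ g.W) ∨ (I = g.W + 1 ∧ r + 1 = g.R)
  | 1, r, I => g.cp r (I - 1)
  | 2, r, I => g.att r (I - 1) 0
  | 3, r, I => g.att r (I - 1) 1
  | _, _, I => I % 4 = 1

def Lits (F : ℕ × ℕ) : List (ℕ × ℕ × Bool) → Prop
  | [] => True
  | u :: L => (g.atom u.1 F.1 (F.2 + u.2.1) ↔ u.2.2 = true) ∧ Lits F L

def In (F : ℕ × ℕ) (e : Ent) (T X : ℤ) : Prop :=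
  ∃ t x, e.t1 ≤ t ∧ t ≤ e.t2 ∧ e.x1 ≤ x ∧ x ≤ e.x2 ∧ T = g.PT F t ∧ X = PX F.1 x

def frm (n : ℕ × ℕ) : ℕ × ℕ := if n.1 < g.R then (n.1, n.2 + 1) else (g.R - 1, g.W + 1)

def pf (n : ℕ × ℕ) : ℕ × ℕ := if 0 < n.2 ∨ n.1 = 0 then n else (n.1 - 1, g.W)

def frame (p : ℕ) (b : N3) : ℕ × ℕ :=
  if p = 0 then g.frm b.2 else if p = 1 then g.pf b.2 else g.frm (g.nx b.2.1 b.2.2 (b.1 / 6))

/-- The point `(T, X)` lies in a piece of the object `j` of the block `b`. -/
def Cov (b : N3) (j : ℕ) (T X : ℤ) : Prop :=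
  ∃ e ∈ tbl, e.k = b.1 ∧ e.j = j ∧ g.Lits (g.frame e.p b) e.L ∧ g.In (g.frame e.p b) e T X

variable {g}

theorem Lits.mem {F : ℕ × ℕ} {L : List (ℕ × ℕ × Bool)} (h : g.Lits F L) :
    ∀ u ∈ L, (g.atom u.1 F.1 (F.2 + u.2.1) ↔ u.2.2 = true) := by
  induction L with
  | nil => simp
  | cons v L ih => exact List.forall_mem_cons.2 ⟨h.1, ih h.2⟩

theorem half {a b : Ent} {r I d t t' x : ℕ} (h : okE a b d = true) (la : g.Lits (r, I) a.L)
    (lb : g.Lits (r, I + d) b.L) (h1 : a.t1 ≤ t ∧ t ≤ a.t2 ∧ a.x1 ≤ x ∧ x ≤ a.x2)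
    (h2 : b.t1 ≤ t' ∧ t' ≤ b.t2 ∧ b.x1 ≤ x ∧ x ≤ b.x2) (e : t = t' + 20 * d) :
    d = 0 ∧ a.k = b.k ∧ a.j = b.j ∧ a.p = b.p := by
  simp only [okE, Bool.or_eq_true, Bool.and_eq_true, decide_eq_true_eq, List.any_eq_true] at h
  rcases h with (h | h) | ⟨u, hu, v, hv, ⟨e1, e2⟩, e3⟩
  · omega
  · omega
  · have a1 := la.mem u hu
    have a2 := lb.mem v hv
    rw [e1, e2] at a1
    simp only at a1 a2
    rw [show I + d + v.2.1 = I + (v.2.1 + d) by omega, a1] at a2
    exact absurd (Bool.eq_iff_iff.2 a2) e3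

theorem key {a b : Ent} (ha : a ∈ tbl) (hb : b ∈ tbl) {F F' : ℕ × ℕ} {T X : ℤ}
    (la : g.Lits F a.L) (lb : g.Lits F' b.L) (ia : g.In F a T X) (ib : g.In F' b T X) :
    F = F' ∧ a.k = b.k ∧ a.j = b.j ∧ a.p = b.p := by
  have H := tbl_ok
  simp only [List.all_eq_true, Bool.and_eq_true, decide_eq_true_eq] at H
  obtain ⟨⟨⟨a1, a2⟩, -⟩, a3⟩ := H a ha
  obtain ⟨⟨⟨b1, b2⟩, -⟩, b3⟩ := H b hb
  obtain ⟨r, I⟩ := F
  obtain ⟨r', I'⟩ := F'
  obtain ⟨t, x, c1, c2, c3, c4, c5, c6⟩ := ia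
  obtain ⟨t', x', d1, d2, d3, d4, d5, d6⟩ := ib
  rw [c5] at d5
  rw [c6] at d6
  obtain ⟨rfl, rfl, e⟩ : r = r' ∧ x = x' ∧ 20 * I + t = 20 * I' + t' := by
    simp only [PX, PT] at d5 d6
    split_ifs at d5 d6 <;> omega
  rcases (by omega : I' = I + 0 ∨ I' = I + 1 ∨ I = I' + 1) with rfl | rfl | rfl
  · exact ⟨rfl, (half (a3 b hb).1 la lb ⟨c1, c2, c3, c4⟩ ⟨d1, d2, d3, d4⟩ (by omega)).2⟩
  · exact absurd (half (a3 b hb).2 la lb ⟨c1, c2, c3, c4⟩ ⟨d1, d2, d3, d4⟩ (by omega)).1 one_ne_zero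
  · exact absurd (half (b3 a ha).2 lb la ⟨d1, d2, d3, d4⟩ ⟨c1, c2, c3, c4⟩ (by omega)).1 one_ne_zero

theorem valid_site {k r i : ℕ} (h : g.valid (k, r, i)) :
    (r = g.R ∧ i = 0) ∨ (r < g.R ∧ i < g.W) := by
  unfold valid at h
  simp only at h
  omega

theorem valid_has {k r i : ℕ} (h : g.valid (k, r, i)) (hk : k = 5 ∨ k = 8) :
    r < g.R ∧ i < g.W ∧ g.has r (k / 6) := by
  rcases hk with rfl | rfl <;> simpa [valid] using h

theorem frm_lt {r i : ℕ} (hr : r < g.R) : g.frm (r, i) = (r, i + 1) := if_pos hr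

theorem Cov.uniq (h : g.Ok) {b b' : N3} {j j' : ℕ} {T X : ℤ} (hb : g.valid b) (hb' : g.valid b')
    (c : g.Cov b j T X) (c' : g.Cov b' j' T X) : b = b' ∧ j = j' := by
  obtain ⟨e, e1, e2, e3, e4, e5⟩ := c
  obtain ⟨e', f1, f2, f3, f4, f5⟩ := c'
  obtain ⟨k1, k2, k3, k4⟩ := key e1 f1 e4 f4 e5 f5
  have H := tbl_ok
  simp only [List.all_eq_true, Bool.and_eq_true, decide_eq_true_eq] at H
  obtain ⟨⟨-, a1⟩, -⟩ := H e e1
  obtain ⟨k, r, i⟩ := b
  obtain ⟨k', r', i'⟩ := b'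
  obtain rfl : k = k' := e2.symm.trans (k2.trans f2)
  refine ⟨?_, e3.symm.trans (k3.trans f3)⟩
  have s1 := valid_site hb
  have s2 := valid_site hb'
  have o1 := h.1
  have o2 := h.2.1
  rw [← k4, frame, frame] at k1
  split_ifs at k1 with p0 p1
  · simp only [frm] at k1
    split_ifs at k1 <;> simp at k1 ⊢ <;> omega
  · simp only [pf] at k1
    split_ifs at k1 <;> simp at k1 ⊢ <;> omega
  · have hk : k = 5 ∨ k = 8 := by simp only at e2; omega
    obtain ⟨u1, u2, u3⟩ := valid_has hb hk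
    obtain ⟨v1, v2, v3⟩ := valid_has hb' hk
    obtain ⟨x1, -, x3, -⟩ := nx_spec h u1 u2 u3
    obtain ⟨y1, -, y3, -⟩ := nx_spec h v1 v2 v3
    simp only [frm, x3, y3, if_true, Prod.mk.injEq, Nat.add_right_cancel_iff] at k1
    rw [k1.1, k1.2, y1] at x1
    rw [x1]

end Pool.Agent.MP_06c78e_co.H40.Gd

end
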