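import Pool.Agent.MP_06c78e_co.H40.Drw
import Pool.Agent.MP_06c78e_co.H40.PDefs

-- part MP_06c78e_co.H40.Gadget
section

namespace Pool.Agent.MP_06c78e_co.H40

section

/-! The graph of the reduction, built from a digraph with in- and out-degree two. -/

open Function

/-- A digraph with a source and a sink; the arcs are `u → s T u` for `u ≠ snk`, and `r T` is the
inverse of `s T`. -/
structure DG (B : Type) where
  src : B
  snk : B
  s : Bool → B → B
  r : Bool → B → B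
  sn : src ≠ snk
  s_src : ∀ T u, u ≠ snk → s T u ≠ src
  s_ne : ∀ T u, u ≠ snk → s T u ≠ u
  rs : ∀ T u, u ≠ snk → r T (s T u) = u
  r_snk : ∀ T w, w ≠ src → r T w ≠ snk
  sr : ∀ T w, w ≠ src → s T (r T w) = w

variable {B : Type}

/-- A Hamiltonian path from the source to the sink: an injective choice of successors along which
a potential increases. -/
def DG.HP (G : DG B) : Prop :=
  ∃ (σ : B → B) (ρ : B → ℝ), (∀ u, u ≠ G.snk → (∃ T, σ u = G.s T u) ∧ ρ u < ρ (σ u)) ∧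
    ∀ u v, u ≠ G.snk → v ≠ G.snk → σ u = σ v → u = v

/-- A potential such that every vertex has an arc upwards and an arc from below. -/
def DG.ST (G : DG B) : Prop :=
  ∃ ρ : B → ℕ, (∀ u, u ≠ G.snk → ∃ T, ρ u < ρ (G.s T u)) ∧
    ∀ w, w ≠ G.src → ∃ T, ρ (G.r T w) < ρ w

theorem DG.r_ne (G : DG B) (T : Bool) (w : B) (h : w ≠ G.src) : G.r T w ≠ w := fun e => by
  have h1 := G.sr T w h
  have h2 := G.s_ne T _ (G.r_snk T w h)
  rw [h1, e] at h2
  exact h2 rfl

/-- An injective choice of successors hits every vertex but the source. -/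
theorem DG.surj [Finite B] (G : DG B) {σ : B → B} (h1 : ∀ u, u ≠ G.snk → ∃ T, σ u = G.s T u)
    (h2 : ∀ u v, u ≠ G.snk → v ≠ G.snk → σ u = σ v → u = v) (w : B) (hw : w ≠ G.src) :
    ∃ T, σ (G.r T w) = w := by
  classical
  have hi : Injective (update σ G.snk G.src) := by
    intro u v e
    by_cases hu : u = G.snk <;> by_cases hv : v = G.snk
    · rw [hu, hv]
    · obtain ⟨T, hT⟩ := h1 v hv
      rw [hu, update_self, update_of_ne hv, hT] at e
      exact absurd e.symm (G.s_src T v hv)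
    · obtain ⟨T, hT⟩ := h1 u hu
      rw [hv, update_self, update_of_ne hu, hT] at e
      exact absurd e (G.s_src T u hu)
    · rw [update_of_ne hu, update_of_ne hv] at e
      exact h2 u v hu hv e
  obtain ⟨u, e⟩ := Finite.surjective_of_injective hi w
  by_cases hu : u = G.snk
  · rw [hu, update_self] at e
    exact absurd e.symm hw
  · rw [update_of_ne hu] at e
    obtain ⟨T, hT⟩ := h1 u hu
    refine ⟨T, ?_⟩
    rw [← e, hT, G.rs T u hu, hT]

/-- The targets of the arcs inside a block. The eleven centres of a block are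
`0 = e, 1 = p, 2 = q, 3 = p₁, 4 = q₁, 5 = p₂, 6 = q₂, 7 = z, 8 = p₃, 9 = q₃, 10 = x`. -/
def tb : Fin 11 → Fin 5 → Fin 11 :=
  ![![1, 0, 0, 0, 0], ![2, 0, 0, 2, 2], ![3, 1, 1, 1, 1], ![4, 0, 0, 4, 4], ![5, 3, 3, 3, 3],
    ![6, 4, 4, 6, 6], ![7, 5, 5, 5, 5], ![8, 6, 6, 6, 8], ![9, 7, 7, 9, 9], ![10, 8, 8, 8, 8],
    ![10, 9, 9, 9, 10]]

open Classical in
/-- The arcs of the core; `inr false` is the chain vertex before the core, `inr true` the chain
vertex after it. -/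
noncomputable def ctg (G : DG B) (b : B) (m : Fin 11) (j : Fin 5) : B × Fin 11 ⊕ Bool :=
  if m = 0 ∧ j ≠ 0 then (if b = G.src then .inr false else .inl (G.r (decide (3 ≤ j)) b, 10))
  else if m = 7 ∧ (j = 0 ∨ j = 4) ∧ b ≠ G.snk then .inl (G.s (decide (j = 4)) b, 7)
  else if m = 10 ∧ (j = 0 ∨ j = 4) then
    (if b = G.snk then .inr true else .inl (G.s (decide (j = 4)) b, 0))
  else .inl (b, tb m j)

/-- The centres: four root vertices, `NG + 1` chains, `NG` copies of the core. -/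
abbrev Ctr (NG LC : ℕ) (B : Type) : Type :=
  Fin 4 ⊕ (Fin (NG + 1) × Fin (LC + 1)) ⊕ (Fin NG × B × Fin 11)

variable {NG LC : ℕ}

@[match_pattern] abbrev rt (i : Fin 4) : Ctr NG LC B := .inl i
@[match_pattern] abbrev ch (k : Fin (NG + 1)) (j : Fin (LC + 1)) : Ctr NG LC B := .inr (.inl (k, j))
@[match_pattern] abbrev co (k : Fin NG) (b : B) (m : Fin 11) : Ctr NG LC B := .inr (.inr (k, b, m))

/-- The copy number `k` of the core, with the two neighbouring chain vertices. -/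
def emb (k : Fin NG) : B × Fin 11 ⊕ Bool → Ctr NG LC B
  | .inl q => co k q.1 q.2
  | .inr false => ch k.castSucc (Fin.last LC)
  | .inr true => ch k.succ 0

/-- The centre after a chain vertex (the root after the very last one). -/
def chS (G : DG B) (k : Fin (NG + 1)) (j : Fin (LC + 1)) : Ctr NG LC B :=
  if h : j.1 < LC then ch k ⟨j.1 + 1, by omega⟩
  else if h' : k.1 < NG then co ⟨k.1, h'⟩ G.src 0 else rt 0

/-- The centre before a chain vertex. -/
def chP (G : DG B) (k : Fin (NG + 1)) (j : Fin (LC + 1)) : Ctr NG LC B :=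
  if 0 < j.1 then ch k ⟨j.1 - 1, by omega⟩
  else if h' : 0 < k.1 then co ⟨k.1 - 1, by omega⟩ G.snk 10 else rt 3

/-- The arcs of the whole graph. -/
noncomputable def tg0 (NG LC : ℕ) (G : DG B) : Ctr NG LC B → Fin 5 → Ctr NG LC B
  | rt i, j => if i = 0 then rt 1 else if j ≠ 0 then rt (i - 1) else if i = 3 then ch 0 0
      else rt (i + 1)
  | ch k i, j => if j = 0 then chS G k i else if j ≤ 2 then chP G k i else rt 0
  | co k b m, j => emb k (ctg G b m j)

/-- The level of a centre. -/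
def lv : Ctr NG LC B → ℕ
  | rt i => i
  | ch k j => 4 + k * (LC + 2) + j
  | co k _ _ => 4 + k * (LC + 2) + (LC + 1)

theorem emb_inj (k : Fin NG) : Injective (emb (LC := LC) (B := B) k) := by
  rintro (⟨b, m⟩ | _ | _) (⟨b', m'⟩ | _ | _) e <;> simp [emb, Fin.ext_iff] at e ⊢
  exact e

theorem ctg_ne (G : DG B) (b : B) (m : Fin 11) (j : Fin 5) : ctg G b m j ≠ .inl (b, m) := by
  unfold ctg
  split_ifs with h1 h2 h3 h4 h5
  · simp
  · simp [h1.1]
  · simp [G.s_ne _ _ h3.2.2]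
  · simp
  · simp [h4.1]
  · simp only [ne_eq, Sum.inl.injEq, Prod.mk.injEq, true_and]
    clear h3
    revert m j
    decide

theorem tg0_ne (G : DG B) (a : Ctr NG LC B) (j : Fin 5) : tg0 NG LC G a j ≠ a := by
  rcases a with i | ⟨k, i⟩ | ⟨k, b, m⟩
  · simp only [tg0]
    split_ifs with h1 h2 h3 <;> simp <;> revert i <;> decide
  · simp only [tg0, chS, chP]
    split_ifs <;> simp [Fin.ext_iff]
    omega
  · exact fun e => ctg_ne G b m j (emb_inj k e)

end

section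

/-! Visibility representations of multigraphs. -/

/-- A visibility representation of the multigraph whose edge `e` has the ends `u e` and `v e`:
the vertex `a` is the horizontal bar `[l a, r a] × {y a}`, the edge `e` is the vertical segment
in column `c e` between the bars of its ends. -/
structure Vis {V E : Type} (u v : E → V) where
  y : V → ℤ
  l : V → ℤ
  r : V → ℤ
  c : E → ℤ
  lr : ∀ a, l a ≤ r a
  ne : ∀ e, y (u e) ≠ y (v e)
  cu : ∀ e, l (u e) ≤ c e ∧ c e ≤ r (u e)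
  cv : ∀ e, l (v e) ≤ c e ∧ c e ≤ r (v e)
  vv : ∀ a b, a ≠ b → y a = y b → r a < l b ∨ r b < l a
  ve : ∀ a e, min (y (u e)) (y (v e)) < y a → y a < max (y (u e)) (y (v e)) →
    c e < l a ∨ r a < c e
  ee : ∀ e e', e ≠ e' → c e = c e' → max (y (u e)) (y (v e)) ≤ min (y (u e')) (y (v e')) ∨
    max (y (u e')) (y (v e')) ≤ min (y (u e)) (y (v e))

/-- A representation framed by a bottom bar `inr false` and a top bar `inr true`. -/
structure FVis {A E : Type} (u v : E → A ⊕ Bool) extends Vis u v where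
  lo : ∀ a, y (.inr false) < y (.inl a)
  hi : ∀ a, y (.inl a) < y (.inr true)
  le : ∀ a, l (.inr false) ≤ l (.inl a)
  ge : ∀ a, r (.inl a) ≤ r (.inr false)
  ltop : l (.inr true) = l (.inr false)
  rtop : r (.inr true) = r (.inr false)

variable {B : Type}

/-- Edges of the skeleton, whose vertices are `e, z, x` (numbered `0, 1, 2`) for every block:
two stems per block, two edges per arc, and the edges to the bottom and to the top. -/
abbrev SkE (G : DG B) : Type := (B × Bool) ⊕ ({u // u ≠ G.snk} × Bool × Bool) ⊕ Bool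

def sku (G : DG B) : SkE G → B × Fin 3 ⊕ Bool
  | .inl (b, false) => .inl (b, 0)
  | .inl (b, true) => .inl (b, 1)
  | .inr (.inl (u, _, false)) => .inl (u.1, 2)
  | .inr (.inl (u, _, true)) => .inl (u.1, 1)
  | .inr (.inr false) => .inr false
  | .inr (.inr true) => .inl (G.snk, 2)

def skv (G : DG B) : SkE G → B × Fin 3 ⊕ Bool
  | .inl (b, false) => .inl (b, 1)
  | .inl (b, true) => .inl (b, 2)
  | .inr (.inl (u, T, false)) => .inl (G.s T u.1, 0)
  | .inr (.inl (u, T, true)) => .inl (G.s T u.1, 1)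
  | .inr (.inr false) => .inl (G.src, 0)
  | .inr (.inr true) => .inr true

/-- Edges of the core: its spokes, and the three spokes of chain vertices pointing into it. -/
abbrev CoE (B : Type) : Type := (B × Fin 11 × Fin 5) ⊕ Fin 3

def cou : CoE B → B × Fin 11 ⊕ Bool
  | .inl q => .inl (q.1, q.2.1)
  | .inr i => .inr (decide (i ≠ 0))

noncomputable def cov (G : DG B) : CoE B → B × Fin 11 ⊕ Bool
  | .inl q => ctg G q.1 q.2.1 q.2.2
  | .inr i => if i = 0 then .inl (G.src, 0) else .inl (G.snk, 10)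

end

end Pool.Agent.MP_06c78e_co.H40

end

-- part MP_06c78e_co.H40.Lev
section

/-! Levels, cut vertices, and the dichotomy: some segment is far from the root or from the end. -/

namespace Pool.Agent.MP_06c78e_co.H40

open Real Function

variable {X : Type}

/-- A level structure: arcs change the level by at most one, except for arcs to the root. -/
structure Lev (D : Drw X) where
  l : X → ℕ
  z : X
  lz : l z = 0
  up : ∀ a k, l (D.tg a k) ≤ l a + 1
  dn : ∀ a k, l a ≤ l (D.tg a k) + 1 ∨ D.tg a k = z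

namespace Lev

variable {D : Drw X} (L : Lev D)

/-- A centre which is alone on its level. -/
def Cut (s : X) : Prop := 0 < L.l s ∧ ∀ a, L.l a = L.l s → a = s

/-- A chain vertex: one arc `f` upwards, two arcs `τ`, `τ'` to the root. -/
structure CV (a : X) (f τ τ' : Fin 5) : Prop where
  cut : L.Cut a
  ne : τ ≠ τ'
  z1 : D.tg a τ = L.z
  z2 : D.tg a τ' = L.z
  fw : L.l a < L.l (D.tg a f)
  bk : ∀ k, k ≠ f → L.l (D.tg a k) < L.l a

variable {L}

theorem Cut.pre [Finite X] {s c : X} (h : L.Cut s) {t : Vx X} (ht : L.l s ≤ L.l t.1)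
    (hc : L.l c < L.l s) : D.d t s < D.d t c := by
  obtain ⟨a, ha, h1, k, h2, h3⟩ := D.exit (fun a => L.l a < L.l s) hc (t := t) (by omega)
  have := L.up a k
  rw [h.2 (D.tg a k) (by omega)] at h3
  exact h3.trans_le (h1 c hc)

theorem Cut.suf [Finite X] {s c : X} (h : L.Cut s) {t : Vx X} (ht : L.l t.1 ≤ L.l s)
    (hc : L.l s < L.l c) : D.d t s < D.d t c ∨ D.d t L.z < D.d t c := by
  obtain ⟨a, ha, h1, k, h2, h3⟩ := D.exit (fun a => L.l s < L.l a) hc (t := t) (by omega)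
  rcases L.dn a k with e | e
  · rw [h.2 (D.tg a k) (by omega)] at h3
    exact Or.inl (h3.trans_le (h1 c hc))
  · rw [e] at h3
    exact Or.inr (h3.trans_le (h1 c hc))

theorem Cut.pre_le [Finite X] {s c : X} (h : L.Cut s) {t : Vx X} (ht : L.l s ≤ L.l t.1)
    (hc : L.l c ≤ L.l s) : D.d t s ≤ D.d t c := by
  rcases hc.eq_or_lt with e | e
  · rw [h.2 c e]
  · exact (h.pre ht e).le

theorem Cut.root [Finite X] {s : X} (h : L.Cut s) {t : Vx X} (ht : L.l s ≤ L.l t.1) :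
    D.d t s < D.d t L.z := h.pre ht (by rw [L.lz]; exact h.1)

theorem Cut.pre_v [Finite X] {s : X} (h : L.Cut s) {t y : Vx X} (ht : L.l s ≤ L.l t.1)
    (hy : L.l y.1 < L.l s) : D.d t s < dist (D.p t) (D.p y) := by
  obtain ⟨c, _ | k⟩ := y
  · exact h.pre ht hy
  · have := L.up c k
    simp only at hy
    rcases D.n2 c k t (Drw.ne_of_fst (fun e => by rw [e] at ht; omega) _) with e | e
    · exact (h.pre ht hy).trans e
    · exact (h.pre_le ht (by omega)).trans_lt e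

theorem Cut.suf_v [Finite X] {s : X} (h : L.Cut s) {t y : Vx X} (ht : L.l t.1 ≤ L.l s)
    (hy : L.l s < L.l y.1) : D.d t s < dist (D.p t) (D.p y) ∨ D.d t L.z < dist (D.p t) (D.p y) := by
  obtain ⟨c, _ | k⟩ := y
  · exact h.suf ht hy
  · simp only at hy
    rcases D.n2 c k t (Drw.ne_of_fst (fun e => by rw [e] at ht; omega) _) with e | e
    · exact (h.suf ht hy).imp (fun h => h.trans e) (fun h => h.trans e)
    · rcases L.dn c k with e' | e'
      · rcases (show L.l s ≤ L.l (D.tg c k) by omega).eq_or_lt with e'' | e''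
        · rw [h.2 _ e''.symm] at e; exact Or.inl e
        · exact (h.suf ht e'').imp (fun h => h.trans e) (fun h => h.trans e)
      · rw [e'] at e; exact Or.inr e

/-- All arcs of a chain vertex but the forward one are useless for later targets. -/
theorem CV.ul_later [Finite X] {a : X} {f τ τ' : Fin 5} (h : L.CV a f τ τ') {t : Vx X}
    (ht : L.l a ≤ L.l t.1) {k : Fin 5} (hk : k ≠ f) : D.Ul a k t :=
  (h.cut.pre ht (h.bk k hk)).le

/-- The forward arc is useless for earlier targets, if the root is. -/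
theorem CV.ul_fw [Finite X] {a : X} {f τ τ' : Fin 5} (h : L.CV a f τ τ') {t : Vx X}
    (ht : L.l t.1 ≤ L.l a) (hz : D.d t a ≤ D.d t L.z) : D.Ul a f t :=
  (h.cut.suf ht h.fw).elim le_of_lt fun e => hz.trans e.le

theorem CV.ne1 {a : X} {f τ τ' : Fin 5} (h : L.CV a f τ τ') : τ ≠ f := fun e => by
  have := h.fw; rw [← e, h.z1, L.lz] at this; omega

theorem CV.ne2 {a : X} {f τ τ' : Fin 5} (h : L.CV a f τ τ') : τ' ≠ f := fun e => by
  have := h.fw; rw [← e, h.z2, L.lz] at this; omega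

end Lev

/-- The root cannot be reversed. -/
theorem Drw.ring (D : Drw X) {z' z b₁ b₂ : X} (n1 : b₁ ≠ z') (n2 : b₂ ≠ z') (n3 : b₁ ≠ z)
    (n4 : b₂ ≠ z) (n5 : b₁ ≠ b₂) (h1 : 4 ≤ cnt D.tg z' z) (h2 : 5 ≤ cnt D.tg z z')
    (h3 : 5 ≤ cnt D.tg b₁ z) (h4 : 5 ≤ cnt D.tg b₂ b₁) : False := by
  obtain ⟨k, hk⟩ := cnt_four h1
  have a1 : ∀ b, b ≠ z → D.d (b, none) z' < D.d (b, none) z := fun b hb => by
    obtain ⟨j, hj⟩ := D.step (a := z) (t := (b, none)) hb
    rwa [cnt_five h2] at hj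
  obtain ⟨j, a2⟩ := D.step (a := b₁) (t := (b₂, none)) n5.symm
  rw [cnt_five h3] at a2
  obtain ⟨j', a3⟩ := D.step (a := b₂) (t := (z', none)) n2.symm
  rw [cnt_five h4] at a3
  have a4 : ∀ b, b ≠ z → b ≠ z' → ∀ m, m ≠ k → Far (D.s z' m - D.c z') (D.c b - D.c z') :=
    fun b hb hb' m hm => Drw.Ul.far (t := (b, none)) (by rw [Drw.Ul, hk m hm]; exact (a1 b hb).le) hb'
  have a5 := norm_sub_le_of_not_far (D.pocket (a4 _ n3 n1) (a4 _ n4 n2))
  rw [sub_sub_sub_cancel_right, ← dist_eq_norm, ← dist_eq_norm, ← dist_eq_norm] at a5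
  have a6 := a1 _ n4
  simp only [Drw.d] at a2 a3 a6
  rw [dist_comm (D.p (z', none)), dist_comm (D.p (z', none))] at a3
  rw [dist_comm (D.c b₁) (D.c b₂)] at a5
  rcases le_max_iff.1 a5 with h | h <;> linarith

/-- Nine points outside a larger disc cannot all be far from each other. -/
theorem excursion (m : ℂ) (r : ℝ) (hr : 0 ≤ r) (y : Fin 9 → ℂ)
    (h : ∀ i j, i ≠ j → dist (y i) m - r ≤ dist (y i) (y j)) : ∃ i, dist (y i) m ≤ 6 * r := by
  by_contra hc
  push Not at hc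
  obtain ⟨i, j, hij, e⟩ := nine (fun i => y i - m)
  have a1 := h i j hij
  have a2 := h j i hij.symm
  have a3 := hc i
  have a4 := hc j
  have a5 := sq_norm_sub (y i - m) (y j - m)
  rw [dist_comm (y j) (y i)] at a2
  rw [sub_sub_sub_cancel_right] at a5
  simp only [dist_eq_norm] at a1 a2 a3 a4
  generalize ‖y i - m‖ = u at *
  generalize ‖y j - m‖ = v at *
  generalize ‖y i - y j‖ = w at *
  rcases le_total u v with h | h
  · have : (v - r) ^ 2 ≤ w ^ 2 := pow_le_pow_left₀ (by linarith) a2 2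
    nlinarith
  · have : (u - r) ^ 2 ≤ w ^ 2 := pow_le_pow_left₀ (by linarith) a1 2
    nlinarith

theorem dich_metric (Λ : ℝ) (hΛ : 1 ≤ Λ) : ∃ N : ℕ, ∀ (s : ℕ → ℂ) (z : ℂ) (S : ℕ → Set ℂ)
    (T : Set ℂ), T.Finite → T.Nonempty →
    (∀ t ∈ T, ∀ i j, i ≤ j → j ≤ N → dist t (s j) ≤ dist t (s i)) →
    (∀ t ∈ T, dist t (s 0) ≤ dist t z) →
    (∀ i j, i < j → j < N → ∀ y ∈ S i, ∀ y' ∈ S j, dist y' (s j) ≤ dist y y' ∧
      (dist y (s i) ≤ dist y y' ∨ dist y (s j) ≤ dist y y')) →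
    ∃ i < N, ∃ (m : ℂ) (ρ : ℝ), 0 ≤ ρ ∧ (∀ y ∈ S i, dist y m ≤ ρ) ∧
      (Λ * ρ ≤ dist z m ∨ ∀ t ∈ T, Λ * ρ ≤ dist t m) := by
  have hη : 0 < 1 / (6 * Λ * (6 * Λ + 1)) := by positivity
  obtain ⟨F, -, hF, hcov⟩ := finite_cover_balls_of_compact (isCompact_closedBall (0 : ℂ) 1) hη
  lift F to Finset ℂ using hF
  refine ⟨8 * F.card + 9, fun s z S T hT hT' h1 h2 h3 => ?_⟩
  have key : ∀ (m : ℂ) (r : ℝ), 0 ≤ r → ∀ I : Finset ℕ, I.card = 9 →
      (∀ i ∈ I, i < 8 * F.card + 9 ∧ dist (s i) m ≤ r) →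
      ∃ i < 8 * F.card + 9, ∀ y ∈ S i, dist y m ≤ 6 * r := by
    intro m r hr I hI hs
    by_contra hc
    push Not at hc
    let e := (I.equivFinOfCardEq hI).symm
    choose y hy1 hy2 using fun a : Fin 9 => hc (e a) (hs _ (e a).2).1
    obtain ⟨a, ha⟩ := excursion m r hr y (fun a b hab => by
      have p1 := hs _ (e a).2
      have p2 := hs _ (e b).2
      have q1 := dist_triangle (y a) (s (e a)) m
      have q2 := dist_triangle (y a) (s (e b)) m
      rcases lt_or_gt_of_ne (show ((e a : ℕ)) ≠ e b from fun h =>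
        hab (e.injective (Subtype.ext h))) with h | h
      · rcases (h3 _ _ h p2.1 _ (hy1 a) _ (hy1 b)).2 with h | h <;> linarith [p1.2, p2.2]
      · have := (h3 _ _ h p1.1 _ (hy1 b) _ (hy1 a)).1
        rw [dist_comm (y b)] at this
        linarith [p1.2])
    linarith [hy2 a]
  obtain ⟨t0, ht0, m0⟩ := Set.exists_min_image T (fun t => dist t (s (8 * F.card))) hT hT'
  obtain ⟨t1, ht1, m1⟩ := Set.exists_min_image T (fun t => dist t (s 0)) hT hT'
  by_cases hc : 6 * Λ * dist t0 (s (8 * F.card)) ≤ dist t1 (s 0)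
  · obtain ⟨i, hi, h⟩ := key t0 _ dist_nonneg (Finset.Ico (8 * F.card) (8 * F.card + 9)) (by simp)
      (fun i hi => by
        rw [Finset.mem_Ico] at hi
        exact ⟨hi.2, by rw [dist_comm]; exact h1 t0 ht0 _ _ hi.1 hi.2.le⟩)
    refine ⟨i, hi, t0, _, by positivity, h, Or.inl ?_⟩
    have := h2 t0 ht0
    have := m1 t0 ht0
    rw [dist_comm z]
    linarith
  · push Not at hc
    have hd : 0 < dist t1 (s 0) := by
      have a1 := m0 t1 ht1
      have a2 := h1 t1 ht1 0 (8 * F.card) (by omega) (by omega)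
      by_contra h
      have : dist t0 (s (8 * F.card)) = 0 := le_antisymm (by linarith) dist_nonneg
      rw [this] at hc
      linarith [dist_nonneg (x := t1) (y := s 0)]
    set d := dist t1 (s 0) with hd'
    have hd0 : (d : ℂ) ≠ 0 := by exact_mod_cast hd.ne'
    have hin : ∀ i : Fin (8 * F.card + 1), ∃ c ∈ F,
        dist (s i) (t1 + d * c) ≤ d * (1 / (6 * Λ * (6 * Λ + 1))) := by
      intro i
      have a1 := h1 t1 ht1 0 i (by omega) (by omega)
      have a2 : (s i - t1) / d ∈ Metric.closedBall (0 : ℂ) 1 := by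
        rw [mem_closedBall_zero_iff, norm_div, Complex.norm_real, Real.norm_of_nonneg hd.le,
          div_le_one hd, ← dist_eq_norm, dist_comm]
        exact a1
      obtain ⟨c, hc, h⟩ := Set.mem_iUnion₂.1 (hcov a2)
      refine ⟨c, hc, ?_⟩
      rw [Metric.mem_ball, dist_eq_norm] at h
      rw [dist_eq_norm, show s i - (t1 + d * c) = d * ((s i - t1) / d - c) by field_simp; ring,
        norm_mul, Complex.norm_real, Real.norm_of_nonneg hd.le]
      exact mul_le_mul_of_nonneg_left h.le hd.le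
    choose g hg1 hg2 using hin
    obtain ⟨c, -, hcard⟩ := Finset.exists_lt_card_fiber_of_mul_lt_card_of_maps_to
      (s := Finset.univ) (t := F) (f := g) (n := 8) (fun i _ => hg1 i) (by simp; omega)
    obtain ⟨I, hI, hI9⟩ := Finset.exists_subset_card_eq (n := 9) (Nat.succ_le_of_lt hcard)
    have hI' : ∀ i ∈ I, dist (s i) (t1 + d * c) ≤ d * (1 / (6 * Λ * (6 * Λ + 1))) := fun i hi => by
      have : g i = c := by simpa using hI hi
      rw [← this]; exact hg2 i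
    obtain ⟨i, hi, h⟩ := key (t1 + d * c) (d * (1 / (6 * Λ * (6 * Λ + 1)))) (by positivity)
      (I.map Fin.valEmbedding)
      (by simpa using hI9) (fun i hi => by
        obtain ⟨j, hj, rfl⟩ := Finset.mem_map.1 hi
        exact ⟨by simp; omega, hI' j hj⟩)
    refine ⟨i, hi, _, _, by positivity, h, Or.inr fun t ht => ?_⟩
    obtain ⟨j, hj⟩ := Finset.card_pos.1 (show 0 < I.card by omega)
    have a1 := hI' j hj
    have a2 := h1 t ht j (8 * F.card) (by omega) (by omega)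
    have a3 := m0 t ht
    have a4 := dist_triangle t (t1 + d * c) (s j)
    rw [dist_comm (t1 + d * c)] at a4
    have a5 : 6 * Λ * ((6 * Λ + 1) * (d * (1 / (6 * Λ * (6 * Λ + 1))))) = d := by field_simp
    have a6 : (6 * Λ + 1) * (d * (1 / (6 * Λ * (6 * Λ + 1)))) < dist t0 (s (8 * F.card)) :=
      lt_of_mul_lt_mul_left (by rw [a5]; exact hc) (by positivity : (0 : ℝ) ≤ 6 * Λ)
    linarith

/-- The dichotomy for the open segments between consecutive cuts. -/
theorem dich (Λ : ℝ) (hΛ : 1 ≤ Λ) : ∃ N : ℕ, ∀ {X : Type} [Finite X] {D : Drw X} (L : Lev D)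
    (s : ℕ → X) (T : Set (Vx X)), T.Nonempty → (∀ i ≤ N, L.Cut (s i)) →
    (∀ i < N, L.l (s i) < L.l (s (i + 1))) → (∀ t ∈ T, L.l (s N) ≤ L.l t.1) →
    ∃ i < N, ∃ (m : ℂ) (ρ : ℝ), 0 ≤ ρ ∧
      (∀ y : Vx X, L.l (s i) < L.l y.1 → L.l y.1 < L.l (s (i + 1)) → dist (D.p y) m ≤ ρ) ∧
      (Λ * ρ ≤ dist (D.c L.z) m ∨ ∀ t ∈ T, Λ * ρ ≤ dist (D.p t) m) := by
  obtain ⟨N, h⟩ := dich_metric Λ hΛ
  refine ⟨N, fun {X} _ {D} L s T hT h1 h2 h3 => ?_⟩
  have mono : ∀ j ≤ N, ∀ i ≤ j, L.l (s i) ≤ L.l (s j) := by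
    intro j hj i hi
    induction j, hi using Nat.le_induction with
    | base => rfl
    | succ j _ ih => exact (ih (by omega)).trans (h2 j (by omega)).le
  obtain ⟨i, hi, m, ρ, a1, a2, a3⟩ := h (fun i => D.c (s i)) (D.c L.z)
    (fun i => D.p '' {y | L.l (s i) < L.l y.1 ∧ L.l y.1 < L.l (s (i + 1))}) (D.p '' T)
    (Set.toFinite _) (hT.image _)
    (by
      rintro _ ⟨t, ht, rfl⟩ i j hij hj
      exact (h1 j hj).pre_le ((mono N le_rfl j hj).trans (h3 t ht)) (mono j hj i hij))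
    (by
      rintro _ ⟨t, ht, rfl⟩
      exact ((h1 0 (by omega)).root ((mono N le_rfl 0 (by omega)).trans (h3 t ht))).le)
    (by
      rintro i j hij hj _ ⟨y, hy, rfl⟩ _ ⟨y', hy', rfl⟩
      have b1 := mono j hj.le (i + 1) hij
      have b2 := (h1 j hj.le).pre_v hy'.1.le (y := y) (by linarith [hy.2])
      rw [dist_comm (D.p y') (D.p y)] at b2
      refine ⟨b2.le, ?_⟩
      rcases (h1 j hj.le).suf_v (t := y) (by linarith [hy.2]) hy'.1 with e | e
      · exact Or.inr e.le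
      · exact Or.inl (((h1 i (by omega)).root hy.1.le).trans e).le)
  exact ⟨i, hi, m, ρ, a1, fun y b1 b2 => a2 _ ⟨y, ⟨b1, b2⟩, rfl⟩,
    a3.imp id fun h t ht => h _ ⟨t, ht, rfl⟩⟩

end Pool.Agent.MP_06c78e_co.H40

end

-- part MP_06c78e_co.H40.Chain
section

/-! A long chain far from the root has short, almost vertical flanks. -/

namespace Pool.Agent.MP_06c78e_co.H40

open Real Function

variable {X : Type}

/-- The two neighbours of the spoke `f`. -/
theorem Drw.flanks (D : Drw X) (a : X) (f : Fin 5) : ∃ (kp km : Fin 5) (xp xm : ℝ), kp ≠ f ∧ km ≠ f ∧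
    Dir (D.s a kp - D.c a) xp ∧ Dir (D.s a km - D.c a) xm ∧ xp - xm < π ∧
    ∀ z, (∀ m, m ≠ f → Far (D.s a m - D.c a) z) →
      ∃ α, Dir z α ∧ xm + π / 3 < α ∧ α + π / 3 < xp := by
  obtain ⟨c, -, -, hc⟩ := exists_dir (D.s a f - D.c a) 0
  choose x h1 h2 h3 using fun k => exists_dir (D.s a k - D.c a) (c + π)
  obtain ⟨k, a1, -, a2⟩ := sorted (Finset.univ.erase f) 4 (by simp) x (π / 3)
    (fun i _ j _ hij => (D.far_spokes a hij).lt_abs (h3 i) (h3 j))
  have ne : ∀ i, k i ≠ f := fun i => by simpa using a1 i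
  have b1 := a2 0 1 (by decide)
  have b2 := a2 1 2 (by decide)
  have b3 := a2 2 3 (by decide)
  refine ⟨k 0, k 3, _, _, ne 0, ne 3, h3 _, (h3 _).sub_two_pi, by linarith, fun z hz => ?_⟩
  obtain ⟨m, hm⟩ := D.cover a z
  obtain rfl : m = f := by
    by_contra h; exact hm (hz m h)
  obtain ⟨α, c1, c2⟩ := dir_of_not_far (D.v_ne a m) (hz _ (ne 0)).ne_right hm hc
  have d1 := (D.far_spokes a (ne 0)).lt_abs (h3 _) hc
  have d2 := (D.far_spokes a (ne 3)).lt_abs (h3 _).sub_two_pi hc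
  have d3 := (hz _ (ne 0)).lt_abs (h3 _) c2
  have d4 := (hz _ (ne 3)).lt_abs (h3 _).sub_two_pi c2
  rw [abs_le] at c1
  rw [abs_of_pos (by linarith [h1 (k 0)])] at d1
  rw [abs_of_nonpos (by linarith [h2 (k 3)])] at d2
  rw [abs_of_pos (by linarith)] at d3
  rw [abs_of_neg (by linarith)] at d4
  exact ⟨α, c2, by linarith, by linarith⟩

/-- A left eye: two short flanks which are useless for all targets in `T`. -/
def LEye (D : Drw X) (O : X) (kp km : Fin 5) (xp xm : ℝ) (T : Vx X → Prop) : Prop :=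
  Dir (D.s O kp - D.c O) xp ∧ Dir (D.s O km - D.c O) xm ∧ xp - xm < π ∧
    ∀ t, T t → t.1 ≠ O ∧ D.Ul O kp t ∧ D.Ul O km t ∧
      ‖D.s O kp - D.c O‖ ≤ 1 / 200 * ‖D.p t - D.c O‖ ∧
      ‖D.s O km - D.c O‖ ≤ 1 / 200 * ‖D.p t - D.c O‖ ∧
      ∃ α, Dir (D.p t - D.c O) α ∧ xm + π / 3 < α ∧ α + π / 3 < xp

theorem span3 {lo hi s t x : ℝ} (h1 : s + π / 3 < t) (h2 : π / 3 < |x - s|) (h3 : π / 3 < |x - t|)
    (a1 : lo < s) (a2 : t < hi) (a3 : lo < x) (a4 : x < hi) : lo + 2 * π / 3 < hi := by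
  rcases lt_abs.1 h2 with e | e <;> rcases lt_abs.1 h3 with d | d <;> linarith

theorem Far.back {u a b : ℂ} {α y : ℝ} (h : Far u (a - b)) (hu : Dir u y) (hd : Dir (b - a) α)
    (h1 : |y - α| < 4 * π / 3) : α - 2 * π / 3 < y ∧ y < α + 2 * π / 3 := by
  have a1 := h.lt_abs hu hd.swap_add
  have a2 := h.lt_abs hu hd.swap_sub
  rw [abs_lt] at h1
  constructor
  · rcases _root_.lt_abs.1 a2 with e | e <;> linarith
  · rcases _root_.lt_abs.1 a1 with e | e <;> linarith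

theorem gt_of_cos_neg {x : ℝ} (h : cos x < 0) (h0 : 0 ≤ x) : π / 2 < x := by
  by_contra e
  linarith [cos_nonneg_abs (x := x) (abs_le.2 ⟨by linarith [pi_pos], not_lt.1 e⟩)]

theorem lt_of_cos_pos {x : ℝ} (h : 0 < cos x) (h0 : x ≤ π) : x < π / 2 := by
  by_contra e
  linarith [cos_nonpos_of_pi_div_two_le_of_le (x := x) (not_lt.1 e) (by linarith [pi_pos])]

theorem short0 {a b w u : ℂ} {α θ θ' : ℝ} (h1 : dist u a < dist u w) (h2 : dist w b < dist w u)
    (hw : w ≠ a) (hu : u ≠ b) (hd : Dir (b - a) α) (hn : Dir (w - a) θ) (hn' : Dir (u - b) θ')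
    (h3 : |θ - θ'| ≤ 1 / 2100) (h4 : |cos (θ - α)| ≤ 1 / 1050) (h5 : |cos (θ' - α)| ≤ 1 / 1050) :
    ‖w - a‖ ≤ 1 / 500 * ‖b - a‖ ∧ ‖u - b‖ ≤ 1 / 500 * ‖b - a‖ := by
  have c1 : 1 - 1 / 2100 ≤ cos (θ - θ') := by
    simpa using cos_ge_sub (x := θ - θ') (a := 0) (by simpa using h3)
  have c2 := cos_le_one (θ - θ')
  obtain ⟨a1, a2⟩ := qd_len h1 h2 hw hu hd hn hn' (by linarith)
  rw [abs_le] at h4 h5
  have k : 2.9 ≤ 4 * cos (θ - θ') ^ 2 - 1 := by nlinarith
  have b1 := mul_le_mul_of_nonneg_right k (norm_nonneg (w - a))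
  have b2 := mul_le_mul_of_nonneg_right k (norm_nonneg (u - b))
  have d1 := mul_le_mul_of_nonneg_left (show 4 * cos (θ - θ') * cos (θ' - α) - 2 * cos (θ - α) ≤
    6 / 1050 by nlinarith) (norm_nonneg (b - a))
  have d2 := mul_le_mul_of_nonneg_left (show 2 * cos (θ' - α) - 4 * cos (θ - θ') * cos (θ - α) ≤
    6 / 1050 by nlinarith) (norm_nonneg (b - a))
  constructor <;> linarith [norm_nonneg (b - a)]

theorem abs_cos_le {x δ : ℝ} (h : |x - π / 2| ≤ δ ∨ |x + π / 2| ≤ δ) : |cos x| ≤ δ := by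
  rcases h with h | h
  · simpa using (abs_cos_sub_cos_le x (π / 2)).trans h
  · simpa using (abs_cos_sub_cos_le x (-(π / 2))).trans (by simpa using h)

theorem short {a b w u : ℂ} {α θ θ' : ℝ} (h1 : dist u a < dist u w) (h2 : dist w b < dist w u)
    (hw : w ≠ a) (hu : u ≠ b) (hd : Dir (b - a) α) (hn : Dir (w - a) θ) (hn' : Dir (u - b) θ')
    (h : (α < θ ∧ θ < α + π ∧ θ' < θ ∧ θ - θ' ≤ 1 / 2100) ∨
      (θ < α ∧ α < θ + π ∧ θ < θ' ∧ θ' - θ ≤ 1 / 2100)) :
    ‖w - a‖ ≤ 1 / 500 * ‖b - a‖ ∧ ‖u - b‖ ≤ 1 / 500 * ‖b - a‖ := by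
  have p := pi_gt_three
  have h3 : |θ - θ'| ≤ 1 / 2100 := by
    rcases h with h | h <;> exact abs_le.2 ⟨by linarith, by linarith⟩
  obtain ⟨a1, a2⟩ := qd h1 h2 hw hu hd hn hn' (by linarith)
  rcases h with ⟨b1, b2, b3, b4⟩ | ⟨b1, b2, b3, b4⟩
  · have c1 := gt_of_cos_neg a1 (by linarith)
    have c2 := lt_of_cos_pos a2 (by linarith)
    exact short0 h1 h2 hw hu hd hn hn' h3
      (abs_cos_le (Or.inl (abs_le.2 ⟨by linarith, by linarith⟩)))
      (abs_cos_le (Or.inl (abs_le.2 ⟨by linarith, by linarith⟩)))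
  · rw [← cos_neg] at a1 a2
    have c1 := gt_of_cos_neg a1 (by linarith)
    have c2 := lt_of_cos_pos a2 (by linarith)
    exact short0 h1 h2 hw hu hd hn hn' h3
      (abs_cos_le (Or.inr (abs_le.2 ⟨by linarith, by linarith⟩)))
      (abs_cos_le (Or.inr (abs_le.2 ⟨by linarith, by linarith⟩)))

theorem Drw.Ul.cos_lt {D : Drw X} {a : X} {k : Fin 5} {t : Vx X} (h : D.Ul a k t) (ht : t.1 ≠ a)
    {x y κ : ℝ} (hx : Dir (D.s a k - D.c a) x) (hy : Dir (D.p t - D.c a) y)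
    (hκ : ‖D.s a k - D.c a‖ ≤ κ * ‖D.p t - D.c a‖) : 2 * cos (x - y) < κ := by
  have a1 := h.lt ht
  rw [closer_iff, hy.ip_eq hx, ← cos_neg, neg_sub] at a1
  have p1 : 0 < ‖D.s a k - D.c a‖ := norm_pos_iff.2 (D.v_ne _ _)
  have p2 : 0 < ‖D.p t - D.c a‖ := norm_pos_iff.2 (D.sub_ne (u := (a, none)) ht)
  have a2 : ‖D.p t - D.c a‖ * (2 * cos (x - y)) < ‖D.s a k - D.c a‖ :=
    lt_of_mul_lt_mul_left (by linarith) p1.le
  exact lt_of_mul_lt_mul_left (by linarith) p2.le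

section

variable [Finite X] {D : Drw X} {L : Lev D} {a : ℕ → X} {f τ τ' : ℕ → Fin 5}
  (hcv : ∀ i < 16, L.CV (a i) (f i) (τ i) (τ' i))
  (hm : ∀ i j, i < j → j < 16 → L.l (a i) < L.l (a j))
  (hz : ∀ i < 16, ∀ j < 16, ∀ o, D.d (a i, o) (a j) ≤ D.d (a i, o) L.z)
include hcv hm hz

theorem win_ul {i j : ℕ} (hij : i < j) (hj : j < 16) {m : Fin 5}
    (h : D.tg (a j) m = L.z ∨ m = f j) (o : Option (Fin 5)) : D.Ul (a j) m (a i, o) := by
  rcases h with h | rfl
  · rw [Drw.Ul, h]; exact hz i (by omega) j hj o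
  · exact (hcv j hj).ul_fw (hm i j hij hj).le (hz i (by omega) j hj o)

theorem win_mu {i j : ℕ} (hij : i < j) (hj : j < 16) {k m : Fin 5} (hk : k ≠ f i)
    (h : D.tg (a j) m = L.z ∨ m = f j) :
    dist (D.s (a j) m) (D.c (a i)) < dist (D.s (a j) m) (D.s (a i) k) ∧
      dist (D.s (a i) k) (D.c (a j)) < dist (D.s (a i) k) (D.s (a j) m) ∧
      Far (D.s (a j) m - D.c (a j)) (D.c (a i) - D.c (a j)) := by
  have ne : a i ≠ a j := fun e => by have := hm i j hij hj; rw [e] at this; omega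
  exact ⟨((hcv i (by omega)).ul_later (t := (a j, some m)) (hm i j hij hj).le hk).lt ne.symm,
    (win_ul hcv hm hz hij hj h _).lt ne, (win_ul hcv hm hz hij hj h none).far ne⟩

omit hz in
theorem win_far {i j : ℕ} (hij : i < j) (hj : j < 16) (k : Fin 5) (hk : k ≠ f i) :
    Far (D.s (a i) k - D.c (a i)) (D.c (a j) - D.c (a i)) :=
  ((hcv i (by omega)).ul_later (t := (a j, none)) (hm i j hij hj).le hk).far fun e => by
    have := hm i j hij hj; simp only at e; rw [e] at this; omega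

/-- The root spokes and the forward spoke of later vertices lie between the flanks of `a 0`. -/
theorem win_tri : ∃ lo hi : ℝ, hi - lo < π ∧ ∀ l, ∃ (ks kt : Fin 5) (s t x : ℝ), 1 ≤ l → l < 16 →
    D.tg (a l) ks = L.z ∧ D.tg (a l) kt = L.z ∧ ks ≠ f l ∧ kt ≠ f l ∧
    Dir (D.s (a l) ks - D.c (a l)) s ∧ Dir (D.s (a l) kt - D.c (a l)) t ∧
    Dir (D.s (a l) (f l) - D.c (a l)) x ∧ s + π / 3 < t ∧ π / 3 < |x - s| ∧ π / 3 < |x - t| ∧
    lo < s ∧ t < hi ∧ lo < x ∧ x < hi := by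
  obtain ⟨kp, km, xp, xm, n1, n2, d1, d2, lt, h⟩ := D.flanks (a 0) (f 0)
  refine ⟨xm, xp, lt, fun l => ?_⟩
  by_cases hl : 1 ≤ l ∧ l < 16
  swap
  · exact ⟨0, 0, 0, 0, 0, fun h1 h2 => absurd ⟨h1, h2⟩ hl⟩
  obtain ⟨α, a1, a2, a3⟩ := h _ (win_far hcv hm hl.1 hl.2)
  have key : ∀ m, D.tg (a l) m = L.z ∨ m = f l →
      ∃ y, Dir (D.s (a l) m - D.c (a l)) y ∧ xm < y ∧ y < xp := by
    intro m hm'
    obtain ⟨y, b1, b2, b3⟩ := exists_dir (D.s (a l) m - D.c (a l)) α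
    obtain ⟨c1, c2, c3⟩ := win_mu hcv hm hz hl.1 hl.2 n1 hm'
    obtain ⟨c4, c5, -⟩ := win_mu hcv hm hz hl.1 hl.2 n2 hm'
    obtain ⟨e1, e2⟩ := c3.back b3 a1 (abs_lt.2 ⟨by linarith [pi_pos], by linarith [pi_pos]⟩)
    exact ⟨y, b3, ql' c4 c5 (D.s_ne _ _) (D.s_ne _ _) a1 d2 b3 (by linarith) e1,
      ql c1 c2 (D.s_ne _ _) (D.s_ne _ _) a1 d1 b3 a3 e2⟩
  have cv := hcv l hl.2
  obtain ⟨s, s1, s2, s3⟩ := key _ (Or.inl cv.z1)
  obtain ⟨t, t1, t2, t3⟩ := key _ (Or.inl cv.z2)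
  obtain ⟨x, x1, x2, x3⟩ := key _ (Or.inr rfl)
  have g1 := (D.far_spokes _ cv.ne1.symm).lt_abs x1 s1
  have g2 := (D.far_spokes _ cv.ne2.symm).lt_abs x1 t1
  rcases lt_abs.1 ((D.far_spokes _ cv.ne).lt_abs s1 t1) with e | e
  · exact ⟨_, _, t, s, x, fun _ _ => ⟨cv.z2, cv.z1, cv.ne2, cv.ne1, t1, s1, x1, by linarith, g2,
      g1, t2, s3, x2, x3⟩⟩
  · exact ⟨_, _, s, t, x, fun _ _ => ⟨cv.z1, cv.z2, cv.ne1, cv.ne2, s1, t1, x1, by linarith, g1,
      g2, s2, t3, x2, x3⟩⟩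

/-- The two eyes of a window. -/
theorem chain : (∃ kp km xp xm, LEye D (a 1) kp km xp xm (fun t => L.l (a 2) ≤ L.l t.1)) ∧
    ∃ c, ∀ t : Vx X, L.l t.1 ≤ L.l (a 1) → D.d t (a 1) ≤ D.d t L.z → D.d t (a 2) ≤ D.d t L.z →
      Near c (1 / 200) (D.c (a 2) - D.p t) := by
  obtain ⟨lo, hi, lt, h⟩ := win_tri hcv hm hz
  choose ks kt s t x h using h
  have p := pi_gt_three
  have p4 := pi_lt_four
  have fw : ∀ j, 1 ≤ j → j < 16 → ∀ z, (∀ k, k ≠ f j → Far (D.s (a j) k - D.c (a j)) z) →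
      ∃ α, Dir z α ∧ |α - x j| ≤ π / 3 ∧ π / 3 < |s j - α| ∧ π / 3 < |t j - α| := by
    intro j j1 j2 z hz'
    obtain ⟨-, -, n1, n2, d1, d2, d3, -⟩ := h j j1 j2
    obtain ⟨m, hm'⟩ := D.cover (a j) z
    obtain rfl : m = f j := by
      by_contra h; exact hm' (hz' m h)
    obtain ⟨α, c1, c2⟩ := dir_of_not_far (D.v_ne _ _) (hz' _ n1).ne_right hm' d3
    exact ⟨α, c2, c1, (hz' _ n1).lt_abs d1 c2, (hz' _ n2).lt_abs d2 c2⟩
  have nest : ∀ j l, 1 ≤ j → j < l → l < 16 → ∃ α, Dir (D.c (a l) - D.c (a j)) α ∧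
      s j + π / 3 < α ∧ α + π / 3 < t j ∧ s j < s l ∧ t l < t j ∧ s j < x l ∧ x l < t j := by
    intro j l j1 jl l2
    obtain ⟨α, a1, a2, a3, a4⟩ := fw j j1 (by omega) _ (win_far hcv hm jl l2)
    obtain ⟨-, -, n1, n2, d1, d2, -, b1, -, -, b2, b3, b4, b5⟩ := h j j1 (by omega)
    obtain ⟨z1, z2, -, -, e1, e2, e3, c1, c2, c3, c4, c5, c6, c7⟩ := h l (by omega) l2
    rw [abs_le] at a2
    have key : ∀ k w, k ≠ f j → Dir (D.s (a j) k - D.c (a j)) w → ∀ m y,
        D.tg (a l) m = L.z ∨ m = f l → Dir (D.s (a l) m - D.c (a l)) y → lo < y → y < hi →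
        (α + π / 3 < w → y < w) ∧ (w < α - π / 3 → w < y) := by
      intro k w hk hw m y hm' hy y1 y2
      obtain ⟨g1, g2, g3⟩ := win_mu hcv hm hz jl l2 hk hm'
      obtain ⟨g4, g5⟩ := g3.back hy a1 (abs_lt.2 ⟨by linarith only [y1, a2.2, b5, lt],
        by linarith only [y2, a2.1, b4, lt]⟩)
      exact ⟨fun e => ql g1 g2 (D.s_ne _ _) (D.s_ne _ _) a1 hw hy e g5,
        fun e => ql' g1 g2 (D.s_ne _ _) (D.s_ne _ _) a1 hw hy e g4⟩
    have s1 := key _ _ n1 d1 _ _ (Or.inl z1) e1 c4 (by linarith only [c1, c5, p])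
    have s2 := key _ _ n1 d1 _ _ (Or.inl z2) e2 (by linarith only [c1, c4, p]) c5
    have s3 := key _ _ n1 d1 _ _ (Or.inr rfl) e3 c6 c7
    have t1 := key _ _ n2 d2 _ _ (Or.inl z1) e1 c4 (by linarith only [c1, c5, p])
    have t2 := key _ _ n2 d2 _ _ (Or.inl z2) e2 (by linarith only [c1, c4, p]) c5
    have t3 := key _ _ n2 d2 _ _ (Or.inr rfl) e3 c6 c7
    have u1 : s j < α - π / 3 := by
      rcases lt_abs.1 a3 with e | e
      · have e' : α + π / 3 < s j := by linarith only [e]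
        linarith only [span3 c1 c2 c3 c4 (s2.1 e') c6 (s3.1 e'), b1, b3, lt]
      · linarith only [e]
    have u2 : α + π / 3 < t j := by
      rcases lt_abs.1 a4 with e | e
      · linarith only [e]
      · have e' : t j < α - π / 3 := by linarith only [e]
        linarith only [span3 c1 c2 c3 (t1.2 e') c5 (t3.2 e') c7, b1, b2, lt]
    exact ⟨α, a1, by linarith only [u1], u2, s1.2 u1, t2.1 u2, s3.2 u1, t3.1 u2⟩
  have wide : ∀ j, 1 ≤ j → j < 15 → s j + 2 * π / 3 < t j ∧ t j - s j < π ∧ s j + π / 3 < x j ∧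
      x j + π / 3 < t j := fun j j1 j2 => by
    obtain ⟨α, -, a1, a2, -⟩ := nest j (j + 1) j1 (by omega) (by omega)
    obtain ⟨-, -, -, -, -, -, -, -, c1, c2, b2, b3, b4, b5⟩ := h j j1 (by omega)
    refine ⟨by linarith only [a1, a2], by linarith only [b2, b3, lt], ?_, ?_⟩
    · rcases lt_abs.1 c1 with e | e <;> linarith only [e, a1, a2, b3, b4, lt]
    · rcases lt_abs.1 c2 with e | e <;> linarith only [e, a1, a2, b2, b5, lt]
  have dbl : ∀ j, 1 ≤ j → j < 14 → 2 * (π - (t j - s j)) < π - (t (j + 1) - s (j + 1)) := by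
    intro j j1 j2
    obtain ⟨α, a0, a1, a2, a3, a4, -⟩ := nest j (j + 1) j1 (by omega) (by omega)
    obtain ⟨-, -, n1, n2, d1, d2, -⟩ := h j j1 (by omega)
    obtain ⟨z1, z2, -, -, e1, e2, -⟩ := h (j + 1) (by omega) (by omega)
    have w1 := (wide j j1 (by omega)).2.1
    have w2 := (wide (j + 1) (by omega) (by omega)).1
    obtain ⟨g1, g2, -⟩ := win_mu hcv hm hz (Nat.lt_succ_self j) (by omega) n1 (Or.inl z1)
    obtain ⟨g3, g4, -⟩ := win_mu hcv hm hz (Nat.lt_succ_self j) (by omega) n2 (Or.inl z2)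
    have q1 := (qd g1 g2 (D.s_ne _ _) (D.s_ne _ _) a0 d1 e1
      (abs_le.2 ⟨by linarith only [w1, w2, a4], by linarith only [a3, p]⟩)).1
    have q2 := (qd g3 g4 (D.s_ne _ _) (D.s_ne _ _) a0 d2 e2
      (abs_le.2 ⟨by linarith only [a4, p], by linarith only [w1, w2, a3]⟩)).1
    rw [← cos_neg] at q1
    linarith only [gt_of_cos_neg q1 (by linarith only [a1, a3, p]),
      gt_of_cos_neg q2 (by linarith only [a2, a4, p])]
  have thin : π - (t 2 - s 2) ≤ 1 / 2100 := by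
    linarith only [dbl 2 (by omega) (by omega), dbl 3 (by omega) (by omega),
      dbl 4 (by omega) (by omega), dbl 5 (by omega) (by omega), dbl 6 (by omega) (by omega),
      dbl 7 (by omega) (by omega), dbl 8 (by omega) (by omega), dbl 9 (by omega) (by omega),
      dbl 10 (by omega) (by omega), dbl 11 (by omega) (by omega), dbl 12 (by omega) (by omega),
      dbl 13 (by omega) (by omega), (wide 14 (by omega) (by omega)).1, p4]
  obtain ⟨α, a0, a1, a2, a3, a4, -⟩ := nest 1 2 (by omega) (by omega) (by omega)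
  obtain ⟨-, -, n1, n2, d1, d2, -⟩ := h 1 (by omega) (by omega)
  obtain ⟨z1, z2, -, -, e1, e2, e3, -⟩ := h 2 (by omega) (by omega)
  obtain ⟨-, w1, w2, w3⟩ := wide 1 (by omega) (by omega)
  obtain ⟨-, w4, w5, w6⟩ := wide 2 (by omega) (by omega)
  obtain ⟨g1, g2, -⟩ := win_mu hcv hm hz (show 1 < 2 by omega) (by omega) n1 (Or.inl z1)
  obtain ⟨g3, g4, -⟩ := win_mu hcv hm hz (show 1 < 2 by omega) (by omega) n2 (Or.inl z2)
  obtain ⟨r1, r2⟩ := short g1 g2 (D.s_ne _ _) (D.s_ne _ _) a0 d1 e1 (Or.inr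
    ⟨by linarith only [a1, p], by linarith only [a2, w1, p], a3, by linarith only [thin, w1, a4]⟩)
  obtain ⟨r3, r4⟩ := short g3 g4 (D.s_ne _ _) (D.s_ne _ _) a0 d2 e2 (Or.inl
    ⟨by linarith only [a2, p], by linarith only [a1, w1, p], a4, by linarith only [thin, w1, a3]⟩)
  have l12 := hm 1 2 (by omega) (by omega)
  have tri : ∀ v : Vx X, ‖D.c (a 2) - D.c (a 1)‖ ≤ D.d v (a 1) + D.d v (a 2) := fun v => by
    rw [← dist_eq_norm, add_comm]; exact dist_triangle_left _ _ _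
  refine ⟨⟨kt 1, ks 1, t 1, s 1, d2, d1, w1, fun v hv => ?_⟩, (s 2 + t 2) / 2, fun v v1 v2 v3 => ?_⟩
  · replace hv : L.l (a 2) ≤ L.l v.1 := hv
    have ne : v.1 ≠ a 1 := fun e => by rw [e] at hv; omega
    have ul : ∀ k, k ≠ f 1 → D.Ul (a 1) k v := fun k hk =>
      (hcv 1 (by omega)).ul_later (by omega) hk
    have b1 := (hcv 2 (by omega)).cut.pre hv l12
    have b2 := tri v
    simp only [Drw.d, dist_eq_norm] at b1 b2
    have b3 := norm_nonneg (D.p v - D.c (a 1))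
    obtain ⟨β, b4, b5, b6, b7⟩ := fw 1 (by omega) (by omega) _ fun k hk => (ul k hk).far ne
    rw [abs_le] at b5
    rw [abs_of_neg (by linarith only [b5.1, w2])] at b6
    rw [abs_of_pos (by linarith only [b5.2, w3])] at b7
    exact ⟨ne, ul _ n2, ul _ n1, by linarith only [r3, b1, b2, b3],
      by linarith only [r1, b1, b2, b3], β, b4, by linarith only [b6], by linarith only [b7]⟩
  · have ne : v.1 ≠ a 2 := fun e => by rw [e] at v1; omega
    have u1 : D.Ul (a 2) (ks 2) v := by rw [Drw.Ul, z1]; exact v3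
    have u2 : D.Ul (a 2) (kt 2) v := by rw [Drw.Ul, z2]; exact v3
    have u3 := (hcv 2 (by omega)).ul_fw (v1.trans l12.le) v3
    have b1 := ((hcv 1 (by omega)).cut.suf v1 l12).elim id fun e => v2.trans_lt e
    have b2 := tri v
    simp only [Drw.d, dist_eq_norm] at b1 b2
    obtain ⟨y, c1, c2, c3⟩ := exists_dir (D.p v - D.c (a 2)) (x 2 + π)
    have f1 := (u3.far ne).lt_abs e3 c3
    have f2 := (u3.far ne).lt_abs e3.add_two_pi c3
    have f3 := (u2.far ne).lt_abs e2 c3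
    have f4 := (u1.far ne).lt_abs e1.add_two_pi c3
    have f5 := lt_abs_of_cos_lt (by norm_num) (by norm_num) (u2.cos_lt ne (κ := 1 / 250) e2 c3
      (by linarith only [r4, b1, b2]))
    have f6 := lt_abs_of_cos_lt (by norm_num) (by norm_num) (u1.cos_lt ne (κ := 1 / 250)
      e1.add_two_pi c3 (by linarith only [r2, b1, b2]))
    rw [abs_of_neg (by linarith only [c1])] at f1
    rw [abs_of_nonneg (by linarith only [c2])] at f2
    have f7 : t 2 - y < 0 := by rcases lt_abs.1 f3 with e | e <;> linarith only [e, f1, w4, w5, p]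
    have f8 : 0 < s 2 + 2 * π - y := by
      rcases lt_abs.1 f4 with e | e <;> linarith only [e, f2, w4, w6, p]
    rw [abs_of_neg f7] at f5
    rw [abs_of_pos f8] at f6
    exact ⟨_, abs_le.2 ⟨by linarith only [f5, thin], by linarith only [f6, thin]⟩, c3.swap_sub⟩

end

end Pool.Agent.MP_06c78e_co.H40

end

-- part MP_06c78e_co.H40.Pair
section

/-! Tight pairs of centres inside a thin region seen from two eyes. -/

namespace Pool.Agent.MP_06c78e_co.H40

open Real Function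

variable {X : Type}

/-- The vertices owned by centres in `M` lie in thin cones around the direction `c`, seen from the
right eye `g` and from the left eyes `o i`. -/
structure Eye (D : Drw X) (M : X → Prop) where
  c : ℝ
  g : Vx X
  o : Fin 3 → Vx X
  gM : ¬M g.1
  oM : ∀ i, ¬M (o i).1
  hg : ∀ y : Vx X, M y.1 → Near c (1 / 50) (D.p g - D.p y)
  ho : ∀ i (y : Vx X), M y.1 → Near c (1 / 50) (D.p y - D.p (o i))
  qo : ∀ a b, M a → 4 ≤ cnt D.tg a b → ∃ i, D.d (o i) b < D.d (o i) a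

theorem Dir.ip_right {z : ℂ} {μ : ℝ} (h : Dir z μ) (v : ℂ) : ip v z = ‖z‖ * ip v (uv μ) := by
  rw [ip, ip, h.1, h.2]; simp only [uv]; ring

theorem Near.ip_pos {c ε : ℝ} {v z : ℂ} (h : Near c ε z) (hz : z ≠ 0)
    (H : ∀ μ, |μ - c| ≤ ε → 0 < ip v (uv μ)) : 0 < ip v z := by
  obtain ⟨μ, h1, h2⟩ := h
  rw [h2.ip_right]
  exact mul_pos (norm_pos_iff.2 hz) (H μ h1)

theorem sq_norm_frame (v : ℂ) (a : ℝ) : ‖v‖ ^ 2 = ip v (uv (a - π / 2)) ^ 2 + ip v (uv a) ^ 2 := by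
  simp only [sq_norm, ip, uv, cos_sub_pi_div_two, sin_sub_pi_div_two]
  linear_combination (-(v.re ^ 2 + v.im ^ 2)) * sin_sq_add_cos_sq a

theorem ip_uv_frame (v : ℂ) (a e : ℝ) :
    ip v (uv (a + π + e)) = sin e * ip v (uv (a - π / 2)) - cos e * ip v (uv a) := by
  simp only [ip, uv, cos_sub_pi_div_two, sin_sub_pi_div_two, cos_add, sin_add, cos_pi, sin_pi]
  ring

theorem norm_le_thin {n x y : ℝ} (hn : 0 ≤ n) (h : n ^ 2 = x ^ 2 + y ^ 2) (hx : 0.99 * n ≤ x) :
    n ≤ x + 0.08 * |y| := by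
  have a1 : |y| ≤ 0.15 * x := abs_le_of_sq_le_sq' (by rw [sq_abs]; nlinarith) (by linarith) |>.2
  have a2 := abs_nonneg y
  refine abs_le_of_sq_le_sq' ?_ (by linarith) |>.2
  rw [h, ← sq_abs y]
  nlinarith

theorem norm_le_add {n x y : ℝ} (h : n ^ 2 = x ^ 2 + y ^ 2) (hx : 0 ≤ x) : n ≤ x + |y| := by
  have a2 := abs_nonneg y
  refine abs_le_of_sq_le_sq' ?_ (by linarith) |>.2
  rw [h, ← sq_abs y]
  nlinarith

theorem vert3 {c x y θ : ℝ} (b : x + π / 3 < y) (c1 : π / 2 - 1 / 50 ≤ |x - c|)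
    (c2 : |x - c| ≤ π / 2 + 1 / 50) (d1 : π / 2 - 1 / 50 ≤ |y - c|) (d2 : |y - c| ≤ π / 2 + 1 / 50)
    (a2 : π / 2 - 1 / 50 ≤ |θ - c|) (a3 : |θ - c| ≤ π / 2 + 1 / 50) (c3 : π / 3 < |x - θ|)
    (d3 : π / 3 < |y - θ|) : False := by
  have := pi_gt_three
  rw [abs_le] at c2 d2 a3
  have e1 : x < c ∧ c < y := by
    rcases le_abs.1 c1 with e | e <;> rcases le_abs.1 d1 with d | d <;> constructor <;> linarith
  rw [abs_of_neg (by linarith)] at c1
  rw [abs_of_pos (by linarith)] at d1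
  rcases le_abs.1 a2 with a | a
  · rcases lt_abs.1 d3 with d' | d' <;> linarith
  · rcases lt_abs.1 c3 with d' | d' <;> linarith

theorem mid4 {c u v w y : ℝ} (a1 : u + π / 3 < v) (a2 : v + π / 3 < w)
    (r0 : |u - c| ≤ π / 2 + 1 / 50) (r2 : |w - c| ≤ π / 2 + 1 / 50) (hr : |y - c| < π / 2 - 1 / 50)
    (f0 : π / 3 < |u - y|) (f1 : π / 3 < |v - y|) (f2 : π / 3 < |w - y|) :
    u + π / 3 < y ∧ y + π / 3 < w ∧ π / 2 - 1 / 50 ≤ |u - c| ∧ π / 2 - 1 / 50 ≤ |w - c| := by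
  rw [abs_le] at r0 r2
  rw [abs_lt] at hr
  have e1 : u + π / 3 < y := by rcases lt_abs.1 f0 with e | e <;> linarith
  have e2 : y + π / 3 < w := by rcases lt_abs.1 f2 with e | e <;> linarith
  refine ⟨e1, e2, le_abs.2 (Or.inr ?_), le_abs.2 (Or.inl ?_)⟩ <;>
    rcases lt_abs.1 f1 with e | e <;> linarith

theorem top3 {c y : ℝ} {u : Fin 3 → ℝ} (a1 : u 0 + π / 3 < u 1) (a2 : u 1 + π / 3 < u 2)
    (r0 : |u 0 - c| ≤ π / 2 + 1 / 50) (r2 : |u 2 - c| ≤ π / 2 + 1 / 50)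
    (hr : π / 2 - 1 / 50 ≤ |y - c|) (hl : |y - c| ≤ π / 2 + 1 / 50) (f0 : π / 3 < |u 0 - y|)
    (f2 : π / 3 < |u 2 - y|) : ∃ i, |u i - y| ≤ π / 3 + 1 / 25 ∧ |u i - c| ≤ π / 6 + 1 / 50 := by
  have := pi_gt_three
  rw [abs_le] at r0 r2 hl
  rcases le_abs.1 hr with e | e
  · have : u 2 + π / 3 < y := by rcases lt_abs.1 f2 with e | e <;> linarith
    exact ⟨2, abs_le.2 ⟨by linarith, by linarith⟩, abs_le.2 ⟨by linarith, by linarith⟩⟩
  · have : y + π / 3 < u 0 := by rcases lt_abs.1 f0 with e | e <;> linarith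
    exact ⟨0, abs_le.2 ⟨by linarith, by linarith⟩, abs_le.2 ⟨by linarith, by linarith⟩⟩

theorem cos_vert {c y μ : ℝ} (hr : π / 2 - 1 / 50 ≤ |y - c|) (hl : |y - c| ≤ π / 2 + 1 / 50)
    (hμ : |μ - c| ≤ 1 / 50) : cos (y - μ) ≤ 1 / 25 := by
  rw [abs_le] at hμ hl
  rcases le_abs.1 hr with e | e
  · simpa using cos_le_add (x := y - μ) (a := π / 2) (δ := 1 / 25)
      (abs_le.2 ⟨by linarith, by linarith⟩)
  · simpa using cos_le_add (x := y - μ) (a := -(π / 2)) (δ := 1 / 25)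
      (abs_le.2 ⟨by linarith, by linarith⟩)

theorem cos_small {x : ℝ} (h1 : -(1 / 25) ≤ x) (h2 : x ≤ 1 / 25) : 0.99 ≤ cos x := by
  have c4 := one_sub_sq_div_two_le_cos (x := x)
  have : x ^ 2 ≤ (1 / 25) ^ 2 := sq_le_sq' h1 h2
  linarith

/-- The angles of four spokes filling the left half plane. -/
theorem four {c : ℝ} {x : Fin 4 → ℝ} (k2 : ∀ i j, i < j → x i + π / 3 < x j)
    (k3 : c + π / 2 - 1 / 50 ≤ x 0) (k4 : x 3 ≤ c + 3 * π / 2 + 1 / 50) :
    |x 0 - π / 2 - c| ≤ 1 / 50 ∧ |x 0 - x 1| ≤ π / 3 + 1 / 25 ∧ |x 1 - x 2| ≤ π / 3 + 1 / 25 ∧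
      |x 3 - x 2| ≤ π / 3 + 1 / 25 ∧ 0 ≤ x 3 - x 0 - π ∧ x 3 - x 0 - π ≤ 1 / 25 ∧
      ∀ y, |y - c| < π / 6 + 1 / 50 → |x 1 - (y + π)| ≤ π / 3 ∨ |x 2 - (y + π)| ≤ π / 3 := by
  have x1 := k2 0 1 (by decide)
  have x2 := k2 1 2 (by decide)
  have x3 := k2 2 3 (by decide)
  have pi3 := pi_gt_three
  simp only [abs_le, abs_lt]
  refine ⟨⟨by linarith, by linarith⟩, ⟨by linarith, by linarith⟩, ⟨by linarith, by linarith⟩,
    ⟨by linarith, by linarith⟩, by linarith, by linarith, fun y hy => ?_⟩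
  rcases le_total y c with e | e
  · exact Or.inl ⟨by linarith, by linarith⟩
  · exact Or.inr ⟨by linarith, by linarith⟩

theorem strip_aux {s c X Y R R' d : ℝ} (hs : 0 ≤ s) (hc : 0.99 ≤ c) (hX : 0 ≤ X) (h1 : 2 * Y < R)
    (h2 : 2 * (s * X - c * Y) < R') (h3 : 0.84 * R ≤ d) (h4 : 0.84 * R' ≤ d) (h5 : 0 ≤ d) :
    |Y| ≤ 0.61 * d := by
  refine abs_le.2 ⟨?_, by linarith⟩
  by_contra c6
  have := mul_nonneg hs hX
  have := mul_le_mul_of_nonneg_right hc (show 0 ≤ -Y by linarith)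
  linarith

/-- Spokes of `a` pointing to `b`, sorted by their angles. -/
theorem Drw.sorted (D : Drw X) {a b : X} {n : ℕ} (h : n ≤ cnt D.tg a b) (c : ℝ) :
    ∃ (k : Fin n → Fin 5) (x : Fin n → ℝ), (∀ i, D.tg a (k i) = b ∧ c - π < x i ∧ x i ≤ c + π ∧
      Dir (D.s a (k i) - D.c a) (x i)) ∧ ∀ i j, i < j → x i + π / 3 < x j := by
  classical
  choose f h1 h2 h3 using fun k => exists_dir (D.s a k - D.c a) c
  obtain ⟨S, hS, hn⟩ := Finset.exists_subset_card_eq h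
  obtain ⟨k, a1, -, a2⟩ := H40.sorted S n hn f (π / 3)
    (fun i _ j _ hij => (D.far_spokes a hij).lt_abs (h3 i) (h3 j))
  exact ⟨k, fun i => f (k i), fun i => ⟨by simpa using hS (a1 i), h1 _, h2 _, h3 _⟩, a2⟩

theorem Drw.ex_dir (D : Drw X) (a : X) (c : ℝ) :
    ∃ k y, |y - c| ≤ π / 3 ∧ Dir (D.s a k - D.c a) y := by
  obtain ⟨k, hk⟩ := D.cover a (uv c)
  exact ⟨k, dir_of_not_far (uv_ne c) (D.v_ne a k) (fun h => hk h.symm) (dir_uv c)⟩

namespace Eye

variable {D : Drw X} {M : X → Prop} (E : Eye D M)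

/-- Distance to the right eye. -/
noncomputable abbrev dg (a : X) : ℝ := D.d E.g a

theorem g_ne {a : X} (h : M a) : E.g.1 ≠ a := fun e => E.gM (e ▸ h)
theorem o_ne (i : Fin 3) {a : X} (h : M a) : (E.o i).1 ≠ a := fun e => E.oM i (e ▸ h)

theorem right0 {y y' : Vx X} (hy : M y.1) (hy' : M y'.1)
    (H : ∀ μ, |μ - E.c| ≤ 1 / 50 → 0 < ip (D.p y' - D.p y) (uv μ)) :
    dist (D.p E.g) (D.p y') < dist (D.p E.g) (D.p y) ∧
      ∀ i, dist (D.p (E.o i)) (D.p y) < dist (D.p (E.o i)) (D.p y') := by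
  refine ⟨?_, fun i => ?_⟩
  · rw [closer_iff_sum]
    exact add_pos ((E.hg y hy).ip_pos (D.sub_ne (E.g_ne hy)) H)
      ((E.hg y' hy').ip_pos (D.sub_ne (E.g_ne hy')) H)
  · rw [closer_iff_sum, ← neg_sub (D.p y') (D.p y), ← neg_sub (D.p y') (D.p (E.o i)),
      ← neg_sub (D.p y) (D.p (E.o i)), ip_neg_left, ip_neg_left, ip_neg_right, ip_neg_right,
      neg_neg, neg_neg]
    exact add_pos ((E.ho i y' hy').ip_pos (D.sub_ne (E.o_ne i hy').symm) H)
      ((E.ho i y hy).ip_pos (D.sub_ne (E.o_ne i hy).symm) H)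

/-- A step to the right approaches the right eye and leaves the left eyes. -/
theorem right {y y' : Vx X} (hy : M y.1) (hy' : M y'.1) (hne : y' ≠ y) {θ : ℝ}
    (hθ : Dir (D.p y' - D.p y) θ) (h : |θ - E.c| < π / 2 - 1 / 50) :
    dist (D.p E.g) (D.p y') < dist (D.p E.g) (D.p y) ∧
      ∀ i, dist (D.p (E.o i)) (D.p y) < dist (D.p (E.o i)) (D.p y') :=
  E.right0 hy hy' fun μ hμ => by
    rw [hθ.ip_uv]
    refine mul_pos (norm_pos_iff.2 (sub_ne_zero.2 (D.inj.ne hne))) (cos_pos_abs ?_)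
    rw [abs_lt, abs_le] at *
    constructor <;> linarith

theorem left {y y' : Vx X} (hy : M y.1) (hy' : M y'.1) (hne : y' ≠ y) {θ : ℝ}
    (hθ : Dir (D.p y' - D.p y) θ) (h1 : |θ - E.c| ≤ π) (h : π / 2 + 1 / 50 < |θ - E.c|) :
    dist (D.p E.g) (D.p y) < dist (D.p E.g) (D.p y') ∧
      ∀ i, dist (D.p (E.o i)) (D.p y') < dist (D.p (E.o i)) (D.p y) := by
  rw [abs_le] at h1
  rcases lt_abs.1 h with h | h
  · exact E.right hy' hy hne.symm hθ.swap_sub (abs_lt.2 ⟨by linarith, by linarith [pi_gt_three]⟩)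
  · exact E.right hy' hy hne.symm hθ.swap_add (abs_lt.2 ⟨by linarith [pi_gt_three], by linarith⟩)

theorem ul_g {a : X} (ha : M a) {k : Fin 5} (h : D.Ul a k E.g) {θ : ℝ}
    (hθ : Dir (D.s a k - D.c a) θ) : π / 2 - 1 / 50 ≤ |θ - E.c| := by
  by_contra h'
  exact absurd (E.right (y := (a, none)) (y' := (a, some k)) ha ha (by simp) hθ (not_le.1 h')).1
    (not_lt.2 (h.lt (E.g_ne ha)).le)

theorem ul_o {a : X} (ha : M a) {k : Fin 5} {i : Fin 3} (h : D.Ul a k (E.o i)) {θ : ℝ}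
    (hθ : Dir (D.s a k - D.c a) θ) (h1 : |θ - E.c| ≤ π) : |θ - E.c| ≤ π / 2 + 1 / 50 := by
  by_contra h'
  exact absurd ((E.left (y := (a, none)) (y' := (a, some k)) ha ha (by simp) hθ h1
    (not_le.1 h')).2 i) (not_lt.2 (h.lt (E.o_ne i ha)).le)

theorem ex_right {a : X} (ha : M a) : ∃ k, E.dg (D.tg a k) < E.dg a := D.step (E.g_ne ha)

/-- A centre which is closer to both eyes lies almost vertically above or below. -/
theorem vert {a b : X} (ha : M a) (hb : M b) (hne : b ≠ a) {i : Fin 3} (h1 : E.dg b ≤ E.dg a)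
    (h2 : D.d (E.o i) b ≤ D.d (E.o i) a) : ∃ θ, Dir (D.c b - D.c a) θ ∧
      π / 2 - 1 / 50 ≤ |θ - E.c| ∧ |θ - E.c| ≤ π / 2 + 1 / 50 := by
  obtain ⟨θ, a1, a2, a3⟩ := exists_dir (D.c b - D.c a) E.c
  refine ⟨θ, a3, ?_, ?_⟩ <;> by_contra h
  · exact absurd ((E.right (y := (a, none)) (y' := (b, none)) ha hb (by simpa using hne) a3
      (not_le.1 h)).2 i) (not_lt.2 h2)
  · exact absurd (E.left (y := (a, none)) (y' := (b, none)) ha hb (by simpa using hne) a3
      (abs_le.2 ⟨by linarith, by linarith⟩) (not_le.1 h)).1 (not_lt.2 h1)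

/-- In a pair of type `(4, 3)` the centre with four arcs is the right one. -/
theorem p4 {a b : X} (ha : M a) (hb : M b) (h4 : 4 ≤ cnt D.tg a b) (h3 : 3 ≤ cnt D.tg b a) :
    E.dg a < E.dg b := by
  by_contra h
  obtain ⟨i, hi⟩ := E.qo a b ha h4
  obtain ⟨k, x, h1, h2⟩ := D.sorted h3 E.c
  have v : ∀ j, π / 2 - 1 / 50 ≤ |x j - E.c| ∧ |x j - E.c| ≤ π / 2 + 1 / 50 := fun j => by
    obtain ⟨a1, a2, a3, a4⟩ := h1 j
    exact ⟨E.ul_g hb (by rw [Drw.Ul, a1]; exact not_lt.1 h) a4,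
      E.ul_o hb (i := i) (by rw [Drw.Ul, a1]; exact hi.le) a4 (abs_le.2 ⟨by linarith, by linarith⟩)⟩
  have b1 := h2 0 1 (by decide)
  have b2 := h2 1 2 (by decide)
  obtain ⟨c1, c2⟩ := v 1
  have c3 := abs_le.1 (v 0).2
  have c4 := abs_le.1 (v 2).2
  rcases le_abs.1 c1 with c | c <;> linarith [pi_gt_three]

include E in
/-- A pair of type `(5, 2)` with the three other arcs going to one centre is impossible. -/
theorem de {P Q b : X} (hQ : M Q) (hb : M b) (h5 : 5 ≤ cnt D.tg P Q) (hP : M P)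
    (h2 : 2 ≤ cnt D.tg Q P) (h3 : 3 ≤ cnt D.tg Q b) (hbP : b ≠ P) : False := by
  have u : ∀ t : Vx X, t.1 ≠ P → D.d t Q < D.d t P := fun t ht => by
    obtain ⟨k, hk⟩ := D.step ht
    rwa [cnt_five h5] at hk
  have two := cnt_two hbP.symm (by omega : 5 ≤ cnt D.tg Q P + cnt D.tg Q b)
  have w : ∀ t : Vx X, t.1 ≠ P → t.1 ≠ Q → D.d t b < D.d t Q := fun t ht ht' => by
    obtain ⟨k, hk⟩ := D.step ht'
    rcases two k with e | e <;> rw [e] at hk
    · exact absurd hk (not_lt.2 (u t ht).le)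
    · exact hk
  have hbQ : b ≠ Q := by
    obtain ⟨k, hk⟩ := cnt_pos.1 (show 0 < cnt D.tg Q b by omega)
    exact hk ▸ D.ne Q k
  obtain ⟨θ, a1, a2, a3⟩ := E.vert hQ hb hbQ (i := 0) (w _ (E.g_ne hP) (E.g_ne hQ)).le
    (w _ (E.o_ne 0 hP) (E.o_ne 0 hQ)).le
  obtain ⟨k, x, h1, h2⟩ := D.sorted h2 E.c
  have v : ∀ j, π / 2 - 1 / 50 ≤ |x j - E.c| ∧ |x j - E.c| ≤ π / 2 + 1 / 50 ∧ π / 3 < |x j - θ| :=
    fun j => by
    obtain ⟨b1, b2, b3, b4⟩ := h1 j
    have : ∀ t : Vx X, t.1 ≠ P → D.Ul Q (k j) t := fun t ht => by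
      rw [Drw.Ul, b1]; exact (u t ht).le
    exact ⟨E.ul_g hQ (this _ (E.g_ne hP)) b4,
      E.ul_o hQ (this _ (E.o_ne 0 hP)) b4 (abs_le.2 ⟨by linarith, by linarith⟩),
      ((this (b, none) hbP).far hbQ).lt_abs b4 a1⟩
  exact vert3 (h2 0 1 (by decide)) (v 0).1 (v 0).2.1 (v 1).1 (v 1).2.1 a2 a3 (v 0).2.2 (v 1).2.2

end Eye

/-- A forward pair: `Q` sends four arcs to `P` and one to `fw`, `P` sends three arcs to `Q` and two
to `bk`. -/
structure FP (D : Drw X) (M : X → Prop) (P Q bk fw : X) : Prop where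
  mP : M P
  mQ : M Q
  mb : M bk
  c4 : 4 ≤ cnt D.tg Q P
  c1 : 1 ≤ cnt D.tg Q fw
  c3 : 3 ≤ cnt D.tg P Q
  c2 : 2 ≤ cnt D.tg P bk
  nb : bk ≠ Q
  nf : fw ≠ P

namespace FP

variable {D : Drw X} {M : X → Prop} (E : Eye D M) {P Q bk fw : X} (h : FP D M P Q bk fw)
include h

theorem ne : P ≠ Q := by
  obtain ⟨k, hk⟩ := cnt_pos.1 (show 0 < cnt D.tg Q P by have := h.c4; omega)
  exact hk ▸ D.ne Q k

theorem bk_ne : bk ≠ P := by
  obtain ⟨k, hk⟩ := cnt_pos.1 (show 0 < cnt D.tg P bk by have := h.c2; omega)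
  exact hk ▸ D.ne P k

theorem dg_lt : E.dg Q < E.dg P := E.p4 h.mQ h.mP h.c4 h.c3

/-- The four spokes from `Q` to `P`. -/
theorem q4 : ∃ (k : Fin 4 → Fin 5) (x : Fin 4 → ℝ),
    (∀ i, D.tg Q (k i) = P ∧ Dir (D.s Q (k i) - D.c Q) (x i)) ∧
    (∀ i j, i < j → x i + π / 3 < x j) ∧ E.c + π / 2 - 1 / 50 ≤ x 0 ∧
    x 3 ≤ E.c + 3 * π / 2 + 1 / 50 := by
  obtain ⟨k, x, h1, h2⟩ := D.sorted h.c4 (E.c + π)
  have u : ∀ i, D.Ul Q (k i) E.g := fun i => by rw [Drw.Ul, (h1 i).1]; exact (h.dg_lt E).le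
  refine ⟨k, x, fun i => ⟨(h1 i).1, (h1 i).2.2.2⟩, h2, ?_, ?_⟩
  · have := E.ul_g h.mQ (u 0) (h1 0).2.2.2
    rw [abs_of_pos (by linarith [(h1 0).2.1])] at this
    linarith
  · have := E.ul_g h.mQ (u 3) (h1 3).2.2.2.sub_two_pi
    rw [abs_of_nonpos (by linarith [(h1 3).2.2.1])] at this
    linarith

theorem do_lt (i : Fin 3) : D.d (E.o i) P < D.d (E.o i) Q := by
  obtain ⟨k, x, h1, h2, h3, h4⟩ := h.q4 E
  have a1 := h2 0 1 (by decide)
  have a2 := h2 1 2 (by decide)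
  have a3 := h2 2 3 (by decide)
  have := (E.left (y := (Q, none)) (y' := (Q, some (k 1))) h.mQ h.mQ (by simp) (h1 1).2
    (abs_le.2 ⟨by linarith [pi_gt_three], by linarith [pi_gt_three]⟩)
    (lt_abs.2 (Or.inl (by linarith [pi_gt_three])))).2 i
  rw [← (h1 1).1]
  exact D.useful_of_le (E.o_ne i h.mQ) this.le

/-- Targets on the side of `Q` lie in the pocket of `Q`. -/
theorem pocket {t : Vx X} (ht : t.1 ≠ Q) (hd : D.d t Q ≤ D.d t P) :
    ∃ y, |y - E.c| < π / 6 + 1 / 50 ∧ Dir (D.p t - D.c Q) y := by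
  obtain ⟨k, x, h1, h2, h3, h4⟩ := h.q4 E
  have a1 := h2 0 1 (by decide)
  have a2 := h2 1 2 (by decide)
  have a3 := h2 2 3 (by decide)
  obtain ⟨y, b1, b2, b3⟩ := exists_dir (D.p t - D.c Q) E.c
  have f : ∀ i, Far (D.s Q (k i) - D.c Q) (D.p t - D.c Q) := fun i =>
    Drw.Ul.far (by rw [Drw.Ul, (h1 i).1]; exact hd) ht
  have c0 := (f 0).lt_abs (h1 0).2 b3
  have c1 := (f 1).lt_abs (h1 1).2 b3
  have c2 := (f 2).lt_abs (h1 2).2.sub_two_pi b3
  have c3 := (f 3).lt_abs (h1 3).2.sub_two_pi b3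
  refine ⟨y, abs_lt.2 ⟨?_, ?_⟩, b3⟩
  · rcases lt_abs.1 c2 with c | c <;> rcases lt_abs.1 c3 with d | d <;> linarith [pi_gt_three]
  · rcases lt_abs.1 c0 with c | c <;> rcases lt_abs.1 c1 with d | d <;> linarith [pi_gt_three]

theorem of_right {x : X} (hx : M x) (hQ : x ≠ Q) (hd : D.d (x, none) Q ≤ D.d (x, none) P) :
    E.dg x < E.dg Q ∧ ∀ i, D.d (E.o i) Q < D.d (E.o i) x := by
  obtain ⟨y, a1, a2⟩ := h.pocket E (t := (x, none)) hQ hd
  exact E.right (y := (Q, none)) (y' := (x, none)) h.mQ hx (by simpa using hQ) a2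
    (by linarith [pi_gt_three])

theorem two (k : Fin 5) : D.tg P k = Q ∨ D.tg P k = bk :=
  cnt_two h.nb.symm (by have := h.c3; have := h.c2; omega) k

theorem two' (k : Fin 5) : D.tg Q k = P ∨ D.tg Q k = fw :=
  cnt_two h.nf.symm (by have := h.c4; have := h.c1; omega) k

theorem left_step {t : Vx X} (ht : t.1 ≠ P) (hd : D.d t P ≤ D.d t Q) : D.d t bk < D.d t P := by
  obtain ⟨k, hk⟩ := D.step ht
  rcases h.two k with e | e <;> rw [e] at hk
  · exact absurd hk (not_lt.2 hd)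
  · exact hk

theorem right_step {t : Vx X} (ht : t.1 ≠ Q) (hd : D.d t Q ≤ D.d t P) : D.d t fw < D.d t Q := by
  obtain ⟨k, hk⟩ := D.step ht
  rcases h.two' k with e | e <;> rw [e] at hk
  · exact absurd hk (not_lt.2 hd)
  · exact hk

theorem dg_fw : E.dg fw < E.dg Q := h.right_step (E.g_ne h.mQ) (h.dg_lt E).le

include E in
theorem bk_left : D.d (bk, none) P < D.d (bk, none) Q := by
  by_contra hd
  have a1 := (h.of_right E h.mb h.nb (not_lt.1 hd)).2 0
  have a2 := h.do_lt E 0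
  have a3 := h.left_step (E.o_ne 0 h.mP) a2.le
  linarith

/-- Centres on the side of `P` are farther from the right eye than `Q`. -/
theorem of_left {t : X} (ht : M t) (hP : t ≠ P) (hd : D.d (t, none) P ≤ D.d (t, none) Q) :
    E.dg Q < E.dg t := by
  obtain ⟨k, u, h1, h2⟩ := D.sorted h.c3 E.c
  have pi3 := pi_gt_three
  have ul : ∀ i (t : Vx X), D.d t P ≤ D.d t Q → D.Ul P (k i) t := fun i t ht => by
    rw [Drw.Ul, (h1 i).1]; exact ht
  have r : ∀ i, |u i - E.c| ≤ π / 2 + 1 / 50 := fun i => E.ul_o h.mP (ul i _ (h.do_lt E 0).le)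
    (h1 i).2.2.2 (abs_le.2 ⟨by linarith [(h1 i).2.1], by linarith [(h1 i).2.2.1]⟩)
  have a1 := h2 0 1 (by decide)
  have a2 := h2 1 2 (by decide)
  obtain ⟨y, b1, b2, b3⟩ := exists_dir (D.c t - D.c P) E.c
  have f : ∀ i, π / 3 < |u i - y| := fun i => ((ul i _ hd).far hP).lt_abs (h1 i).2.2.2 b3
  by_cases hl : π / 2 + 1 / 50 < |y - E.c|
  · exact (h.dg_lt E).trans (E.left (y := (P, none)) (y' := (t, none)) h.mP ht (by simpa using hP)
      b3 (abs_le.2 ⟨by linarith only [b1], by linarith only [b2]⟩) hl).1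
  rw [not_lt] at hl
  by_cases hr : |y - E.c| < π / 2 - 1 / 50
  · exfalso
    obtain ⟨c1, c2, c3, c4⟩ := mid4 a1 a2 (r 0) (r 2) hr (f 0) (f 1) (f 2)
    obtain ⟨m, hm⟩ := D.cover P (D.c t - D.c P)
    obtain ⟨β, d1, d2⟩ := dir_of_not_far (D.sub_ne (t := (t, none)) (u := (P, none)) hP)
      (D.v_ne P m) (fun h => hm h.symm) b3
    have hm' : D.tg P m = bk := (h.two m).resolve_left fun e =>
      hm (Drw.Ul.far (t := (t, none)) (by rw [Drw.Ul, e]; exact hd) hP)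
    have ne : ∀ i, k i ≠ m := fun i e => h.nb (by rw [← hm', ← e, (h1 i).1])
    have e0 := (D.far_spokes P (ne 0)).lt_abs (h1 0).2.2.2 d2
    have e2 := (D.far_spokes P (ne 2)).lt_abs (h1 2).2.2.2 d2
    have r0 := abs_le.1 (r 0)
    have r2 := abs_le.1 (r 2)
    rw [abs_le] at d1
    rw [abs_of_neg (by linarith only [d1.1, c1])] at e0
    rw [abs_of_pos (by linarith only [d1.2, c2])] at e2
    have g1 := D.useful_of_le (E.g_ne h.mP) (E.right (y := (P, none)) (y' := (P, some m)) h.mP h.mP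
      (by simp) d2 (abs_lt.2 ⟨by linarith only [e0, r0.1, pi3],
        by linarith only [e2, r2.2, pi3]⟩)).1.le
    rw [hm'] at g1
    obtain ⟨θ, g2, g3, g4⟩ := E.vert h.mP h.mb h.bk_ne (i := 0) g1.le
      (h.left_step (E.o_ne 0 h.mP) (h.do_lt E 0).le).le
    exact vert3 (h2 0 2 (by decide)) c3 (r 0) c4 (r 2) g3 g4
      (((ul 0 _ (h.bk_left E).le).far h.bk_ne).lt_abs (h1 0).2.2.2 g2)
      (((ul 2 _ (h.bk_left E).le).far h.bk_ne).lt_abs (h1 2).2.2.2 g2)
  · rw [not_lt] at hr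
    obtain ⟨i, c1, c2⟩ := top3 a1 a2 (r 0) (r 2) hr hl (f 0) (f 2)
    have hv := (h1 i).2.2.2
    have d1 := (ul i _ hd).lt hP
    rw [closer_iff, b3.ip_eq hv, ← cos_neg, neg_sub] at d1
    have d2 := cos_ge_third (by norm_num) (by norm_num) c1
    have p1 : 0 < ‖D.s P (k i) - D.c P‖ := norm_pos_iff.2 (D.v_ne _ _)
    have p2 := norm_nonneg (D.c t - D.c P)
    have d3 : 0.92 * ‖D.c t - D.c P‖ < ‖D.s P (k i) - D.c P‖ :=
      lt_of_mul_lt_mul_left (by
        have := mul_le_mul_of_nonneg_left d2 (mul_nonneg p2 p1.le)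
        linarith only [this, d1]) p1.le
    have g1 := (E.right (y := (P, none)) (y' := (P, some (k i))) h.mP h.mP (by simp) hv
      (by linarith only [c2, pi3])).1
    have g2 := (D.n2 P (k i) E.g (Drw.ne_of_fst (E.g_ne h.mP) _)).resolve_left (not_lt.2 g1.le)
    rw [(h1 i).1] at g2
    refine g2.trans (E.right0 (y := (t, none)) (y' := (P, some (k i))) ht h.mP fun μ hμ => ?_).1
    rw [show D.s P (k i) - D.c t = (D.s P (k i) - D.c P) - (D.c t - D.c P) by ring, ip_sub_left,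
      hv.ip_uv, b3.ip_uv]
    have e1 := cos_ge_sixth (x := u i - μ) (δ := 1 / 25) (by norm_num) (by norm_num) (by
      have := abs_sub_le (u i) E.c μ
      rw [abs_sub_comm E.c] at this
      linarith only [this, c2, hμ])
    have e2 := mul_le_mul_of_nonneg_left (cos_vert hr hl hμ) p2
    have e3 := mul_le_mul_of_nonneg_left e1 p1.le
    linarith only [e2, e3, d3, p2]

theorem dg_bk : E.dg Q < E.dg bk := h.of_left E h.mb h.bk_ne (h.bk_left E).le

theorem side_left {t : X} (ht : M t) (hQ : t ≠ Q) (hd : E.dg Q ≤ E.dg t) :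
    D.d (t, none) P < D.d (t, none) Q := by
  by_contra h'
  exact absurd (h.of_right E ht hQ (not_lt.1 h')).1 (not_lt.2 hd)

theorem side_right {t : X} (ht : M t) (hd : E.dg t ≤ E.dg Q) :
    D.d (t, none) Q < D.d (t, none) P := by
  by_contra h'
  exact absurd (h.of_left E ht (fun e => by rw [e] at hd; linarith [h.dg_lt E]) (not_lt.1 h'))
    (not_lt.2 hd)

theorem dg_ne {t : X} (ht : M t) (hQ : t ≠ Q) : E.dg t ≠ E.dg Q := fun e =>
  lt_asymm (h.side_left E ht hQ e.ge) (h.side_right E ht e.le)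

theorem pocket' {t : X} (ht : M t) (hd : E.dg t < E.dg Q) :
    ∃ y, |y - E.c| < π / 6 + 1 / 50 ∧ Dir (D.c t - D.c Q) y :=
  h.pocket E (t := (t, none)) (fun e => by simp only at e; rw [e] at hd; exact lt_irrefl _ hd)
    (h.side_right E ht hd.le).le

variable {P' Q' bk' fw' : X} (h' : FP D M P' Q' bk' fw')
include h'

/-- Seen from `Q`, everything beyond a later pair is farther away than that pair. -/
theorem obtuse (h1 : E.dg Q' < E.dg Q) {x : X} (hx : M x) (h2 : E.dg x < E.dg Q') :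
    D.d (Q, none) Q' < D.d (Q, none) x := by
  obtain ⟨y, a1, a2⟩ := h.pocket' E h'.mQ h1
  obtain ⟨y', b1, b2⟩ := h'.pocket' E hx h2
  have c1 := cos_pos_abs (x := y' - y) (by
    rw [abs_lt] at *; constructor <;> linarith [pi_gt_three])
  have c2 : 0 < ‖D.c x - D.c Q'‖ := norm_pos_iff.2 (sub_ne_zero.2 fun e => by
    rw [Eye.dg, Eye.dg, Drw.d, Drw.d, e] at h2; exact lt_irrefl _ h2)
  rw [Drw.d, Drw.d, dist_comm, dist_comm _ (D.c x), dist_lt_iff_sq,
    show D.c x - D.c Q = (D.c x - D.c Q') + (D.c Q' - D.c Q) by ring, sq_norm_add, b2.ip_eq a2]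
  have := norm_nonneg (D.c Q' - D.c Q)
  have : 0 ≤ ‖D.c x - D.c Q'‖ * ‖D.c Q' - D.c Q‖ * cos (y' - y) := by positivity
  nlinarith

/-- The detour over `Q'` is shorter than the distance from the earlier `Q`. -/
theorem detour (h1 : E.dg Q' < E.dg Q) {t : X} (ht : M t) (h2 : E.dg t < E.dg Q') :
    D.d (t, none) Q' + E.dg t ≤ E.dg Q := by
  obtain ⟨y, a1, a2⟩ := h.pocket' E h'.mQ h1
  obtain ⟨y', b1, b2⟩ := h'.pocket' E ht h2
  obtain ⟨k, x, k1, k2, k3, k4⟩ := h'.q4 E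
  obtain ⟨x0, x1, x2, x3, x4, x5, x6⟩ := four k2 k3 k4
  have pi3 := pi_gt_three
  have pi4 := pi_lt_four
  have len : ∀ i j, i ≠ j → |x i - x j| ≤ π / 3 + 1 / 25 →
      0.92 * ‖D.s Q' (k i) - D.c Q'‖ ≤ ‖D.s Q' (k j) - D.c Q'‖ := fun i j hij hx => by
    have c1 : k j ≠ k i := fun e => by
      have := (k1 i).2.eq_of_lt (D.v_ne _ _) (e ▸ (k1 j).2) (by linarith only [hx, pi3])
      rcases lt_or_gt_of_ne hij with e | e <;> linarith only [k2 _ _ e, this, pi3]
    have c2 := D.len_ge (t := (Q', some (k j))) (by simpa using c1) (by simp) (k1 i).2 (k1 j).2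
    have c3 := mul_le_mul_of_nonneg_right (cos_ge_third (by norm_num) (by norm_num) hx)
      (norm_nonneg (D.s Q' (k i) - D.c Q'))
    linarith only [c2, c3]
  have l1 := len 0 1 (by decide) x1
  have l2 := len 1 2 (by decide) x2
  have l3 := len 2 1 (by decide) (by rwa [abs_sub_comm])
  have l4 := len 3 2 (by decide) x3
  have nQ : Q ≠ Q' := fun e => by rw [e] at h1; exact lt_irrefl _ h1
  have nt : t ≠ Q' := fun e => by rw [e] at h2; exact lt_irrefl _ h2
  have l5 : ∀ i, |x i - (y + π)| ≤ π / 3 → ‖D.s Q' (k i) - D.c Q'‖ ≤ ‖D.c Q' - D.c Q‖ :=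
    fun i hx => by
    have c2 := D.len_ge (t := (Q, none)) (by simp) (by simpa using nQ) (k1 i).2 a2.swap_add
    have c3 := mul_le_mul_of_nonneg_right (half_le_cos hx) (norm_nonneg (D.s Q' (k i) - D.c Q'))
    rw [norm_sub_rev (D.c Q') (D.c Q)]
    linarith only [c2, c3]
  have p0 := norm_nonneg (D.s Q' (k 0) - D.c Q')
  have p3 := norm_nonneg (D.s Q' (k 3) - D.c Q')
  have pd := norm_nonneg (D.c Q' - D.c Q)
  have l6 : 0.84 * ‖D.s Q' (k 0) - D.c Q'‖ ≤ ‖D.c Q' - D.c Q‖ ∧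
      0.84 * ‖D.s Q' (k 3) - D.c Q'‖ ≤ ‖D.c Q' - D.c Q‖ := by
    rcases x6 y a1 with e | e <;> constructor <;> linarith only [l5 _ e, l1, l2, l3, l4, p0, p3]
  have ang : ∀ θ δ, |θ - E.c| ≤ δ → |θ - (x 0 - π / 2)| ≤ δ + 1 / 50 := fun θ δ hθ => by
    have := abs_sub_le θ E.c (x 0 - π / 2)
    rw [abs_sub_comm E.c] at this
    linarith only [this, hθ, x0]
  have strip : ∀ (v : Vx X) (θ : ℝ), v.1 ≠ Q' → D.d v Q' ≤ D.d v P' → Dir (D.p v - D.c Q') θ →
      |θ - E.c| ≤ 1 → 0 ≤ ip (D.p v - D.c Q') (uv (x 0 - π / 2)) ∧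
        |ip (D.p v - D.c Q') (uv (x 0))| ≤ 0.61 * ‖D.c Q' - D.c Q‖ := by
    intro v θ hv hd hθ hc
    have c0 : 0 ≤ ip (D.p v - D.c Q') (uv (x 0 - π / 2)) := by
      rw [hθ.ip_uv]
      exact mul_nonneg (norm_nonneg _) (cos_nonneg_abs (by linarith only [ang _ _ hc, pi3]))
    have u : ∀ i, 2 * ip (D.p v - D.c Q') (uv (x i)) < ‖D.s Q' (k i) - D.c Q'‖ := fun i => by
      have := Drw.Ul.lt (k := k i) (by rw [Drw.Ul, (k1 i).1]; exact hd) hv
      rw [closer_iff, (k1 i).2.ip_right] at this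
      exact lt_of_mul_lt_mul_left (by linarith only [this]) (norm_nonneg (D.s Q' (k i) - D.c Q'))
    have c2 := u 3
    rw [show x 3 = x 0 + π + (x 3 - x 0 - π) by ring, ip_uv_frame] at c2
    exact ⟨c0, strip_aux (sin_nonneg_of_nonneg_of_le_pi x4 (by linarith only [x5, pi3]))
      (cos_small (by linarith only [x4]) x5) c0 (u 0) c2 l6.1 l6.2 pd⟩
  obtain ⟨θ, d1, d2⟩ := E.hg (Q', none) h'.mQ
  obtain ⟨θ', e1, e2⟩ := E.hg (t, none) ht
  obtain ⟨-, s2⟩ := strip E.g θ (E.g_ne h'.mQ) (h'.dg_lt E).le d2 (by linarith only [d1])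
  obtain ⟨s3, s4⟩ := strip (t, none) y' nt (h'.side_right E ht h2.le).le b2
    (by linarith only [b1, pi4])
  have f1 := norm_le_add (sq_norm_frame (D.c t - D.c Q') (x 0)) s3
  have f2 := norm_le_thin (norm_nonneg _) (sq_norm_frame (D.p E.g - D.c t) (x 0)) (by
    have := abs_le.1 (ang _ _ e1)
    rw [e2.ip_uv, mul_comm]
    exact mul_le_mul_of_nonneg_left (cos_small (by linarith only [this.1])
      (by linarith only [this.2])) (norm_nonneg _))
  have f3 := ip_uv_le (D.p E.g - D.c Q) (x 0 - π / 2)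
  have f4 := mul_le_mul_of_nonneg_left (cos_ge_sixth (x := y - (x 0 - π / 2)) (δ := 1 / 25)
    (by norm_num) (by norm_num) (by linarith only [ang _ _ a1.le])) pd
  rw [← a2.ip_uv] at f4
  have f5 : |ip (D.p E.g - D.c t) (uv (x 0))| ≤ 1.22 * ‖D.c Q' - D.c Q‖ := by
    rw [show D.p E.g - D.c t = (D.p E.g - D.c Q') - (D.c t - D.c Q') by ring, ip_sub_left]
    linarith only [abs_sub (ip (D.p E.g - D.c Q') (uv (x 0))) (ip (D.c t - D.c Q') (uv (x 0))),
      s2, s4]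
  have f6 : ip (D.p E.g - D.c Q) (uv (x 0 - π / 2)) = ip (D.p E.g - D.c t) (uv (x 0 - π / 2)) +
      ip (D.c t - D.c Q') (uv (x 0 - π / 2)) + ip (D.c Q' - D.c Q) (uv (x 0 - π / 2)) := by
    rw [← ip_add_left, ← ip_add_left]; congr 1; ring
  simp only [Eye.dg, Drw.d, dist_eq_norm]
  linarith only [f1, f2, f3, f4, f5, f6, s4, pd]

theorem beyond (h1 : E.dg Q' < E.dg Q) {t : X} (ht : M t) (h2 : E.dg t < E.dg Q') {x : X}
    (hx : E.dg Q ≤ E.dg x) : D.d (t, none) Q' ≤ D.d (t, none) x := by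
  have a1 := h.detour E h' h1 ht h2
  have a2 := dist_triangle (D.p E.g) (D.c t) (D.c x)
  simp only [Eye.dg, Drw.d] at *
  linarith

end FP

end Pool.Agent.MP_06c78e_co.H40

end

-- part MP_06c78e_co.H40.No
section

namespace Pool.Agent.MP_06c78e_co.H40

section

/-! A core seen from two eyes: the order of the pairs gives a Hamiltonian path. -/

open Function

/-- The combinatorial heart, for blocks whose pairs are all oriented forwards. -/
theorem hp_of_pairs {X B : Type} [Finite X] [Finite B] (G : DG B) {D : Drw X} {M : X → Prop}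
    (E : Eye D M) (C : B → Fin 11 → X) (hC : ∀ b m b' m', C b m = C b' m' → b = b' ∧ m = m')
    (hM : ∀ b m, M (C b m))
    (pA : ∀ b, FP D M (C b 3) (C b 4) (C b 0) (C b 5))
    (pB : ∀ b, FP D M (C b 5) (C b 6) (C b 4) (C b 7))
    (pV : ∀ b, FP D M (C b 8) (C b 9) (C b 7) (C b 10))
    (hs : ∀ u, E.dg (C G.snk 9) ≤ E.dg (C u 9))
    (hz : ∀ b j, D.tg (C b 7) j = C b 6 ∨ (∃ v, D.tg (C b 7) j = C v 7) ∨
      (b = G.snk ∧ D.tg (C b 7) j = C b 8))
    (hx : ∀ u c j, u ≠ G.snk → (D.tg c j = C u 8 ∨ D.tg c j = C u 9 ∨ D.tg c j = C u 10) →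
      c = C u 8 ∨ c = C u 9 ∨ c = C u 10 ∨ ∃ T, c = C (G.s T u) 0) : G.HP := by
  classical
  have ne : ∀ {b m b' m'}, b ≠ b' ∨ m ≠ m' → C b m ≠ C b' m' := fun h e => by
    have := hC _ _ _ _ e; tauto
  have ba : ∀ v, E.dg (C v 6) < E.dg (C v 4) := fun v => ((pB v).dg_lt E).trans ((pA v).dg_fw E)
  have gb : ∀ v, E.dg (C v 9) < E.dg (C v 6) := fun v => ((pV v).dg_bk E).trans ((pB v).dg_fw E)
  have btw : ∀ v c, M c → E.dg (C v 6) ≤ E.dg c → E.dg c ≤ E.dg (C v 4) →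
      c = C v 4 ∨ c = C v 5 ∨ c = C v 6 := by
    intro v c hc h1 h2
    by_contra h
    push Not at h
    exact lt_asymm ((pA v).right_step (t := (c, none)) h.1 ((pA v).side_right E hc h2).le)
      ((pB v).left_step (t := (c, none)) h.2.1 ((pB v).side_left E hc h.2.2 h1).le)
  have after : ∀ u w, E.dg (C w 6) < E.dg (C u 9) → E.dg (C w 4) < E.dg (C u 9) ∧
      D.d (C u 9, none) (C w 0) < D.d (C u 9, none) (C w 3) ∧
      D.d (C u 9, none) (C w 3) < D.d (C u 9, none) (C w 4) ∧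
      D.d (C u 9, none) (C w 4) < D.d (C u 9, none) (C w 6) := by
    intro u w h
    have a1 : E.dg (C w 4) < E.dg (C u 9) := by
      by_contra h'
      rcases btw w _ (hM u 9) h.le (not_lt.1 h') with e | e | e <;>
        exact ne (Or.inr (by decide)) e
    have a2 := (pA w).side_left E (hM u 9) (ne (Or.inr (by decide))) a1.le
    have a3 := (pB w).side_left E (hM u 9) (ne (Or.inr (by decide))) h.le
    exact ⟨a1, (pA w).left_step (t := (C u 9, none)) (ne (Or.inr (by decide))) a2.le, a2,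
      ((pB w).left_step (t := (C u 9, none)) (ne (Or.inr (by decide))) a3.le).trans a3⟩
  have before : ∀ u v, E.dg (C u 9) ≤ E.dg (C v 6) →
      D.d (C u 9, none) (C v 7) < D.d (C u 9, none) (C v 6) ∧
      D.d (C u 9, none) (C v 6) < D.d (C u 9, none) (C v 5) := by
    intro u v h
    have a1 := (pB v).side_right E (hM u 9) h
    exact ⟨(pB v).right_step (t := (C u 9, none)) (ne (Or.inr (by decide))) a1.le, a1⟩
  have vleft : ∀ u v, u ≠ v → E.dg (C v 9) ≤ E.dg (C u 9) →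
      D.d (C u 9, none) (C v 7) < D.d (C u 9, none) (C v 8) ∧
      D.d (C u 9, none) (C v 8) < D.d (C u 9, none) (C v 9) := by
    intro u v huv h
    have a1 := (pV v).side_left E (hM u 9) (ne (Or.inl huv)) h
    exact ⟨(pV v).left_step (t := (C u 9, none)) (ne (Or.inl huv)) a1.le, a1⟩
  have binj : ∀ v w, E.dg (C v 6) = E.dg (C w 6) → v = w := fun v w e => by
    by_contra h
    exact (pB w).dg_ne E (hM v 6) (ne (Or.inl h)) e
  have ex : ∀ u, ∃ w, u ≠ G.snk → E.dg (C w 6) < E.dg (C u 9) ∧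
      (∀ v, E.dg (C v 6) < E.dg (C u 9) → E.dg (C v 6) ≤ E.dg (C w 6)) ∧
      ∀ v, D.d (C u 9, none) (C w 6) < D.d (C u 9, none) (C v 7) := by
    intro u
    by_cases hu : u = G.snk
    · exact ⟨u, fun h => absurd hu h⟩
    obtain ⟨_, ⟨v, rfl⟩, h1, j, h2, h3⟩ := D.exit (fun c => ∃ v, c = C v 7) ⟨u, rfl⟩
      (t := (C u 9, none)) (fun ⟨v, e⟩ => ne (Or.inr (by decide)) e)
    rcases hz v j with e | ⟨v', e⟩ | ⟨rfl, e⟩
    · rw [e] at h3
      have a1 : E.dg (C v 6) < E.dg (C u 9) := by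
        by_contra h
        exact lt_asymm h3 (before u v (not_lt.1 h)).1
      obtain ⟨w, hw, hm⟩ := Set.exists_max_image {v | E.dg (C v 6) < E.dg (C u 9)}
        (fun v => E.dg (C v 6)) (Set.toFinite _) ⟨v, a1⟩
      refine ⟨w, fun _ => ⟨hw, hm, fun v' => lt_of_le_of_lt ?_ (h3.trans_le (h1 _ ⟨v', rfl⟩))⟩⟩
      rcases (hm v a1).eq_or_lt with e | e
      · rw [binj v w e]
      · exact ((pV u).obtuse E (pB w) hw (hM v 6) e).le
    · exact absurd ⟨v', e⟩ h2
    · rw [e] at h3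
      exact absurd h3 (not_lt.2 (vleft u _ hu (hs u)).1.le)
  choose σ hσ using ex
  have inj0 : ∀ u v, u ≠ G.snk → v ≠ G.snk → σ u = σ v → ¬E.dg (C v 9) < E.dg (C u 9) := by
    intro u v hu hv e h
    have huv : u ≠ v := fun e => by rw [e] at h; exact lt_irrefl _ h
    have a1 := (pV u).obtuse E (pV v) h (hM (σ v) 6) (hσ v hv).1
    have a2 := (hσ u hu).2.2 v
    have a3 := vleft u v huv h.le
    rw [e] at a2
    linarith [a3.1, a3.2]
  have inj : ∀ u v, u ≠ G.snk → v ≠ G.snk → σ u = σ v → u = v := by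
    intro u v hu hv e
    by_contra h
    exact (pV v).dg_ne E (hM u 9) (ne (Or.inl h))
      (le_antisymm (not_lt.1 (inj0 u v hu hv e)) (not_lt.1 (inj0 v u hv hu e.symm)))
  have gap : ∀ u, u ≠ G.snk → ∀ c, M c →
      D.d (C u 9, none) c < D.d (C u 9, none) (C (σ u) 3) →
      E.dg (C (σ u) 4) < E.dg c ∧ ∀ v, E.dg (C u 9) ≤ E.dg (C v 6) → E.dg c < E.dg (C v 6) := by
    intro u hu c hc h
    obtain ⟨s1, -, s3⟩ := hσ u hu
    obtain ⟨a1, -, a3, a4⟩ := after u _ s1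
    refine ⟨?_, fun v hv => ?_⟩
    · by_contra h'
      by_cases e : c = C (σ u) 4
      · rw [e] at h; exact lt_asymm h a3
      · linarith [(pV u).obtuse E (pA (σ u)) a1 hc
          (lt_of_le_of_ne (not_lt.1 h') ((pA (σ u)).dg_ne E hc e))]
    · obtain ⟨b1, b2⟩ := before u v hv
      have b3 := s3 v
      have b4 : E.dg c < E.dg (C v 4) := by
        by_contra h'
        linarith [(pA v).beyond E (pB v) (ba v) (hM u 9) (lt_of_le_of_ne hv
          ((pB v).dg_ne E (hM u 9) (ne (Or.inr (by decide))))) (not_lt.1 h')]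
      by_contra h'
      rcases btw v c hc (not_lt.1 h') b4.le with e | e | e <;> rw [e] at h b4
      · exact lt_irrefl _ b4
      · linarith
      · linarith
  obtain ⟨top, htop⟩ := @Finite.exists_max B ℝ _ ⟨G.snk⟩ _ fun v => E.dg (C v 6)
  have surj : ∀ w, w ≠ top → ∃ u, u ≠ G.snk ∧ σ u = w := by
    have nt : ∀ u, u ≠ G.snk → σ u ≠ top := fun u hu e => by
      have := (hσ u hu).1
      rw [e] at this
      linarith [gb u, htop u]
    have hi : Injective (update σ G.snk top) := by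
      intro u v e
      by_cases hu : u = G.snk <;> by_cases hv : v = G.snk
      · rw [hu, hv]
      · rw [hu, update_self, update_of_ne hv] at e
        exact absurd e.symm (nt v hv)
      · rw [hv, update_self, update_of_ne hu] at e
        exact absurd e (nt u hu)
      · rw [update_of_ne hu, update_of_ne hv] at e
        exact inj u v hu hv e
    intro w hw
    obtain ⟨u, e⟩ := Finite.surjective_of_injective hi w
    by_cases hu : u = G.snk
    · rw [hu, update_self] at e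
      exact absurd e.symm hw
    · exact ⟨u, hu, by rwa [update_of_ne hu] at e⟩
  refine ⟨σ, fun v => -E.dg (C v 6), fun u hu => ⟨?_, by linarith [(hσ u hu).1, gb u]⟩, inj⟩
  obtain ⟨c, h0, h1, j, h2, -⟩ := D.exit (fun c => c ≠ C u 8 ∧ c ≠ C u 9 ∧ c ≠ C u 10)
    (a₀ := C (σ u) 0) ⟨ne (Or.inr (by decide)), ne (Or.inr (by decide)), ne (Or.inr (by decide))⟩
    (t := (C u 9, none)) (fun h => h.2.1 rfl)
  obtain ⟨T, rfl⟩ : ∃ T, c = C (G.s T u) 0 := by
    have := hx u c j hu (by tauto)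
    tauto
  refine ⟨T, ?_⟩
  obtain ⟨g1, g2⟩ := gap u hu _ (hM _ 0) ((h1 (C (σ u) 0) ⟨ne (Or.inr (by decide)),
    ne (Or.inr (by decide)), ne (Or.inr (by decide))⟩).trans_lt (after u _ (hσ u hu).1).2.1)
  have e1 := (pA (G.s T u)).dg_bk E
  have e2 := ba (G.s T u)
  obtain ⟨u', hu', e⟩ := surj (G.s T u) (fun e => by
    have := g2 u (gb u).le
    rw [e] at this e1 e2
    linarith [htop u])
  obtain ⟨-, g4⟩ := gap u' hu' _ (hM _ 0) (after u' _ (hσ u' hu').1).2.1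
  rw [e] at g4
  refine binj _ _ (le_antisymm ?_ ?_) <;> by_contra h
  · have := g4 (σ u) (not_lt.1 fun h' => h (e ▸ (hσ u' hu').2.1 _ h'))
    linarith [ba (σ u)]
  · have := g2 _ (not_lt.1 fun h' => h ((hσ u hu).2.1 _ h'))
    linarith

end

section

/-! Between two of many long chains everything is seen in thin cones from two eyes. -/

open Real Function

variable {X : Type}

theorem LEye.near {D : Drw X} {O : X} {kp km : Fin 5} {xp xm : ℝ} {T : Vx X → Prop}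
    (h : LEye D O kp km xp xm T) {t : Vx X} (ht : T t) :
    Near ((xp + xm) / 2) (1 / 200) (D.p t - D.c O) := by
  obtain ⟨d1, d2, lt, h⟩ := h
  obtain ⟨ne, u1, u2, r1, r2, α, a1, a2, a3⟩ := h t ht
  have b1 := lt_abs_of_cos_lt (by norm_num) (by norm_num) (u1.cos_lt ne d1 a1 r1)
  have b2 := lt_abs_of_cos_lt (by norm_num) (by norm_num) (u2.cos_lt ne d2 a1 r2)
  rw [abs_of_pos (by linarith [pi_pos])] at b1
  rw [abs_of_neg (by linarith [pi_pos])] at b2
  exact ⟨α, abs_le.2 ⟨by linarith, by linarith⟩, a1⟩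

theorem LEye.qo {D : Drw X} {O : X} {kp km : Fin 5} {xp xm : ℝ} {T : Vx X → Prop}
    (h : LEye D O kp km xp xm T) {a b : X} (ha : ∀ o, T (a, o)) (h4 : 4 ≤ cnt D.tg a b) :
    D.d (O, none) b < D.d (O, none) a ∨ D.d (O, some kp) b < D.d (O, some kp) a ∨
      D.d (O, some km) b < D.d (O, some km) a := by
  by_contra hc
  push Not at hc
  obtain ⟨d1, d2, lt, h⟩ := h
  obtain ⟨ne, -, -, -, -, α, a1, a2, a3⟩ := h _ (ha none)
  obtain ⟨k, x, h1, h2⟩ := D.sorted h4 α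
  have key : ∀ i, xm < x i ∧ x i < xp := fun i => by
    obtain ⟨b1, b2, b3, b4⟩ := h1 i
    have u : ∀ o, D.d (O, o) a ≤ D.d (O, o) b → D.Ul a (k i) (O, o) := fun o e => by
      rwa [Drw.Ul, b1]
    obtain ⟨-, u1, u2, -⟩ := h _ (ha (some (k i)))
    obtain ⟨e1, e2⟩ := ((u none hc.1).far ne.symm).back b4 a1
      (abs_lt.2 ⟨by linarith [pi_pos], by linarith [pi_pos]⟩)
    exact ⟨ql' (u2.lt ne) ((u _ hc.2.2).lt ne.symm) (D.s_ne _ _) (D.s_ne _ _) a1 d2 b4
      (by linarith) e1, ql (u1.lt ne) ((u _ hc.2.1).lt ne.symm) (D.s_ne _ _) (D.s_ne _ _) a1 d1 b4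
      a3 e2⟩
  linarith [(key 0).1, (key 3).2, h2 0 1 (by decide), h2 1 2 (by decide), h2 2 3 (by decide)]

theorem lt_of_succ {l : ℕ → ℕ} {n : ℕ} (h : ∀ j, j + 1 < n → l j < l (j + 1)) {i j : ℕ}
    (hij : i < j) (hj : j < n) : l i < l j := by
  induction j, hij using Nat.le_induction with
  | base => exact h i hj
  | succ j _ ih => exact (ih (by omega)).trans (h j hj)

theorem root_far {p q z m : ℂ} {ρ : ℝ} (h0 : 0 ≤ ρ) (h1 : dist p m ≤ ρ) (h2 : dist q m ≤ ρ)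
    (h3 : 1000 * ρ ≤ dist z m) : dist p q ≤ dist p z := by
  have a1 := dist_triangle_right p q m
  have a2 := dist_triangle z p m
  rw [dist_comm z p] at a2
  linarith

theorem left_eye : ∃ N : ℕ, ∀ {X : Type} [Finite X] {D : Drw X} (L : Lev D) (s : ℕ → X),
    (∀ i < N + 1, ∃ f τ τ', L.CV (s i) f τ τ') → (∀ i, i + 1 < N + 1 → L.l (s i) < L.l (s (i + 1))) →
    ∃ O kp km xp xm, L.l (s 0) < L.l O ∧ L.l O < L.l (s N) ∧
      LEye D O kp km xp xm (fun t => L.l (s N) ≤ L.l t.1) := by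
  obtain ⟨N, h⟩ := dich 1000 (by norm_num)
  refine ⟨17 * N, fun {X} _ {D} L s h1 h2 => ?_⟩
  have mono : ∀ i j, i < j → j < 17 * N + 1 → L.l (s i) < L.l (s j) :=
    fun i j => lt_of_succ (l := fun i => L.l (s i)) h2
  choose! f τ τ' cv using h1
  obtain ⟨i, hi, m, ρ, a0, a1, a2⟩ := h L (fun i => s (17 * i))
    {t | L.l (s (17 * N)) ≤ L.l t.1} ⟨(s (17 * N), none), le_refl (L.l (s (17 * N)))⟩
    (fun i hi => (cv _ (by omega)).cut) (fun i hi => mono _ _ (by omega) (by omega))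
    (fun t ht => ht)
  have inn : ∀ j < 16, ∀ o, dist (D.p (s (17 * i + 1 + j), o)) m ≤ ρ := fun j hj o =>
    a1 _ (mono _ _ (by omega) (by omega)) (mono _ _ (by omega) (by omega))
  rcases a2 with a2 | a2
  · obtain ⟨⟨kp, km, xp, xm, b1, b2, b3, b4⟩, -⟩ := chain (a := fun j => s (17 * i + 1 + j))
      (fun j hj => cv _ (by omega)) (fun j j' hj hj' => mono _ _ (by omega) (by omega))
      (fun j hj j' hj' o => root_far a0 (inn j hj o) (inn j' hj' none) a2)
    exact ⟨_, kp, km, xp, xm, mono _ _ (by omega) (by omega), mono _ _ (by omega) (by omega),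
      b1, b2, b3, fun t ht => b4 t ((mono _ _ (by omega) (by omega)).le.trans ht)⟩
  · obtain ⟨kp, km, xp, xm, n1, n2, b1, b2, b3, b4⟩ := D.flanks (s (17 * i + 1)) (f (17 * i + 1))
    have lt := mono (17 * i + 1) (17 * N) (by omega) (by omega)
    refine ⟨_, kp, km, xp, xm, mono _ _ (by omega) (by omega), lt, b1, b2, b3, fun t ht => ?_⟩
    replace ht : L.l (s (17 * N)) ≤ L.l t.1 := ht
    have ne : t.1 ≠ s (17 * i + 1) := fun e => by rw [e] at ht; omega
    have ul : ∀ k, k ≠ f (17 * i + 1) → D.Ul (s (17 * i + 1)) k t := fun k hk =>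
      (cv _ (by omega)).ul_later (lt.le.trans ht) hk
    have sh : ∀ k, ‖D.s (s (17 * i + 1)) k - D.c (s (17 * i + 1))‖ ≤
        1 / 200 * ‖D.p t - D.c (s (17 * i + 1))‖ := fun k => by
      have c1 := inn 0 (by omega) none
      have c2 := inn 0 (by omega) (some k)
      have c3 := a2 t ht
      have c4 := dist_triangle_right (D.s (s (17 * i + 1)) k) (D.c (s (17 * i + 1))) m
      have c5 := dist_triangle (D.p t) (D.c (s (17 * i + 1))) m
      rw [← dist_eq_norm, ← dist_eq_norm]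
      simp only [add_zero] at c1 c2
      linarith
    exact ⟨ne, ul _ n1, ul _ n2, sh _, sh _, b4 _ fun k hk => (ul k hk).far ne⟩

theorem eyes : ∃ NG LC : ℕ, ∀ {X : Type} [Finite X] {D : Drw X} (L : Lev D) (a : ℕ → ℕ → X)
    (ω : X), (∀ k ≤ NG, ∀ j < LC + 1, ∃ f τ τ', L.CV (a k j) f τ τ') →
    (∀ k ≤ NG, ∀ j, j + 1 < LC + 1 → L.l (a k j) < L.l (a k (j + 1))) →
    (∀ k < NG, L.l (a k LC) < L.l (a (k + 1) 0)) → L.l (a NG LC) ≤ L.l ω →
    ∃ k < NG, ∃ E : Eye D (fun x => L.l (a k LC) < L.l x ∧ L.l x < L.l (a (k + 1) 0)),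
      L.l (a (k + 1) 0) ≤ L.l E.g.1 := by
  obtain ⟨NG, h⟩ := dich 1000 (by norm_num)
  obtain ⟨N, hl⟩ := left_eye
  refine ⟨NG, 17 + N, fun {X} _ {D} L a ω h1 h2 h3 h4 => ?_⟩
  have mono : ∀ k ≤ NG, ∀ i j, i < j → j < 17 + N + 1 → L.l (a k i) < L.l (a k j) :=
    fun k hk i j => lt_of_succ (l := fun i => L.l (a k i)) (h2 k hk)
  have step : ∀ k < NG, L.l (a k 16) < L.l (a (k + 1) 16) := fun k hk =>
    ((mono k hk.le _ _ (by omega) (by omega)).trans (h3 k hk)).trans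
      (mono (k + 1) hk _ _ (by omega) (by omega))
  have hω : L.l (a NG 16) ≤ L.l ω := (mono NG le_rfl _ _ (by omega) (by omega)).le.trans h4
  choose! f τ τ' cv using h1
  obtain ⟨k, hk, m, ρ, a0, a1, a2⟩ := h L (fun k => a k 16) {(ω, none)} ⟨_, rfl⟩
    (fun k hk => (cv k hk _ (by omega)).cut) step (by rintro _ rfl; exact hω)
  obtain ⟨O, kp, km, xp, xm, o1, o2, eye⟩ := hl L (fun i => a k (17 + i))
    (fun i hi => ⟨_, _, _, cv k hk.le _ (by omega)⟩) (fun i hi => h2 k hk.le _ (by omega))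
  simp only [add_zero] at o1 o2
  have l0 := mono k hk.le 16 17 (by omega) (by omega)
  have l1 := h3 k hk
  have l2 := mono (k + 1) hk 0 16 (by omega) (by omega)
  have right : ∃ (g : Vx X) (c : ℝ), L.l (a (k + 1) 0) ≤ L.l g.1 ∧ ∀ y : Vx X,
      L.l (a k 16) < L.l y.1 → L.l y.1 < L.l (a (k + 1) 0) → Near c (1 / 200) (D.p g - D.p y) := by
    rcases a2 with a2 | a2
    · have inn : ∀ j < 16, ∀ o, dist (D.p (a (k + 1) j, o)) m ≤ ρ := fun j hj o =>
        a1 _ (by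
          have : L.l (a (k + 1) 0) ≤ L.l (a (k + 1) j) := by
            rcases Nat.eq_zero_or_pos j with rfl | e
            · rfl
            · exact (mono (k + 1) hk _ _ e (by omega)).le
          simp only
          omega) (mono (k + 1) hk _ _ hj (by omega))
      obtain ⟨-, c, hc⟩ := chain (a := a (k + 1)) (fun j hj => cv (k + 1) hk _ (by omega))
        (fun j j' hj hj' => mono (k + 1) hk _ _ hj (by omega))
        (fun j hj j' hj' o => root_far a0 (inn j hj o) (inn j' hj' none) a2)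
      refine ⟨(a (k + 1) 2, none), c, (mono (k + 1) hk _ _ (by omega) (by omega)).le,
        fun y y1 y2 => ?_⟩
      have b1 := a1 y y1 (y2.trans l2)
      exact hc y (y2.trans (mono (k + 1) hk _ _ (by omega) (by omega))).le
        (root_far a0 b1 (inn 1 (by omega) none) a2) (root_far a0 b1 (inn 2 (by omega) none) a2)
    · obtain ⟨c, -, -, hc⟩ := exists_dir (D.c ω - m) 0
      refine ⟨(ω, none), c, l2.le.trans (le_trans ?_ hω), fun y y1 y2 => ?_⟩
      · rcases (show k + 1 ≤ NG from hk).eq_or_lt with e | e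
        · rw [e]
        · exact (lt_of_succ (l := fun k => L.l (a k 16)) (n := NG + 1)
            (fun j hj => step j (by omega)) e (by omega)).le
      · have b1 := a1 y y1 (y2.trans l2)
        have b2 := a2 _ rfl
        rw [dist_comm, dist_eq_norm] at b1
        rw [dist_eq_norm] at b2
        have := hc.perturb (u := m - D.p y) (κ := 1 / 1000) (by norm_num) (by norm_num)
          (by linarith)
        rw [sub_add_sub_cancel] at this
        exact this.mono (by norm_num)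
  obtain ⟨g, c, g1, g2⟩ := right
  have gT : L.l (a k (17 + N)) ≤ L.l g.1 := l1.le.trans g1
  have sh : ∀ (y : Vx X) (k' : Fin 5), L.l (a k (17 + N)) ≤ L.l y.1 →
      ‖D.s O k' - D.c O‖ ≤ 1 / 200 * ‖D.p y - D.c O‖ →
      Near ((xp + xm) / 2) (1 / 50) (D.p y - D.s O k') := fun y k' hy e => by
    have := (eye.near hy).perturb (u := D.c O - D.s O k') (κ := 1 / 200) (by norm_num)
      (by norm_num) (by rwa [norm_sub_rev])
    rw [sub_add_sub_cancel] at this
    exact this.mono (by norm_num)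
  refine ⟨k, hk, ⟨(xp + xm) / 2, g, ![(O, none), (O, some kp), (O, some km)], fun e => by omega,
    fun i e => ?_, fun y hy => ?_, fun i y hy => ?_, fun b b' hb h4 => ?_⟩, g1⟩
  · fin_cases i <;> simp at e <;> omega
  · exact ((g2 (O, none) (l0.trans o1) (o2.trans l1)).trans (D.sub_ne (eye.2.2.2 g gT).1)
      (eye.near gT) (g2 y (by omega) hy.2)).mono (by norm_num)
  · obtain ⟨-, -, -, r1, r2, -⟩ := eye.2.2.2 y hy.1.le
    fin_cases i
    · exact (eye.near hy.1.le).mono (by norm_num)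
    · exact sh y kp hy.1.le r1
    · exact sh y km hy.1.le r2
  · rcases eye.qo (fun _ => hb.1.le) h4 with e | e | e
    · exact ⟨0, e⟩
    · exact ⟨1, e⟩
    · exact ⟨2, e⟩

end

section

/-! A greedy drawing of the graph of the reduction yields a Hamiltonian path. -/

open Function

open Classical in
/-- The arcs of `a` which leave `A`. -/
noncomputable def outs {X : Type} (tg : X → Fin 5 → X) (A : X → Prop) (a : X) : Finset (Fin 5) :=
  Finset.univ.filter fun k => ¬A (tg a k)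

theorem mem_outs {X : Type} {tg : X → Fin 5 → X} {A : X → Prop} {a : X} {k : Fin 5} :
    k ∈ outs tg A a ↔ ¬A (tg a k) := by simp [outs]

theorem Compat.outs_le {X : Type} [Finite X] {tg tg₀ : X → Fin 5 → X} (h : Compat tg tg₀)
    (A : X → Prop) (hle : ∀ a, A a → (outs tg₀ A a).card ≤ (outs tg A a).card) {a : X}
    (ha : A a) : (outs tg A a).card ≤ (outs tg₀ A a).card := by
  classical
  have := Fintype.ofFinite X
  have e := h.exits A
  rw [card_eq_sum, card_eq_sum] at e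
  have := (Finset.sum_eq_sum_iff_of_le (fun a _ => by
    by_cases ha : A a
    · simpa [ha, outs] using hle a ha
    · simp [ha])).1 e.symm a (Finset.mem_univ _)
  simpa [ha, outs] using this.ge

theorem divmod_inj {n k k' j j' : ℕ} (hj : j < n) (hj' : j' < n) (e : k * n + j = k' * n + j') :
    k = k' ∧ j = j' := by
  have h : k = k' := by
    rcases lt_trichotomy k k' with h | h | h
    · have := Nat.mul_le_mul_right n (show k + 1 ≤ k' from h)
      rw [Nat.succ_mul] at this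
      omega
    · exact h
    · have := Nat.mul_le_mul_right n (show k' + 1 ≤ k from h)
      rw [Nat.succ_mul] at this
      omega
  subst h
  omega

variable {B : Type} {NG LC : ℕ} (G : DG B)

theorem lv_ch_inj {k : Fin (NG + 1)} {j : Fin (LC + 1)} {x : Ctr NG LC B}
    (e : lv x = lv (ch k j : Ctr NG LC B)) : x = ch k j := by
  rcases x with i | ⟨k', j'⟩ | ⟨k', b, m⟩ <;> simp only [lv] at e
  · omega
  · have := divmod_inj (n := LC + 2) (k := k') (k' := k) (j := j') (j' := j) (by omega) (by omega)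
      (by omega)
    rw [Fin.ext this.1, Fin.ext this.2]
  · have := divmod_inj (n := LC + 2) (k := k') (k' := k) (j := LC + 1) (j' := j) (by omega)
      (by omega) (by omega)
    omega

theorem lv_co_inj {k : Fin NG} {b : B} {m : Fin 11} {x : Ctr NG LC B}
    (e : lv x = lv (co k b m : Ctr NG LC B)) : ∃ b m, x = co k b m := by
  rcases x with i | ⟨k', j'⟩ | ⟨k', b', m'⟩
  · simp only [lv] at e; omega
  · simpa using lv_ch_inj e.symm
  · simp only [lv] at e
    have := divmod_inj (n := LC + 2) (k := k') (k' := k) (j := 0) (j' := 0) (by omega)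
      (by omega) (by omega)
    exact ⟨b', m', by rw [Fin.ext this.1]⟩

theorem lv_chS (k : Fin (NG + 1)) (j : Fin (LC + 1)) (h : j.1 < LC ∨ k.1 < NG) :
    lv (chS G k j) = lv (ch k j : Ctr NG LC B) + 1 := by
  unfold chS
  split_ifs <;> simp only [lv] <;> omega

theorem lv_chP (k : Fin (NG + 1)) (j : Fin (LC + 1)) :
    lv (chP G k j) + 1 = lv (ch k j : Ctr NG LC B) := by
  unfold chP
  split_ifs with h1 h2 <;> simp only [lv]
  · omega
  · obtain ⟨_ | k, hk⟩ := k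
    · simp at h2
    · simp only [Nat.succ_mul, Nat.add_sub_cancel]
      omega
  · rw [show k.1 = 0 by omega, show j.1 = 0 by omega]
    simp

theorem lv_succ (k : Fin NG) (b : B) (m : Fin 11) :
    lv (ch k.succ 0 : Ctr NG LC B) = lv (co k b m : Ctr NG LC B) + 1 := by
  simp only [lv, Fin.val_succ, Nat.succ_mul, Fin.val_zero]
  omega

theorem lv_tg0 (a : Ctr NG LC B) (j : Fin 5) : lv (tg0 NG LC G a j) ≤ lv a + 1 ∧
    (lv a ≤ lv (tg0 NG LC G a j) + 1 ∨ tg0 NG LC G a j = rt 0) := by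
  rcases a with i | ⟨k, i⟩ | ⟨k, b, m⟩
  · fin_cases i <;> fin_cases j <;> simp [tg0, lv]
  · simp only [tg0]
    have := lv_chP G k i
    split_ifs
    · by_cases h : i.1 < LC ∨ k.1 < NG
      · rw [lv_chS G k i h]; simp only [lv]; omega
      · push Not at h
        simp [chS, h.1.not_gt, h.2.not_gt, lv]
    · generalize lv (chP G k i) = n at this
      simp only [lv] at this ⊢; omega
    · simp [lv]
  · simp only [tg0]
    rcases ctg G b m j with q | _ | _
    · simp [emb, lv]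
    · simp only [emb, lv, Fin.val_castSucc, Fin.val_last]; omega
    · simp only [emb, lv_succ k b m]; simp only [lv]; omega

/-- The number of arcs between two centres of a block. -/
def nb (s : Bool) (m m' : Fin 11) : ℕ := (Finset.univ.filter fun j : Fin 5 =>
  ¬(m = 0 ∧ j ≠ 0) ∧ ¬(m = 7 ∧ (j = 0 ∨ j = 4) ∧ s = false) ∧ ¬(m = 10 ∧ (j = 0 ∨ j = 4)) ∧
    tb m j = m').card

theorem ctg_cases (b : B) (m : Fin 11) (j : Fin 5) :
    (m = 0 ∧ j ≠ 0 ∧ (b = G.src ∧ ctg G b m j = .inr false ∨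
      b ≠ G.src ∧ ∃ T, ctg G b m j = .inl (G.r T b, 10))) ∨
    (m = 7 ∧ (j = 0 ∨ j = 4) ∧ b ≠ G.snk ∧ ∃ T, ctg G b m j = .inl (G.s T b, 7)) ∨
    (m = 10 ∧ (j = 0 ∨ j = 4) ∧ (b = G.snk ∧ ctg G b m j = .inr true ∨
      b ≠ G.snk ∧ ∃ T, ctg G b m j = .inl (G.s T b, 0))) ∨
    (¬(m = 0 ∧ j ≠ 0) ∧ ¬(m = 7 ∧ (j = 0 ∨ j = 4) ∧ b ≠ G.snk) ∧ ¬(m = 10 ∧ (j = 0 ∨ j = 4)) ∧
      ctg G b m j = .inl (b, tb m j)) := by
  unfold ctg
  split_ifs with h1 h2 h3 h4 h5
  · exact Or.inl ⟨h1.1, h1.2, Or.inl ⟨h2, rfl⟩⟩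
  · exact Or.inl ⟨h1.1, h1.2, Or.inr ⟨h2, _, rfl⟩⟩
  · exact Or.inr (Or.inl ⟨h3.1, h3.2.1, h3.2.2, _, rfl⟩)
  · exact Or.inr (Or.inr (Or.inl ⟨h4.1, h4.2, Or.inl ⟨h5, rfl⟩⟩))
  · exact Or.inr (Or.inr (Or.inl ⟨h4.1, h4.2, Or.inr ⟨h5, _, rfl⟩⟩))
  · exact Or.inr (Or.inr (Or.inr ⟨h1, h3, h4, rfl⟩))

open Classical in
theorem cnt_co (k : Fin NG) (b : B) (m m' : Fin 11) :
    cnt (tg0 NG LC G) (co k b m) (co k b m') = nb (decide (b = G.snk)) m m' := by
  rw [cnt, nb]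
  congr 1
  ext j
  simp only [Finset.mem_filter, Finset.mem_univ, true_and, tg0, decide_eq_false_iff_not]
  rw [show (co k b m' : Ctr NG LC B) = emb k (.inl (b, m')) from rfl, (emb_inj k).eq_iff]
  rcases ctg_cases G b m j with ⟨h1, h2, ⟨h3, e⟩ | ⟨h3, T, e⟩⟩ | ⟨h1, h2, h3, T, e⟩ |
    ⟨h1, h2, ⟨h3, e⟩ | ⟨h3, T, e⟩⟩ | ⟨h1, h2, h3, e⟩ <;> rw [e]
  · simp [h1, h2]
  · simp [h1, h2, G.r_ne T b h3]
  · simp [h1, h2, h3, G.s_ne T b h3]
  · simp [h1, h2]
  · simp [h1, h2, G.s_ne T b h3]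
  · simp only [h1, h2, h3, not_false_eq_true, true_and, Sum.inl.injEq, Prod.mk.injEq]

open Classical in
/-- The neighbours of a centre of the core. -/
theorem adj_co {k : Fin NG} {b : B} {m : Fin 11} {x : Ctr NG LC B}
    (h : ∃ j, tg0 NG LC G x j = co k b m ∨ tg0 NG LC G (co k b m) j = x) :
    (∃ m', x = co k b m' ∧
      0 < nb (decide (b = G.snk)) m m' + nb (decide (b = G.snk)) m' m) ∨
    (m = 0 ∧ (x = ch k.castSucc (Fin.last LC) ∨ ∃ v, x = co k v 10)) ∨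
    (m = 7 ∧ ∃ v, x = co k v 7) ∨
    (m = 10 ∧ (b = G.snk ∧ x = ch k.succ 0 ∨ b ≠ G.snk ∧ ∃ T, x = co k (G.s T b) 0)) := by
  obtain ⟨j, h | h⟩ := h
  · rcases x with i | ⟨k', i⟩ | ⟨k', b', m'⟩
    · simp only [tg0] at h
      split_ifs at h
      all_goals simp at h
    · simp only [tg0, chS, chP] at h
      split_ifs at h with h1 h2 h3 h4 h5 h6 <;>
        simp only [Sum.inr.injEq, reduceCtorEq, Prod.mk.injEq] at h
      · obtain ⟨rfl, rfl, rfl⟩ := h
        exact Or.inr (Or.inl ⟨rfl, Or.inl (by simp [Fin.ext_iff]; omega)⟩)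
      · obtain ⟨rfl, rfl, rfl⟩ := h
        refine Or.inr (Or.inr (Or.inr ⟨rfl, Or.inl ⟨rfl, ?_⟩⟩))
        rw [show i = 0 from Fin.ext (by simp only [Fin.val_zero]; omega)]
        exact congrArg (ch · 0) (Fin.ext (by simp only [Fin.val_succ]; omega))
    · have h' := h
      simp only [tg0] at h
      rcases ctg_cases G b' m' j with ⟨h1, h2, ⟨h3, e⟩ | ⟨h3, T, e⟩⟩ | ⟨h1, h2, h3, T, e⟩ |
        ⟨h1, h2, ⟨h3, e⟩ | ⟨h3, T, e⟩⟩ | ⟨h1, h2, h3, e⟩ <;> rw [e] at h <;>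
        simp only [emb, Sum.inr.injEq, reduceCtorEq, Prod.mk.injEq] at h
      · obtain ⟨rfl, rfl, rfl⟩ := h
        exact Or.inr (Or.inr (Or.inr ⟨rfl, Or.inr ⟨G.r_snk T _ h3, T, by rw [G.sr T _ h3, h1]⟩⟩))
      · obtain ⟨rfl, rfl, rfl⟩ := h
        exact Or.inr (Or.inr (Or.inl ⟨rfl, _, by rw [h1]⟩))
      · obtain ⟨rfl, rfl, rfl⟩ := h
        exact Or.inr (Or.inl ⟨rfl, Or.inr ⟨_, by rw [h1]⟩⟩)
      · obtain ⟨rfl, rfl, -⟩ := h
        refine Or.inl ⟨m', rfl, Nat.add_pos_right _ ?_⟩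
        rw [← cnt_co (LC := LC) G k', cnt_pos]
        exact ⟨j, h'⟩
  · have h' := h
    simp only [tg0] at h
    rcases ctg_cases G b m j with ⟨h1, h2, ⟨h3, e⟩ | ⟨h3, T, e⟩⟩ | ⟨h1, h2, h3, T, e⟩ |
      ⟨h1, h2, ⟨h3, e⟩ | ⟨h3, T, e⟩⟩ | ⟨h1, h2, h3, e⟩ <;> rw [e] at h <;> simp only [emb] at h
    · exact Or.inr (Or.inl ⟨h1, Or.inl h.symm⟩)
    · exact Or.inr (Or.inl ⟨h1, Or.inr ⟨_, h.symm⟩⟩)
    · exact Or.inr (Or.inr (Or.inl ⟨h1, _, h.symm⟩))
    · exact Or.inr (Or.inr (Or.inr ⟨h1, Or.inl ⟨h3, h.symm⟩⟩))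
    · exact Or.inr (Or.inr (Or.inr ⟨h1, Or.inr ⟨h3, _, h.symm⟩⟩))
    · refine Or.inl ⟨_, h.symm, Nat.add_pos_left ?_ _⟩
      rw [← cnt_co (LC := LC) G k, cnt_pos]
      exact ⟨j, h'.trans h.symm⟩

variable [Finite B] {G} {D : Drw (Ctr NG LC B)} (hc : Compat D.tg (tg0 NG LC G))
include hc

theorem root_arcs (j : Fin 5) : D.tg (rt 0) j = rt 1 := by
  have a1 := hc.cnt (a := rt 0) (b := rt 1) (by simp)
  have a2 := hc.cnt (a := rt 1) (b := rt 2) (by simp)
  have a3 := hc.cnt (a := rt 2) (b := rt 3) (by simp)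
  rw [cnt_eq (tg0 NG LC G), cnt_eq (tg0 NG LC G)] at a1 a2 a3
  simp [tg0] at a1 a2 a3
  have b1 := cnt_le D.tg (rt 1) (rt 0)
  have b2 := cnt_add_le D.tg (rt 1) (b := rt 0) (c := rt 2) (by simp)
  have b3 := cnt_add_le D.tg (rt 2) (b := rt 1) (c := rt 3) (by simp)
  refine cnt_five ?_ j
  by_contra h
  exact D.ring (z' := rt 0) (z := rt 1) (b₁ := rt 2) (b₂ := rt 3) (by simp) (by simp) (by simp)
    (by simp) (by simp) (by omega) (by omega) (by omega) (by omega)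

/-- The levels of the drawing. -/
def lev : Lev D where
  l := lv
  z := rt 0
  lz := rfl
  up a k := by
    obtain ⟨m, e | e⟩ := hc.nbr a k
    · exact e ▸ (lv_tg0 G a m).1
    · rcases (lv_tg0 G (D.tg a k) m).2 with h | h <;> rw [e] at h
      · exact h
      · rw [h, root_arcs hc]; rfl
  dn a k := by
    obtain ⟨m, e | e⟩ := hc.nbr a k
    · exact e ▸ (lv_tg0 G a m).2
    · have := (lv_tg0 G (D.tg a k) m).1
      rw [e] at this
      exact Or.inl this

theorem cut_ch (k : Fin (NG + 1)) (j : Fin (LC + 1)) : (lev hc).Cut (ch k j) :=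
  ⟨by simp only [lev, lv]; omega, fun _ e => lv_ch_inj e⟩

theorem cv_ch (k : Fin (NG + 1)) (j : Fin (LC + 1)) (h : j.1 < LC) :
    ∃ f τ τ', (lev hc).CV (ch k j) f τ τ' := by
  classical
  have s1 := lv_chS G k j (Or.inl h)
  have s2 := lv_chP G k j
  have l4 : 4 ≤ lv (ch k j : Ctr NG LC B) := by simp only [lv]; omega
  have n1 : chS G k j ≠ rt 0 := fun e => by rw [e] at s1; simp [lv] at s1
  have n2 : chP G k j ≠ rt 0 := fun e => by rw [e] at s2; change 0 + 1 = _ at s2; omega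
  have a1 := hc.cnt (a := ch k j) (b := rt 0) (by simp)
  rw [cnt_eq (tg0 NG LC G), cnt_eq (tg0 NG LC G), cnt_eq D.tg (rt 0)] at a1
  simp [tg0, root_arcs hc, n1, n2] at a1
  obtain ⟨τ, τ', b1, b2, b3⟩ := Finset.one_lt_card_iff.1 (show 1 < cnt D.tg (ch k j) (rt 0) by omega)
  simp only [Finset.mem_filter, Finset.mem_univ, true_and] at b1 b2
  obtain ⟨a, ha, -, f, hf, -⟩ := D.exit (fun x => lv x ≤ lv (ch k j : Ctr NG LC B)) le_rfl
    (t := (chS G k j, none)) (by simp only; omega)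
  obtain rfl : a = ch k j := lv_ch_inj (by have := (lev hc).up a f; simp only [lev] at this; omega)
  have c0 : outs (tg0 NG LC G) (fun x => lv x ≤ lv (ch k j : Ctr NG LC B)) (ch k j) ⊆ {0} := by
    intro m hm
    rw [mem_outs] at hm
    by_contra h0
    simp only [tg0, if_neg (show m ≠ 0 by simpa using h0)] at hm
    split_ifs at hm
    · omega
    · exact hm (Nat.zero_le _)
  have c1 := (hc.outs_le (fun x => lv x ≤ lv (ch k j : Ctr NG LC B)) (fun a ha => by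
    by_cases e : a = ch k j
    · rw [e]
      exact (Finset.card_le_card c0).trans (Finset.card_pos.2 ⟨f, mem_outs.2 hf⟩)
    · rw [Finset.card_eq_zero.2 (Finset.eq_empty_of_forall_notMem fun m hm => ?_)]
      · exact Nat.zero_le _
      · have := (lv_tg0 G a m).1
        rw [mem_outs] at hm
        exact e (lv_ch_inj (by omega))) (a := ch k j) le_rfl).trans (Finset.card_le_card c0)
  refine ⟨f, τ, τ', cut_ch hc k j, b3, b1, b2, not_le.1 hf,
    fun m hm => lt_of_le_of_ne ?_ fun e => D.ne _ m (lv_ch_inj e)⟩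
  by_contra h'
  exact hm (Finset.card_le_one.1 c1 _ (mem_outs.2 h') _ (mem_outs.2 hf))

open Classical in
theorem pair_sum (k : Fin NG) (b : B) {m m' : Fin 11} (h : m ≠ m') :
    cnt D.tg (co k b m) (co k b m') + cnt D.tg (co k b m') (co k b m) =
      nb (decide (b = G.snk)) m m' + nb (decide (b = G.snk)) m' m := by
  rw [hc.cnt (by simpa using h), cnt_co, cnt_co]

omit [Finite B] in
/-- The arcs at an inner centre of a block. -/
theorem inner (k : Fin NG) (b : B) {m m₁ m₂ m₃ : Fin 11} (h : m ≠ 0 ∧ m ≠ 7 ∧ m ≠ 10 ∧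
    ∀ s m', 0 < nb s m m' + nb s m' m → m' = m₁ ∨ m' = m₂ ∨ m' = m₃) :
    5 ≤ cnt D.tg (co k b m) (co k b m₁) + cnt D.tg (co k b m) (co k b m₂) +
      cnt D.tg (co k b m) (co k b m₃) := cnt_sum3 fun j => by
  rcases adj_co G ((hc.nbr (co k b m) j).imp fun _ => Or.symm) with ⟨m', e, h'⟩ | h' | h' | h'
  · rw [e]
    rcases h.2.2.2 _ _ h' with rfl | rfl | rfl <;> simp
  all_goals tauto

omit [Finite B] in
theorem inner2 (k : Fin NG) (b : B) {m m₁ m₂ : Fin 11} (h : m₁ ≠ m₂ ∧ m ≠ 0 ∧ m ≠ 7 ∧ m ≠ 10 ∧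
    ∀ s m', 0 < nb s m m' + nb s m' m → m' = m₁ ∨ m' = m₂) :
    cnt D.tg (co k b m) (co k b m₁) + cnt D.tg (co k b m) (co k b m₂) = 5 := by
  have a1 := inner hc k b (m := m) (m₁ := m₁) (m₂ := m₂) (m₃ := m)
    ⟨h.2.1, h.2.2.1, h.2.2.2.1, fun s m' e => by have := h.2.2.2.2 s m' e; tauto⟩
  have a2 := cnt_add_le D.tg (co k b m) (b := co k b m₁) (c := co k b m₂) (by simpa using h.1)
  have a3 : ¬0 < cnt D.tg (co k b m) (co k b m) := fun e => by
    obtain ⟨j, e⟩ := cnt_pos.1 e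
    exact D.ne _ _ e
  omega

variable {M : Ctr NG LC B → Prop} (E : Eye D M) {k : Fin NG} (hM : ∀ b m, M (co k b m))
include E hM

/-- The first three pairs of a block are oriented forwards. -/
theorem fwd (b : B) : FP D M (co k b 3) (co k b 4) (co k b 0) (co k b 5) ∧
    FP D M (co k b 5) (co k b 6) (co k b 4) (co k b 7) ∧ cnt D.tg (co k b 7) (co k b 6) = 3 := by
  have v : ∀ s, nb s 0 1 + nb s 1 0 = 3 ∧ nb s 1 2 + nb s 2 1 = 7 ∧ nb s 2 3 + nb s 3 2 = 1 ∧
      nb s 0 3 + nb s 3 0 = 2 ∧ nb s 3 4 + nb s 4 3 = 7 ∧ nb s 4 5 + nb s 5 4 = 3 ∧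
      nb s 5 6 + nb s 6 5 = 7 ∧ nb s 6 7 + nb s 7 6 = 4 := by decide
  obtain ⟨v1, v2, v3, v4, v5, v6, v7, v8⟩ := v (open Classical in decide (b = G.snk))
  rw [← pair_sum hc k b (by decide)] at v1 v2 v3 v4 v5 v6 v7 v8
  have w1 := inner2 hc k b (m := 1) (m₁ := 0) (m₂ := 2) (by decide)
  have w2 := inner2 hc k b (m := 2) (m₁ := 1) (m₂ := 3) (by decide)
  have w3 := inner hc k b (m := 3) (m₁ := 0) (m₂ := 2) (m₃ := 4) (by decide)
  have w3' := cnt_add_le D.tg (co k b 3) (b := co k b 0) (c := co k b 4) (by simp)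
  have w4 := inner2 hc k b (m := 4) (m₁ := 3) (m₂ := 5) (by decide)
  have w5 := inner2 hc k b (m := 5) (m₁ := 4) (m₂ := 6) (by decide)
  have w6 := inner2 hc k b (m := 6) (m₁ := 5) (m₂ := 7) (by decide)
  have a1 : cnt D.tg (co k b 2) (co k b 1) < 5 := lt_of_not_ge fun h =>
    E.de (hM b 1) (hM b 0) h (hM b 2) (by omega) (by omega) (by simp)
  have a2 : cnt D.tg (co k b 3) (co k b 4) < 5 := lt_of_not_ge fun h =>
    E.de (hM b 4) (hM b 5) h (hM b 3) (by omega) (by omega) (by simp)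
  have p : FP D M (co k b 1) (co k b 2) (co k b 0) (co k b 3) :=
    ⟨hM _ _, hM _ _, hM _ _, by omega, by omega, by omega, by omega, by simp, by simp⟩
  have a3 : cnt D.tg (co k b 3) (co k b 4) < 4 := lt_of_not_ge fun h => by
    have p' : FP D M (co k b 4) (co k b 3) (co k b 5) (co k b 0) :=
      ⟨hM _ _, hM _ _, hM _ _, by omega, by omega, by omega, by omega, by simp, by simp⟩
    linarith [p.dg_fw E, p.dg_bk E, p'.dg_fw E]
  exact ⟨⟨hM _ _, hM _ _, hM _ _, by omega, by omega, by omega, by omega, by simp, by simp⟩,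
    ⟨hM _ _, hM _ _, hM _ _, by omega, by omega, by omega, by omega, by simp, by simp⟩, by omega⟩

open Classical in
theorem last_pair (b : B) : cnt D.tg (co k b 7) (co k b 8) + cnt D.tg (co k b 8) (co k b 7) =
    (if b = G.snk then 4 else 2) ∧ cnt D.tg (co k b 8) (co k b 7) ≤ 2 ∧
    (cnt D.tg (co k b 8) (co k b 7) = 2 → FP D M (co k b 8) (co k b 9) (co k b 7) (co k b 10)) := by
  have v : ∀ s, nb s 7 8 + nb s 8 7 = (if s = true then 4 else 2) ∧ nb s 8 9 + nb s 9 8 = 7 := by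
    decide
  obtain ⟨v1, v2⟩ := v (decide (b = G.snk))
  rw [← pair_sum hc k b (by decide)] at v1 v2
  have w1 := inner2 hc k b (m := 8) (m₁ := 7) (m₂ := 9) (by decide)
  have w2 := inner2 hc k b (m := 9) (m₁ := 8) (m₂ := 10) (by decide)
  have a1 : cnt D.tg (co k b 9) (co k b 8) < 5 := lt_of_not_ge fun h =>
    E.de (hM b 8) (hM b 7) h (hM b 9) (by omega) (by omega) (by simp)
  exact ⟨by simpa using v1, by omega, fun h =>
    ⟨hM _ _, hM _ _, hM _ _, by omega, by omega, by omega, by omega, by simp, by simp⟩⟩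

theorem arcs_z (b : B) (j : Fin 5) : D.tg (co k b 7) j = co k b 6 ∨
    (∃ v, D.tg (co k b 7) j = co k v 7) ∨ (b = G.snk ∧ D.tg (co k b 7) j = co k b 8) := by
  classical
  have snk : ∀ j, D.tg (co k G.snk 7) j = co k G.snk 6 ∨ D.tg (co k G.snk 7) j = co k G.snk 8 := by
    obtain ⟨a1, a2, -⟩ := last_pair hc E hM G.snk
    have a3 := (fwd hc E hM G.snk).2.2
    rw [if_pos rfl] at a1
    exact cnt_two (by simp) (by omega)
  by_cases hb : b = G.snk
  · subst hb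
    have := snk j
    tauto
  have sub : ∀ b, (Finset.univ.filter fun j => D.tg (co k b 7) j = co k b 6) ⊆
      outs D.tg (fun x => ∃ v, x = co k v 7) (co k b 7) := fun b j hj => by
    rw [mem_outs, (Finset.mem_filter.1 hj).2]
    simp
  have c3 : ∀ b, (Finset.univ.filter fun j => D.tg (co k b 7) j = co k b 6).card = 3 := fun b => by
    convert (fwd hc E hM b).2.2
    rw [cnt]
    congr
  have c0 : ∀ b, b ≠ G.snk →
      (outs (tg0 NG LC G) (fun x => ∃ v, x = co k v 7) (co k b 7)).card ≤ 3 := fun b hb => by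
    refine (Finset.card_le_card (t := {1, 2, 3}) fun j hj => ?_).trans (by decide)
    rw [mem_outs] at hj
    fin_cases j <;> simp [tg0, ctg, hb, emb] at hj ⊢
  have c1 := (hc.outs_le (fun x => ∃ v, x = co k v 7) (by
    rintro _ ⟨v, rfl⟩
    by_cases hv : v = G.snk
    · refine Finset.card_le_card fun j _ => mem_outs.2 ?_
      rw [hv]
      rcases snk j with e | e <;> simp [e]
    · exact (c0 v hv).trans ((c3 v).ge.trans (Finset.card_le_card (sub v)))) ⟨b, rfl⟩).trans (c0 b hb)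
  have := Finset.eq_of_subset_of_card_le (sub b) (c1.trans (c3 b).ge)
  by_cases h : ∃ v, D.tg (co k b 7) j = co k v 7
  · exact Or.inr (Or.inl h)
  · exact Or.inl (Finset.mem_filter.1 (this ▸ mem_outs.2 h :)).2

theorem hp_of_eye (hg : lv (ch k.succ 0 : Ctr NG LC B) ≤ lv E.g.1) : G.HP := by
  classical
  have hz := arcs_z hc E hM
  have z8 : ∀ b j, b ≠ G.snk → D.tg (co k b 7) j ≠ co k b 8 := fun b j hb e => by
    have := hz b j
    simp [e, hb] at this
  have ls := fun b m => lv_succ (LC := LC) k (b : B) m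
  refine hp_of_pairs G E (co k) (fun _ _ _ _ e => by simpa using e) hM
    (fun b => (fwd hc E hM b).1) (fun b => (fwd hc E hM b).2.1) (fun b => ?_) (fun u => ?_) hz ?_
  · obtain ⟨a1, a2, a3⟩ := last_pair hc E hM b
    refine a3 ?_
    split_ifs at a1 with hb
    · have := cnt_add_le D.tg (co k b 7) (b := co k b 6) (c := co k b 8) (by simp)
      have := (fwd hc E hM b).2.2
      omega
    · have : ¬0 < cnt D.tg (co k b 7) (co k b 8) := fun e => by
        obtain ⟨j, e⟩ := cnt_pos.1 e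
        exact z8 b j hb e
      omega
  · obtain ⟨a, ⟨a1, a2⟩, a3, j, a4, -⟩ := D.exit
      (fun x => lv x < lv (ch k.succ 0 : Ctr NG LC B) ∧ x ≠ co k G.snk 10) (a₀ := co k u 9)
      ⟨by rw [ls u 9]; omega, by simp⟩ (t := E.g) (fun h => by omega)
    suffices a = co k G.snk 9 from this ▸ a3 _ ⟨by rw [ls u 9]; omega, by simp⟩
    by_cases e : D.tg a j = co k G.snk 10
    · rcases adj_co G (e ▸ hc.nbr a j) with ⟨m, rfl, h⟩ | h | h | ⟨-, ⟨-, rfl⟩ | h⟩
      · rw [(by decide : ∀ s m, 0 < nb s 10 m + nb s m 10 → m = 9) _ _ h]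
      · simp at h
      · simp at h
      · omega
      · simp at h
    · have b1 := (lev hc).up a j
      simp only [lev] at b1
      have b2 : D.tg a j = ch k.succ 0 := lv_ch_inj (by
        by_contra h
        exact a4 ⟨by omega, e⟩)
      obtain ⟨b, m, rfl⟩ := lv_co_inj (k := k) (b := u) (m := 9) (x := a) (by
        rw [b2] at b1
        have := ls u 9
        omega)
      rcases adj_co G (b2 ▸ (hc.nbr (co k b m) j).imp fun _ => Or.symm) with
        h | ⟨-, h | h⟩ | h | ⟨rfl, ⟨rfl, -⟩ | h⟩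
      · simp at h
      · simp [Fin.ext_iff] at h
      · simp at h
      · simp at h
      · simp at a2
      · simp at h
  · intro u c j hu h
    have key : ∀ m, D.tg c j = co k u m → (m = 8 ∨ m = 9 ∨ m = 10) →
        c = co k u 8 ∨ c = co k u 9 ∨ c = co k u 10 ∨ ∃ T, c = co k (G.s T u) 0 := by
      intro m e hm
      rcases adj_co G (e ▸ hc.nbr c j) with ⟨m', rfl, g⟩ | h | h | ⟨-, h | ⟨-, h⟩⟩
      · rcases (by decide : ∀ s m m', 0 < nb s m m' + nb s m' m → (m = 8 ∨ m = 9 ∨ m = 10) →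
          (m = 8 ∧ m' = 7) ∨ m' = 8 ∨ m' = 9 ∨ m' = 10) _ _ _ g hm with ⟨rfl, rfl⟩ | rfl | rfl | rfl
        · exact absurd e (z8 u j hu)
        all_goals simp
      · rcases hm with rfl | rfl | rfl <;> simp at h
      · rcases hm with rfl | rfl | rfl <;> simp at h
      · exact absurd h.1 hu
      · tauto
    rcases h with e | e | e <;> exact key _ e (by decide)

omit hc E hM [Finite B] in
theorem hp_of_greedy : ∃ NG LC : ℕ, ∀ {B : Type} [Finite B] (G : DG B) (p : Vx (Ctr NG LC B) → ℂ),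
    GreedyC (spG (tg0 NG LC G)) p → G.HP := by
  obtain ⟨NG, LC, h⟩ := eyes
  refine ⟨NG, LC + 1, fun {B} _ G p hp => ?_⟩
  obtain ⟨D, hc⟩ := exists_drw (tg0_ne G) hp
  let a : ℕ → ℕ → Ctr NG (LC + 1) B := fun k j =>
    ch ⟨min k NG, by omega⟩ ⟨min j LC, by omega⟩
  have la : ∀ k ≤ NG, ∀ j ≤ LC, (lev hc).l (a k j) = 4 + k * (LC + 1 + 2) + j := fun k hk j hj => by
    simp only [lev, a, lv, min_eq_left hk, min_eq_left hj]
  obtain ⟨k, hk, E, hg⟩ := h (lev hc) a (a NG LC)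
    (fun k _ j _ => cv_ch hc _ _ (by simp only; omega))
    (fun k hk j hj => by rw [la k hk j (by omega), la k hk _ (by omega)]; omega)
    (fun k hk => by rw [la k hk.le _ le_rfl, la _ hk _ (by omega), Nat.succ_mul]; omega) le_rfl
  refine hp_of_eye hc E (k := ⟨k, hk⟩) (fun b m => ?_) ((la _ hk 0 (by omega)).ge.trans hg)
  rw [la k hk.le _ le_rfl, la _ hk _ (by omega), Nat.succ_mul]
  simp only [lev, lv]
  omega

end

end Pool.Agent.MP_06c78e_co.H40

end
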