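import Pool.Agent.MP_06c78e_co.Mg.Main
import Pool.Agent.MP_06c78e_co.Defs2

-- part MP_06c78e_co.Six
section

set_option autoImplicit false

namespace Pool.Agent.MP_06c78e_co

open Complex

lemma close_of_arg {z w : ℂ} (h : |arg z - arg w| ≤ Real.pi / 3) :
    ‖z - w‖ ≤ max ‖z‖ ‖w‖ := by
  have hc : 1 / 2 ≤ Real.cos (arg z - arg w) := by
    rw [← Real.cos_abs, ← Real.cos_pi_div_three]
    exact Real.cos_le_cos_of_nonneg_of_le_pi (abs_nonneg _) (by linarith [Real.pi_pos]) h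
  have e : ‖z - w‖ ^ 2 = ‖z‖ ^ 2 + ‖w‖ ^ 2 - 2 * ‖z‖ * ‖w‖ * Real.cos (arg z - arg w) := by
    have z1 := norm_mul_cos_arg z
    have z2 := norm_mul_sin_arg z
    have w1 := norm_mul_cos_arg w
    have w2 := norm_mul_sin_arg w
    rw [Real.cos_sub, Complex.sq_norm, Complex.sq_norm, Complex.sq_norm, normSq_apply, normSq_apply,
      normSq_apply, sub_re, sub_im]
    have : ‖z‖ * ‖w‖ * (Real.cos (arg z) * Real.cos (arg w) + Real.sin (arg z) * Real.sin (arg w))
        = z.re * w.re + z.im * w.im := by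
      rw [← z1, ← z2, ← w1, ← w2]; ring
    nlinarith
  have hz := norm_nonneg z
  have hw := norm_nonneg w
  have h1 : ‖z - w‖ ^ 2 ≤ ‖z‖ ^ 2 + ‖w‖ ^ 2 - ‖z‖ * ‖w‖ := by
    nlinarith [mul_nonneg hz hw]
  rcases le_total ‖z‖ ‖w‖ with h2 | h2
  · rw [max_eq_right h2]
    exact abs_le_of_sq_le_sq' (by nlinarith) hw |>.2
  · rw [max_eq_left h2]
    exact abs_le_of_sq_le_sq' (by nlinarith) hz |>.2

lemma six_complex (z : Fin 6 → ℂ) (h0 : ∀ i, z i ≠ 0) :
    ∃ i j, i ≠ j ∧ ‖z i - z j‖ ≤ max ‖z i‖ ‖z j‖ := by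
  classical
  have key : ∀ i j, |arg (z i / z 0) - arg (z j / z 0)| ≤ Real.pi / 3 →
      ‖z i - z j‖ ≤ max ‖z i‖ ‖z j‖ := by
    intro i j h
    have h1 := close_of_arg h
    have h2 : 0 < ‖z 0‖ := norm_pos_iff.2 (h0 0)
    rw [← sub_div, norm_div, norm_div, norm_div, max_div_div_right h2.le] at h1
    exact (div_le_div_iff_of_pos_right h2).1 h1
  by_contra hcon
  push Not at hcon
  have hlt : ∀ i j, i ≠ j → Real.pi / 3 < |arg (z i / z 0) - arg (z j / z 0)| :=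
    fun i j hij => lt_of_not_ge fun h => absurd (key i j h) (not_le.2 (hcon i j hij))
  have a0 : arg (z 0 / z 0) = 0 := by rw [div_self (h0 0), arg_one]
  let f : Fin 5 → Fin 4 := fun i =>
    if 2 * Real.pi / 3 ≤ arg (z i.succ / z 0) then 0 else if 0 ≤ arg (z i.succ / z 0) then 1
    else if -(2 * Real.pi / 3) ≤ arg (z i.succ / z 0) then 2 else 3
  obtain ⟨i, j, hij, hf⟩ := Fintype.exists_ne_map_eq_of_card_lt f (by simp)
  have h1 := hlt i.succ j.succ (fun h => hij (Fin.succ_injective _ h))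
  have h2 := hlt i.succ 0 (Fin.succ_ne_zero i)
  have h3 := hlt j.succ 0 (Fin.succ_ne_zero j)
  rw [a0, sub_zero] at h2 h3
  have b1 := arg_le_pi (z i.succ / z 0)
  have b2 := neg_pi_lt_arg (z i.succ / z 0)
  have b3 := arg_le_pi (z j.succ / z 0)
  have b4 := neg_pi_lt_arg (z j.succ / z 0)
  have hpi := Real.pi_pos
  simp only [f] at hf
  generalize arg (z i.succ / z 0) = x at *
  generalize arg (z j.succ / z 0) = y at *
  rw [lt_abs] at h1 h2 h3
  split_ifs at hf <;> first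
    | exact absurd hf (by decide)
    | (rcases h1 with h1 | h1 <;> rcases h2 with h2 | h2 <;> rcases h3 with h3 | h3 <;> linarith)

lemma six_plane (c : Plane) (z : Fin 6 → Plane) (h0 : ∀ i, z i ≠ c) :
    ∃ i j, i ≠ j ∧ dist (z i) (z j) ≤ max (dist (z i) c) (dist (z j) c) := by
  let e := Complex.orthonormalBasisOneI.repr.symm
  obtain ⟨i, j, hij, h⟩ := six_complex (fun i => e (z i - c))
    (fun i => by simpa [sub_eq_zero] using h0 i)
  refine ⟨i, j, hij, ?_⟩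
  rw [← map_sub, e.norm_map, e.norm_map, e.norm_map, sub_sub_sub_cancel_right] at h
  rwa [dist_eq_norm, dist_eq_norm, dist_eq_norm]

variable {V : Type*} {G : SimpleGraph V}

/-- in a greedy drawing a vertex is closer to one of two separating vertices than to any vertex
on the other side -/
lemma IsGreedyDrawing.hub [Finite V] {p : V → Plane} (hp : IsGreedyDrawing G p) {a b t : V}
    (s : V) (hs : ¬ Rch G {a, b}ᶜ s t) (hsm : s ∈ ({a, b} : Set V)ᶜ) :
    min (dist (p a) (p t)) (dist (p b) (p t)) < dist (p s) (p t) := by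
  induction s using (Finite.wellFounded_of_trans_of_irrefl
    (fun x y : V => dist (p x) (p t) < dist (p y) (p t))).induction with
  | _ s ih =>
    obtain ⟨u, hsu, hu⟩ := hp.2 s t (fun h => hs (h ▸ Rch.refl _))
    by_cases hum : u ∈ ({a, b} : Set V)ᶜ
    · exact (ih u hu (fun h => hs (Rch.head hsu hsm hum h)) hum).trans hu
    · rcases not_not.1 hum with h | h
      · exact lt_of_le_of_lt (min_le_left _ _) (h ▸ hu)
      · exact lt_of_le_of_lt (min_le_right _ _) ((show u = b from h) ▸ hu)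

lemma IsGreedyDrawing.not_eleven [Finite V] {p : V → Plane} (hp : IsGreedyDrawing G p) {a b : V}
    (t : Fin 11 → V) (hm : ∀ i, t i ∈ ({a, b} : Set V)ᶜ)
    (ht : ∀ i j, i ≠ j → ¬ Rch G {a, b}ᶜ (t i) (t j)) : False := by
  classical
  let f : Fin 11 → Bool := fun i => decide (dist (p a) (p (t i)) ≤ dist (p b) (p (t i)))
  obtain ⟨y, hy⟩ := Fintype.exists_lt_card_fiber_of_mul_lt_card f (n := 5) (by simp)
  obtain ⟨s, hs, hc⟩ := Finset.exists_subset_card_eq (n := 6) hy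
  let g : Fin 6 ↪o Fin 11 := s.orderEmbOfFin hc
  have hg : ∀ i, f (g i) = y := fun i =>
    (Finset.mem_filter.1 (hs (s.orderEmbOfFin_mem hc i))).2
  obtain ⟨c, hc1, hc2⟩ : ∃ c : V, c ∈ ({a, b} : Set V) ∧ ∀ i,
      min (dist (p a) (p (t (g i)))) (dist (p b) (p (t (g i)))) = dist (p (t (g i))) (p c) := by
    cases y
    · refine ⟨b, Or.inr rfl, fun i => ?_⟩
      have := hg i
      simp only [f, decide_eq_false_iff_not, not_le] at this
      rw [min_eq_right this.le, dist_comm]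
    · refine ⟨a, Or.inl rfl, fun i => ?_⟩
      have := hg i
      simp only [f, decide_eq_true_eq] at this
      rw [min_eq_left this, dist_comm]
  obtain ⟨i, j, hij, h⟩ := six_plane (p c) (fun i => p (t (g i)))
    (fun i h => hm (g i) (hp.1 h ▸ hc1))
  have h1 := hp.hub (t (g i)) (ht _ _ (g.injective.ne hij)) (hm _)
  have h2 := hp.hub (t (g j)) (ht _ _ (g.injective.ne hij.symm)) (hm _)
  rw [hc2] at h1 h2
  rw [dist_comm (p (t (g j))) (p (t (g i)))] at h2
  exact absurd h (not_le.2 (max_lt h2 h1))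

end Pool.Agent.MP_06c78e_co

end

-- part MP_06c78e_co.Ten
section

set_option autoImplicit false

namespace Pool.Agent.MP_06c78e_co

variable {V : Type*} {G : SimpleGraph V}

lemma Lin.symm {S : Set V} {s t : V} (h : Lin G S s t) : Lin G S t s := by
  obtain ⟨hs, ht, p, h1, h2, h3⟩ := h
  refine ⟨ht, hs, fun v => -p v, fun x hx y hy h => h1 hx hy (neg_injective h),
    fun x hx => ⟨neg_le_neg (h2 x hx).2, neg_le_neg (h2 x hx).1⟩, fun x hx y hy h => ?_⟩
  obtain ⟨u, hu, h4, h5⟩ := h3 x hx y hy h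
  refine ⟨u, hu, h4, ?_⟩
  rwa [neg_sub_neg, neg_sub_neg, abs_sub_comm (p y), abs_sub_comm (p y)]

/-- a line drawing squeezed into the interval from `1` to `11/10` -/
structure Ray (G : SimpleGraph V) (S : Set V) (f l : V) (r : V → ℝ) : Prop where
  hf : f ∈ S
  hl : l ∈ S
  lo : ∀ v ∈ S, 1 ≤ r v
  hi : ∀ v ∈ S, r v ≤ 11 / 10
  first : ∀ v ∈ S, r f ≤ r v
  inw : ∀ v ∈ S, v ≠ f → ∃ u ∈ S, G.Adj v u ∧ r u < r v
  outw : ∀ v ∈ S, v ≠ l → ∃ u ∈ S, G.Adj v u ∧ r v < r u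
  greedy : ∀ x ∈ S, ∀ y ∈ S, x ≠ y → ∃ u ∈ S, G.Adj x u ∧ (r u - r y) ^ 2 < (r x - r y) ^ 2

lemma Lin.ray {S : Set V} {s t : V} (h : Lin G S s t) : ∃ r, Ray G S s t r := by
  obtain ⟨hs, ht, p, -, h2, h3⟩ := h
  have h0 := (h2 s hs).2
  obtain ⟨k, hk0, hk⟩ : ∃ k : ℝ, 0 < k ∧ k * (p t - p s) ≤ 1 / 10 := by
    refine ⟨1 / (10 * (p t - p s + 1)), by positivity, ?_⟩
    rw [div_mul_eq_mul_div, div_le_div_iff₀ (by positivity) (by norm_num)]
    linarith
  refine ⟨fun v => 1 + k * (p v - p s), hs, ht, fun v hv => ?_, fun v hv => ?_, fun v hv => ?_,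
    fun v hv h => ?_, fun v hv h => ?_, fun x hx y hy h => ?_⟩
  · nlinarith [(h2 v hv).1]
  · nlinarith [(h2 v hv).2]
  · nlinarith [(h2 v hv).1]
  · obtain ⟨u, hu, h4, h5⟩ := h3 v hv s hs h
    rw [abs_of_nonneg (by linarith [(h2 u hu).1]), abs_of_nonneg (by linarith [(h2 v hv).1])] at h5
    exact ⟨u, hu, h4, by nlinarith⟩
  · obtain ⟨u, hu, h4, h5⟩ := h3 v hv t ht h
    rw [abs_of_nonpos (by linarith [(h2 u hu).2]), abs_of_nonpos (by linarith [(h2 v hv).2])] at h5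
    exact ⟨u, hu, h4, by nlinarith⟩
  · obtain ⟨u, hu, h4, h5⟩ := h3 x hx y hy h
    refine ⟨u, hu, h4, ?_⟩
    have h6 := sq_lt_sq.2 h5
    have h7 : 0 < k ^ 2 := by positivity
    nlinarith

noncomputable def ux : Fin 5 → ℝ := ![1, 7 / 25, -4 / 5, -4 / 5, 7 / 25]
noncomputable def uy : Fin 5 → ℝ := ![0, 24 / 25, 3 / 5, -3 / 5, -24 / 25]

lemma u_norm (j : Fin 5) : ux j ^ 2 + uy j ^ 2 = 1 := by
  fin_cases j <;> simp [ux, uy] <;> norm_num

lemma u_inner {j j' : Fin 5} (h : j ≠ j') : ux j * ux j' + uy j * uy j' ≤ 2 / 5 := by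
  fin_cases j <;> fin_cases j' <;> first | exact absurd rfl h | (simp [ux, uy]; try norm_num)

lemma u_side (j : Fin 5) : 7 / 25 ≤ ux j ∨ ux j ≤ -4 / 5 := by
  fin_cases j <;> (simp [ux]; try norm_num)

/-- the point at distance `r` from the hub `σ` on its ray `j` -/
noncomputable def pos (σ : Bool) (r : ℝ) (j : Fin 5) : Plane :=
  if σ then !₂[r * ux j, r * uy j] else !₂[10 - r * ux j, -(r * uy j)]

lemma dist_pos_same (σ : Bool) (r r' : ℝ) (j j' : Fin 5) : dist (pos σ r j) (pos σ r' j') =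
    √(r ^ 2 + r' ^ 2 - 2 * r * r' * (ux j * ux j' + uy j * uy j')) := by
  have h1 := u_norm j
  have h2 := u_norm j'
  rw [EuclideanSpace.dist_eq]
  congr 1
  cases σ <;> simp [pos, Fin.sum_univ_two, Real.dist_eq] <;>
    linear_combination r ^ 2 * h1 + r' ^ 2 * h2

lemma dist_pos_other (σ : Bool) (r r' : ℝ) (j j' : Fin 5) : dist (pos σ r j) (pos (!σ) r' j') =
    √(r ^ 2 + r' ^ 2 + 100 + 2 * r * r' * (ux j * ux j' + uy j * uy j')
      - 20 * r * ux j - 20 * r' * ux j') := by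
  have h1 := u_norm j
  have h2 := u_norm j'
  rw [EuclideanSpace.dist_eq]
  congr 1
  cases σ <;> simp [pos, Fin.sum_univ_two, Real.dist_eq] <;>
    linear_combination r ^ 2 * h1 + r' ^ 2 * h2

lemma u_inner_abs (j j' : Fin 5) :
    -1 ≤ ux j * ux j' + uy j * uy j' ∧ ux j * ux j' + uy j * uy j' ≤ 1 := by
  have h1 := u_norm j
  have h2 := u_norm j'
  constructor
  · nlinarith [sq_nonneg (ux j + ux j'), sq_nonneg (uy j + uy j')]
  · nlinarith [sq_nonneg (ux j - ux j'), sq_nonneg (uy j - uy j')]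

lemma ux_le (j : Fin 5) : ux j ≤ 1 := by nlinarith [u_norm j, sq_nonneg (uy j)]

lemma dist_lt_of {x y z w : Plane} {A B : ℝ} (h1 : dist x y = √A) (h2 : dist z w = √B)
    (h : A < B) (hB : 0 < B) : dist x y < dist z w := by
  rw [h1, h2]; exact (Real.sqrt_lt_sqrt_iff_of_pos hB).2 h

lemma near_lt_far (σ : Bool) {r r₁ r' : ℝ} (j j₁ j' : Fin 5) (h0 : 0 ≤ r) (h1 : r ≤ 11 / 10)
    (a0 : 0 ≤ r₁) (a1 : r₁ ≤ 11 / 10) (b0 : 0 ≤ r') (b1 : r' ≤ 11 / 10) :
    dist (pos (!σ) r₁ j₁) (pos (!σ) r' j') < dist (pos σ r j) (pos (!σ) r' j') := by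
  have c1 := u_inner_abs j₁ j'
  have c2 := u_inner_abs j j'
  have c3 := ux_le j
  have c4 := ux_le j'
  have d1 : r₁ * r' ≤ 2 := by nlinarith
  have d2 : r * r' ≤ 2 := by nlinarith
  have d3 : 0 ≤ r₁ * r' := by positivity
  have d4 : 0 ≤ r * r' := by positivity
  have e1 : r₁ ^ 2 + r' ^ 2 - 2 * r₁ * r' * (ux j₁ * ux j' + uy j₁ * uy j') ≤ 8 := by nlinarith
  have e2 : 50 ≤ r ^ 2 + r' ^ 2 + 100 + 2 * r * r' * (ux j * ux j' + uy j * uy j')
      - 20 * r * ux j - 20 * r' * ux j' := by nlinarith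
  exact dist_lt_of (dist_pos_same _ _ _ _ _) (dist_pos_other _ _ _ _ _) (by linarith) (by linarith)

lemma far_pos {r r' : ℝ} (j j' : Fin 5) (h0 : 0 ≤ r) (h1 : r ≤ 11 / 10)
    (b0 : 0 ≤ r') (b1 : r' ≤ 11 / 10) :
    0 < r ^ 2 + r' ^ 2 + 100 + 2 * r * r' * (ux j * ux j' + uy j * uy j')
      - 20 * r * ux j - 20 * r' * ux j' := by
  have c2 := u_inner_abs j j'
  have c3 := ux_le j
  have c4 := ux_le j'
  have d2 : r * r' ≤ 2 := by nlinarith
  have d4 : 0 ≤ r * r' := by positivity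
  nlinarith

lemma far_inw (σ : Bool) {r r₁ r' : ℝ} {j : Fin 5} (j' : Fin 5) (hj : ux j ≤ -4 / 5)
    (h1 : r ≤ 11 / 10) (a0 : 0 ≤ r₁) (a1 : r₁ < r) (b0 : 0 ≤ r') (b1 : r' ≤ 11 / 10) :
    dist (pos σ r₁ j) (pos (!σ) r' j') < dist (pos σ r j) (pos (!σ) r' j') := by
  refine dist_lt_of (dist_pos_other _ _ _ _ _) (dist_pos_other _ _ _ _ _) ?_
    (far_pos j j' (by linarith) h1 b0 b1)
  have c2 := u_inner_abs j j'
  have : 0 < r + r₁ + 2 * r' * (ux j * ux j' + uy j * uy j') - 20 * ux j := by nlinarith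
  nlinarith [mul_pos (sub_pos.2 a1) this]

lemma far_outw (σ : Bool) {r r₁ r' : ℝ} {j : Fin 5} (j' : Fin 5) (hj : 7 / 25 ≤ ux j)
    (h0 : 0 ≤ r) (a0 : r < r₁) (a1 : r₁ ≤ 11 / 10) (b0 : 0 ≤ r') (b1 : r' ≤ 11 / 10) :
    dist (pos σ r₁ j) (pos (!σ) r' j') < dist (pos σ r j) (pos (!σ) r' j') := by
  refine dist_lt_of (dist_pos_other _ _ _ _ _) (dist_pos_other _ _ _ _ _) ?_
    (far_pos j j' h0 (by linarith) b0 b1)
  have c2 := u_inner_abs j j'
  have : 0 < -(r + r₁ + 2 * r' * (ux j * ux j' + uy j * uy j') - 20 * ux j) := by nlinarith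
  nlinarith [mul_pos (sub_pos.2 a0) this]

lemma same_ray (σ : Bool) {r r₁ r' : ℝ} (j : Fin 5) (h : (r₁ - r') ^ 2 < (r - r') ^ 2) :
    dist (pos σ r₁ j) (pos σ r' j) < dist (pos σ r j) (pos σ r' j) := by
  have h1 := u_norm j
  have e : ux j * ux j + uy j * uy j = 1 := by linarith
  refine dist_lt_of (dist_pos_same _ _ _ _ _) (dist_pos_same _ _ _ _ _) ?_ ?_ <;> rw [e] <;>
    nlinarith [sq_nonneg (r₁ - r')]

lemma near_inw (σ : Bool) {r r₁ r' : ℝ} {j j' : Fin 5} (hj : j ≠ j')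
    (h0 : 1 ≤ r) (a0 : 0 ≤ r₁) (a1 : r₁ < r) (b0 : 0 ≤ r') (b1 : r' ≤ 11 / 10) :
    dist (pos σ r₁ j) (pos σ r' j') < dist (pos σ r j) (pos σ r' j') := by
  have c1 := u_inner hj
  have : 0 < r + r₁ - 2 * r' * (ux j * ux j' + uy j * uy j') := by nlinarith
  refine dist_lt_of (dist_pos_same _ _ _ _ _) (dist_pos_same _ _ _ _ _) ?_ ?_
  · nlinarith [mul_pos (sub_pos.2 a1) this]
  · have d4 : 0 ≤ r * r' := by positivity
    nlinarith [sq_nonneg (r - r')]

lemma pos_zero (σ : Bool) (j j' : Fin 5) : pos σ 0 j = pos σ 0 j' := by simp [pos]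

theorem ten_rays {ι : Type*} (hub : Bool → V) (P : ι → Set V) (σ : ι → Bool) (j : ι → Fin 5)
    (f l : ι → V) (r : ι → V → ℝ) (hne : hub true ≠ hub false)
    (hinj : ∀ i i', σ i = σ i' → j i = j i' → i = i') (hsurj : ∀ τ, ∃ i, σ i = τ)
    (hray : ∀ i, Ray G (P i) (f i) (l i) (r i)) (hf : ∀ i, G.Adj (hub (σ i)) (f i))
    (hl : ∀ i, G.Adj (hub (!σ i)) (l i)) (hcov : ∀ v, (∃ τ, v = hub τ) ∨ ∃ i, v ∈ P i)
    (hhub : ∀ τ i, hub τ ∉ P i) (hdis : ∀ i i' v, v ∈ P i → v ∈ P i' → i = i') :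
    ∃ p : V → Plane, IsGreedyDrawing G p := by
  classical
  obtain ⟨p, p1, p2⟩ : ∃ p : V → Plane, (∀ i, ∀ v ∈ P i, p v = pos (σ i) (r i v) (j i)) ∧
      ∀ τ k, p (hub τ) = pos τ 0 k := by
    refine ⟨fun v => if h : ∃ i, v ∈ P i then pos (σ h.choose) (r h.choose v) (j h.choose)
      else if v = hub true then pos true 0 0 else pos false 0 0, fun i v hv => ?_, fun τ k => ?_⟩
    · have h : ∃ i, v ∈ P i := ⟨i, hv⟩
      simp only [dif_pos h]
      rw [hdis _ _ v h.choose_spec hv]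
    · have h : ¬ ∃ i, hub τ ∈ P i := fun ⟨i, hi⟩ => hhub τ i hi
      simp only [dif_neg h]
      cases τ
      · rw [if_neg hne.symm, pos_zero]
      · rw [if_pos rfl, pos_zero]
  have lab : ∀ t, ∃ τ r' k, p t = pos τ r' k ∧ 0 ≤ r' ∧ r' ≤ 11 / 10 ∧
      (t = hub τ ∧ r' = 0 ∨ ∃ i, t ∈ P i ∧ σ i = τ ∧ r' = r i t ∧ k = j i) := by
    intro t
    rcases hcov t with ⟨τ, rfl⟩ | ⟨i, hi⟩
    · exact ⟨τ, 0, 0, p2 τ 0, le_rfl, by norm_num, Or.inl ⟨rfl, rfl⟩⟩
    · exact ⟨σ i, r i t, j i, p1 i t hi, by linarith [(hray i).lo t hi], (hray i).hi t hi,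
        Or.inr ⟨i, hi, rfl, rfl, rfl⟩⟩
  have key : ∀ s t : V, s ≠ t → ∃ u : V, G.Adj s u ∧ dist (p u) (p t) < dist (p s) (p t) := by
    intro s t hst
    obtain ⟨τ, r', k, ht, b0, b1, hc⟩ := lab t
    rcases hcov s with ⟨ρ, rfl⟩ | ⟨i, hi⟩
    · by_cases hρ : τ = ρ
      · subst hρ
        rcases hc with ⟨h, -⟩ | ⟨i, hi, rfl, rfl, rfl⟩
        · exact absurd h.symm hst
        · refine ⟨f i, hf i, ?_⟩
          rw [p1 i _ (hray i).hf, ht, p2 _ (j i)]
          have := (hray i).lo _ (hray i).hf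
          have := (hray i).first t hi
          exact same_ray _ _ (by nlinarith)
      · obtain rfl : τ = !ρ := by cases τ <;> cases ρ <;> simp_all
        obtain ⟨i, hi⟩ := hsurj (!ρ)
        refine ⟨l i, by simpa [hi] using hl i, ?_⟩
        rw [p1 i _ (hray i).hl, ht, p2 _ 0, hi]
        exact near_lt_far _ _ _ _ le_rfl (by norm_num)
          (by linarith [(hray i).lo _ (hray i).hl]) ((hray i).hi _ (hray i).hl) b0 b1
    · have s0 := (hray i).lo s hi
      have s1 := (hray i).hi s hi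
      obtain ⟨u, hsu, r₁, hu, u0, u1⟩ : ∃ u, G.Adj s u ∧ ∃ r₁, p u = pos (σ i) r₁ (j i) ∧
          0 ≤ r₁ ∧ r₁ < r i s := by
        by_cases h : s = f i
        · exact ⟨hub (σ i), h ▸ (hf i).symm, 0, p2 _ _, le_rfl, by linarith⟩
        · obtain ⟨u, hu, h1, h2⟩ := (hray i).inw s hi h
          exact ⟨u, h1, r i u, p1 i u hu, by linarith [(hray i).lo u hu], h2⟩
      by_cases hρ : τ = σ i
      · subst hρ
        rcases hc with ⟨h, rfl⟩ | ⟨i', hi', h1, rfl, rfl⟩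
        · refine ⟨u, hsu, ?_⟩
          rw [hu, p1 i s hi, h, p2 _ (j i)]
          exact same_ray _ _ (by nlinarith)
        · by_cases hii : i' = i
          · subst hii
            obtain ⟨w, hw, h2, h3⟩ := (hray i').greedy s hi t hi' hst
            refine ⟨w, h2, ?_⟩
            rw [p1 i' w hw, p1 i' s hi, ht]
            exact same_ray _ _ h3
          · refine ⟨u, hsu, ?_⟩
            rw [hu, p1 i s hi, ht]
            exact near_inw _ (fun h => hii (hinj _ _ h1 h.symm)) s0 u0 u1 b0 b1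
      · obtain rfl : τ = !σ i := by cases τ <;> cases h : σ i <;> simp_all
        rcases u_side (j i) with hj | hj
        · by_cases h : s = l i
          · refine ⟨hub (!σ i), h ▸ (hl i).symm, ?_⟩
            rw [p2 _ 0, p1 i s hi, ht]
            exact near_lt_far _ _ _ _ (by linarith) s1 le_rfl (by norm_num) b0 b1
          · obtain ⟨w, hw, h1, h2⟩ := (hray i).outw s hi h
            refine ⟨w, h1, ?_⟩
            rw [p1 i w hw, p1 i s hi, ht]
            exact far_outw _ _ hj (by linarith) h2 ((hray i).hi w hw) b0 b1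
        · refine ⟨u, hsu, ?_⟩
          rw [hu, p1 i s hi, ht]
          exact far_inw _ _ hj s1 u0 u1 b0 b1
  refine ⟨p, fun x y h => by_contra fun hxy => ?_, key⟩
  obtain ⟨u, -, h1⟩ := key x y hxy
  rw [h, dist_self] at h1
  exact absurd h1 (not_lt.2 dist_nonneg)

end Pool.Agent.MP_06c78e_co

end

-- part MP_06c78e_co.Hubs
section

set_option autoImplicit false

namespace Pool.Agent.MP_06c78e_co

variable {V : Type*} {G : SimpleGraph V}

lemma rch_of_walk {T : Set V} {x y : V} (w : G.Walk x y) (h : ∀ u ∈ w.support, u ∈ T) :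
    Rch G T x y := by
  induction w with
  | nil => exact Rch.refl _
  | cons h1 w ih =>
    exact Rch.head h1 (h _ (by simp)) (h _ (by simp)) (ih fun u hu => h u (by simp [hu]))

lemma IsChain.chain {C : Set V} {x y : V} (h : IsChain G C x y) (hne : C.Nonempty) :
    Chain G C x y := by
  classical
  obtain ⟨v₀, hv₀⟩ := hne
  obtain ⟨w₀, -, -, h₀⟩ := h v₀ hv₀
  refine ⟨h₀ _ w₀.start_mem_support, h₀ _ w₀.end_mem_support, rch_of_walk w₀ h₀,
    fun c v hv hvc => ?_⟩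
  obtain ⟨w, hw, hvw, hC⟩ := h v hv
  by_cases h1 : c ∈ (w.takeUntil v hvw).support
  · right
    refine rch_of_walk (w.dropUntil v hvw) (fun u hu =>
      ⟨hC u (w.support_dropUntil_subset_support hvw hu), ?_⟩)
    rintro rfl
    have h2 := hw.support_nodup
    rw [← w.take_spec hvw, SimpleGraph.Walk.support_append, List.nodup_append] at h2
    rw [← SimpleGraph.Walk.cons_tail_support, List.mem_cons] at hu
    rcases hu with hu | hu
    · exact hvc hu.symm
    · exact h2.2.2 _ h1 _ hu rfl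
  · left
    refine Rch.symm (rch_of_walk (w.takeUntil v hvw) (fun u hu =>
      ⟨hC u (w.support_takeUntil_subset_support hvw hu), ?_⟩))
    rintro rfl
    exact h1 hu

lemma mem_piece {a b v : V} {c : Comp G a b} : v ∈ Piece G a b c ↔
    ∃ h : v ∈ ({a, b} : Set V)ᶜ, (G.induce {a, b}ᶜ).connectedComponentMk ⟨v, h⟩ = c := by
  constructor
  · rintro ⟨⟨u, hu⟩, h, rfl⟩; exact ⟨hu, h⟩
  · rintro ⟨h, h'⟩; exact ⟨⟨v, h⟩, h', rfl⟩

lemma piece_nonempty {a b : V} (c : Comp G a b) : (Piece G a b c).Nonempty := by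
  obtain ⟨v, hv⟩ := c.exists_rep
  exact ⟨v, mem_piece.2 ⟨v.2, hv⟩⟩

lemma piece_sub {a b : V} (c : Comp G a b) : Piece G a b c ⊆ {a, b}ᶜ :=
  fun _ h => (mem_piece.1 h).1

lemma piece_unique {a b v : V} {c c' : Comp G a b} (h : v ∈ Piece G a b c)
    (h' : v ∈ Piece G a b c') : c = c' := by
  obtain ⟨_, h⟩ := mem_piece.1 h
  obtain ⟨_, h'⟩ := mem_piece.1 h'
  exact h.symm.trans h'

lemma piece_cover (a b v : V) : v = a ∨ v = b ∨ ∃ c, v ∈ Piece G a b c := by
  by_cases h : v ∈ ({a, b} : Set V)ᶜ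
  · exact Or.inr (Or.inr ⟨_, mem_piece.2 ⟨h, rfl⟩⟩)
  · rcases not_not.1 h with h | h
    · exact Or.inl h
    · exact Or.inr (Or.inl h)

lemma IsSepPair.nontrivial {a b : V} (h : IsSepPair G a b) : Nontrivial (Comp G a b) := by
  have h1 := h.2
  unfold SimpleGraph.Preconnected at h1
  push Not at h1
  obtain ⟨u, v, huv⟩ := h1
  exact ⟨_, _, fun hh => huv (SimpleGraph.ConnectedComponent.exact hh)⟩

theorem card_comp_le [Finite V] {p : V → Plane} (hp : IsGreedyDrawing G p) (a b : V) :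
    Nat.card (Comp G a b) ≤ 10 := by
  by_contra hcon
  have := Fintype.ofFinite (Comp G a b)
  obtain ⟨e⟩ : Nonempty (Fin 11 ↪ Comp G a b) := Function.Embedding.nonempty_of_card_le
    (by rw [Fintype.card_fin, Fintype.card_eq_nat_card]; omega)
  choose t ht using fun i => piece_nonempty (e i)
  refine hp.not_eleven t (fun i => piece_sub _ (ht i)) (fun i j hij h => hij (e.injective ?_))
  obtain ⟨h1, h2⟩ := mem_piece.1 (ht i)
  obtain ⟨h3, h4⟩ := mem_piece.1 (ht j)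
  rw [← h2, ← h4]
  exact SimpleGraph.ConnectedComponent.sound (reachable_of_rch h h1 h3)

theorem greedy_of_lin [Finite V] {a b : V} (hab : IsSepPair G a b)
    (hcard : Nat.card (Comp G a b) ≤ 10)
    (h : ∀ c, ∃ x y, G.Adj a x ∧ G.Adj b y ∧ Lin G (Piece G a b c) x y) :
    ∃ p : V → Plane, IsGreedyDrawing G p := by
  have := hab.nontrivial
  have h2 : 1 < Nat.card (Comp G a b) := Finite.one_lt_card
  let e := Finite.equivFin (Comp G a b)
  let σ : Comp G a b → Bool := fun c => decide ((e c : ℕ) % 2 = 0)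
  let j : Comp G a b → Fin 5 := fun c => ⟨e c / 2, by have := (e c).2; omega⟩
  let hub : Bool → V := fun τ => if τ then a else b
  have h3 : ∀ c, ∃ f l r, G.Adj (hub (σ c)) f ∧ G.Adj (hub (!σ c)) l ∧
      Ray G (Piece G a b c) f l r := by
    intro c
    obtain ⟨x, y, hx, hy, hl⟩ := h c
    cases σ c
    · obtain ⟨r, hr⟩ := hl.symm.ray
      exact ⟨y, x, r, hy, hx, hr⟩
    · obtain ⟨r, hr⟩ := hl.ray
      exact ⟨x, y, r, hx, hy, hr⟩
  choose f l r hf hl hr using h3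
  refine ten_rays hub (Piece G a b) σ j f l r hab.1 (fun c c' h1 h2 => e.injective (Fin.ext ?_))
    (fun τ => ?_) hr hf hl (fun v => ?_) (fun τ c hc => piece_sub c hc ?_)
    (fun c c' v => piece_unique)
  · have h3 : (e c : ℕ) / 2 = (e c' : ℕ) / 2 := congrArg Fin.val h2
    have h4 : (e c : ℕ) % 2 = 0 ↔ (e c' : ℕ) % 2 = 0 := by simpa [σ] using h1
    omega
  · cases τ
    · exact ⟨e.symm ⟨1, h2⟩, by simp [σ]⟩
    · exact ⟨e.symm ⟨0, by omega⟩, by simp [σ]⟩
  · rcases piece_cover (G := G) a b v with h | h | h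
    · exact Or.inl ⟨true, h⟩
    · exact Or.inl ⟨false, h⟩
    · exact Or.inr h
  · cases τ
    · exact Or.inr rfl
    · exact Or.inl rfl

theorem lin_piece [Finite V] {a b : V} (hab : IsSepPair G a b) (hG : Good G {a, b}ᶜ)
    (h : ∀ c, ∃ x y, G.Adj a x ∧ G.Adj b y ∧ IsChain G (Piece G a b c) x y) (c : Comp G a b) :
    ∃ x y, G.Adj a x ∧ G.Adj b y ∧ Lin G (Piece G a b c) x y := by
  have := hab.nontrivial
  have ha : a ∉ Piece G a b c := fun hh => piece_sub c hh (Or.inl rfl)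
  have hb : b ∉ Piece G a b c := fun hh => piece_sub c hh (Or.inr rfl)
  have hsub : ∀ c', c' ≠ c → Piece G a b c' ⊆ (Piece G a b c)ᶜ :=
    fun c' hc v hv hv' => hc (piece_unique hv hv')
  have key : ∀ c', c' ≠ c → ∀ v ∈ Piece G a b c', Rch G (Piece G a b c)ᶜ v a := by
    intro c' hc v hv
    obtain ⟨x, y, hx, -, hch⟩ := h c'
    have h1 := hch.chain (piece_nonempty c')
    exact ((h1.conn v hv x h1.hs).mono (hsub c' hc)).trans
      (Rch.single hx.symm (hsub c' hc h1.hs) ha)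
  have hZ : Conn G (Piece G a b c)ᶜ := by
    refine conn_of_root (t := a) (fun v hv => ?_)
    rcases piece_cover (G := G) a b v with h1 | h1 | ⟨c', h1⟩
    · rw [h1]; exact Rch.refl _
    · obtain ⟨c', hc⟩ := exists_ne c
      obtain ⟨x, y, -, hy, hch⟩ := h c'
      have h2 := (hch.chain (piece_nonempty c')).ht
      rw [h1]
      exact Rch.head hy hb (hsub c' hc h2) (key c' hc y h2)
    · exact key c' (fun hh => hv (hh ▸ h1)) v h1
  obtain ⟨x, y, hx, hy, hch⟩ := h c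
  exact ⟨x, y, hx, hy, hG.lin _ _ (piece_sub c) (Nat.lt_succ_self _) x y
    (hch.chain (piece_nonempty c)) hZ ⟨a, ha, hx.symm⟩ ⟨b, hb, hy.symm⟩⟩

end Pool.Agent.MP_06c78e_co

end
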