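import Pool.Agent.MP_06c78e_co.Defs

-- part MP_06c78e_co.Lin
section

set_option autoImplicit false

namespace Pool.Agent.MP_06c78e_co

variable {V : Type*} (G : SimpleGraph V)

/-- `S` has a greedy placement on the real line with first vertex `s` and last vertex `t`. -/
def Lin (S : Set V) (s t : V) : Prop :=
  s ∈ S ∧ t ∈ S ∧ ∃ p : V → ℝ, Set.InjOn p S ∧ (∀ x ∈ S, p s ≤ p x ∧ p x ≤ p t) ∧
    ∀ x ∈ S, ∀ y ∈ S, x ≠ y → ∃ u ∈ S, G.Adj x u ∧ |p u - p y| < |p x - p y|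

variable {G}

lemma lin_single (s : V) : Lin G {s} s s := by
  refine ⟨rfl, rfl, fun _ => 0, ?_, by simp, ?_⟩
  · intro x hx y hy _; rw [hx, hy]
  · intro x hx y hy h; exact absurd (hx.trans hy.symm) h

lemma lin_join {L R : Set V} {s a b t : V} (hL : Lin G L s a) (hR : Lin G R b t)
    (hd : Disjoint L R) (ha : ∃ y ∈ R, G.Adj a y) (hb : ∃ y ∈ L, G.Adj b y) :
    Lin G (L ∪ R) s t := by
  classical
  obtain ⟨hs, ha', p, hp1, hp2, hp3⟩ := hL
  obtain ⟨hb', ht, q, hq1, hq2, hq3⟩ := hR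
  have hLR : ∀ x ∈ R, x ∉ L := fun x hx h => Set.disjoint_left.1 hd h hx
  obtain ⟨c, hc⟩ : ∃ c : ℝ, c = p a - q b + (p a - p s) + (q t - q b) + 1 := ⟨_, rfl⟩
  have h1 := hp2 s hs
  have h2 := hq2 b hb'
  obtain ⟨f, hf1, hf2⟩ : ∃ f : V → ℝ, (∀ x ∈ L, f x = p x) ∧ ∀ x ∈ R, f x = q x + c :=
    ⟨fun x => if x ∈ L then p x else q x + c, fun x hx => if_pos hx, fun x hx => if_neg (hLR x hx)⟩
  refine ⟨Or.inl hs, Or.inr ht, f, ?_, ?_, ?_⟩
  · rintro x (hx | hx) y (hy | hy) h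
    · rw [hf1 x hx, hf1 y hy] at h; exact hp1 hx hy h
    · rw [hf1 x hx, hf2 y hy] at h
      linarith [(hp2 x hx).2, (hq2 y hy).1]
    · rw [hf2 x hx, hf1 y hy] at h
      linarith [(hp2 y hy).2, (hq2 x hx).1]
    · rw [hf2 x hx, hf2 y hy] at h; exact hq1 hx hy (by linarith)
  · rintro x (hx | hx)
    · rw [hf1 x hx, hf1 s hs, hf2 t ht]
      constructor <;> linarith [(hp2 x hx).2, (hp2 x hx).1]
    · rw [hf2 x hx, hf1 s hs, hf2 t ht]
      constructor <;> linarith [(hq2 x hx).2, (hq2 x hx).1]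
  · rintro x (hx | hx) y (hy | hy) h
    · obtain ⟨u, hu, h1, h2⟩ := hp3 x hx y hy h
      exact ⟨u, Or.inl hu, h1, by rwa [hf1 x hx, hf1 y hy, hf1 u hu]⟩
    · have hy1 := hq2 y hy
      have hx1 := hp2 x hx
      by_cases hxa : x = a
      · obtain ⟨u, hu, hau⟩ := ha
        have hu1 := hq2 u hu
        refine ⟨u, Or.inr hu, hxa ▸ hau, ?_⟩
        rw [hf2 u hu, hf2 y hy, hf1 x hx, abs_of_nonpos (a := p x - _) (by linarith), abs_lt]
        constructor <;> linarith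
      · obtain ⟨u, hu, h3, h4⟩ := hp3 x hx a ha' hxa
        have hu1 := hp2 u hu
        refine ⟨u, Or.inl hu, h3, ?_⟩
        rw [abs_of_nonpos (by linarith), abs_of_nonpos (by linarith)] at h4
        rw [hf1 u hu, hf2 y hy, hf1 x hx, abs_of_nonpos (by linarith), abs_of_nonpos (by linarith)]
        linarith
    · have hy1 := hp2 y hy
      have hx1 := hq2 x hx
      by_cases hxb : x = b
      · obtain ⟨u, hu, hbu⟩ := hb
        have hu1 := hp2 u hu
        refine ⟨u, Or.inl hu, hxb ▸ hbu, ?_⟩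
        rw [hf1 u hu, hf1 y hy, hf2 x hx, abs_of_nonneg (a := q x + c - _) (by linarith), abs_lt]
        constructor <;> linarith
      · obtain ⟨u, hu, h3, h4⟩ := hq3 x hx b hb' hxb
        have hu1 := hq2 u hu
        refine ⟨u, Or.inr hu, h3, ?_⟩
        rw [abs_of_nonneg (by linarith), abs_of_nonneg (by linarith)] at h4
        rw [hf2 u hu, hf1 y hy, hf2 x hx, abs_of_nonneg (by linarith), abs_of_nonneg (by linarith)]
        linarith
    · obtain ⟨u, hu, h1, h2⟩ := hq3 x hx y hy h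
      refine ⟨u, Or.inr hu, h1, ?_⟩
      rw [hf2 x hx, hf2 y hy, hf2 u hu]
      simpa using h2

lemma Lin.drawing {s t : V} (h : Lin G Set.univ s t) :
    ∃ p : V → Plane, IsGreedyDrawing G p ∧ ∀ v, p v 1 = 0 := by
  obtain ⟨-, -, p, hp1, -, hp3⟩ := h
  have hd : ∀ a b : ℝ, dist (!₂[a, 0] : Plane) (!₂[b, 0] : Plane) = |a - b| := by
    intro a b
    rw [EuclideanSpace.dist_eq]
    simp [Fin.sum_univ_two, Real.sqrt_sq_eq_abs, Real.dist_eq]
  refine ⟨fun v => !₂[p v, 0], ⟨fun x y h => hp1 trivial trivial ?_, fun x y h => ?_⟩,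
    fun v => by simp⟩
  · have := congrArg (fun z : Plane => z 0) h
    simpa using this
  · obtain ⟨u, -, h1, h2⟩ := hp3 x trivial y trivial h
    exact ⟨u, h1, by rw [hd, hd]; exact h2⟩

end Pool.Agent.MP_06c78e_co

end

-- part MP_06c78e_co.Frag
section

set_option autoImplicit false

namespace Pool.Agent.MP_06c78e_co

open Relation

variable {V : Type*} (G : SimpleGraph V)

/-- reachability inside a vertex set -/
def Rch (T : Set V) (x y : V) : Prop :=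
  ReflTransGen (fun a b => G.Adj a b ∧ a ∈ T ∧ b ∈ T) x y

/-- `T` is connected (possibly empty) -/
def Conn (T : Set V) : Prop := ∀ x ∈ T, ∀ y ∈ T, Rch G T x y

/-- `F` has no neighbour in `T` outside `F` except possibly `d` -/
def Closed (T F : Set V) (d : V) : Prop := ∀ x ∈ F, ∀ y ∈ T, G.Adj x y → y ∈ F ∨ y = d

/-- a connected piece of `T` cut off from the root `t` by the single vertex `d` -/
structure Frag (T : Set V) (t : V) (F : Set V) (d : V) : Prop where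
  sub : F ⊆ T
  ne : F.Nonempty
  hd : d ∉ F
  ht : t ∉ F
  cl : Closed G T F d
  conn : Conn G F

/-- `T` plus the edge `s t` is two-connected -/
structure Chain (T : Set V) (s t : V) : Prop where
  hs : s ∈ T
  ht : t ∈ T
  st : Rch G T s t
  two : ∀ c x, x ∈ T → x ≠ c → Rch G (T \ {c}) x s ∨ Rch G (T \ {c}) x t

variable {G}

namespace Rch

lemma refl {T : Set V} (x : V) : Rch G T x x := ReflTransGen.refl

lemma single {T : Set V} {x y : V} (h : G.Adj x y) (hx : x ∈ T) (hy : y ∈ T) : Rch G T x y :=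
  ReflTransGen.single ⟨h, hx, hy⟩

lemma trans {T : Set V} {x y z : V} (h : Rch G T x y) (h' : Rch G T y z) : Rch G T x z :=
  ReflTransGen.trans h h'

lemma head {T : Set V} {x y z : V} (h : G.Adj x y) (hx : x ∈ T) (hy : y ∈ T)
    (h' : Rch G T y z) : Rch G T x z := (single h hx hy).trans h'

lemma symm {T : Set V} {x y : V} (h : Rch G T x y) : Rch G T y x := by
  induction h with
  | refl => exact refl _
  | tail _ h2 ih => exact head h2.1.symm h2.2.2 h2.2.1 ih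

lemma mono {T T' : Set V} (hT : T ⊆ T') {x y : V} (h : Rch G T x y) : Rch G T' x y := by
  induction h with
  | refl => exact refl _
  | tail _ h2 ih => exact ih.trans (single h2.1 (hT h2.2.1) (hT h2.2.2))

lemma mem {T : Set V} {x y : V} (h : Rch G T x y) (hx : x ∈ T) : y ∈ T := by
  induction h with
  | refl => exact hx
  | tail _ h2 _ => exact h2.2.2

lemma head_ind {T : Set V} {y : V} {P : V → Prop} (h0 : P y)
    (h1 : ∀ a b, G.Adj a b → a ∈ T → b ∈ T → Rch G T b y → P b → P a) {x : V}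
    (h : Rch G T x y) : P x := by
  induction h using ReflTransGen.head_induction_on with
  | refl => exact h0
  | head h2 h3 ih => exact h1 _ _ h2.1 h2.2.1 h2.2.2 h3 ih

/-- a walk staying in a set that is closed under adjacency stays in it -/
lemma stay {T F : Set V} (hF : ∀ x ∈ F, ∀ y ∈ T, G.Adj x y → y ∈ F) {x y : V}
    (h : Rch G T x y) (hx : x ∈ F) : y ∈ F := by
  induction h with
  | refl => exact hx
  | tail _ h2 ih => exact hF _ ih _ h2.2.2 h2.1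

lemma exists_adj {T : Set V} {x y : V} (h : Rch G T x y) (hxy : x ≠ y) :
    ∃ z ∈ T, G.Adj x z ∧ Rch G T z y := by
  rcases ReflTransGen.cases_head h with h | ⟨z, h1, h2⟩
  · exact absurd h hxy
  · exact ⟨z, h1.2.2, h1.1, h2⟩

/-- last visit of `c` -/
lemma last_visit {T : Set V} {c y : V} (hy : y ≠ c) {x : V} (h : Rch G T x y) :
    (x ≠ c → Rch G (T \ {c}) x y ∨ ∃ z, G.Adj c z ∧ z ∈ T \ {c} ∧ Rch G (T \ {c}) z y) ∧
    (x = c → ∃ z, G.Adj c z ∧ z ∈ T \ {c} ∧ Rch G (T \ {c}) z y) := by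
  refine head_ind (P := fun x => (x ≠ c → Rch G (T \ {c}) x y ∨
    ∃ z, G.Adj c z ∧ z ∈ T \ {c} ∧ Rch G (T \ {c}) z y) ∧
    (x = c → ∃ z, G.Adj c z ∧ z ∈ T \ {c} ∧ Rch G (T \ {c}) z y))
    ⟨fun _ => Or.inl (refl _), fun h => absurd h hy⟩ ?_ h
  intro a b hab ha hb _ ih
  by_cases hbc : b = c
  · exact ⟨fun _ => Or.inr (ih.2 hbc), fun _ => ih.2 hbc⟩
  · rcases ih.1 hbc with h1 | h1
    · exact ⟨fun hac => Or.inl (head hab ⟨ha, hac⟩ ⟨hb, hbc⟩ h1),
        fun hac => ⟨b, hac ▸ hab, ⟨hb, hbc⟩, h1⟩⟩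
    · exact ⟨fun _ => Or.inr h1, fun _ => h1⟩

end Rch

lemma Closed.mono {T T' F : Set V} {d : V} (h : Closed G T F d) (hT : T' ⊆ T) :
    Closed G T' F d := fun x hx y hy => h x hx y (hT hy)

/-- walks to a vertex outside a closed set can be rerouted around it -/
lemma Closed.shortcut {T F : Set V} {d y : V} (hc : Closed G T F d) (hd : d ∉ F) (hy : y ∉ F)
    {x : V} (h : Rch G T x y) :
    (x ∉ F → Rch G (T \ F) x y) ∧ (x ∈ F → d ∈ T ∧ Rch G (T \ F) d y ∧ ∃ z ∈ F, G.Adj z d) := by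
  refine Rch.head_ind (P := fun x => (x ∉ F → Rch G (T \ F) x y) ∧
    (x ∈ F → d ∈ T ∧ Rch G (T \ F) d y ∧ ∃ z ∈ F, G.Adj z d))
    ⟨fun _ => Rch.refl _, fun h => absurd h hy⟩ ?_ h
  intro a b hab ha hb _ ih
  by_cases hbF : b ∈ F
  · refine ⟨fun haF => ?_, fun _ => ih.2 hbF⟩
    rcases hc b hbF a ha hab.symm with h1 | h1
    · exact absurd h1 haF
    · rw [h1]; exact (ih.2 hbF).2.1
  · refine ⟨fun haF => Rch.head hab ⟨ha, haF⟩ ⟨hb, hbF⟩ (ih.1 hbF), fun haF => ?_⟩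
    rcases hc a haF b hb hab with h1 | h1
    · exact absurd h1 hbF
    · subst h1; exact ⟨hb, ih.1 hbF, a, haF, hab⟩

lemma Closed.stay {T F : Set V} {d : V} (hc : Closed G T F d) {T' : Set V} (hT : T' ⊆ T)
    (hd : d ∉ T') {x y : V} (h : Rch G T' x y) (hx : x ∈ F) : y ∈ F :=
  Rch.stay (fun a ha b hb hab => (hc a ha b (hT hb) hab).resolve_right
    (fun h => hd (h ▸ hb))) h hx

lemma conn_of_root {T : Set V} {t : V} (h : ∀ x ∈ T, Rch G T x t) : Conn G T :=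
  fun x hx y hy => (h x hx).trans (h y hy).symm

lemma conn_comp (T : Set V) (x : V) : Conn G {y | Rch G T x y} := by
  refine conn_of_root (t := x) (fun y hy => Rch.symm ?_)
  have hy' : Rch G T x y := hy
  induction hy' with
  | refl => exact Rch.refl _
  | tail h1 h2 ih =>
    exact (ih h1).trans (Rch.single h2.1 h1 (ReflTransGen.tail h1 h2))

lemma frag_comp {T : Set V} {t d x : V} (hx : x ∈ T) (hxd : x ≠ d)
    (h : ¬ Rch G (T \ {d}) x t) : Frag G T t {y | Rch G (T \ {d}) x y} d where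
  sub := fun _ hy => (Rch.mem hy ⟨hx, hxd⟩).1
  ne := ⟨x, Rch.refl _⟩
  hd := fun hy => (Rch.mem hy ⟨hx, hxd⟩).2 rfl
  ht := h
  cl := fun a ha b hb hab => by
    by_cases hbd : b = d
    · exact Or.inr hbd
    · exact Or.inl (Rch.trans ha (Rch.single hab (Rch.mem ha ⟨hx, hxd⟩) ⟨hb, hbd⟩))
  conn := conn_comp _ _

namespace Frag

variable {T : Set V} {t : V} {F F' : Set V} {d d' : V}

lemma exit (h : Frag G T t F d) (hT : ∀ x ∈ T, Rch G T x t) :
    d ∈ T ∧ Rch G (T \ F) d t ∧ ∃ z ∈ F, G.Adj z d := by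
  obtain ⟨x, hx⟩ := h.ne
  exact (h.cl.shortcut h.hd h.ht (hT x (h.sub hx))).2 hx

lemma subset_of_mem (h : Frag G T t F d) (h' : Frag G T t F' d') (hd : d' ∉ F) {x : V}
    (hx : x ∈ F) (hx' : x ∈ F') : F ⊆ F' :=
  fun y hy => h'.cl.stay h.sub hd (h.conn x hx y hy) hx'

lemma nest (h : Frag G T t F d) (h' : Frag G T t F' d') (hT : ∀ x ∈ T, Rch G T x t)
    (hd : d ∈ F') : d' ∉ F ∧ F ⊆ F' := by
  have h1 : d' ∉ F := fun hd' =>
    h.ht (h.cl.stay Set.sdiff_subset (fun hh => hh.2 hd) (h'.exit hT).2.1 hd')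
  refine ⟨h1, ?_⟩
  obtain ⟨z, hz, hzd⟩ := (h.exit hT).2.2
  rcases h'.cl d hd z (h.sub hz) hzd.symm with h2 | h2
  · exact h.subset_of_mem h' h1 hz h2
  · exact absurd (h2 ▸ hz) h1

end Frag

/-- two fragments that do not interact -/
def Indep (F : Set V) (d : V) (F' : Set V) (d' : V) : Prop := Disjoint F F' ∧ d ∉ F' ∧ d' ∉ F

lemma Indep.symm {F F' : Set V} {d d' : V} (h : Indep F d F' d') : Indep F' d' F d :=
  ⟨h.1.symm, h.2.2, h.2.1⟩

lemma Frag.trichotomy {T : Set V} {t : V} {F F' : Set V} {d d' : V} (h : Frag G T t F d)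
    (h' : Frag G T t F' d') (hT : ∀ x ∈ T, Rch G T x t) :
    Indep F d F' d' ∨ F ⊆ F' ∨ F' ⊆ F := by
  by_cases h1 : d ∈ F'
  · exact Or.inr (Or.inl (h.nest h' hT h1).2)
  by_cases h2 : d' ∈ F
  · exact Or.inr (Or.inr (h'.nest h hT h2).2)
  by_cases h3 : Disjoint F F'
  · exact Or.inl ⟨h3, h1, h2⟩
  · obtain ⟨x, hx, hx'⟩ := Set.not_disjoint_iff.1 h3
    exact Or.inr (Or.inl (h.subset_of_mem h' h2 hx hx'))

/-- a minimal fragment: every fragment missing one of its vertices is independent of it -/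
lemma exists_min_frag [Finite V] {T : Set V} {t : V} (hT : ∀ x ∈ T, Rch G T x t)
    (hne : ∃ F d, Frag G T t F d) :
    ∃ F₁ d₁, Frag G T t F₁ d₁ ∧ ∀ F d, Frag G T t F d → F₁ ⊆ F ∨ Indep F₁ d₁ F d := by
  obtain ⟨F₁, ⟨d₁, h₁⟩, hmin⟩ := WellFounded.has_min (wellFounded_lt (α := Set V))
    {F | ∃ d, Frag G T t F d} (by obtain ⟨F, d, h⟩ := hne; exact ⟨F, d, h⟩)
  refine ⟨F₁, d₁, h₁, fun F d h => ?_⟩
  rcases h₁.trichotomy h hT with h2 | h2 | h2
  · exact Or.inr h2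
  · exact Or.inl h2
  · left
    by_contra h3
    exact hmin F ⟨d, h⟩ ⟨h2, h3⟩

/-- a maximal fragment among those missing `b` -/
lemma exists_max_frag [Finite V] {T : Set V} {t b : V} (hT : ∀ x ∈ T, Rch G T x t)
    (hne : ∃ F d, Frag G T t F d ∧ b ∉ F) :
    ∃ K c, Frag G T t K c ∧ b ∉ K ∧ ∀ F d, Frag G T t F d → b ∉ F → F ⊆ K ∨ Indep K c F d := by
  obtain ⟨K, ⟨c, h₁, hb⟩, hmax⟩ := WellFounded.has_min (wellFounded_gt (α := Set V))
    {F | ∃ d, Frag G T t F d ∧ b ∉ F} (by obtain ⟨F, d, h⟩ := hne; exact ⟨F, d, h⟩)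
  refine ⟨K, c, h₁, hb, fun F d h hbF => ?_⟩
  rcases h₁.trichotomy h hT with h2 | h2 | h2
  · exact Or.inr h2
  · left
    by_contra h3
    exact hmax F ⟨d, h, hbF⟩ ⟨h2, h3⟩
  · exact Or.inl h2

lemma chain_of_frags {T : Set V} {t b : V} (hT : ∀ x ∈ T, Rch G T x t) (ht : t ∈ T) (hb : b ∈ T)
    (h : ∀ F d, Frag G T t F d → b ∈ F) : Chain G T b t where
  hs := hb
  ht := ht
  st := hT b hb
  two := fun c x hx hxc => by
    by_cases h1 : Rch G (T \ {c}) x t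
    · exact Or.inr h1
    · exact Or.inl (h _ _ (frag_comp hx hxc h1))

lemma Chain.symm {T : Set V} {s t : V} (h : Chain G T s t) : Chain G T t s :=
  ⟨h.ht, h.hs, h.st.symm, fun c x hx hc => (h.two c x hx hc).symm⟩

lemma Chain.root {T : Set V} {s t : V} (h : Chain G T s t) (x : V) (hx : x ∈ T) :
    Rch G T x t := by
  by_cases hxs : x = s
  · rw [hxs]; exact h.st
  · rcases h.two s x hx hxs with h1 | h1
    · exact (h1.mono Set.sdiff_subset).trans h.st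
    · exact h1.mono Set.sdiff_subset

lemma Chain.conn {T : Set V} {s t : V} (h : Chain G T s t) : Conn G T := conn_of_root h.root

lemma Chain.del {T : Set V} {s t : V} (h : Chain G T s t) (x : V) (hx : x ∈ T \ {s}) :
    Rch G (T \ {s}) x t := by
  rcases h.two s x hx.1 hx.2 with h1 | h1
  · exact absurd rfl (h1.mem hx).2
  · exact h1

lemma Chain.eq_single {T : Set V} {s : V} (h : Chain G T s s) : T = {s} := by
  ext x
  refine ⟨fun hx => ?_, fun hx => hx ▸ h.hs⟩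
  by_contra hxs
  exact ((h.del x ⟨hx, hxs⟩).mem ⟨hx, hxs⟩).2 rfl

lemma chain_single (s : V) : Chain G {s} s s :=
  ⟨rfl, rfl, Rch.refl _, fun _ x hx _ => Or.inl (by rw [show x = s from hx]; exact Rch.refl _)⟩

lemma Conn.union {A B : Set V} (hA : Conn G A) (hB : Conn G B) {a b : V} (ha : a ∈ A)
    (hb : b ∈ B) (hab : G.Adj a b) : Conn G (A ∪ B) := by
  refine conn_of_root (t := a) ?_
  rintro x (hx | hx)
  · exact (hA x hx a ha).mono Set.subset_union_left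
  · exact ((hB x hx b hb).mono Set.subset_union_right).trans
      (Rch.single hab.symm (Or.inr hb) (Or.inl ha))

/-! ### translation to induced subgraphs -/

lemma rch_of_reachable {T : Set V} {x y : T} (h : (G.induce T).Reachable x y) :
    Rch G T x y := by
  rw [SimpleGraph.reachable_iff_reflTransGen] at h
  induction h with
  | refl => exact Rch.refl _
  | @tail a b _ h2 ih => exact ih.trans (Rch.single h2 a.2 b.2)

lemma reachable_of_rch {T : Set V} {x y : V} (h : Rch G T x y) (hx : x ∈ T) :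
    ∀ hy : y ∈ T, (G.induce T).Reachable ⟨x, hx⟩ ⟨y, hy⟩ := by
  induction h with
  | refl => intro _; rfl
  | tail _ h2 ih =>
    intro hy
    exact (ih h2.2.1).trans (SimpleGraph.Adj.reachable (G := G.induce T) h2.1)

lemma conn_of_preconnected {T : Set V} (h : (G.induce T).Preconnected) : Conn G T :=
  fun x hx y hy => rch_of_reachable (h ⟨x, hx⟩ ⟨y, hy⟩)

lemma Conn.connected {T : Set V} (h : Conn G T) (hne : T.Nonempty) : (G.induce T).Connected := by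
  have : Nonempty T := hne.to_subtype
  exact ⟨fun x y => reachable_of_rch (h x x.2 y y.2) x.2 y.2⟩

end Pool.Agent.MP_06c78e_co

end

-- part MP_06c78e_co.Step
section

set_option autoImplicit false

namespace Pool.Agent.MP_06c78e_co

variable {V : Type*} (G : SimpleGraph V)

/-- at least four neighbours -/
def Heavy (x : V) : Prop :=
  ∃ a b c d, G.Adj x a ∧ G.Adj x b ∧ G.Adj x c ∧ G.Adj x d ∧
    a ≠ b ∧ a ≠ c ∧ a ≠ d ∧ b ≠ c ∧ b ≠ d ∧ c ≠ d

/-- a branch set joined to the three branch sets `{x}`, `Z`, `W` -/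
structure Leg (x : V) (Z W F : Set V) : Prop where
  conn : Conn G F
  hx : x ∉ F
  hZ : Disjoint Z F
  hW : Disjoint W F
  ax : ∃ y ∈ F, G.Adj x y
  aZ : ∃ z ∈ Z, ∃ y ∈ F, G.Adj z y
  aW : ∃ z ∈ W, ∃ y ∈ F, G.Adj z y

/-- the hypothesis of the theorem in working form -/
structure Good (D : Set V) : Prop where
  sep : ∀ x ∈ D, ∀ y ∈ D, Heavy G x → x ≠ y → Conn G {x, y}ᶜ
  k33 : ∀ x ∈ D, ∀ Z W F₁ F₂ F₃, Heavy G x → Conn G Z → Conn G W → x ∉ Z → x ∉ W → Disjoint Z W →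
    Disjoint F₁ F₂ → Disjoint F₁ F₃ → Disjoint F₂ F₃ →
    Leg G x Z W F₁ → Leg G x Z W F₂ → Leg G x Z W F₃ → False

variable {G} {D : Set V}

lemma Good.adjZ (hG : Good G D) {S F : Set V} (hD : S ⊆ D) {x d z₀ : V} (hx : Heavy G x) (hz : z₀ ∉ S)
    (hxS : x ∈ S) (hdS : d ∈ S) (hxd : x ≠ d) (hF : F ⊆ S) (hne : F.Nonempty) (hxF : x ∉ F)
    (hdF : d ∉ F) (hcl : ∀ a ∈ F, ∀ y ∈ S, G.Adj a y → y ∈ F ∨ y = x ∨ y = d) :
    ∃ z ∈ Sᶜ, ∃ y ∈ F, G.Adj z y := by
  by_contra hcon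
  push Not at hcon
  obtain ⟨a, ha⟩ := hne
  have h1 := hG.sep x (hD hxS) d (hD hdS) hx hxd a (by rintro (h | h) <;> simp_all) z₀
    (by rintro (h | h) <;> simp_all)
  refine hz (hF (Rch.stay (fun a ha y hy hay => ?_) h1 ha))
  by_cases hyS : y ∈ S
  · rcases hcl a ha y hyS hay with h | h | h
    · exact h
    · exact absurd (Or.inl h) hy
    · exact absurd (Or.inr h) hy
  · exact absurd hay.symm (hcon y hyS a ha)

/-- the two situations in which the splitting step is used -/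
def Hyp (G : SimpleGraph V) (S : Set V) (s t : V) : Prop :=
  (Conn G Sᶜ ∧ (∃ z, z ∉ S ∧ G.Adj s z) ∧ ∃ z, z ∉ S ∧ G.Adj t z) ∨
    ((∀ x, ¬ Heavy G x) ∧ G.Adj s t)

lemma Chain.nbr {S : Set V} {s t : V} (hch : Chain G S s t) {F : Set V} {d : V}
    (h : Frag G (S \ {s}) t F d) : ∃ y ∈ F, G.Adj s y := by
  by_contra hcon
  push Not at hcon
  obtain ⟨x, hx⟩ := h.ne
  have hcl : ∀ a ∈ F, ∀ y ∈ S \ {d}, G.Adj a y → y ∈ F := fun a ha y hy hay =>
    (h.cl a ha y ⟨hy.1, fun hys => hcon a ha (by rw [← show y = s from hys]; exact hay.symm)⟩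
      hay).resolve_right hy.2
  rcases hch.two d x (h.sub hx).1 (fun hh => h.hd (hh ▸ hx)) with h1 | h1
  · exact (h.sub (Rch.stay hcl h1 hx)).2 rfl
  · exact h.ht (Rch.stay hcl h1 hx)

lemma Good.three (hG : Good G D) {S : Set V} (hD : S ⊆ D) {s t : V} (hch : Chain G S s t) (hyp : Hyp G S s t)
    {F₁ F₂ F₃ : Set V} {d₁ d₂ d₃ : V} (h₁ : Frag G (S \ {s}) t F₁ d₁)
    (h₂ : Frag G (S \ {s}) t F₂ d₂) (h₃ : Frag G (S \ {s}) t F₃ d₃)
    (i12 : Indep F₁ d₁ F₂ d₂) (i13 : Indep F₁ d₁ F₃ d₃) (i23 : Indep F₂ d₂ F₃ d₃) : False := by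
  obtain ⟨y₁, hy₁, a₁⟩ := hch.nbr h₁
  obtain ⟨y₂, hy₂, a₂⟩ := hch.nbr h₂
  obtain ⟨y₃, hy₃, a₃⟩ := hch.nbr h₃
  have hv : ∀ y, G.Adj s y → y ∉ F₁ → y ∉ F₂ → y ∉ F₃ → Heavy G s := fun y a n₁ n₂ n₃ =>
    ⟨y₁, y₂, y₃, y, a₁, a₂, a₃, a, i12.1.ne_of_mem hy₁ hy₂, i13.1.ne_of_mem hy₁ hy₃,
      fun h => n₁ (h ▸ hy₁), i23.1.ne_of_mem hy₂ hy₃, fun h => n₂ (h ▸ hy₂), fun h => n₃ (h ▸ hy₃)⟩
  rcases hyp with ⟨hZ, ⟨z, hz, hsz⟩, -⟩ | ⟨hn, hst⟩
  swap
  · exact hn s (hv t hst h₁.ht h₂.ht h₃.ht)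
  have hs : Heavy G s := hv z hsz (fun h => hz (h₁.sub h).1) (fun h => hz (h₂.sub h).1)
    (fun h => hz (h₃.sub h).1)
  have hW : Conn G ((((S \ {s}) \ F₁) \ F₂) \ F₃) := by
    refine conn_of_root (t := t) (fun x hx => ?_)
    have b₁ := (h₁.cl.shortcut h₁.hd h₁.ht (hch.del x hx.1.1.1)).1 hx.1.1.2
    have b₂ := ((h₂.cl.mono Set.sdiff_subset).shortcut h₂.hd h₂.ht b₁).1 hx.1.2
    exact ((h₃.cl.mono (Set.sdiff_subset.trans Set.sdiff_subset)).shortcut h₃.hd h₃.ht b₂).1 hx.2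
  have leg : ∀ F d, Frag G (S \ {s}) t F d → d ∉ F₁ → d ∉ F₂ → d ∉ F₃ →
      Disjoint ((((S \ {s}) \ F₁) \ F₂) \ F₃) F → Leg G s Sᶜ ((((S \ {s}) \ F₁) \ F₂) \ F₃) F := by
    intro F d h n₁ n₂ n₃ hdis
    obtain ⟨e₁, -, y, hy, e₂⟩ := h.exit hch.del
    refine ⟨h.conn, fun hh => (h.sub hh).2 rfl,
      Set.disjoint_left.2 (fun a ha hh => ha (h.sub hh).1), hdis, hch.nbr h, ?_,
      d, ⟨⟨⟨e₁, n₁⟩, n₂⟩, n₃⟩, y, hy, e₂.symm⟩
    refine hG.adjZ hD hs hz hch.hs e₁.1 (Ne.symm e₁.2) (fun a ha => (h.sub ha).1) h.ne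
      (fun hh => (h.sub hh).2 rfl) h.hd (fun a ha y hy hay => ?_)
    by_cases hys : y = s
    · exact Or.inr (Or.inl hys)
    · rcases h.cl a ha y ⟨hy, hys⟩ hay with h1 | h1
      · exact Or.inl h1
      · exact Or.inr (Or.inr h1)
  exact hG.k33 s (hD hch.hs) Sᶜ _ F₁ F₂ F₃ hs hZ hW (fun h => h hch.hs) (fun h => h.1.1.1.2 rfl)
    (Set.disjoint_left.2 (fun a ha hh => ha hh.1.1.1.1)) i12.1 i13.1 i23.1
    (leg F₁ d₁ h₁ h₁.hd i12.2.1 i13.2.1 (Set.disjoint_left.2 (fun a ha hh => ha.1.1.2 hh)))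
    (leg F₂ d₂ h₂ i12.2.2 h₂.hd i23.2.1 (Set.disjoint_left.2 (fun a ha hh => ha.1.2 hh)))
    (leg F₃ d₃ h₃ i13.2.2 i23.2.2 h₃.hd (Set.disjoint_left.2 (fun a ha hh => ha.2 hh)))

lemma Chain.nbr2 {S K : Set V} {s t c : V} (hch : Chain G S s t)
    (hK : Frag G (S \ {s}) t K c) {F : Set V} {d : V} (h : Frag G (insert s K) s F d) :
    ∃ y ∈ F, G.Adj c y := by
  by_contra hcon
  push Not at hcon
  have hFK : F ⊆ K := fun a ha => (h.sub ha).resolve_left (fun hh => h.ht (hh ▸ ha))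
  obtain ⟨x, hx⟩ := h.ne
  have hcl : ∀ a ∈ F, ∀ y ∈ S \ {d}, G.Adj a y → y ∈ F := by
    intro a ha y hy hay
    refine (h.cl a ha y ?_ hay).resolve_right hy.2
    by_cases hys : y = s
    · exact Or.inl hys
    · rcases hK.cl a (hFK ha) y ⟨hy.1, hys⟩ hay with h1 | h1
      · exact Or.inr h1
      · exact absurd (h1 ▸ hay.symm) (hcon a ha)
  rcases hch.two d x (hK.sub (hFK hx)).1 (fun hh => h.hd (hh ▸ hx)) with h1 | h1
  · exact h.ht (Rch.stay hcl h1 hx)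
  · exact hK.ht (hFK (Rch.stay hcl h1 hx))

lemma Chain.root2 {S K : Set V} {s t c : V} (hch : Chain G S s t)
    (hK : Frag G (S \ {s}) t K c) (x : V) (hx : x ∈ insert s K) : Rch G (insert s K) x s := by
  rcases hx with hx | hx
  · rw [hx]; exact Rch.refl _
  · obtain ⟨y, hy, hsy⟩ := hch.nbr hK
    exact ((hK.conn x hx y hy).mono (Set.subset_insert _ _)).trans
      (Rch.single hsy.symm (Or.inr hy) (Or.inl rfl))

lemma Good.two (hG : Good G D) {S K : Set V} (hD : S ⊆ D) {s t c b : V} (hch : Chain G S s t)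
    (hyp : Hyp G S s t) (hK : Frag G (S \ {s}) t K c) (hR : Chain G ((S \ {s}) \ K) b t)
    (hsb : G.Adj s b) (hcb : c ≠ b) (hbt : b ≠ t) {F₁ F₂ : Set V} {d₁ d₂ : V}
    (h₁ : Frag G (insert s K) s F₁ d₁) (h₂ : Frag G (insert s K) s F₂ d₂)
    (i12 : Indep F₁ d₁ F₂ d₂) : False := by
  obtain ⟨y₁, hy₁, a₁⟩ := hch.nbr2 hK h₁
  obtain ⟨y₂, hy₂, a₂⟩ := hch.nbr2 hK h₂
  have hFK : ∀ {F d}, Frag G (insert s K) s F d → F ⊆ K := fun h a ha =>
    (h.sub ha).resolve_left (fun hh => h.ht (hh ▸ ha))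
  have hcR : c ∈ (S \ {s}) \ K := ⟨(hK.exit hch.del).1, hK.hd⟩
  have hv : ∀ y y', G.Adj c y → G.Adj c y' → y ∉ K → y' ∉ K → y ≠ y' → Heavy G c :=
    fun y y' a a' n n' hne => ⟨y₁, y₂, y, y', a₁, a₂, a, a', i12.1.ne_of_mem hy₁ hy₂,
      fun h => n (h ▸ hFK h₁ hy₁), fun h => n' (h ▸ hFK h₁ hy₁),
      fun h => n (h ▸ hFK h₂ hy₂), fun h => n' (h ▸ hFK h₂ hy₂), hne⟩
  have hc : Heavy G c := by
    by_cases hct : c = t
    · obtain ⟨y, hy, hty, -⟩ := hR.st.symm.exists_adj hbt.symm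
      rcases hyp with ⟨-, -, z, hz, htz⟩ | ⟨-, h⟩
      · exact hv y z (hct ▸ hty) (hct ▸ htz) hy.2 (fun h => hz (hK.sub h).1)
          (fun h => hz (h ▸ hy.1.1))
      · exact hv y s (hct ▸ hty) (hct ▸ h.symm) hy.2 (fun h => (hK.sub h).2 rfl) hy.1.2
    · obtain ⟨y, hy, hcy, -⟩ := (hR.root c hcR).exists_adj hct
      rcases hR.two y c hcR hcy.ne with h | h
      · obtain ⟨y', hy', hcy', -⟩ := h.exists_adj hcb
        exact hv y y' hcy hcy' hy.2 hy'.1.2 (Ne.symm hy'.2)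
      · obtain ⟨y', hy', hcy', -⟩ := h.exists_adj hct
        exact hv y y' hcy hcy' hy.2 hy'.1.2 (Ne.symm hy'.2)
  rcases hyp with ⟨hZ, ⟨z, hz, -⟩, -⟩ | ⟨hn, -⟩
  swap
  · exact hn c hc
  have hLS : insert s K ⊆ S := by
    rintro a (ha | ha)
    · rw [ha]; exact hch.hs
    · exact (hK.sub ha).1
  have hcL : c ∉ insert s K := by
    rintro (h | h)
    · exact hcR.1.2 h
    · exact hcR.2 h
  have hW : Conn G ((insert s K \ F₁) \ F₂) := by
    refine conn_of_root (t := s) (fun x hx => ?_)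
    have b₁ := (h₁.cl.shortcut h₁.hd h₁.ht (hch.root2 hK x hx.1.1)).1 hx.1.2
    exact ((h₂.cl.mono Set.sdiff_subset).shortcut h₂.hd h₂.ht b₁).1 hx.2
  have leg : ∀ F d, Frag G (insert s K) s F d → d ∉ F₁ → d ∉ F₂ →
      Disjoint ((insert s K \ F₁) \ F₂) F → Leg G c Sᶜ ((insert s K \ F₁) \ F₂) F := by
    intro F d h n₁ n₂ hdis
    obtain ⟨e₁, -, y, hy, e₂⟩ := h.exit (hch.root2 hK)
    refine ⟨h.conn, fun hh => hcL (h.sub hh),
      Set.disjoint_left.2 (fun a ha hh => ha (hLS (h.sub hh))), hdis, hch.nbr2 hK h, ?_,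
      d, ⟨⟨e₁, n₁⟩, n₂⟩, y, hy, e₂.symm⟩
    refine hG.adjZ hD hc hz hcR.1.1 (hLS e₁) (fun hh => hcL (hh ▸ e₁)) (fun a ha => hLS (h.sub ha))
      h.ne (fun hh => hcL (h.sub hh)) h.hd (fun a ha y hy hay => ?_)
    by_cases hyL : y ∈ insert s K
    · rcases h.cl a ha y hyL hay with h1 | h1
      · exact Or.inl h1
      · exact Or.inr (Or.inr h1)
    · rcases hK.cl a (hFK h ha) y ⟨hy, fun hh => hyL (Or.inl hh)⟩ hay with h1 | h1
      · exact absurd (Or.inr h1) hyL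
      · exact Or.inr (Or.inl h1)
  have hbR : b ∈ ((S \ {s}) \ K) \ {c} := ⟨hR.hs, Ne.symm hcb⟩
  have hF3 : ∀ y, Rch G (((S \ {s}) \ K) \ {c}) b y → y ∈ ((S \ {s}) \ K) \ {c} :=
    fun y hy => hy.mem hbR
  have hdis3 : ∀ F ⊆ insert s K, Disjoint F {y | Rch G (((S \ {s}) \ K) \ {c}) b y} := by
    intro F hF
    refine Set.disjoint_left.2 (fun a ha hh => ?_)
    rcases hF ha with h | h
    · exact (hF3 a hh).1.1.2 h
    · exact (hF3 a hh).1.2 h
  have leg3 : Leg G c Sᶜ ((insert s K \ F₁) \ F₂) {y | Rch G (((S \ {s}) \ K) \ {c}) b y} := by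
    refine ⟨conn_comp _ _, fun hh => (hF3 c hh).2 rfl,
      Set.disjoint_left.2 (fun a ha hh => ha (hF3 a hh).1.1.1),
      hdis3 _ (Set.sdiff_subset.trans Set.sdiff_subset), ?_, ?_,
      s, ⟨⟨Or.inl rfl, h₁.ht⟩, h₂.ht⟩, b, Rch.refl _, hsb⟩
    · by_cases ht : Rch G (((S \ {s}) \ K) \ {c}) b t
      · obtain ⟨y, hcy, -, hy⟩ := ((hR.root c hcR).last_visit (c := c) (hF3 t ht).2).2 rfl
        exact ⟨y, ht.trans hy.symm, hcy⟩
      · obtain ⟨-, -, y, hy, e⟩ := (frag_comp hR.hs (Ne.symm hcb) ht).exit hR.root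
        exact ⟨y, hy, e.symm⟩
    · refine hG.adjZ hD hc hz hcR.1.1 hch.hs hcR.1.2 (fun a ha => (hF3 a ha).1.1.1) ⟨b, Rch.refl _⟩
        (fun hh => (hF3 c hh).2 rfl) (fun hh => (hF3 s hh).1.1.2 rfl) (fun a ha y hy hay => ?_)
      by_cases hys : y = s
      · exact Or.inr (Or.inr hys)
      by_cases hyc : y = c
      · exact Or.inr (Or.inl hyc)
      by_cases hyK : y ∈ K
      · rcases hK.cl y hyK a (hF3 a ha).1.1 hay.symm with h1 | h1
        · exact absurd h1 (hF3 a ha).1.2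
        · exact absurd h1 (hF3 a ha).2
      · exact Or.inl (Rch.trans ha (Rch.single hay (hF3 a ha) ⟨⟨⟨hy, hys⟩, hyK⟩, hyc⟩))
  exact hG.k33 c (hD hcR.1.1) Sᶜ _ F₁ F₂ _ hc hZ hW (fun h => h hcR.1.1) (fun h => hcL h.1.1)
    (Set.disjoint_left.2 (fun a ha hh => ha (hLS hh.1.1))) i12.1 (hdis3 _ h₁.sub) (hdis3 _ h₂.sub)
    (leg F₁ d₁ h₁ h₁.hd i12.2.1 (Set.disjoint_left.2 (fun a ha hh => ha.1.2 hh)))
    (leg F₂ d₂ h₂ i12.2.2 h₂.hd (Set.disjoint_left.2 (fun a ha hh => ha.2 hh))) leg3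

theorem Good.step [Finite V] (hG : Good G D) {S : Set V} (hD : S ⊆ D) {s t : V} (hch : Chain G S s t)
    (hst : s ≠ t) (hyp : Hyp G S s t) :
    ∃ L R a b, L ∪ R = S ∧ Disjoint L R ∧ Chain G L s a ∧ Chain G R b t ∧ G.Adj s b ∧
      ∃ y ∈ R, G.Adj a y := by
  have htH : t ∈ S \ {s} := ⟨hch.ht, hst.symm⟩
  have easy : ∀ b ∈ S \ {s}, G.Adj s b → (∀ F d, Frag G (S \ {s}) t F d → b ∈ F) →
      ∃ L R a b, L ∪ R = S ∧ Disjoint L R ∧ Chain G L s a ∧ Chain G R b t ∧ G.Adj s b ∧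
        ∃ y ∈ R, G.Adj a y := fun b hb hsb h =>
    ⟨{s}, S \ {s}, s, b, Set.union_sdiff_cancel (Set.singleton_subset_iff.2 hch.hs),
      Set.disjoint_sdiff_right, chain_single s, chain_of_frags hch.del htH hb h, hsb, b, hb, hsb⟩
  by_cases hne : ∃ F d, Frag G (S \ {s}) t F d
  swap
  · obtain ⟨b, hb, hsb, -⟩ := hch.st.exists_adj hst
    exact easy b ⟨hb, hsb.ne'⟩ hsb (fun F d h => absurd ⟨F, d, h⟩ hne)
  obtain ⟨F₁, d₁, h₁, hmin⟩ := exists_min_frag hch.del hne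
  obtain ⟨b, hb, hsb⟩ := hch.nbr h₁
  by_cases hne2 : ∃ F d, Frag G (S \ {s}) t F d ∧ b ∉ F
  swap
  · exact easy b (h₁.sub hb) hsb (fun F d h => by_contra fun hh => hne2 ⟨F, d, h, hh⟩)
  obtain ⟨K, c, hK, hbK, hmax⟩ := exists_max_frag hch.del hne2
  have i1 : ∀ F d, Frag G (S \ {s}) t F d → b ∉ F → Indep F₁ d₁ F d := fun F d h hbF =>
    (hmin F d h).resolve_left (fun hh => hbF (hh hb))
  have hall : ∀ F d, Frag G (S \ {s}) t F d → b ∉ F → F ⊆ K := fun F d h hbF =>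
    (hmax F d h hbF).resolve_right (fun hh =>
      hG.three hD hch hyp h₁ hK h (i1 K c hK hbK) (i1 F d h hbF) hh)
  have hR : Chain G ((S \ {s}) \ K) b t := by
    refine ⟨⟨h₁.sub hb, hbK⟩, ⟨htH, hK.ht⟩,
      (hK.cl.shortcut hK.hd hK.ht (hch.del b (h₁.sub hb))).1 hbK, fun e x hx hxe => ?_⟩
    have hm : ((S \ {s}) \ {e}) \ K ⊆ ((S \ {s}) \ K) \ {e} := fun a ha => ⟨⟨ha.1.1, ha.2⟩, ha.1.2⟩
    by_cases h : Rch G ((S \ {s}) \ {e}) x t
    · exact Or.inr ((((hK.cl.mono Set.sdiff_subset).shortcut hK.hd hK.ht h).1 hx.2).mono hm)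
    · have hf := frag_comp hx.1 hxe h
      by_cases hbF : Rch G ((S \ {s}) \ {e}) x b
      · exact Or.inl ((((hK.cl.mono Set.sdiff_subset).shortcut hK.hd hbK hbF).1 hx.2).mono hm)
      · exact absurd (hall _ _ hf hbF (Rch.refl x)) hx.2
  have hcb : c ≠ b := fun h => (i1 K c hK hbK).2.2 (h ▸ hb)
  have hbt : b ≠ t := fun h => h₁.ht (h ▸ hb)
  have hsK : s ∉ K := fun h => (hK.sub h).2 rfl
  obtain ⟨E₁, e₁, g₁, gmin⟩ := exists_min_frag (hch.root2 hK)
    ⟨K, s, Set.subset_insert _ _, hK.ne, hsK, hsK, fun _ _ _ hy _ => hy.symm, hK.conn⟩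
  obtain ⟨a, ha, hca⟩ := hch.nbr2 hK g₁
  have hL : Chain G (insert s K) a s := by
    refine chain_of_frags (hch.root2 hK) (Or.inl rfl) (g₁.sub ha) (fun F d h => ?_)
    rcases gmin F d h with h1 | h1
    · exact h1 ha
    · exact (hG.two hD hch hyp hK hR hsb hcb hbt g₁ h h1).elim
  refine ⟨insert s K, (S \ {s}) \ K, a, b, ?_, ?_, hL.symm, hR, hsb,
    c, ⟨(hK.exit hch.del).1, hK.hd⟩, hca.symm⟩
  · ext x
    constructor
    · rintro ((h | h) | h)
      · rw [h]; exact hch.hs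
      · exact (hK.sub h).1
      · exact h.1.1
    · intro hx
      by_cases h : x ∈ insert s K
      · exact Or.inl h
      · exact Or.inr ⟨⟨hx, fun hh => h (Or.inl hh)⟩, fun hh => h (Or.inr hh)⟩
  · refine Set.disjoint_left.2 ?_
    rintro x (h | h) hx
    · exact hx.1.2 h
    · exact hx.2 h

end Pool.Agent.MP_06c78e_co

end

-- part MP_06c78e_co.Main
section

set_option autoImplicit false

namespace Pool.Agent.MP_06c78e_co

variable {V : Type*} {G : SimpleGraph V} {D : Set V}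

lemma compl_left {L R S : Set V} (h : L ∪ R = S) (hd : Disjoint L R) : Lᶜ = Sᶜ ∪ R := by
  ext x
  have : x ∈ L → x ∉ R := fun hx => Set.disjoint_left.1 hd hx
  simp only [← h, Set.mem_compl_iff, Set.mem_union]
  tauto

theorem Good.lin_of_parts [Finite V] {n : ℕ}
    (ih : ∀ S : Set V, S ⊆ D → S.ncard < n → ∀ s t, Chain G S s t → Conn G Sᶜ → (∃ z, z ∉ S ∧ G.Adj s z) →
      (∃ z, z ∉ S ∧ G.Adj t z) → Lin G S s t)
    {S L R : Set V} (hD : S ⊆ D) {s t a b : V} (hn : S.ncard ≤ n) (hU : L ∪ R = S) (hd : Disjoint L R)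
    (hL : Chain G L s a) (hR : Chain G R b t) (hsb : G.Adj s b) (ha : ∃ y ∈ R, G.Adj a y)
    (cL : Conn G Lᶜ) (cR : Conn G Rᶜ) (ht : ∃ z, z ∉ R ∧ G.Adj t z) : Lin G S s t := by
  have nL : ∀ y ∈ R, y ∉ L := fun y hy h => Set.disjoint_left.1 hd h hy
  have nR : ∀ y ∈ L, y ∉ R := fun y hy h => Set.disjoint_left.1 hd hy h
  have l1 : L.ncard < n := lt_of_lt_of_le (Set.ncard_lt_ncard
    ⟨hU ▸ Set.subset_union_left, fun h => nL b hR.hs (h (hU ▸ Or.inr hR.hs))⟩) hn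
  have l2 : R.ncard < n := lt_of_lt_of_le (Set.ncard_lt_ncard
    ⟨hU ▸ Set.subset_union_right, fun h => nR s hL.hs (h (hU ▸ Or.inl hL.hs))⟩) hn
  obtain ⟨y, hy, hay⟩ := ha
  have dL : L ⊆ D := fun x hx => hD (hU ▸ Or.inl hx)
  have dR : R ⊆ D := fun x hx => hD (hU ▸ Or.inr hx)
  rw [← hU]
  exact lin_join (ih L dL l1 s a hL cL ⟨b, nL b hR.hs, hsb⟩ ⟨y, nL y hy, hay⟩)
    (ih R dR l2 b t hR cR ⟨s, nR s hL.hs, hsb.symm⟩ ht) hd ⟨y, hy, hay⟩ ⟨s, hL.hs, hsb.symm⟩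

theorem Good.lin [Finite V] (hG : Good G D) (n : ℕ) : ∀ S : Set V, S ⊆ D → S.ncard < n → ∀ s t,
    Chain G S s t → Conn G Sᶜ → (∃ z, z ∉ S ∧ G.Adj s z) → (∃ z, z ∉ S ∧ G.Adj t z) →
    Lin G S s t := by
  induction n with
  | zero => intro S _ h; omega
  | succ n ih =>
    intro S hD hS s t hch hZ hs ht
    by_cases hst : s = t
    · subst hst; rw [hch.eq_single]; exact lin_single s
    obtain ⟨L, R, a, b, hU, hd, hL, hR, hsb, ha⟩ := hG.step hD hch hst (Or.inl ⟨hZ, hs, ht⟩)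
    obtain ⟨z, hz, hsz⟩ := hs
    obtain ⟨z', hz', htz⟩ := ht
    refine Good.lin_of_parts ih hD (by omega) hU hd hL hR hsb ha ?_ ?_
      ⟨z', fun h => hz' (hU ▸ Or.inr h), htz⟩
    · rw [compl_left hU hd]; exact hZ.union hR.conn hz' hR.ht htz.symm
    · rw [compl_left ((Set.union_comm _ _).trans hU) hd.symm]
      exact hZ.union hL.conn hz hL.hs hsz.symm

lemma Biconnected.del (h : Biconnected G) (v : V) : Conn G {v}ᶜ :=
  conn_of_preconnected (h.2.2 v).preconnected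

lemma Biconnected.conn (h : Biconnected G) (x y : V) : Rch G Set.univ x y := by
  have h1 := (SimpleGraph.reachable_iff_reflTransGen x y).1 (h.2.1.preconnected x y)
  induction h1 with
  | refl => exact Rch.refl _
  | tail _ h2 ih => exact ih.trans (Rch.single h2 trivial trivial)

theorem Good.lin_univ [Finite V] (hG : Good G Set.univ) (hB : Biconnected G) :
    ∃ s t, Lin G Set.univ s t := by
  by_cases hh : ∃ z, Heavy G z
  · obtain ⟨z, hz⟩ := hh
    obtain ⟨s, t, -, -, hs, ht, -, -, hst, -⟩ := id hz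
    have hch : Chain G {z}ᶜ s t := by
      refine ⟨hs.ne', ht.ne', hB.del z s hs.ne' t ht.ne', fun c x hx hxc => ?_⟩
      by_cases hcz : z = c
      · subst hcz
        exact Or.inl ((hB.del z x hx s hs.ne').mono (fun a ha => And.intro ha ha))
      · have hm : ({z, c} : Set V)ᶜ ⊆ {z}ᶜ \ {c} :=
          fun a ha => ⟨fun h => ha (Or.inl h), fun h => ha (Or.inr h)⟩
        have hx' : x ∈ ({z, c} : Set V)ᶜ := by
          rintro (h | h)
          · exact hx h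
          · exact hxc h
        by_cases hsc : s = c
        · refine Or.inr ((hG.sep z trivial c trivial hz hcz x hx' t ?_).mono hm)
          rintro (h | h)
          · exact ht.ne' h
          · exact hst (hsc.trans (show t = c from h).symm)
        · refine Or.inl ((hG.sep z trivial c trivial hz hcz x hx' s ?_).mono hm)
          rintro (h | h)
          · exact hs.ne' h
          · exact hsc h
    have h1 := hG.lin _ _ (Set.subset_univ _) (Nat.lt_succ_self _) s t hch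
      (by rw [compl_compl]; exact (chain_single z).conn) ⟨z, by simp, hs.symm⟩ ⟨z, by simp, ht.symm⟩
    refine ⟨s, z, ?_⟩
    rw [← Set.compl_union_self {z}]
    exact lin_join h1 (lin_single z) disjoint_compl_left ⟨z, rfl, ht.symm⟩ ⟨s, hs.ne', hs⟩
  · push Not at hh
    have : Nontrivial V := Finite.one_lt_card_iff_nontrivial.1 (by linarith [hB.1])
    obtain ⟨s, u, hsu⟩ := exists_pair_ne V
    obtain ⟨t, -, hst, -⟩ := (hB.conn s u).exists_adj hsu
    have hch : Chain G Set.univ s t := by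
      refine ⟨trivial, trivial, hB.conn s t, fun c x _ hxc => ?_⟩
      have hm : ({c} : Set V)ᶜ ⊆ Set.univ \ {c} := fun a ha => ⟨trivial, ha⟩
      by_cases hsc : s = c
      · exact Or.inr ((hB.del c x hxc t (fun h => hst.ne (hsc.trans (show t = c from h).symm))).mono hm)
      · exact Or.inl ((hB.del c x hxc s hsc).mono hm)
    obtain ⟨L, R, a, b, hU, hd, hL, hR, hsb, ha⟩ := hG.step subset_rfl hch hst.ne (Or.inr ⟨hh, hst⟩)
    refine ⟨s, t, Good.lin_of_parts (hG.lin _) subset_rfl le_rfl hU hd hL hR hsb ha ?_ ?_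
      ⟨s, fun h => Set.disjoint_left.1 hd hL.hs h, hst.symm⟩⟩
    · rw [compl_left hU hd]; simpa using hR.conn
    · rw [compl_left ((Set.union_comm _ _).trans hU) hd.symm]; simpa using hL.conn

lemma Heavy.four_le [Fintype V] [DecidableRel G.Adj] {x : V} (h : Heavy G x) :
    4 ≤ G.degree x := by
  classical
  obtain ⟨a, b, c, d, ha, hb, hc, hd, h1, h2, h3, h4, h5, h6⟩ := h
  have h7 : ({a, b, c, d} : Finset V).card = 4 := by
    rw [Finset.card_eq_four]; exact ⟨a, b, c, d, h1, h2, h3, h4, h5, h6, rfl⟩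
  rw [← h7, ← SimpleGraph.card_neighborFinset_eq_degree]
  refine Finset.card_le_card (fun y hy => ?_)
  simp only [Finset.mem_insert, Finset.mem_singleton] at hy
  rcases hy with rfl | rfl | rfl | rfl <;> simpa

lemma good_of [Fintype V] [DecidableRel G.Adj]
    (hsep : ∀ x ∈ D, ∀ y ∈ D, IsSepPair G x y → G.degree x ≤ 3)
    (hminor : ∀ x ∈ D, ∀ A B, IsK33Minor G A B → A 0 = {x} → G.degree x ≤ 3) : Good G D := by
  constructor
  · intro x hxD y hyD hx hxy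
    by_contra h
    have := hsep x hxD y hyD ⟨hxy, fun hh => h (conn_of_preconnected hh)⟩
    have := hx.four_le
    omega
  · intro x hxD Z W F₁ F₂ F₃ hx cZ cW xZ xW dZW d12 d13 d23 l₁ l₂ l₃
    have hl : ∀ j, Leg G x Z W (![F₁, F₂, F₃] j) := by
      intro j; fin_cases j
      exacts [l₁, l₂, l₃]
    have h4 := hx.four_le
    have := hminor x hxD ![{x}, Z, W] ![F₁, F₂, F₃] ⟨?_, ?_, ?_, ?_, ?_, ?_⟩ rfl
    · omega
    · intro i; fin_cases i
      · exact (chain_single x).conn.connected ⟨x, rfl⟩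
      · obtain ⟨z, hz, -⟩ := l₁.aZ; exact cZ.connected ⟨z, hz⟩
      · obtain ⟨z, hz, -⟩ := l₁.aW; exact cW.connected ⟨z, hz⟩
    · intro j
      obtain ⟨y, hy, -⟩ := (hl j).ax
      exact (hl j).conn.connected ⟨y, hy⟩
    · have e1 : Disjoint {x} Z := Set.disjoint_singleton_left.2 xZ
      have e2 : Disjoint {x} W := Set.disjoint_singleton_left.2 xW
      intro i j hij
      fin_cases i <;> fin_cases j
      exacts [absurd rfl hij, e1, e2, e1.symm, absurd rfl hij, dZW, e2.symm, dZW.symm,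
        absurd rfl hij]
    · intro i j hij
      fin_cases i <;> fin_cases j
      exacts [absurd rfl hij, d12, d13, d12.symm, absurd rfl hij, d23, d13.symm, d23.symm,
        absurd rfl hij]
    · intro i j; fin_cases i
      exacts [Set.disjoint_singleton_left.2 (hl j).hx, (hl j).hZ, (hl j).hW]
    · intro i j; fin_cases i
      · obtain ⟨y, hy, h⟩ := (hl j).ax; exact ⟨x, rfl, y, hy, h⟩
      · exact (hl j).aZ
      · exact (hl j).aW

end Pool.Agent.MP_06c78e_co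

end
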